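import Mathlib
import Pool.Agent.Work.MP_787500_nt.GP.FinDefs

/-!
Selmer groups with the condition of Bloch and Kato at all primes not above 2: definitions used in the
final statement (fixed, do not change). `IsConjDual`, `IsCocycle`, `IsPerp`, `cocycles`, `coboundaries`,
`Between`, `dimModulo`, `cyclo` are in `PA/ParityDefs.lean`, `fixedBy` is in `GP/FinDefs.lean`.
-/

set_option autoImplicit false

namespace Pool.Agent.Work.MP_787500_nt.Parity

open NumberField Matrix

section group

variable {G : Type*} [Group G] [TopologicalSpace G]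
variable {E : Type*} [NormedField E]
variable {n : ℕ}

/-- `x` is a continuous cocycle of `G`, its restriction to every subgroup in `N` is a coboundary, its
restriction to `D` lies in `L`, and the restriction of `x ∘ κ` to `D` is orthogonal to `L` under the cup
product given by `b`. -/
def IsSelmerBK (N : Set (Subgroup G)) (χ : G → E) (κ : G → G) (ρ : G →* Matrix (Fin n) (Fin n) E)
    (b : Matrix (Fin n) (Fin n) E) (D : Subgroup G) (L : Set (D → Fin n → E))
    (x : G → Fin n → E) : Prop :=
  IsCocycle ρ x ∧ (∀ I ∈ N, ∃ v : Fin n → E, ∀ σ ∈ I, x σ = ρ σ *ᵥ v - v) ∧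
    (fun σ : D => x σ) ∈ L ∧
    IsPerp (fun σ : D => χ σ) (fun σ : D => ρ (κ σ)) b L (fun σ : D => x (κ σ))

theorem IsSelmerBK.add {N : Set (Subgroup G)} {χ : G → E} {κ : G → G}
    {ρ : G →* Matrix (Fin n) (Fin n) E} {b : Matrix (Fin n) (Fin n) E} {D : Subgroup G}
    {L : Submodule E (D → Fin n → E)} {x y : G → Fin n → E} (hx : IsSelmerBK N χ κ ρ b D L x)
    (hy : IsSelmerBK N χ κ ρ b D L y) : IsSelmerBK N χ κ ρ b D L (x + y) := by
  refine ⟨hx.1.add hy.1, fun I hI => ?_, L.add_mem hx.2.2.1 hy.2.2.1, hx.2.2.2.add hy.2.2.2⟩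
  obtain ⟨v, hv⟩ := hx.2.1 I hI
  obtain ⟨w, hw⟩ := hy.2.1 I hI
  refine ⟨v + w, fun σ hσ => ?_⟩
  rw [Pi.add_apply, hv σ hσ, hw σ hσ, mulVec_add]
  abel

theorem IsSelmerBK.zero (N : Set (Subgroup G)) (χ : G → E) (κ : G → G)
    (ρ : G →* Matrix (Fin n) (Fin n) E) (b : Matrix (Fin n) (Fin n) E) (D : Subgroup G)
    (L : Submodule E (D → Fin n → E)) : IsSelmerBK N χ κ ρ b D L 0 :=
  ⟨IsCocycle.zero _, fun _ _ => ⟨0, fun σ _ => by rw [mulVec_zero, sub_zero, Pi.zero_apply]⟩,
    zero_mem L, IsPerp.zero _ _ _ _⟩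

theorem IsSelmerBK.smul {N : Set (Subgroup G)} {χ : G → E} {κ : G → G}
    {ρ : G →* Matrix (Fin n) (Fin n) E} {b : Matrix (Fin n) (Fin n) E} {D : Subgroup G}
    {L : Submodule E (D → Fin n → E)} (a : E) {x : G → Fin n → E}
    (hx : IsSelmerBK N χ κ ρ b D L x) : IsSelmerBK N χ κ ρ b D L (a • x) := by
  refine ⟨hx.1.smul a, fun I hI => ?_, L.smul_mem a hx.2.2.1, hx.2.2.2.smul a⟩
  obtain ⟨v, hv⟩ := hx.2.1 I hI
  refine ⟨a • v, fun σ hσ => ?_⟩
  rw [Pi.smul_apply, hv σ hσ, mulVec_smul, smul_sub]

/-- the space of these cocycles -/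
def selmerBK (N : Set (Subgroup G)) (χ : G → E) (κ : G → G) (ρ : G →* Matrix (Fin n) (Fin n) E)
    (b : Matrix (Fin n) (Fin n) E) (D : Subgroup G) (L : Submodule E (D → Fin n → E)) :
    Submodule E (G → Fin n → E) where
  carrier := {x | IsSelmerBK N χ κ ρ b D L x}
  add_mem' := IsSelmerBK.add
  zero_mem' := IsSelmerBK.zero N χ κ ρ b D L
  smul_mem' := fun a _ => IsSelmerBK.smul a

/-- For every space `L` of continuous cocycles of `D` that contains the coboundaries: `L` and the Selmer
space are finite dimensional, the Selmer space contains the coboundaries of `G`, its dimension modulo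
coboundaries plus the dimension of the space of vectors fixed by `G` is congruent modulo 2 to the
dimension of `L` modulo coboundaries plus the dimension of the space of vectors fixed by `D`; and if `A`
holds, the dimension of the Selmer space modulo coboundaries is at most the dimension of `L` modulo
coboundaries, and of the same parity. -/
def ParityBK (N : Set (Subgroup G)) (χ : G → E) (κ : G → G) (ρ : G →* Matrix (Fin n) (Fin n) E)
    (b : Matrix (Fin n) (Fin n) E) (D : Subgroup G) (A : Prop) : Prop :=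
  ∀ L : Submodule E (D → Fin n → E),
    Between (coboundaries (fun σ : D => ρ σ)) L (cocycles (fun σ : D => ρ σ)) →
    FiniteDimensional E L ∧ FiniteDimensional E (selmerBK N χ κ ρ b D L) ∧
    coboundaries ρ ≤ selmerBK N χ κ ρ b D L ∧
    (dimModulo (selmerBK N χ κ ρ b D L) (coboundaries ρ) +
        Module.finrank E (fixedBy (fun σ : G => ρ σ)) ≡
      dimModulo L (coboundaries (fun σ : D => ρ σ)) +
        Module.finrank E (fixedBy (fun σ : D => ρ σ)) [MOD 2]) ∧
    (A → ∃ k : ℕ, dimModulo L (coboundaries (fun σ : D => ρ σ)) =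
      dimModulo (selmerBK N χ κ ρ b D L) (coboundaries ρ) + 2 * k)

end group

section galois

universe u

/-- the inertia groups of all primes `Q` of the ring of all algebraic integers with `2 ∉ Q` -/
def inertiaOffTwo (K : Type u) [Field K] : Set (Subgroup (AbsGal K)) :=
  {I | ∃ Q : Ideal (𝓞 (AlgebraicClosure K)), Q.IsPrime ∧ (2 : 𝓞 (AlgebraicClosure K)) ∉ Q ∧
    I = Q.inertia (AbsGal K)}

end galois

end Pool.Agent.Work.MP_787500_nt.Parity
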