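import Mathlib
import Pool.Agent.Work.MP_787500_nt.GP.BDefs

/-!
The parity formula over all imaginary quadratic fields in which 2 splits: definitions (fixed, do not
change).

`Ω` is an algebraic closure of the rational numbers; its group of automorphisms is `Ω ≃+* Ω`. The absolute
Galois group of a number field `F` is seen in it by `emb α`, where `α` identifies the algebraic closure of
`F` with `Ω`.
-/

set_option autoImplicit false
set_option linter.unusedSectionVars false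

namespace Pool.Agent.Work.MP_787500_nt.HP

open IsDedekindDomain NumberField
open Pool.Agent.Work.MP_787500_nt.PA (TwoSys Sm1 Sm2 homs Coc Cob IsChar cyc Opn)
open Pool.Agent.Work.MP_787500_nt.GP

universe u

section autos

variable {Ω : Type u} [Field Ω]

/-- the action of an automorphism on the integers -/
noncomputable def og (g : Ω ≃+* Ω) : 𝓞 Ω ≃+* 𝓞 Ω := RingOfIntegers.mapRingEquiv g

theorem og_coe (g : Ω ≃+* Ω) (x : 𝓞 Ω) : ((og g x : 𝓞 Ω) : Ω) = g x := rfl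

theorem og_one (x : 𝓞 Ω) : og (1 : Ω ≃+* Ω) x = x := RingOfIntegers.ext rfl

theorem og_mul (g h : Ω ≃+* Ω) (x : 𝓞 Ω) : og (g * h) x = og g (og h x) := RingOfIntegers.ext rfl

theorem og_inv (g : Ω ≃+* Ω) (x : 𝓞 Ω) : og g (og g⁻¹ x) = x := by
  rw [← og_mul, mul_inv_cancel, og_one]

theorem og_inv' (g : Ω ≃+* Ω) (x : 𝓞 Ω) : og g⁻¹ (og g x) = x := by
  rw [← og_mul, inv_mul_cancel, og_one]

/-- the inertia group of `Q` in the group of all automorphisms -/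
def inr (Q : Ideal (𝓞 Ω)) : Subgroup (Ω ≃+* Ω) where
  carrier := {g | ∀ x, og g x - x ∈ Q}
  mul_mem' := by
    intro g h hg hh x
    rw [og_mul]
    have := Q.add_mem (hg (og h x)) (hh x)
    rwa [sub_add_sub_cancel] at this
  one_mem' := fun x => by
    rw [og_one, sub_self]
    exact Q.zero_mem
  inv_mem' := by
    intro g hg x
    have := Q.neg_mem (hg (og g⁻¹ x))
    rwa [og_inv, neg_sub] at this

/-- the decomposition group of `Q` in the group of all automorphisms -/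
def stb (Q : Ideal (𝓞 Ω)) : Subgroup (Ω ≃+* Ω) where
  carrier := {g | ∀ x, x ∈ Q ↔ og g x ∈ Q}
  mul_mem' := by
    intro g h hg hh x
    rw [og_mul, ← hg, ← hh]
  one_mem' := fun x => by rw [og_one]
  inv_mem' := by
    intro g hg x
    rw [hg (og g⁻¹ x), og_inv]

theorem mem_inr {Q : Ideal (𝓞 Ω)} {g : Ω ≃+* Ω} : g ∈ inr Q ↔ ∀ x, og g x - x ∈ Q := Iff.rfl

theorem mem_stb {Q : Ideal (𝓞 Ω)} {g : Ω ≃+* Ω} : g ∈ stb Q ↔ ∀ x, x ∈ Q ↔ og g x ∈ Q := Iff.rfl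

theorem inr_le_stb (Q : Ideal (𝓞 Ω)) : inr Q ≤ stb Q := by
  intro g hg x
  constructor
  · intro h
    have := Q.add_mem (hg x) h
    rwa [sub_add_cancel] at this
  · intro h
    have := Q.sub_mem h (hg x)
    rwa [sub_sub_cancel] at this

/-- the 2-adic cyclotomic character -/
noncomputable def cyQ (g : Ω ≃+* Ω) : ℤ_[2] := ((cyclotomicCharacter Ω 2 g : ℤ_[2]ˣ) : ℤ_[2])

/-- `W` contains all automorphisms that fix the elements of a certain finite set -/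
def OpnQ (W : Subgroup (Ω ≃+* Ω)) : Prop :=
  ∃ s : Finset Ω, ∀ g : Ω ≃+* Ω, (∀ x ∈ s, g x = x) → g ∈ W

theorem index_inf {G : Type*} [Group G] {W W' : Subgroup G} [W.Normal] [W'.Normal]
    (h : ∃ k : ℕ, W.index = 2 ^ k) (h' : ∃ k : ℕ, W'.index = 2 ^ k) :
    ∃ k : ℕ, (W ⊓ W').index = 2 ^ k := by
  obtain ⟨k, h3⟩ := h
  obtain ⟨k', h3'⟩ := h'
  have h4 : (W ⊓ W').index ∣ W.index * W'.index := by
    rw [← Subgroup.relIndex_mul_index (inf_le_right : W ⊓ W' ≤ W'), Subgroup.inf_relIndex_right]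
    exact mul_dvd_mul (Subgroup.relIndex_dvd_index_of_normal W W') dvd_rfl
  rw [h3, h3', ← pow_add] at h4
  obtain ⟨m, _, hm⟩ := (Nat.dvd_prime_pow Nat.prime_two).1 h4
  exact ⟨m, hm⟩

variable (Ω)

/-- the system of all open normal subgroups of 2-power index of the group of automorphisms that contain the
inertia groups at all primes that contain neither 2 nor an element of `T` -/
def qsys (T : Set ℕ) : TwoSys (Ω ≃+* Ω) where
  mem W := (OpnQ W ∧ W.Normal ∧ ∃ k : ℕ, W.index = 2 ^ k) ∧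
    ∀ Q : Ideal (𝓞 Ω), Q.IsPrime → (2 : 𝓞 Ω) ∉ Q → (∀ l ∈ T, (l : 𝓞 Ω) ∉ Q) → inr Q ≤ W
  ex := ⟨⊤, ⟨⟨∅, fun _ _ => trivial⟩, inferInstance, 0, by simp⟩, fun _ _ _ _ => le_top⟩
  inf := by
    rintro W W' ⟨⟨⟨s, hs⟩, h2, h3⟩, h4⟩ ⟨⟨⟨s', hs'⟩, h2', h3'⟩, h4'⟩
    classical
    refine ⟨⟨⟨s ∪ s', fun g hg => ⟨hs g fun x hx => hg x (Finset.mem_union_left _ hx),
      hs' g fun x hx => hg x (Finset.mem_union_right _ hx)⟩⟩, inferInstance, index_inf h3 h3'⟩,
      fun Q hQ h2 h5 => le_inf (h4 Q hQ h2 h5) (h4' Q hQ h2 h5)⟩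
  normal := fun h => h.1.2.1
  index := fun h => h.1.2.2

variable {Ω}

/-- the system of all open normal subgroups of 2-power index of `C` -/
def fsys (C : Subgroup (Ω ≃+* Ω)) : TwoSys C where
  mem W := (∃ s : Finset Ω, ∀ g : C, (∀ x ∈ s, (g : Ω ≃+* Ω) x = x) → g ∈ W) ∧ W.Normal ∧
    ∃ k : ℕ, W.index = 2 ^ k
  ex := ⟨⊤, ⟨∅, fun _ _ => trivial⟩, inferInstance, 0, by simp⟩
  inf := by
    rintro W W' ⟨⟨s, hs⟩, h2, h3⟩ ⟨⟨s', hs'⟩, h2', h3'⟩
    classical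
    exact ⟨⟨s ∪ s', fun g hg => ⟨hs g fun x hx => hg x (Finset.mem_union_left _ hx),
      hs' g fun x hx => hg x (Finset.mem_union_right _ hx)⟩⟩, inferInstance, index_inf h3 h3'⟩
  normal := fun h => h.2.1
  index := fun h => h.2.2

open scoped Classical in
/-- the character of the square root of `-1` -/
noncomputable def eps (g : Ω ≃+* Ω) : ZMod 2 := if (4 : ℤ_[2]) ∣ cyQ g - 1 then 0 else 1

/-- the chosen primes: `P 2` and `P l` for `l ∈ T` -/
def PP {R : Type*} [CommRing R] (P : ℕ → Ideal R) {T : Finset ℕ} : Option T → Ideal R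
  | none => P 2
  | some l => P l

/-- `T` is a set of odd prime numbers, and the primes `P l` contain `l` -/
structure IsP {R : Type*} [CommRing R] (T : Finset ℕ) (P : ℕ → Ideal R) : Prop where
  prime : ∀ l ∈ T, l.Prime
  odd : ∀ l ∈ T, l ≠ 2
  isPrime : ∀ l, l ∈ T ∨ l = 2 → (P l).IsPrime
  mem : ∀ l, l ∈ T ∨ l = 2 → (l : R) ∈ P l

/-- Local invariants for the rational numbers: `c` is the complex conjugation, `T` a finite set of odd
prime numbers. -/
structure QDat (c : Ω ≃+* Ω) (T : Finset ℕ) (P : ℕ → Ideal (𝓞 Ω))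
    (inv : ∀ w : Option T, (stb (PP P w) → stb (PP P w) → A0) → A0) : Prop where
  loc : ∀ w, LocH (fsys (stb (PP P w))) (fun d => cyQ (d : Ω ≃+* Ω)) (inv w)
  two : Module.finrank (ZMod 2) (homs (fsys (stb (PP P (none : Option T)))) ⊤) = 3
  tame : ∀ l : T, ∃ (a : stb (P l) → ℤ_[2]) (u : ℤ_[2]) (σ τ : stb (P l)), IsUnit u ∧
    (τ : Ω ≃+* Ω) ∈ inr (P l) ∧ (∀ x : Ω, x ^ 2 = ((l : ℕ) : Ω) → (τ : Ω ≃+* Ω) x = -x) ∧
    TameD (fsys (stb (P l))) (fun d => cyQ (d : Ω ≃+* Ω)) a σ τ l ∧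
    ∀ f, inv (some l) f = u • iota σ τ l f
  recip : ∀ F : (Ω ≃+* Ω) → (Ω ≃+* Ω) → A0, Z2 (qsys Ω T) (tw cyQ) F → (∀ g, F g 1 = 0) →
    (∀ g, F 1 g = 0) → F c c = 0 → ∑ w, inv w (fun a b => F a b) = 0

end autos

section emb

variable {Ω : Type u} [Field Ω] {F : Type*} [Field F]

/-- the elements of the absolute Galois group of `F` as automorphisms of `Ω` -/
noncomputable def emb (α : AlgebraicClosure F ≃+* Ω) : AbsGal F →* (Ω ≃+* Ω) where
  toFun σ := (α.symm.trans (σ : AlgebraicClosure F ≃+* AlgebraicClosure F)).trans α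
  map_one' := by
    ext x
    exact α.apply_symm_apply x
  map_mul' σ τ := by
    ext x
    show α (σ (τ (α.symm x))) = α (σ (α.symm (α (τ (α.symm x)))))
    rw [α.symm_apply_apply]

theorem emb_apply (α : AlgebraicClosure F ≃+* Ω) (σ : AbsGal F) (x : Ω) :
    emb α σ x = α (σ (α.symm x)) := rfl

/-- the ideal of the integers of the algebraic closure of `F` that corresponds to `Q` -/
noncomputable def pb (α : AlgebraicClosure F ≃+* Ω) (Q : Ideal (𝓞 Ω)) :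
    Ideal (𝓞 (AlgebraicClosure F)) :=
  Q.comap (RingOfIntegers.mapRingEquiv α : 𝓞 (AlgebraicClosure F) →+* 𝓞 Ω)

end emb

/-- `K` is the quadratic field generated by `s`, `s ^ 2 = -D`, where `D > 0` is squarefree and
congruent to 7 modulo 8 -/
structure IsQ (K : Type*) [Field K] [NumberField K] (D : ℕ) (s : K) : Prop where
  deg : Module.finrank ℚ K = 2
  sq : s ^ 2 = -(D : K)
  sqf : Squarefree D
  mod : D % 8 = 7

/-- the odd prime number `l` does not divide `D`, and `-D` is a square modulo `l` -/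
def Spl (D l : ℕ) : Prop := l.Prime ∧ l ≠ 2 ∧ ¬ l ∣ D ∧ ∃ A : ℤ, (l : ℤ) ∣ A ^ 2 + D

section family

variable {G : Type*} [Group G] (S : TwoSys G) {Φ : Type*} [Fintype Φ] {D : Φ → Type*}
  [∀ w, Group (D w)] (SD : ∀ w, TwoSys (D w)) (j : ∀ w, D w →* G) (χ : G → ℤ_[2])
  (inv : ∀ w, (D w → D w → A0) → A0) (κ : G →* G) (Θ : Set (G × G))

/-- `GP.ParH` for a family `Θ` of pairs `(θ, φ)` -/
structure ParHF : Prop where
  glob : GlobH S (fun i : Φ × Bool => SD i.1)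
    (fun i => if i.2 then κ.comp (j i.1) else j i.1) χ
    (fun i f => if i.2 then -inv i.1 f else inv i.1 f)
  loc : ∀ w, LocH (SD w) (fun d => χ (j w d)) (inv w)
  jsm : ∀ w W, S.mem W → ∃ W', (SD w).mem W' ∧ ∀ v ∈ W', j w v ∈ W
  kk : ∀ g, κ (κ g) = g
  ksys : ∀ W, S.mem W → ∃ W', S.mem W' ∧ ∀ v ∈ W', κ v ∈ W
  kchi : ∀ g, χ (κ g) = χ g
  count : Module.finrank (ZMod 2) (homs S ⊤) = ∑ w, Module.finrank (ZMod 2) (homs (SD w) ⊤)
  ne : Θ.Nonempty
  tk : ∀ p ∈ Θ, ∀ W, S.mem W → p.1 * κ p.1 ∈ W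
  fk : ∀ p ∈ Θ, ∀ W, S.mem W → (p.1 * κ p.2)⁻¹ * (p.2 * p.1) ∈ W
  alt : ∀ (z : G → G → A0) (u : G → A0), Z2 S (tw χ) z → (∀ g, z g 1 = 0) → (∀ g, z 1 g = 0) →
    Sm1 S u → (∀ a b, z (κ a) (κ b) + z a b = -d1 (tw χ) u a b) → (∀ g, u (κ g) = u g) →
    (∀ p ∈ Θ, u p.1 = z p.1 (κ p.1)) → (∀ p ∈ Θ, u p.2 + z p.2 p.1 = z p.1 (κ p.2)) →
    ∑ w, inv w (fun a b => z (j w a) (j w b)) = 0

variable (O : Type*) [CommRing O] {M : Type*} [AddCommGroup M] [Module O M]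

/-- `GP.SDual` for a family `Θ` -/
structure SDualF (ρ : G → M → M) (b : M →+ M →+ A0) : Prop where
  act : IsAct ρ
  lin : ∀ g (a : O) m, ρ g (a • m) = a • ρ g m
  sm : Smooth S ρ
  symm : ∀ m m', b m m' = b m' m
  bal : ∀ (a : O) m m', b (a • m) m' = b m (a • m')
  eqv : ∀ g m m', b (ρ g m) (ρ (κ g) m') = χ g • b m m'
  nd : ∀ m, (∀ m', b m m' = 0) → m = 0
  alt : ∀ p ∈ Θ, ∀ (a : O) m, b (a • m) (ρ p.1 m) = 0

end family

end Pool.Agent.Work.MP_787500_nt.HP
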