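import Mathlib
import Pool.Agent.Work.MP_787500_nt.HP.Defs

/-!
# Module EMBBASIC (size M): the absolute Galois group of `F` inside the automorphisms of `Ω`

`A = RingOfIntegers.mapRingEquiv α`. All statements are proved by evaluating at elements (`RingOfIntegers.ext`).
* `emb_iff`: if `g` fixes `α (algebraMap x)` for all `x : F`, then `α⁻¹ g α` is an `F`-algebra automorphism.
* `cyQ_emb`: for a root of unity `ζ` of order `2 ^ k` of the closure, `σ ζ = ζ ^ m` iff `emb α σ (α ζ) = (α ζ) ^ m`; use the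
  characterization of the cyclotomic character (`cyclotomicCharacter.spec`, `PadicInt.ext_of_toZModPow`), see `PA/CycK.lean`,
  `e1_cyc` in `GP/E1_Theta.lean`.
* `isChar_cyQ`: as `PA.isChar_cyc` (`PA/CycK.lean`): `C1`: the subgroup of all `g` that fix the `2 ^ n`-th roots of unity is
  normal, of 2-power index (the quotient embeds into the units of `ZMod (2 ^ n)`), `OpnQ` (the finite set of these roots), and contains
  `inr Q` for `2 ∉ Q` (different roots of unity of 2-power order are not congruent modulo `Q`, `e1_root`).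
* `isChar_stb`: the restriction to `fsys C` (intersect with `C`).
-/

set_option autoImplicit false
set_option linter.unusedSectionVars false

namespace Pool.Agent.Work.MP_787500_nt.HP

open IsDedekindDomain NumberField
open Pool.Agent.Work.MP_787500_nt.PA (TwoSys Sm1 Sm2 homs Coc Cob IsChar cyc Opn)
open Pool.Agent.Work.MP_787500_nt.GP

universe u

section

variable {Ω : Type u} [Field Ω] {F : Type*} [Field F] (α : AlgebraicClosure F ≃+* Ω)

theorem emb_inj : Function.Injective (emb α) := by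
  intro σ τ h
  ext x
  have h1 := congrArg (fun g : Ω ≃+* Ω => g (α x)) h
  simp only [emb_apply, RingEquiv.symm_apply_apply] at h1
  exact α.injective h1

theorem emb_iff (g : Ω ≃+* Ω) : (∃ σ, emb α σ = g) ↔
    ∀ x : F, g (α (algebraMap F (AlgebraicClosure F) x)) = α (algebraMap F (AlgebraicClosure F) x) := by
  constructor
  · rintro ⟨σ, rfl⟩ x
    rw [emb_apply, α.symm_apply_apply, AlgEquiv.commutes]
  · intro h
    refine ⟨AlgEquiv.ofRingEquiv (f := (α.trans g).trans α.symm) (fun x => ?_), ?_⟩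
    · show α.symm (g (α (algebraMap F (AlgebraicClosure F) x))) = _
      rw [h, α.symm_apply_apply]
    · ext x
      rw [emb_apply]
      show α (α.symm (g (α (α.symm x)))) = g x
      rw [α.apply_symm_apply, α.apply_symm_apply]

theorem og_emb (σ : AbsGal F) (x : 𝓞 (AlgebraicClosure F)) :
    og (emb α σ) (RingOfIntegers.mapRingEquiv α x) = RingOfIntegers.mapRingEquiv α (σ • x) := by
  apply RingOfIntegers.ext
  rw [og_coe, emb_apply]
  show α (σ (α.symm (α (x : AlgebraicClosure F)))) = α (σ (x : AlgebraicClosure F))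
  rw [α.symm_apply_apply]

theorem cyQ_emb (σ : AbsGal F) : cyQ (emb α σ) = cyc σ := by
  unfold cyQ cyc
  by_cases H : ∀ i : ℕ, ∃ ζ : AlgebraicClosure F, IsPrimitiveRoot ζ (2 ^ i)
  · have HΩ : ∀ i : ℕ, ∃ ζ : Ω, IsPrimitiveRoot ζ (2 ^ i) := fun i => by
      obtain ⟨ζ, hζ⟩ := H i
      exact ⟨α ζ, hζ.map_of_injective α.injective⟩
    have _ (i) : HasEnoughRootsOfUnity (AlgebraicClosure F) (2 ^ i) :=
      ⟨H i, rootsOfUnity.isCyclic _ _⟩
    have _ (i) : HasEnoughRootsOfUnity Ω (2 ^ i) := ⟨HΩ i, rootsOfUnity.isCyclic _ _⟩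
    refine PadicInt.ext_of_toZModPow.mp fun n => ?_
    obtain ⟨ζ, hζ⟩ := H n
    have h1 := cyclotomicCharacter.spec 2 (n := n) (emb α σ) (α ζ)
      (by rw [← map_pow, hζ.pow_eq_one, map_one])
    have h2 := cyclotomicCharacter.spec 2 (n := n)
      (σ : AlgebraicClosure F ≃+* AlgebraicClosure F) ζ hζ.pow_eq_one
    rw [emb_apply, α.symm_apply_apply, ← map_pow] at h1
    have h3 := α.injective h1
    have h4 : ζ ^ ((cyclotomicCharacter Ω 2 (emb α σ)).val.toZModPow n).val =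
        ζ ^ ((cyclotomicCharacter (AlgebraicClosure F) 2
          (σ : AlgebraicClosure F ≃+* AlgebraicClosure F)).val.toZModPow n).val :=
      h3.symm.trans h2
    have : NeZero (2 ^ n) := ⟨by positivity⟩
    exact ZMod.val_injective _ (hζ.pow_inj (ZMod.val_lt _) (ZMod.val_lt _) h4)
  · have HΩ : ¬ ∀ i : ℕ, ∃ ζ : Ω, IsPrimitiveRoot ζ (2 ^ i) := by
      intro h
      apply H
      intro i
      obtain ⟨ζ, hζ⟩ := h i
      exact ⟨α.symm ζ, hζ.map_of_injective α.symm.injective⟩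
    simp [cyclotomicCharacter, cyclotomicCharacter.toFun, dif_neg H, dif_neg HΩ]

theorem mem_pb {Q : Ideal (𝓞 Ω)} {x : 𝓞 (AlgebraicClosure F)} :
    x ∈ pb α Q ↔ RingOfIntegers.mapRingEquiv α x ∈ Q := Iff.rfl

theorem pb_prime {Q : Ideal (𝓞 Ω)} (hQ : Q.IsPrime) : (pb α Q).IsPrime := by
  have := hQ
  exact Ideal.comap_isPrime _ _

theorem pb_nat {Q : Ideal (𝓞 Ω)} (n : ℕ) :
    (n : 𝓞 (AlgebraicClosure F)) ∈ pb α Q ↔ (n : 𝓞 Ω) ∈ Q := by
  rw [mem_pb, map_natCast]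

theorem emb_stb {Q : Ideal (𝓞 Ω)} {σ : AbsGal F} : emb α σ ∈ stb Q ↔ σ ∈ stabD (pb α Q) := by
  constructor
  · intro h x
    have h1 := (mem_stb.1 h) (RingOfIntegers.mapRingEquiv α x)
    rw [og_emb] at h1
    exact h1
  · intro h
    rw [mem_stb]
    intro x
    obtain ⟨y, rfl⟩ := (RingOfIntegers.mapRingEquiv α).surjective x
    rw [og_emb]
    exact h y

theorem emb_inr {Q : Ideal (𝓞 Ω)} {σ : AbsGal F} :
    emb α σ ∈ inr Q ↔ σ ∈ (pb α Q).inertia (AbsGal F) := by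
  constructor
  · intro h x
    have h1 := (mem_inr.1 h) (RingOfIntegers.mapRingEquiv α x)
    rw [og_emb, ← map_sub] at h1
    exact h1
  · intro h
    rw [mem_inr]
    intro x
    obtain ⟨y, rfl⟩ := (RingOfIntegers.mapRingEquiv α).surjective x
    rw [og_emb, ← map_sub]
    exact h y

/-- every prime of the closure of `F` comes from a prime of `Ω` -/
theorem exists_pb {P : Ideal (𝓞 (AlgebraicClosure F))} (hP : P.IsPrime) :
    ∃ Q : Ideal (𝓞 Ω), Q.IsPrime ∧ pb α Q = P := by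
  have := hP
  refine ⟨P.comap ((RingOfIntegers.mapRingEquiv α).symm : 𝓞 Ω →+* 𝓞 (AlgebraicClosure F)),
    Ideal.comap_isPrime _ _, ?_⟩
  ext x
  rw [mem_pb, Ideal.mem_comap]
  show (RingOfIntegers.mapRingEquiv α).symm ((RingOfIntegers.mapRingEquiv α) x) ∈ P ↔ x ∈ P
  rw [RingEquiv.symm_apply_apply]

end

section

private theorem eb_pow_neg {R : Type*} [CommRing R] [IsDomain R] {x : R} {k : ℕ}
    (h : x ^ 2 ^ k = 1) (h1 : x ≠ 1) : ∃ m : ℕ, x ^ 2 ^ m = -1 := by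
  induction k generalizing x with
  | zero =>
    rw [pow_zero, pow_one] at h
    exact absurd h h1
  | succ k ih =>
    by_cases h2 : x ^ 2 = 1
    · refine ⟨0, ?_⟩
      rw [pow_zero, pow_one]
      have h3 : (x - 1) * (x + 1) = 0 := by linear_combination h2
      rcases mul_eq_zero.1 h3 with h4 | h4
      · exact absurd (sub_eq_zero.1 h4) h1
      · exact eq_neg_of_add_eq_zero_left h4
    · obtain ⟨m, hm⟩ := ih (x := x ^ 2) (by rw [← pow_mul, ← pow_succ']; exact h) h2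
      exact ⟨m + 1, by rw [pow_succ', pow_mul]; exact hm⟩

/-- different roots of unity of 2-power order are different modulo `Q` -/
private theorem eb_root {B : Type*} [CommRing B] [IsDomain B] {Q : Ideal B}
    (h2 : (2 : B) ∉ Q) {ζ : B} {k a b : ℕ} (hζ : ζ ^ 2 ^ k = 1) (h : ζ ^ a - ζ ^ b ∈ Q) :
    ζ ^ a = ζ ^ b := by
  have hpos : 1 ≤ 2 ^ k := Nat.one_le_two_pow
  have hinv : ζ ^ b * ζ ^ ((2 ^ k - 1) * b) = 1 := by
    rw [← pow_add]
    have : b + (2 ^ k - 1) * b = 2 ^ k * b := by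
      conv_lhs => rw [← one_mul b, ← mul_assoc, mul_one, ← add_mul]
      congr 1
      omega
    rw [this, pow_mul, hζ, one_pow]
  by_contra hne
  have hω1 : ζ ^ a * ζ ^ ((2 ^ k - 1) * b) ≠ 1 := by
    intro h3
    apply hne
    calc ζ ^ a = ζ ^ a * (ζ ^ b * ζ ^ ((2 ^ k - 1) * b)) := by rw [hinv, mul_one]
      _ = (ζ ^ a * ζ ^ ((2 ^ k - 1) * b)) * ζ ^ b := by ring
      _ = ζ ^ b := by rw [h3, one_mul]
  have hωk : (ζ ^ a * ζ ^ ((2 ^ k - 1) * b)) ^ 2 ^ k = 1 := by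
    rw [← pow_add, ← pow_mul, mul_comm, pow_mul, hζ, one_pow]
  obtain ⟨m, hm⟩ := eb_pow_neg hωk hω1
  have h4 : ζ ^ a * ζ ^ ((2 ^ k - 1) * b) - 1 ∈ Q := by
    have : ζ ^ a * ζ ^ ((2 ^ k - 1) * b) - 1 = (ζ ^ a - ζ ^ b) * ζ ^ ((2 ^ k - 1) * b) := by
      rw [sub_mul, hinv]
    rw [this]
    exact Q.mul_mem_right _ h
  have h5 : (ζ ^ a * ζ ^ ((2 ^ k - 1) * b)) ^ 2 ^ m - 1 ∈ Q := by
    have h6 := sub_dvd_pow_sub_pow (ζ ^ a * ζ ^ ((2 ^ k - 1) * b)) 1 (2 ^ m)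
    rw [one_pow] at h6
    exact Ideal.mem_of_dvd Q h6 h4
  rw [hm] at h5
  apply h2
  have h7 : (2 : B) = -(-1 - 1) := by ring
  rw [h7]
  exact Q.neg_mem h5

variable {Ω : Type u} [Field Ω] [CharZero Ω] [IsAlgClosed Ω]

private theorem eb_ext {Ω : Type u} [Field Ω] {x y : 𝓞 Ω}
    (h : algebraMap (𝓞 Ω) Ω x = algebraMap (𝓞 Ω) Ω y) : x = y := RingOfIntegers.ext h

private theorem eb_og {Ω : Type u} [Field Ω] (g : Ω ≃+* Ω) (x : 𝓞 Ω) :
    algebraMap (𝓞 Ω) Ω (og g x) = g (algebraMap (𝓞 Ω) Ω x) := rfl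

private theorem eb_prim (n : ℕ) : ∃ ζ : Ω, IsPrimitiveRoot ζ (2 ^ n) :=
  HasEnoughRootsOfUnity.exists_primitiveRoot _ _

private theorem eb_spec (g : Ω ≃+* Ω) {n : ℕ} {ζ : Ω} (h : ζ ^ 2 ^ n = 1) :
    g ζ = ζ ^ (PadicInt.toZModPow n (cyQ g)).val :=
  cyclotomicCharacter.spec 2 g ζ h

private theorem eb_eq {g h : Ω ≃+* Ω} {n : ℕ} {ζ : Ω}
    (hζ : IsPrimitiveRoot ζ (2 ^ n)) (he : g ζ = h ζ) :
    PadicInt.toZModPow n (cyQ g) = PadicInt.toZModPow n (cyQ h) := by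
  rw [eb_spec g hζ.pow_eq_one, eb_spec h hζ.pow_eq_one] at he
  have : NeZero (2 ^ n) := ⟨by positivity⟩
  exact ZMod.val_injective _ (hζ.pow_inj (ZMod.val_lt _) (ZMod.val_lt _) he)

private theorem eb_mul (g h : Ω ≃+* Ω) : cyQ (g * h) = cyQ g * cyQ h := by
  unfold cyQ
  rw [map_mul, Units.val_mul]

private theorem eb_one : cyQ (1 : Ω ≃+* Ω) = 1 := by
  unfold cyQ
  rw [map_one, Units.val_one]

private theorem eb_odd (g : Ω ≃+* Ω) : (2 : ℤ_[2]) ∣ cyQ g - 1 := by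
  have h1 : IsUnit (cyQ g) := Units.isUnit _
  have h2 : IsUnit (PadicInt.toZMod (cyQ g)) := h1.map _
  have h3 : PadicInt.toZMod (cyQ g) = 1 := by
    have : ∀ a : ZMod 2, IsUnit a → a = 1 := by
      intro a ha
      have := ha.ne_zero
      revert this
      revert a
      decide
    exact this _ h2
  have h4 : PadicInt.toZMod (cyQ g - 1) = 0 := by rw [map_sub, h3, map_one, sub_self]
  rw [← RingHom.mem_ker, PadicInt.ker_toZMod, PadicInt.maximalIdeal_eq_span_p,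
    Ideal.mem_span_singleton] at h4
  exact_mod_cast h4

/-- the inertia groups at the primes that do not contain 2 act trivially on the roots of unity of
2-power order -/
theorem cyQ_inr {Q : Ideal (𝓞 Ω)} (hQ : Q.IsPrime) (h2 : (2 : 𝓞 Ω) ∉ Q) {g : Ω ≃+* Ω}
    (hg : g ∈ inr Q) : cyQ g = 1 := by
  refine PadicInt.ext_of_toZModPow.mp fun n => ?_
  obtain ⟨ζ, hζ⟩ := eb_prim (Ω := Ω) n
  have hint : IsIntegral ℤ ζ := hζ.isIntegral (by positivity)
  obtain ⟨z, hz⟩ : ∃ z : 𝓞 Ω, algebraMap (𝓞 Ω) Ω z = ζ := ⟨⟨ζ, hint⟩, rfl⟩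
  have hzk : z ^ 2 ^ n = 1 := eb_ext (by rw [map_pow, hz, hζ.pow_eq_one, map_one])
  set a := (PadicInt.toZModPow n (cyQ g)).val with ha
  have h3 : og g z = z ^ a := eb_ext (by
    rw [eb_og, map_pow, hz, eb_spec g hζ.pow_eq_one])
  have h4 : z ^ a - z ^ 1 ∈ Q := by
    rw [pow_one, ← h3]
    exact (mem_inr.1 hg) z
  have h5 := eb_root h2 hzk h4
  have h6 : g ζ = (1 : Ω ≃+* Ω) ζ := by
    rw [eb_spec g hζ.pow_eq_one]
    have := congrArg (algebraMap (𝓞 Ω) Ω) h5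
    simp only [map_pow, hz, pow_one] at this
    exact this
  have h7 := eb_eq hζ h6
  rw [h7, eb_one]

private noncomputable def ebChi (n : ℕ) : (Ω ≃+* Ω) →* (ZMod (2 ^ n))ˣ :=
  (Units.map (PadicInt.toZModPow (p := 2) n : ℤ_[2] →* ZMod (2 ^ n))).comp
    (cyclotomicCharacter Ω 2)

private theorem ebChi_val (n : ℕ) (g : Ω ≃+* Ω) :
    ((ebChi n g : (ZMod (2 ^ n))ˣ) : ZMod (2 ^ n)) = PadicInt.toZModPow n (cyQ g) := rfl

private theorem ebChi_eq_one {n : ℕ} {g : Ω ≃+* Ω} :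
    ebChi n g = 1 ↔ PadicInt.toZModPow n (cyQ g) = 1 := by
  rw [← ebChi_val, Units.val_eq_one]

private theorem eb_index {G : Type*} [Group G] {n : ℕ} (f : G →* (ZMod (2 ^ n))ˣ) :
    ∃ k : ℕ, f.ker.index = 2 ^ k := by
  have : NeZero (2 ^ n) := ⟨by positivity⟩
  rw [Subgroup.index_ker]
  have h1 : Nat.card f.range ∣ Nat.card (ZMod (2 ^ n))ˣ := Subgroup.card_subgroup_dvd_card _
  rw [Nat.card_eq_fintype_card (α := (ZMod (2 ^ n))ˣ), ZMod.card_units_eq_totient] at h1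
  have h2 : ∃ k, Nat.totient (2 ^ n) = 2 ^ k := by
    rcases Nat.eq_zero_or_pos n with rfl | hn
    · exact ⟨0, by simp⟩
    · exact ⟨n - 1, by rw [Nat.totient_prime_pow Nat.prime_two hn]; simp⟩
  obtain ⟨k, hk⟩ := h2
  rw [hk] at h1
  obtain ⟨j, _, hj⟩ := (Nat.dvd_prime_pow Nat.prime_two).1 h1
  exact ⟨j, hj⟩

private theorem eb_cont {n : ℕ} (g w : Ω ≃+* Ω) (hw : ebChi n w = 1) :
    (2 : ℤ_[2]) ^ n ∣ cyQ (g * w) - cyQ g := by
  rw [ebChi_eq_one] at hw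
  have h2 : PadicInt.toZModPow n (cyQ (g * w) - cyQ g) = 0 := by
    rw [map_sub, eb_mul, map_mul, hw, mul_one, sub_self]
  rw [← RingHom.mem_ker, PadicInt.ker_toZModPow, Ideal.mem_span_singleton] at h2
  exact_mod_cast h2

private theorem eb_opn (n : ℕ) : ∃ ζ : Ω, ∀ g : Ω ≃+* Ω, g ζ = ζ → ebChi n g = 1 := by
  obtain ⟨ζ, hζ⟩ := eb_prim (Ω := Ω) n
  refine ⟨ζ, fun g hg => ?_⟩
  have h6 : g ζ = (1 : Ω ≃+* Ω) ζ := hg
  rw [ebChi_eq_one, eb_eq hζ h6, eb_one, map_one]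

theorem isChar_cyQ (T : Set ℕ) : IsChar (qsys Ω T) (cyQ : (Ω ≃+* Ω) → ℤ_[2]) := by
  refine ⟨eb_one, eb_mul, ?_, eb_odd⟩
  intro n
  obtain ⟨ζ, hζ⟩ := eb_opn (Ω := Ω) n
  refine ⟨(ebChi n).ker, ⟨⟨⟨{ζ}, fun g hg => ?_⟩, MonoidHom.normal_ker _, eb_index _⟩, ?_⟩, ?_⟩
  · exact hζ g (hg ζ (Finset.mem_singleton_self ζ))
  · intro Q hQ h2 _ g hg
    rw [MonoidHom.mem_ker, ebChi_eq_one, cyQ_inr hQ h2 hg, map_one]
  · intro g w hw
    exact eb_cont g w hw

theorem isChar_stb (C : Subgroup (Ω ≃+* Ω)) :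
    IsChar (fsys C) (fun d => cyQ (d : Ω ≃+* Ω)) := by
  refine ⟨eb_one, fun g h => eb_mul (g : Ω ≃+* Ω) h, ?_, fun g => eb_odd (g : Ω ≃+* Ω)⟩
  intro n
  obtain ⟨ζ, hζ⟩ := eb_opn (Ω := Ω) n
  refine ⟨((ebChi n).comp C.subtype).ker, ⟨⟨{ζ}, fun g hg => ?_⟩, MonoidHom.normal_ker _,
    eb_index _⟩, ?_⟩
  · exact hζ g (hg ζ (Finset.mem_singleton_self ζ))
  · intro g w hw
    exact eb_cont (g : Ω ≃+* Ω) w hw

end

end Pool.Agent.Work.MP_787500_nt.HP
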