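import Mathlib
import Pool.Agent.Work.MP_787500_nt.H10_Defs

/-!
# Module FIELDQ (size S-M, Mathlib only): the quadratic field of discriminant `-q` inside `Ω`

`t ∈ Ω` with `t ^ 2 = -q` (`IsAlgClosed.exists_pow_nat_eq`), `K₀ = IntermediateField.adjoin ℚ {t}` (type `IntermediateField ℚ Ω`, coerced to a type),
`finrank = 2`: the minimal polynomial of `t` is `X ^ 2 + q` (no rational root). `NumberField K₀`: characteristic 0 and finite dimensional.
`s = ⟨t, _⟩`. `Ω` is an algebraic closure of `K₀` (`IsAlgClosure K₀ Ω`: algebraically closed, and algebraic over `ℚ` by `halg`), so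
`α = (IsAlgClosure.equiv K₀ (AlgebraicClosure K₀) Ω).toRingEquiv`.
-/

set_option autoImplicit false

namespace Pool.Agent.Work.MP_787500_nt.HP

open Pool.Agent.Work.MP_787500_nt

universe u

/-- every element is a root of a nonzero polynomial with integer coefficients -/
def Alg (Ω : Type u) [Field Ω] : Prop :=
  ∀ x : Ω, ∃ p : Polynomial ℤ, p ≠ 0 ∧ p.eval₂ (Int.castRingHom Ω) x = 0

private theorem fq_alg_of {Ω : Type u} [Field Ω] (h : Algebra.IsAlgebraic ℤ Ω) : Alg Ω := by
  intro x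
  obtain ⟨p, hp, hpx⟩ := h.isAlgebraic x
  refine ⟨p, hp, ?_⟩
  rw [Polynomial.aeval_def] at hpx
  exact hpx

private theorem fq_isAlg {Ω : Type u} [Field Ω] (h : Alg Ω) : Algebra.IsAlgebraic ℤ Ω := by
  refine ⟨fun x => ?_⟩
  obtain ⟨p, hp, hpx⟩ := h x
  refine ⟨p, hp, ?_⟩
  rw [Polynomial.aeval_def]
  exact hpx

theorem alg_closure (K : Type u) [Field K] [NumberField K] : Alg (AlgebraicClosure K) := by
  apply fq_alg_of
  have h1 : Algebra.IsAlgebraic ℚ (AlgebraicClosure K) := Algebra.IsAlgebraic.trans ℚ K _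
  exact ⟨fun x => (IsFractionRing.isAlgebraic_iff ℤ ℚ (AlgebraicClosure K)).2 (h1.isAlgebraic x)⟩

theorem exists_base {Ω : Type u} [Field Ω] [CharZero Ω] [IsAlgClosed Ω] (halg : Alg Ω) {q : ℕ}
    (hq : q.Prime) (h : q % 16 = 7) :
    ∃ (K₀ : Type u) (_ : Field K₀) (_ : NumberField K₀) (s : K₀) (_ : AlgebraicClosure K₀ ≃+* Ω),
      IsBase K₀ q s := by
  obtain ⟨t, ht⟩ := IsAlgClosed.exists_pow_nat_eq (-(q : Ω)) (n := 2) (by norm_num)
  have hint : IsIntegral ℚ t := by
    refine ⟨Polynomial.X ^ 2 + Polynomial.C (q : ℚ), by monicity!, ?_⟩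
    simp [ht]
  have hdeg : (minpoly ℚ t).natDegree = 2 := by
    have h1 : minpoly ℚ t ∣ Polynomial.X ^ 2 + Polynomial.C (q : ℚ) := by
      apply minpoly.dvd
      simp [ht]
    have h2 : (minpoly ℚ t).natDegree ≤ 2 := by
      have h3 : (Polynomial.X ^ 2 + Polynomial.C (q : ℚ)).Monic := by monicity!
      refine (Polynomial.natDegree_le_of_dvd h1 h3.ne_zero).trans ?_
      compute_degree
    have h3 := minpoly.natDegree_pos hint
    have h4 : (minpoly ℚ t).natDegree ≠ 1 := by
      intro h5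
      rw [minpoly.natDegree_eq_one_iff] at h5
      obtain ⟨r, hr⟩ := h5
      rw [← hr, ← map_pow] at ht
      have h6 : (algebraMap ℚ Ω) (r ^ 2) = algebraMap ℚ Ω (-(q : ℚ)) := by
        rw [ht, map_neg, map_natCast]
      have h7 := (algebraMap ℚ Ω).injective h6
      have h8 : (0 : ℚ) < q := by exact_mod_cast hq.pos
      nlinarith [sq_nonneg r]
    omega
  have hfd : FiniteDimensional ℚ (IntermediateField.adjoin ℚ {t}) :=
    IntermediateField.adjoin.finiteDimensional hint
  have hnf : NumberField (IntermediateField.adjoin ℚ {t}) := { }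
  have hZ := fq_isAlg halg
  have hcl : IsAlgClosure (IntermediateField.adjoin ℚ {t}) Ω := by
    refine ⟨inferInstance, ⟨fun x => ?_⟩⟩
    have h1 : IsAlgebraic ℚ x :=
      (IsFractionRing.isAlgebraic_iff ℤ ℚ Ω).1 (hZ.isAlgebraic x)
    exact h1.tower_top _
  have hmem : t ∈ IntermediateField.adjoin ℚ {t} := IntermediateField.mem_adjoin_simple_self ℚ t
  refine ⟨IntermediateField.adjoin ℚ {t}, inferInstance, hnf, ⟨t, hmem⟩,
    (IsAlgClosure.equiv (IntermediateField.adjoin ℚ {t})
      (AlgebraicClosure (IntermediateField.adjoin ℚ {t})) Ω).toRingEquiv, ?_, ?_, hq, h⟩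
  · rw [IntermediateField.adjoin.finrank hint, hdeg]
  · apply Subtype.ext
    push_cast
    exact ht

end Pool.Agent.Work.MP_787500_nt.HP
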