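import Mathlib
import Pool.Agent.Work.MP_787500_nt.HP.EmbBasic

/-!
# Module EMBGOOD (size M): members of the system over `Ω` restrict to members of the system of `F`

* `good_comap`: normal: `Subgroup.Normal.comap`. Open: `W` contains all automorphisms that fix the finite set `s`, so the preimage
  contains the intersection of the stabilizers of the elements `α.symm x`, `x ∈ s`, which are open
  (`stabilizer_isOpen_of_isIntegral`); a subgroup that contains an open subgroup is open (`Subgroup.isOpen_mono`). `pow`: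
  `Subgroup.pow_index_mem`. Inertia: an element of `inT F T` is in the inertia group of some prime `P`; `P = pb α Q` (`exists_pb`),
  `Q` contains neither 2 nor an element of `T` (`pb_nat`), `emb_inr`.
* `z2_comap`: the smoothness from `good_comap`, the cocycle identity with `cyQ_emb`.
* `coc_comap`: the same for cocycles modulo 2.
-/

set_option autoImplicit false
set_option linter.unusedSectionVars false

namespace Pool.Agent.Work.MP_787500_nt.HP

open IsDedekindDomain NumberField
open Pool.Agent.Work.MP_787500_nt.PA (TwoSys Sm1 Sm2 homs Coc Cob IsChar cyc Opn)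
open Pool.Agent.Work.MP_787500_nt.GP

universe u

variable {Ω : Type u} [Field Ω] [CharZero Ω] [IsAlgClosed Ω] {F : Type*} [Field F] [NumberField F]
  (α : AlgebraicClosure F ≃+* Ω)

/-- an open subgroup from finitely many elements -/
theorem open_of_fix {W : Subgroup (AbsGal F)} (s : Finset Ω)
    (h : ∀ σ : AbsGal F, (∀ x ∈ s, σ (α.symm x) = α.symm x) → σ ∈ W) :
    IsOpen (W : Set (AbsGal F)) := by
  let S : Set (AlgebraicClosure F) := α.symm '' (s : Set Ω)
  have hSf : Finite S := (s.finite_toSet.image _).to_subtype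
  have hfd : FiniteDimensional F (IntermediateField.adjoin F S) :=
    IntermediateField.finiteDimensional_adjoin fun x _ => Algebra.IsIntegral.isIntegral x
  refine Subgroup.isOpen_mono (H₁ := (IntermediateField.adjoin F S).fixingSubgroup) ?_
    (IntermediateField.fixingSubgroup_isOpen _)
  intro σ hσ
  exact h σ fun x hx => (IntermediateField.mem_fixingSubgroup_iff _ _).1 hσ _
    (IntermediateField.subset_adjoin _ _ ⟨x, hx, rfl⟩)

theorem good_comap {T : Finset ℕ} {W : Subgroup (Ω ≃+* Ω)} (hW : (qsys Ω T).mem W) :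
    GoodT F T (W.comap (emb α)) := by
  obtain ⟨⟨⟨s, hs⟩, hn, k, hk⟩, hi⟩ := hW
  refine ⟨inferInstance, ?_, le_top, fun g _ => ⟨k, ?_⟩, fun σ hσ => ?_⟩
  · refine open_of_fix α s fun σ hσ => ?_
    rw [Subgroup.mem_comap]
    refine hs _ fun x hx => ?_
    rw [emb_apply, hσ x hx, RingEquiv.apply_symm_apply]
  · rw [Subgroup.mem_comap, map_pow, ← hk]
    exact W.pow_index_mem _
  · obtain ⟨P, hP, hP2, hPT, h⟩ := hσ
    obtain ⟨Q, hQ, rfl⟩ := exists_pb α hP
    rw [Subgroup.mem_comap]
    refine hi Q hQ (fun h2 => hP2 ?_) (fun l hl h2 => hPT l hl ((pb_nat α l).2 h2))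
      ((emb_inr α).2 h)
    have h3 := (pb_nat α (Q := Q) 2).2
    rw [Nat.cast_ofNat, Nat.cast_ofNat] at h3
    exact h3 h2

theorem z2_comap {T : Finset ℕ} {f : (Ω ≃+* Ω) → (Ω ≃+* Ω) → A0}
    (hf : Z2 (qsys Ω T) (tw cyQ) f) :
    Z2 (sysT F T) (tw cyc) (fun a b => f (emb α a) (emb α b)) := by
  obtain ⟨⟨W, hW, h1⟩, h2⟩ := hf
  refine ⟨⟨_, good_comap α hW, fun g h w hw w' hw' => ?_⟩, fun a b c => ?_⟩
  · show f (emb α (g * w)) (emb α (h * w')) = f (emb α g) (emb α h)
    rw [map_mul, map_mul]
    exact h1 _ _ _ hw _ hw'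
  · have h3 := h2 (emb α a) (emb α b) (emb α c)
    unfold d2 tw at h3 ⊢
    rw [cyQ_emb, ← map_mul, ← map_mul] at h3
    exact h3

theorem sm1_comap {T : Finset ℕ} {A : Type*} {f : (Ω ≃+* Ω) → A} (hf : Sm1 (qsys Ω T) f) :
    Sm1 (sysT F T) (fun a => f (emb α a)) := by
  obtain ⟨W, hW, h1⟩ := hf
  refine ⟨_, good_comap α hW, fun g w hw => ?_⟩
  show f (emb α (g * w)) = f (emb α g)
  rw [map_mul]
  exact h1 _ _ hw

end Pool.Agent.Work.MP_787500_nt.HP
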