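import Mathlib
import Pool.Agent.Work.MP_787500_nt.HP.EmbBasic
import Pool.Agent.Work.MP_787500_nt.GP.ADefs

/-!
# Module ISO (size M): transport of the local hypotheses by an isomorphism

* `locH_iso`, `homs_iso`, `tameD_iso`: transport of every field along the isomorphism `e`; `h` says that the systems correspond
  (`Sm1`, `Sm2`, `C1` for `SD` of `z ∘ e` iff for `S` of `z`; every subgroup of `D` is `W.comap e` for `W = W'.map e`).
* `fsys_iso`: `⇐`: `U` open in `AbsGal F` contains all elements that fix a certain finite set of elements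
  (`krullTopology_mem_nhds_one_iff`: `E.fixingSubgroup ≤ U`, `E` finite dimensional, take a basis of `E`), move it by `α`. `⇒`: the subgroup of
  `AbsGal F` of the elements that fix `α.symm x` for all `x ∈ s` is open (`stabilizer_isOpen_of_isIntegral`, finite intersection). Normality and index
  are transported (`Subgroup.index_comap_of_surjective`).
* `subSys_sysD`: `W` open, `W.subgroupOf D ≤ W.subgroupOf D`.
-/

set_option autoImplicit false
set_option linter.unusedSectionVars false

namespace Pool.Agent.Work.MP_787500_nt.HP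

open IsDedekindDomain NumberField
open Pool.Agent.Work.MP_787500_nt.PA (TwoSys Sm1 Sm2 homs Coc Cob IsChar cyc Opn)
open Pool.Agent.Work.MP_787500_nt.GP

universe u

section generic

variable {G D : Type*} [Group G] [Group D] {S : TwoSys G} {SD : TwoSys D} (e : D ≃* G)
  (h : ∀ W : Subgroup G, SD.mem (W.comap (e : D →* G)) ↔ S.mem W)

include h

private theorem iso_symm (W : Subgroup D) : S.mem (W.comap (e.symm : G →* D)) ↔ SD.mem W := by
  rw [← h]
  have : (W.comap (e.symm : G →* D)).comap (e : D →* G) = W := by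
    ext x
    simp [Subgroup.mem_comap]
  rw [this]

theorem sm1_iso {A : Type*} {z : G → A} (hz : Sm1 S z) : Sm1 SD (fun d => z (e d)) := by
  obtain ⟨W, hW, h1⟩ := hz
  refine ⟨_, (h W).2 hW, fun g w hw => ?_⟩
  show z (e (g * w)) = z (e g)
  rw [map_mul]
  exact h1 _ _ hw

theorem sm2_iso {A : Type*} {z : G → G → A} (hz : Sm2 S z) : Sm2 SD (fun d d' => z (e d) (e d')) := by
  obtain ⟨W, hW, h1⟩ := hz
  refine ⟨_, (h W).2 hW, fun g k w hw w' hw' => ?_⟩
  show z (e (g * w)) (e (k * w')) = z (e g) (e k)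
  rw [map_mul, map_mul]
  exact h1 _ _ _ hw _ hw'

private theorem c1_iso {z : G → ℤ_[2]} (hz : PA.C1 S z) : PA.C1 SD (fun d => z (e d)) := by
  intro n
  obtain ⟨W, hW, h1⟩ := hz n
  refine ⟨_, (h W).2 hW, fun g w hw => ?_⟩
  show (2 : ℤ_[2]) ^ n ∣ z (e (g * w)) - z (e g)
  rw [map_mul]
  exact h1 _ _ hw

private theorem char_iso {χ : G → ℤ_[2]} (H : IsChar S χ) : IsChar SD (fun d => χ (e d)) where
  one := by
    show χ (e 1) = 1
    rw [map_one, H.one]
  mul := fun g k => by
    show χ (e (g * k)) = χ (e g) * χ (e k)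
    rw [map_mul, H.mul]
  cont := c1_iso e h H.cont
  odd := fun g => H.odd (e g)

private theorem z2_iso {χ : G → ℤ_[2]} {f : G → G → A0} (H : Z2 S (tw χ) f) :
    Z2 SD (tw fun d => χ (e d)) (fun a b => f (e a) (e b)) := by
  refine ⟨sm2_iso e h H.1, fun a b c => ?_⟩
  have h1 := H.2 (e a) (e b) (e c)
  unfold d2 tw at h1 ⊢
  show χ (e a) • f (e b) (e c) - f (e (a * b)) (e c) + f (e a) (e (b * c)) - f (e a) (e b) = 0
  rw [map_mul, map_mul]
  exact h1

private theorem homs_mem_iso {ψ : G → ZMod 2} (H : ψ ∈ homs S ⊤) :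
    (fun d => ψ (e d)) ∈ homs SD ⊤ := by
  obtain ⟨h1, h2, h3⟩ := H
  refine ⟨sm1_iso e h h1, fun g hg => absurd (Subgroup.mem_top g) hg, fun g _ k _ => ?_⟩
  show ψ (e (g * k)) = ψ (e g) + ψ (e k)
  rw [map_mul]
  exact h3 _ (Subgroup.mem_top _) _ (Subgroup.mem_top _)

private theorem coc_iso {f : G → G → ZMod 2} (H : Coc S ⊤ f) :
    Coc SD ⊤ (fun a b => f (e a) (e b)) := by
  refine ⟨sm2_iso e h H.1, fun a _ b _ c _ => ?_⟩
  show f (e a) (e b) + f (e (a * b)) (e c) = f (e b) (e c) + f (e a) (e (b * c))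
  rw [map_mul, map_mul]
  exact H.2 _ (Subgroup.mem_top _) _ (Subgroup.mem_top _) _ (Subgroup.mem_top _)

private theorem cob_iso {f : G → G → ZMod 2} (H : Cob S ⊤ f) :
    Cob SD ⊤ (fun a b => f (e a) (e b)) := by
  obtain ⟨z, hz, h1⟩ := H
  refine ⟨fun d => z (e d), sm1_iso e h hz, fun a _ b _ => ?_⟩
  show f (e a) (e b) = z (e a) + z (e b) + z (e (a * b))
  rw [map_mul]
  exact h1 _ (Subgroup.mem_top _) _ (Subgroup.mem_top _)

private theorem back {A : Type*} (f : D → D → A) :
    (fun a b => (fun a b => f (e.symm a) (e.symm b)) (e a) (e b)) = f := by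
  funext a b
  simp

private noncomputable def homsEquiv : homs SD ⊤ ≃ₗ[ZMod 2] homs S ⊤ where
  toFun ψ := ⟨fun g => ψ.1 (e.symm g), homs_mem_iso e.symm (iso_symm e h) ψ.2⟩
  invFun φ := ⟨fun d => φ.1 (e d), homs_mem_iso e h φ.2⟩
  map_add' a b := rfl
  map_smul' c a := rfl
  left_inv ψ := by
    apply Subtype.ext
    funext d
    show ψ.1 (e.symm (e d)) = ψ.1 d
    rw [MulEquiv.symm_apply_apply]
  right_inv φ := by
    apply Subtype.ext
    funext d
    show φ.1 (e (e.symm d)) = φ.1 d
    rw [MulEquiv.apply_symm_apply]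

theorem homs_iso : Module.finrank (ZMod 2) (homs SD ⊤) = Module.finrank (ZMod 2) (homs S ⊤) :=
  (homsEquiv e h).finrank_eq

theorem locH_iso {χ : G → ℤ_[2]} {inv : (G → G → A0) → A0} (H : LocH S χ inv) :
    LocH SD (fun d => χ (e d)) (fun F => inv (fun a b => F (e.symm a) (e.symm b))) := by
  have hs := iso_symm e h
  have hχ : (fun g => (fun d => χ (e d)) (e.symm g)) = χ := by
    funext g
    simp
  have hz2 : ∀ {f : D → D → A0}, Z2 SD (tw fun d => χ (e d)) f →
      Z2 S (tw χ) (fun a b => f (e.symm a) (e.symm b)) := by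
    intro f hf
    have h1 := z2_iso e.symm hs hf
    rw [hχ] at h1
    exact h1
  refine ⟨char_iso e h H.char, fun f f' hf hf' => H.add _ _ (hz2 hf) (hz2 hf'), fun z hz => ?_,
    ?_, fun ψ hψ h1 => ?_, fun f hf h1 => ?_⟩
  · have h1 := H.cob _ (sm1_iso e.symm hs hz)
    have h2 : (fun a b => d1 (tw fun d => χ (e d)) z (e.symm a) (e.symm b)) =
        d1 (tw χ) (fun g => z (e.symm g)) := by
      funext a b
      show z (e.symm a) + χ (e (e.symm a)) • z (e.symm b) - z (e.symm a * e.symm b) =
        z (e.symm a) + χ a • z (e.symm b) - z (e.symm (a * b))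
      rw [map_mul, MulEquiv.apply_symm_apply]
    rw [h2]
    exact h1
  · have := H.fin
    exact (homsEquiv e h).symm.finiteDimensional
  · have h2 := H.nondeg _ (homs_mem_iso e.symm hs hψ) (fun φ hφ => by
      have h3 := h1 _ (homs_mem_iso e h hφ)
      simp only [MulEquiv.apply_symm_apply] at h3
      exact h3)
    funext d
    have h3 := congrFun h2 (e d)
    simpa using h3
  · have h2 := H.one _ (coc_iso e.symm hs hf) h1
    have h3 := cob_iso e h h2
    rw [back e h] at h3
    exact h3

theorem tameD_iso {χ a : G → ℤ_[2]} {σ τ : G} {l : ℕ} (H : TameD S χ a σ τ l) :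
    TameD SD (fun d => χ (e d)) (fun d => a (e d)) (e.symm σ) (e.symm τ) l where
  char := char_iso e h H.char
  c1 := c1_iso e h H.c1
  coc := fun g k => by
    show a (e (g * k)) = a (e g) + χ (e g) * a (e k)
    rw [map_mul, H.coc]
  odd := H.odd
  lt := H.lt
  σχ := by
    show χ (e (e.symm σ)) = l
    rw [MulEquiv.apply_symm_apply, H.σχ]
  σa := by
    show a (e (e.symm σ)) = 0
    rw [MulEquiv.apply_symm_apply, H.σa]
  τχ := by
    show χ (e (e.symm τ)) = 1
    rw [MulEquiv.apply_symm_apply, H.τχ]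
  τa := by
    show a (e (e.symm τ)) = 1
    rw [MulEquiv.apply_symm_apply, H.τa]
  dens := fun g n => H.dens (e g) n
  sep := fun W hW => by
    obtain ⟨n, hn⟩ := H.sep _ ((iso_symm e h W).2 hW)
    refine ⟨n, fun g h1 h2 => ?_⟩
    have h3 := hn (e g) h1 h2
    rw [Subgroup.mem_comap] at h3
    simpa using h3

end generic

section arith

variable {Ω : Type u} [Field Ω] {F : Type*} [Field F] [CharZero F] (α : AlgebraicClosure F ≃+* Ω)

theorem fsys_iso {C : Subgroup (Ω ≃+* Ω)} {D : Subgroup (AbsGal F)} (e : C ≃* D)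
    (he : ∀ g, emb α (e g : AbsGal F) = (g : Ω ≃+* Ω)) (W : Subgroup D) :
    (fsys C).mem (W.comap (e : C →* D)) ↔ (subSys D).mem W := by
  classical
  have hmap : (W.comap (e : C →* D)).map (e : C →* D) = W :=
    Subgroup.map_comap_eq_self_of_surjective e.surjective W
  have hnorm : (W.comap (e : C →* D)).Normal ↔ W.Normal := by
    constructor
    · intro h1
      rw [← hmap]
      exact Subgroup.Normal.map h1 _ e.surjective
    · intro h1
      infer_instance
  have hidx : (W.comap (e : C →* D)).index = W.index :=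
    Subgroup.index_comap_of_surjective W e.surjective
  have hfin : (∃ s : Finset Ω, ∀ g : C, (∀ x ∈ s, (g : Ω ≃+* Ω) x = x) →
      g ∈ W.comap (e : C →* D)) ↔
      ∃ U : Subgroup (AbsGal F), IsOpen (U : Set (AbsGal F)) ∧ U.subgroupOf D ≤ W := by
    constructor
    · rintro ⟨s, hs⟩
      let S : Set (AlgebraicClosure F) := α.symm '' (s : Set Ω)
      have hSf : Finite S := (s.finite_toSet.image _).to_subtype
      have hfd : FiniteDimensional F (IntermediateField.adjoin F S) :=
        IntermediateField.finiteDimensional_adjoin fun x _ => Algebra.IsIntegral.isIntegral x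
      refine ⟨(IntermediateField.adjoin F S).fixingSubgroup,
        IntermediateField.fixingSubgroup_isOpen _, fun g hg => ?_⟩
      have h1 : ((e.symm g : C) : Ω ≃+* Ω) = emb α (g : AbsGal F) := by
        rw [← he, MulEquiv.apply_symm_apply]
      have h2 := hs (e.symm g) (fun x hx => by
        rw [h1, emb_apply]
        have h3 : (g : AbsGal F) (α.symm x) = α.symm x :=
          (IntermediateField.mem_fixingSubgroup_iff _ _).1 hg _
            (IntermediateField.subset_adjoin _ _ ⟨x, hx, rfl⟩)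
        rw [h3, RingEquiv.apply_symm_apply])
      rw [Subgroup.mem_comap] at h2
      simpa using h2
    · rintro ⟨U, hU, hle⟩
      obtain ⟨E, hE, hEU⟩ := (krullTopology_mem_nhds_one_iff F (AlgebraicClosure F) U).1
        (hU.mem_nhds U.one_mem)
      let b := Module.finBasis F E
      refine ⟨Finset.univ.image fun i => α (b i : AlgebraicClosure F), fun g hg => ?_⟩
      rw [Subgroup.mem_comap]
      apply hle
      show ((e g : D) : AbsGal F) ∈ U
      apply hEU
      rw [SetLike.mem_coe, IntermediateField.mem_fixingSubgroup_iff]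
      have hb : ∀ i, ((e g : D) : AbsGal F) (b i : AlgebraicClosure F) = b i := by
        intro i
        have h1 := hg (α (b i : AlgebraicClosure F))
          (Finset.mem_image_of_mem _ (Finset.mem_univ i))
        rw [← he, emb_apply, RingEquiv.symm_apply_apply] at h1
        exact α.injective h1
      intro x hx
      have h2 := b.sum_repr ⟨x, hx⟩
      have h3 : x = ∑ i, b.repr ⟨x, hx⟩ i • (b i : AlgebraicClosure F) := by
        have h4 := congrArg (fun y : E => (y : AlgebraicClosure F)) h2
        simp only [AddSubmonoidClass.coe_finsetSum, IntermediateField.coe_smul] at h4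
        exact h4.symm
      rw [h3, map_sum]
      refine Finset.sum_congr rfl fun i _ => ?_
      rw [Algebra.smul_def, map_mul, AlgEquiv.commutes, hb]
  show ((∃ s : Finset Ω, ∀ g : C, (∀ x ∈ s, (g : Ω ≃+* Ω) x = x) →
      g ∈ W.comap (e : C →* D)) ∧ (W.comap (e : C →* D)).Normal ∧
      ∃ k : ℕ, (W.comap (e : C →* D)).index = 2 ^ k) ↔
    ((∃ U : Subgroup (AbsGal F), IsOpen (U : Set (AbsGal F)) ∧ U.subgroupOf D ≤ W) ∧ W.Normal ∧
      ∃ k : ℕ, W.index = 2 ^ k)
  rw [hfin, hnorm, hidx]

theorem sysD_subSys [NumberField F] {T : Finset ℕ} {D : Subgroup (AbsGal F)} {W : Subgroup D}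
    (hW : (sysD F T D).mem W) : (subSys D).mem W := by
  have h1 := (sysD F T D).normal hW
  have h2 := (sysD F T D).index hW
  obtain ⟨W₀, hW₀, rfl⟩ := hW
  exact ⟨⟨W₀, Gn.GoodG.isOpen hW₀, le_rfl⟩, h1, h2⟩

end arith

end Pool.Agent.Work.MP_787500_nt.HP
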