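import Mathlib
import Pool.Agent.Work.MP_787500_nt.HP.Defs
import Pool.Agent.Work.MP_787500_nt.H10_Gal
import Pool.Agent.Work.MP_787500_nt.H10_Quad

/-!
All primes of the ring of algebraic integers above a prime number are conjugate to `P` or to `c P` under the absolute Galois
group of the quadratic field (the proof is that of `above_l`, `GP/S5_Sha.lean`).
-/

set_option autoImplicit false
set_option linter.unusedSectionVars false

namespace Pool.Agent.Work.MP_787500_nt.HP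

open IsDedekindDomain NumberField
open Pool.Agent.Work.MP_787500_nt.PA (TwoSys Sm1 Sm2 homs Coc Cob IsChar goodSys core cyc Opn SU)
open Pool.Agent.Work.MP_787500_nt.Gn (GoodG)
open Pool.Agent.Work.MP_787500_nt.GP

universe u

variable {K : Type u} [Field K] [NumberField K]

private theorem ak_aux {P Q : Ideal (𝓞 (AlgebraicClosure K))}
    (ρ : 𝓞 (AlgebraicClosure K) → 𝓞 (AlgebraicClosure K)) (hsub : ∀ y z, ρ (y - z) = ρ y - ρ z)
    (hsurj : Function.Surjective ρ) (hρ : ∀ y, y ∈ Q ↔ ρ y ∈ P) (x x' : AbsGal K)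
    (hx : ∀ y, ρ (x • y) = x' • ρ y) :
    (x ∈ stabD Q ↔ x' ∈ stabD P) ∧
      (x ∈ Q.inertia (AbsGal K) ↔ x' ∈ P.inertia (AbsGal K)) := by
  refine ⟨?_, ?_⟩
  · rw [mem_stabD, mem_stabD]
    constructor
    · intro h y
      obtain ⟨y, rfl⟩ := hsurj y
      rw [← hρ, ← hx, ← hρ]
      exact h y
    · intro h y
      rw [hρ, hρ (x • y), hx]
      exact h _
  · constructor
    · intro h y
      obtain ⟨y, rfl⟩ := hsurj y
      show x' • ρ y - ρ y ∈ P
      rw [← hx, ← hsub, ← hρ]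
      exact h y
    · intro h y
      show x • y - y ∈ Q
      rw [hρ, hsub, hx]
      exact h _

private theorem ak_int {l : ℕ} (hl : l.Prime) {P : Ideal (𝓞 (AlgebraicClosure K))}
    (hP : P.IsPrime) (hlP : (l : 𝓞 (AlgebraicClosure K)) ∈ P) (m : ℤ) :
    (m : 𝓞 (AlgebraicClosure K)) ∈ P ↔ (l : ℤ) ∣ m := by
  constructor
  · intro hm
    by_contra hnd
    have hp : Prime (l : ℤ) := Nat.prime_iff_prime_int.1 hl
    obtain ⟨a, b, hab⟩ := (hp.coprime_iff_not_dvd).2 hnd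
    apply hP.ne_top
    rw [Ideal.eq_top_iff_one]
    have h1 : (1 : 𝓞 (AlgebraicClosure K)) = (a : 𝓞 (AlgebraicClosure K)) * l + b * m := by
      have := congrArg (Int.cast : ℤ → 𝓞 (AlgebraicClosure K)) hab
      push_cast at this
      exact this.symm
    rw [h1]
    exact P.add_mem (P.mul_mem_left _ hlP) (P.mul_mem_left _ hm)
  · rintro ⟨k, rfl⟩
    push_cast
    exact P.mul_mem_right _ hlP

theorem above_k {q : ℕ} {s : K} (hK : IsQ K q s) {l : ℕ} (hl : l.Prime)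
    {c : AlgebraicClosure K ≃+* AlgebraicClosure K} (hc : PA.IsConj s c) {κ : AbsGal K → AbsGal K}
    (hκ : ∀ (σ : AbsGal K) (x : AlgebraicClosure K), κ σ x = c (σ (c x)))
    {P Q : Ideal (𝓞 (AlgebraicClosure K))} (hP : P.IsPrime)
    (hlP : (l : 𝓞 (AlgebraicClosure K)) ∈ P) (hQ : Q.IsPrime)
    (hlQ : (l : 𝓞 (AlgebraicClosure K)) ∈ Q) :
    ∃ g : AbsGal K, (∀ x, x ∈ stabD Q ↔ g⁻¹ * x * g ∈ stabD P) ∧
        (∀ x, x ∈ Q.inertia (AbsGal K) ↔ g⁻¹ * x * g ∈ P.inertia (AbsGal K)) ∨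
      (∀ x, x ∈ stabD Q ↔ κ (g⁻¹ * x * g) ∈ stabD P) ∧
        (∀ x, x ∈ Q.inertia (AbsGal K) ↔ κ (g⁻¹ * x * g) ∈ P.inertia (AbsGal K)) := by
  have halg : Algebra.IsAlgebraic ℚ (AlgebraicClosure K) := Algebra.IsAlgebraic.trans ℚ K _
  have hcl : IsAlgClosure ℚ (AlgebraicClosure K) := ⟨inferInstance, halg⟩
  have hgal : IsGalois ℚ (AlgebraicClosure K) := IsAlgClosure.isGalois ℚ (AlgebraicClosure K)
  have hcomap : P.comap (algebraMap (𝓞 ℚ) (𝓞 (AlgebraicClosure K))) =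
      Q.comap (algebraMap (𝓞 ℚ) (𝓞 (AlgebraicClosure K))) := by
    ext x
    obtain ⟨m, rfl⟩ : ∃ m : ℤ, x = (m : 𝓞 ℚ) := by
      refine ⟨Rat.ringOfIntegersEquiv x, ?_⟩
      have h3 := Rat.ringOfIntegersEquiv.symm_apply_apply x
      rw [← h3]
      simp
    rw [Ideal.mem_comap, Ideal.mem_comap, map_intCast, ak_int hl hP hlP,
      ak_int hl hQ hlQ]
  obtain ⟨σ, hσ⟩ := exists_smul_eq (F := ℚ) P Q hcomap
  have hsurj : Function.Surjective
      (fun y : 𝓞 (AlgebraicClosure K) => σ⁻¹ • y) := fun y => ⟨σ • y, inv_smul_smul σ y⟩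
  have hρ : ∀ y : 𝓞 (AlgebraicClosure K), y ∈ Q ↔ σ⁻¹ • y ∈ P := by
    intro y
    rw [hσ, Ideal.mem_pointwise_smul_iff_inv_smul_mem]
  have hsub : ∀ y z : 𝓞 (AlgebraicClosure K), σ⁻¹ • (y - z) = σ⁻¹ • y - σ⁻¹ • z :=
    fun y z => smul_sub _ _ _
  have hqσ : ∀ x : ℚ, σ (algebraMap ℚ (AlgebraicClosure K) x) = algebraMap ℚ _ x :=
    fun x => σ.commutes x
  obtain ⟨hK1, hK2, hK3, hK4⟩ := hK
  have hq0 : 0 < q := Nat.pos_of_ne_zero hK3.ne_zero
  have hs2 : (algebraMap K (AlgebraicClosure K) s) ^ 2 = -(q : AlgebraicClosure K) := by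
    rw [← map_pow, hK2, map_neg, map_natCast]
  have hsσ : σ (algebraMap K (AlgebraicClosure K) s) = algebraMap K (AlgebraicClosure K) s ∨
      σ (algebraMap K (AlgebraicClosure K) s) = -algebraMap K (AlgebraicClosure K) s := by
    apply sq_eq_sq_iff_eq_or_eq_neg.1
    rw [← map_pow, hs2, map_neg, map_natCast]
  -- a ring automorphism fixing the image of `s` is in the group
  have hmk : ∀ f : AlgebraicClosure K ≃+* AlgebraicClosure K,
      f (algebraMap K (AlgebraicClosure K) s) = algebraMap K (AlgebraicClosure K) s →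
      ∃ g : AbsGal K, ∀ x, g x = f x := by
    intro f hf
    refine ⟨AlgEquiv.ofRingEquiv (f := f) (fun x => ?_), fun x => rfl⟩
    obtain ⟨a, b, rfl⟩ := Quad.exists_coords hK1 hK2 hq0 x
    rw [map_add, map_mul, map_ratCast, map_ratCast, map_add, map_mul, map_ratCast, map_ratCast, hf]
  rcases hsσ with h | h
  · obtain ⟨g, hg⟩ := hmk (σ : AlgebraicClosure K ≃+* AlgebraicClosure K) h
    have hg' : ∀ x, g x = σ x := hg
    have hgi : ∀ x, g⁻¹ x = σ⁻¹ x := by
      intro x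
      apply g.injective
      have h1 : g (g⁻¹ x) = x := by
        rw [← AlgEquiv.mul_apply, mul_inv_cancel]
        rfl
      have h2 : σ (σ⁻¹ x) = x := by
        rw [← AlgEquiv.mul_apply, mul_inv_cancel]
        rfl
      rw [h1, hg', h2]
    refine ⟨g, Or.inl ?_⟩
    have h3 : ∀ (x : AbsGal K) (y : 𝓞 (AlgebraicClosure K)),
        σ⁻¹ • (x • y) = (g⁻¹ * x * g) • (σ⁻¹ • y) := by
      intro x y
      apply RingOfIntegers.ext
      show σ⁻¹ (x (algebraMap (𝓞 (AlgebraicClosure K)) (AlgebraicClosure K) y)) =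
        g⁻¹ (x (g (σ⁻¹ (algebraMap (𝓞 (AlgebraicClosure K)) (AlgebraicClosure K) y))))
      rw [← hgi, ← hgi]
      congr 2
      rw [← AlgEquiv.mul_apply, mul_inv_cancel]
      rfl
    exact ⟨fun x => (ak_aux _ hsub hsurj hρ x _ (h3 x)).1,
      fun x => (ak_aux _ hsub hsurj hρ x _ (h3 x)).2⟩
  · obtain ⟨g, hg⟩ := hmk (c.trans (σ : AlgebraicClosure K ≃+* AlgebraicClosure K)) (by
      show σ (c (algebraMap K (AlgebraicClosure K) s)) = _
      rw [hc.neg, map_neg, h, neg_neg])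
    have hg' : ∀ x, g x = σ (c x) := hg
    have hgi : ∀ x, g⁻¹ x = c (σ⁻¹ x) := by
      intro x
      apply g.injective
      have h1 : g (g⁻¹ x) = x := by
        rw [← AlgEquiv.mul_apply, mul_inv_cancel]
        rfl
      have h2 : σ (σ⁻¹ x) = x := by
        rw [← AlgEquiv.mul_apply, mul_inv_cancel]
        rfl
      rw [h1, hg', hc.sq, h2]
    refine ⟨g, Or.inr ?_⟩
    have h3 : ∀ (x : AbsGal K) (y : 𝓞 (AlgebraicClosure K)),
        σ⁻¹ • (x • y) = (κ (g⁻¹ * x * g)) • (σ⁻¹ • y) := by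
      intro x y
      apply RingOfIntegers.ext
      show σ⁻¹ (x (algebraMap (𝓞 (AlgebraicClosure K)) (AlgebraicClosure K) y)) =
        κ (g⁻¹ * x * g) (σ⁻¹ (algebraMap (𝓞 (AlgebraicClosure K)) (AlgebraicClosure K) y))
      rw [hκ]
      show _ = c (g⁻¹ (x (g (c (σ⁻¹ (algebraMap (𝓞 (AlgebraicClosure K)) (AlgebraicClosure K) y))))))
      rw [hg', hc.sq, hgi, hc.sq]
      congr 2
      rw [← AlgEquiv.mul_apply, mul_inv_cancel]
      rfl
    exact ⟨fun x => (ak_aux _ hsub hsurj hρ x _ (h3 x)).1,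
      fun x => (ak_aux _ hsub hsurj hρ x _ (h3 x)).2⟩

end Pool.Agent.Work.MP_787500_nt.HP
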