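import Mathlib
import Pool.Agent.Work.MP_787500_nt.HP.AboveK
import Pool.Agent.Work.MP_787500_nt.HN.ShaT
import Pool.Agent.Work.MP_787500_nt.PA.KapK

/-!
# Module SHAK (size M): local conditions at the chosen primes suffice

* `lcob_of`: `Cob (subSys C) ⊤ (f|)` gives `z : C → ZMod 2` and a member `W` of `subSys C`, `U.subgroupOf C ≤ W` with `U` open; extend `z` by 0 to `G`: `LCob C f` with `U' = U`.
* `lcob_conj`: as `cob_conj` in `GP/S5_Sha.lean`: `z' x = z (g⁻¹ x g) + (f x g + f g (g⁻¹ x g))` for `x ∈ C'`; it is constant on the cosets of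
  `g U' g⁻¹ ⊓ W ⊓ g W g⁻¹` where `f` is smooth for the open normal `W` (`hopen`).
* `lcob_kap`: `z' x = z (κ x)`, with the open subgroup `U'.comap κ` (`hκc`).
* `sha_K`: `HN.sha_sysT`. Let `Q` be a prime that contains `2` or some `l ∈ T`; `w = none` or `some l`; `above_k` for `PP P w` and `Q` gives `g`; in the first case
  `lcob_conj` with `C = stabD (PP P w)`, in the second case `C = (stabD (PP P w)).comap κ` and `lcob_kap` first (`fun a b => f (κ a) (κ b)` restricted to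
  `stabD (PP P w)`, `κ (κ a) = a`). Continuity of `κ`: `PA.kappa_continuous`.
* `inj_K`: the same for homomorphisms: `ω (g⁻¹ x g) = ω x`; then `HN.InjT`.
-/

set_option autoImplicit false
set_option linter.unusedSectionVars false

namespace Pool.Agent.Work.MP_787500_nt.HP

open IsDedekindDomain NumberField
open Pool.Agent.Work.MP_787500_nt.PA (TwoSys Sm1 Sm2 homs Coc Cob IsChar cyc Opn)
open Pool.Agent.Work.MP_787500_nt.GP
open Pool.Agent.Work.MP_787500_nt.HN (LCob OddT InjT)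

universe u

section generic

variable {G : Type*} [Group G] [TopologicalSpace G] [IsTopologicalGroup G]

theorem lcob_of {C : Subgroup G} {f : G → G → ZMod 2}
    (h : Cob (subSys C) ⊤ (fun a b => f (a : G) (b : G))) : LCob C f := by
  classical
  obtain ⟨z, ⟨W, ⟨⟨U, hU, hUW⟩, -, -⟩, hz⟩, hz2⟩ := h
  refine ⟨fun g => if h : g ∈ C then z ⟨g, h⟩ else 0, ⟨U, hU, fun g hg w hw => ?_⟩,
    fun g hg k hk => ?_⟩
  · simp only
    rw [dif_pos hg, dif_pos (C.mul_mem hg hw.1)]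
    exact hz ⟨g, hg⟩ ⟨w, hw.1⟩ (hUW hw.2)
  · simp only
    rw [dif_pos hg, dif_pos hk, dif_pos (C.mul_mem hg hk)]
    exact hz2 ⟨g, hg⟩ trivial ⟨k, hk⟩ trivial

theorem lcob_conj {S : TwoSys G} (hopen : ∀ W, S.mem W → IsOpen (W : Set G)) {f : G → G → ZMod 2}
    (hf : Coc S ⊤ f) {C C' : Subgroup G} (g : G) (hC : ∀ x, x ∈ C' → g⁻¹ * x * g ∈ C)
    (h : LCob C f) : LCob C' f := by
  obtain ⟨⟨W, hW, hfW⟩, hcoc⟩ := hf
  obtain ⟨z, ⟨U, hU, hz1⟩, hz⟩ := h
  have hn : W.Normal := S.normal hW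
  refine ⟨fun x => z (g⁻¹ * x * g) + (f x g + f g (g⁻¹ * x * g)),
    ⟨U.comap (MulAut.conj g⁻¹).toMonoidHom ⊓ W, ?_, fun x hx w hw => ?_⟩, fun x hx y hy => ?_⟩
  · refine IsOpen.inter ?_ (hopen W hW)
    refine hU.preimage ?_
    change Continuous fun x => g⁻¹ * x * (g⁻¹)⁻¹
    fun_prop
  · have h0 : g⁻¹ * w * g ∈ U := by
      have : g⁻¹ * w * (g⁻¹)⁻¹ ∈ U := hw.2.1
      rwa [inv_inv] at this
    have h1 : g⁻¹ * w * g ∈ W := by
      have := hn.conj_mem w hw.2.2 g⁻¹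
      rwa [inv_inv] at this
    have h2 : g⁻¹ * (x * w) * g = g⁻¹ * x * g * (g⁻¹ * w * g) := by group
    simp only [h2]
    rw [hz1 _ (hC x hx) _ ⟨hC w hw.1, h0⟩]
    have h3 := hfW x g w hw.2.2 1 W.one_mem
    rw [mul_one] at h3
    have h4 := hfW g (g⁻¹ * x * g) 1 W.one_mem _ h1
    rw [mul_one] at h4
    rw [h3, h4]
  · have hx' := hC x hx
    have hy' := hC y hy
    have h0 := hz _ hx' _ hy'
    have hxy : g⁻¹ * x * g * (g⁻¹ * y * g) = g⁻¹ * (x * y) * g := by group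
    rw [hxy] at h0
    have e1 := hcoc x trivial y trivial g trivial
    have e2 := hcoc x trivial g trivial (g⁻¹ * y * g) trivial
    have e3 := hcoc g trivial (g⁻¹ * x * g) trivial (g⁻¹ * y * g) trivial
    have h5 : g * (g⁻¹ * y * g) = y * g := by group
    have h6 : g * (g⁻¹ * x * g) = x * g := by group
    rw [h5] at e2
    rw [h6, hxy] at e3
    simp only
    generalize f x y = a1 at *
    generalize f (x * y) g = a2 at *
    generalize f y g = a3 at *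
    generalize f x (y * g) = a4 at *
    generalize f x g = a5 at *
    generalize f (x * g) (g⁻¹ * y * g) = a6 at *
    generalize f g (g⁻¹ * y * g) = a7 at *
    generalize f g (g⁻¹ * x * g) = a8 at *
    generalize f (g⁻¹ * x * g) (g⁻¹ * y * g) = a9 at *
    generalize f g (g⁻¹ * (x * y) * g) = a10 at *
    rw [h0] at e3
    generalize z (g⁻¹ * x * g) = b1 at *
    generalize z (g⁻¹ * y * g) = b2 at *
    generalize z (g⁻¹ * (x * y) * g) = b3 at *
    have hadd : ∀ x : ZMod 2, x + x = 0 := by decide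
    have hneg : ∀ x y : ZMod 2, x = y ↔ x + y = 0 := by decide
    rw [hneg] at e1 e2 e3 ⊢
    have : a1 + (b1 + (a5 + a8) + (b2 + (a3 + a7)) + (b3 + (a2 + a10))) =
        (a1 + a2 + (a3 + a4)) + (a5 + a6 + (a7 + a4)) + (a8 + a6 + (b1 + b2 + b3 + a10)) := by
      have h4 := hadd a4
      have h6 := hadd a6
      linear_combination -h4 - h6
    rw [this, e1, e2, e3]
    simp

theorem lcob_kap {κ : G →* G} (hκc : Continuous κ) (kk : ∀ g, κ (κ g) = g) {f : G → G → ZMod 2}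
    {C : Subgroup G} (h : LCob C (fun a b => f (κ a) (κ b))) : LCob (C.comap κ) f := by
  obtain ⟨z, ⟨U, hU, hz1⟩, hz⟩ := h
  refine ⟨fun x => z (κ x), ⟨U.comap κ, hU.preimage hκc, fun x hx w hw => ?_⟩,
    fun x hx y hy => ?_⟩
  · simp only
    rw [map_mul]
    exact hz1 _ hx _ ⟨hw.1, hw.2⟩
  · have h1 : f (κ (κ x)) (κ (κ y)) = z (κ x) + z (κ y) + z (κ x * κ y) := hz _ hx _ hy
    rw [kk, kk] at h1
    simp only
    rw [h1, map_mul]

end generic

variable {K : Type u} [Field K] [NumberField K] {D : ℕ} {s : K}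
  {c : AlgebraicClosure K ≃+* AlgebraicClosure K} {κ : AbsGal K →* AbsGal K} {T : Finset ℕ}
  {P : ℕ → Ideal (𝓞 (AlgebraicClosure K))}

private theorem kap_kap (hc : PA.IsConj s c)
    (hκ : ∀ (σ : AbsGal K) (x : AlgebraicClosure K), κ σ x = c (σ (c x))) (g : AbsGal K) :
    κ (κ g) = g := by
  ext x
  rw [hκ, hκ, hc.sq, hc.sq]

private theorem exists_w (hP : IsP T P) {Q : Ideal (𝓞 (AlgebraicClosure K))}
    (h : (2 : 𝓞 (AlgebraicClosure K)) ∈ Q ∨ ∃ l ∈ T, (l : 𝓞 (AlgebraicClosure K)) ∈ Q) :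
    ∃ (w : Option T) (l : ℕ), l.Prime ∧ (PP P w).IsPrime ∧
      (l : 𝓞 (AlgebraicClosure K)) ∈ PP P w ∧ (l : 𝓞 (AlgebraicClosure K)) ∈ Q := by
  rcases h with h | ⟨l, hl, h⟩
  · exact ⟨none, 2, Nat.prime_two, hP.isPrime 2 (Or.inr rfl), hP.mem 2 (Or.inr rfl),
      by exact_mod_cast h⟩
  · exact ⟨some ⟨l, hl⟩, l, hP.prime l hl, hP.isPrime l (Or.inl hl), hP.mem l (Or.inl hl), h⟩

theorem sha_K [IsTotallyComplex K] (hK : IsQ K D s) (hc : PA.IsConj s c)
    (hκ : ∀ (σ : AbsGal K) (x : AlgebraicClosure K), κ σ x = c (σ (c x)))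
    (hO : OddT K T) (hP : IsP T P) {f : AbsGal K → AbsGal K → ZMod 2}
    (hf : Coc (sysT K T) ⊤ f)
    (h1 : ∀ w : Option T, Cob (subSys (stabD (PP P w))) ⊤ (fun a b => f a b))
    (h2 : ∀ w : Option T, Cob (subSys (stabD (PP P w))) ⊤ (fun a b => f (κ a) (κ b))) :
    Cob (sysT K T) ⊤ f := by
  have hopen : ∀ W, (sysT K T).mem W → IsOpen (W : Set (AbsGal K)) :=
    fun W hW => Gn.GoodG.isOpen hW
  have hκc : Continuous κ := PA.kappa_continuous (κ := κ) hc.sq hκ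
  refine HN.sha_sysT hO hf fun Q hQ hQl => ?_
  obtain ⟨w, l, hl, hPp, hlP, hlQ⟩ := exists_w hP hQl
  obtain ⟨g, hg | hg⟩ := above_k hK hl hc (κ := κ) hκ hPp hlP hQ hlQ
  · exact lcob_conj hopen hf g (fun x hx => (hg.1 x).1 hx) (lcob_of (h1 w))
  · refine lcob_conj hopen hf (C := (stabD (PP P w)).comap κ) g (fun x hx => (hg.1 x).1 hx) ?_
    exact lcob_kap hκc (kap_kap hc hκ) (lcob_of (f := fun a b => f (κ a) (κ b)) (h2 w))

theorem inj_K (hK : IsQ K D s) (hc : PA.IsConj s c)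
    (hκ : ∀ (σ : AbsGal K) (x : AlgebraicClosure K), κ σ x = c (σ (c x)))
    (hI : InjT K T) (hP : IsP T P) {ω : AbsGal K → ZMod 2} (hω : ω ∈ homs (sysT K T) ⊤)
    (h1 : ∀ (w : Option T) (d : stabD (PP P w)), ω d = 0)
    (h2 : ∀ (w : Option T) (d : stabD (PP P w)), ω (κ d) = 0) : ω = 0 := by
  have hmul : ∀ a b : AbsGal K, ω (a * b) = ω a + ω b := fun a b => hω.2.2 a trivial b trivial
  have hone : ω 1 = 0 := by
    have := hmul 1 1
    rw [mul_one] at this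
    exact left_eq_add.1 this
  have hconj : ∀ g x : AbsGal K, ω (g⁻¹ * x * g) = ω x := by
    intro g x
    have h3 : ω g⁻¹ + ω g = 0 := by rw [← hmul, inv_mul_cancel, hone]
    rw [hmul, hmul]
    linear_combination h3
  refine hI ω hω fun Q hQ hQl x hx => ?_
  obtain ⟨w, l, hl, hPp, hlP, hlQ⟩ := exists_w hP hQl
  obtain ⟨g, hg | hg⟩ := above_k hK hl hc (κ := κ) hκ hPp hlP hQ hlQ
  · rw [← hconj g x]
    exact h1 w ⟨_, (hg.1 x).1 hx⟩
  · have h3 := h2 w ⟨_, (hg.1 x).1 hx⟩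
    rw [← hconj g x]
    rw [← kap_kap hc hκ (g⁻¹ * x * g)]
    exact h3

end Pool.Agent.Work.MP_787500_nt.HP
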