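import Mathlib
import Pool.Agent.Work.MP_787500_nt.HP.EmbBasic

/-!
# Module SPLT (size M): decomposition and inertia groups and the square root of `-D`

`t = α (algebraMap K _ s)`, `t ^ 2 = -D`, an algebraic integer. `K = ℚ + ℚ s` (`hK.deg`, `s ∉ ℚ` because `-D < 0`), so by `emb_iff` an
automorphism `g` is in the image of `emb α` iff `g t = t`; always `g t = t` or `g t = -t`. `D` is odd.
* `stb_le`: suppose `g t = -t`, `g ∈ stb Q`, `l ∈ Q`.
  (1) `l` odd, `l ∣ A ^ 2 + D`: `(A - t) * (A + t) = A ^ 2 + D ∈ Q`, so one of the factors is in `Q`, hence both (apply `g`), so `2 A ∈ Q`;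
  but `2 A` is prime to `l` (`l ∤ D`), so `1 ∈ Q`. (2) `l = 2`: `w = (1 + t) / 2` is an algebraic integer (`w ^ 2 - w + (1 + D) / 4 = 0`), `(1 + D) / 4` is
  even, so `w * (w - 1) ∈ Q`; `g w = 1 - w`; so `w ∈ Q ↔ 1 - w ∈ Q`, contradiction.
* `stb_equiv`: from `stb_le`, `emb_inj`, `emb_stb`.
* `inr_le`: if `g t = -t` then `g t - t = -2 t ∈ Q`, so `4 D ∈ Q`, so `2 ∈ Q` or some prime divisor of `D` is in `Q`. Then `emb_inr`.
* `inr_neg`: `D = p * D'`, `p ∤ D'`. Let `x ^ 2 = p`, `y ^ 2 = -D'` in `Ω`: `t = ± x y`. `g y = ± y`; `g y = -y` would give `-2 y ∈ Q`, so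
  `4 * D' ∈ Q`, and `p ∈ Q`: contradiction. So `g t = ± (g x) y = -t`.
* `nat_mem`: if `l` is a prime number in `Q` then `(n : 𝓞 Ω) ∈ Q ↔ l ∣ n` (Bezout).
-/

set_option autoImplicit false
set_option linter.unusedSectionVars false

namespace Pool.Agent.Work.MP_787500_nt.HP

open IsDedekindDomain NumberField
open Pool.Agent.Work.MP_787500_nt.PA (TwoSys Sm1 Sm2 homs Coc Cob IsChar cyc Opn)
open Pool.Agent.Work.MP_787500_nt.GP

universe u v

theorem nat_mem {Ω : Type u} [Field Ω] {l : ℕ} (hl : l.Prime) {Q : Ideal (𝓞 Ω)} (hQ : Q.IsPrime)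
    (hlQ : (l : 𝓞 Ω) ∈ Q) (n : ℤ) : (n : 𝓞 Ω) ∈ Q ↔ (l : ℤ) ∣ n := by
  constructor
  · intro hn
    by_contra hcon
    obtain ⟨a, b, hab⟩ : IsCoprime (l : ℤ) n :=
      (Nat.prime_iff_prime_int.1 hl).irreducible.coprime_iff_not_dvd.2 hcon
    apply hQ.ne_top
    rw [Ideal.eq_top_iff_one]
    have h1 : (1 : 𝓞 Ω) = (a : 𝓞 Ω) * (l : 𝓞 Ω) + (b : 𝓞 Ω) * (n : 𝓞 Ω) := by
      have := congrArg (Int.cast : ℤ → 𝓞 Ω) hab
      push_cast at this
      exact this.symm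
    rw [h1]
    exact Q.add_mem (Q.mul_mem_left _ hlQ) (Q.mul_mem_left _ hn)
  · rintro ⟨k, rfl⟩
    push_cast
    exact Q.mul_mem_right _ hlQ

private theorem sp_ext {Ω : Type u} [Field Ω] {x y : 𝓞 Ω}
    (h : algebraMap (𝓞 Ω) Ω x = algebraMap (𝓞 Ω) Ω y) : x = y := RingOfIntegers.ext h

private theorem sp_og {Ω : Type u} [Field Ω] (g : Ω ≃+* Ω) (x : 𝓞 Ω) :
    algebraMap (𝓞 Ω) Ω (og g x) = g (algebraMap (𝓞 Ω) Ω x) := rfl

private theorem mk_int {Ω : Type u} [Field Ω] {t : Ω} {n : ℤ} (h : t ^ 2 = (n : Ω)) :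
    ∃ tt : 𝓞 Ω, algebraMap (𝓞 Ω) Ω tt = t ∧ tt ^ 2 = (n : 𝓞 Ω) := by
  have h1 : IsIntegral ℤ (t ^ 2) := by
    rw [h]
    have := isIntegral_algebraMap (R := ℤ) (A := Ω) (x := n)
    simpa using this
  obtain ⟨tt, htt⟩ : ∃ tt : 𝓞 Ω, algebraMap (𝓞 Ω) Ω tt = t :=
    ⟨⟨t, IsIntegral.of_pow (by norm_num : 0 < 2) h1⟩, rfl⟩
  refine ⟨tt, htt, sp_ext ?_⟩
  rw [map_pow, map_intCast, htt]
  exact h

variable {Ω : Type u} [Field Ω] [CharZero Ω] [IsAlgClosed Ω] {K : Type v} [Field K] [NumberField K]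
  (α : AlgebraicClosure K ≃+* Ω) {D : ℕ} {s : K}

private theorem t_sq (hK : IsQ K D s) :
    (α (algebraMap K (AlgebraicClosure K) s)) ^ 2 = ((-(D : ℤ) : ℤ) : Ω) := by
  rw [← map_pow, ← map_pow, hK.sq]
  simp

private theorem dpos (hK : IsQ K D s) : 0 < D := by
  have := hK.mod
  omega

private theorem top_of (hK : IsQ K D s) : IntermediateField.adjoin ℚ {s} = ⊤ := by
  have h1 : Module.finrank ℚ (IntermediateField.adjoin ℚ {s}) ∣ 2 := by
    rw [← hK.deg]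
    exact ⟨_, (Module.finrank_mul_finrank ℚ (IntermediateField.adjoin ℚ {s}) K).symm⟩
  rcases (Nat.dvd_prime Nat.prime_two).1 h1 with h2 | h2
  · exfalso
    rw [IntermediateField.finrank_adjoin_simple_eq_one_iff] at h2
    obtain ⟨q, hq⟩ := IntermediateField.mem_bot.1 h2
    have h3 := hK.sq
    rw [← hq] at h3
    have h4 : algebraMap ℚ K (q ^ 2) = algebraMap ℚ K (-(D : ℚ)) := by
      rw [map_pow, h3]; simp
    have h5 := (algebraMap ℚ K).injective h4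
    have h6 : (0 : ℚ) < D := by exact_mod_cast dpos hK
    nlinarith [sq_nonneg q]
  · apply IntermediateField.eq_of_le_of_finrank_eq le_top
    rw [h2, IntermediateField.finrank_top', hK.deg]

theorem emb_sq (hK : IsQ K D s) (g : Ω ≃+* Ω) : (∃ σ, emb α σ = g) ↔
    g (α (algebraMap K (AlgebraicClosure K) s)) = α (algebraMap K (AlgebraicClosure K) s) := by
  rw [emb_iff]
  constructor
  · exact fun h => h s
  · intro h x
    have hx : x ∈ IntermediateField.adjoin ℚ {s} := by rw [top_of hK]; trivial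
    refine IntermediateField.adjoin_induction ℚ
      (p := fun x _ => g (α (algebraMap K (AlgebraicClosure K) x)) =
        α (algebraMap K (AlgebraicClosure K) x)) ?_ ?_ ?_ ?_ ?_ hx
    · rintro y rfl
      exact h
    · intro q
      simp
    · intro y z _ _ hy hz
      simp only [map_add, hy, hz]
    · intro y _ hy
      simp only [map_inv₀, hy]
    · intro y z _ _ hy hz
      simp only [map_mul, hy, hz]

theorem sq_or (hK : IsQ K D s) (g : Ω ≃+* Ω) :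
    g (α (algebraMap K (AlgebraicClosure K) s)) = α (algebraMap K (AlgebraicClosure K) s) ∨
    g (α (algebraMap K (AlgebraicClosure K) s)) = -α (algebraMap K (AlgebraicClosure K) s) := by
  apply sq_eq_sq_iff_eq_or_eq_neg.1
  rw [← map_pow, t_sq α hK, map_intCast]

private theorem one_notMem {Q : Ideal (𝓞 Ω)} (hQ : Q.IsPrime) : (1 : 𝓞 Ω) ∉ Q := fun h =>
  hQ.ne_top ((Ideal.eq_top_iff_one Q).2 h)

theorem stb_le (hK : IsQ K D s) {l : ℕ} (hl : l = 2 ∨ Spl D l) {Q : Ideal (𝓞 Ω)} (hQ : Q.IsPrime)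
    (hlQ : (l : 𝓞 Ω) ∈ Q) {g : Ω ≃+* Ω} (hg : g ∈ stb Q) : ∃ σ, emb α σ = g := by
  rw [emb_sq α hK]
  rcases sq_or α hK g with h | h
  · exact h
  exfalso
  have ht2 := t_sq α hK
  set t := α (algebraMap K (AlgebraicClosure K) s) with ht
  obtain ⟨tt, htt, htt2⟩ := mk_int ht2
  have hog : og g tt = -tt := sp_ext (by rw [sp_og, htt, h, map_neg, htt])
  rcases hl with rfl | ⟨hlp, hl2, hlD, A, hA⟩
  · obtain ⟨k, hk⟩ : ∃ k : ℕ, D + 1 = 8 * k := ⟨(D + 1) / 8, by have := hK.mod; omega⟩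
    have hkΩ : (D : Ω) + 1 = 8 * k := by exact_mod_cast hk
    have h2 : (2 : Ω) ≠ 0 := two_ne_zero
    have hwr : ((1 + t) / 2) ^ 2 - (1 + t) / 2 + 2 * (k : Ω) = 0 := by
      have : t ^ 2 = -(D : Ω) := by rw [ht2]; push_cast; ring
      linear_combination (1 / 4 : Ω) * this - (1 / 4 : Ω) * hkΩ
    have hw : IsIntegral ℤ ((1 + t) / 2) := by
      refine ⟨Polynomial.X ^ 2 - Polynomial.X + Polynomial.C (2 * (k : ℤ)), by monicity!, ?_⟩
      simpa using hwr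
    obtain ⟨w, hww⟩ : ∃ w : 𝓞 Ω, algebraMap (𝓞 Ω) Ω w = (1 + t) / 2 := ⟨⟨_, hw⟩, rfl⟩
    have hgw : og g w = 1 - w := sp_ext (by
      rw [sp_og, hww, map_div₀, map_add, map_one, h, map_ofNat, map_sub, hww, map_one]
      field_simp
      ring)
    have hprod : w * (w - 1) = -(k : 𝓞 Ω) * 2 := sp_ext (by
      simp only [map_mul, map_sub, map_one, map_neg, map_natCast, map_ofNat]
      rw [hww]
      linear_combination hwr)
    have h2Q : (2 : 𝓞 Ω) ∈ Q := by exact_mod_cast hlQ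
    have hmem : w * (w - 1) ∈ Q := by
      rw [hprod]; exact Q.mul_mem_left _ h2Q
    have hiff := (mem_stb.1 hg) w
    rw [hgw] at hiff
    rcases hQ.mem_or_mem hmem with h3 | h3
    · have h4 := hiff.1 h3
      apply one_notMem hQ
      have := Q.add_mem h3 h4
      rwa [add_sub_cancel] at this
    · have h4 : 1 - w ∈ Q := by
        have := Q.neg_mem h3
        rwa [neg_sub] at this
      have h5 := hiff.2 h4
      apply one_notMem hQ
      have := Q.add_mem h5 h4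
      rwa [add_sub_cancel] at this
  · have hprod : ((A : 𝓞 Ω) - tt) * ((A : 𝓞 Ω) + tt) = ((A ^ 2 + (D : ℤ) : ℤ) : 𝓞 Ω) := by
      push_cast
      push_cast at htt2
      linear_combination -htt2
    have hmem : ((A : 𝓞 Ω) - tt) * ((A : 𝓞 Ω) + tt) ∈ Q := by
      rw [hprod]; exact (nat_mem hlp hQ hlQ _).2 hA
    have hiff := (mem_stb.1 hg) ((A : 𝓞 Ω) - tt)
    have hog2 : og g ((A : 𝓞 Ω) - tt) = (A : 𝓞 Ω) + tt := by
      rw [map_sub, hog, map_intCast]; ring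
    rw [hog2] at hiff
    have hboth : ((A : 𝓞 Ω) - tt) ∈ Q ∧ ((A : 𝓞 Ω) + tt) ∈ Q := by
      rcases hQ.mem_or_mem hmem with h3 | h3
      · exact ⟨h3, hiff.1 h3⟩
      · exact ⟨hiff.2 h3, h3⟩
    have h2A : ((2 * A : ℤ) : 𝓞 Ω) ∈ Q := by
      have := Q.add_mem hboth.1 hboth.2
      have e : (A : 𝓞 Ω) - tt + ((A : 𝓞 Ω) + tt) = ((2 * A : ℤ) : 𝓞 Ω) := by push_cast; ring
      rwa [e] at this
    have h3 := (nat_mem hlp hQ hlQ _).1 h2A
    have hlp' := Nat.prime_iff_prime_int.1 hlp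
    have h4 : (l : ℤ) ∣ A := by
      rcases hlp'.dvd_or_dvd h3 with h5 | h5
      · exfalso
        have : l ∣ 2 := by exact_mod_cast h5
        exact hl2 ((Nat.prime_dvd_prime_iff_eq hlp Nat.prime_two).1 this)
      · exact h5
    have h6 : (l : ℤ) ∣ D := by
      have h7 : (l : ℤ) ∣ A ^ 2 := dvd_pow h4 (by norm_num)
      exact (Int.dvd_iff_dvd_of_dvd_add hA).1 h7
    exact hlD (by exact_mod_cast h6)

theorem stb_equiv (hK : IsQ K D s) {l : ℕ} (hl : l = 2 ∨ Spl D l) {Q : Ideal (𝓞 Ω)}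
    (hQ : Q.IsPrime) (hlQ : (l : 𝓞 Ω) ∈ Q) :
    ∃ e : stb Q ≃* stabD (pb α Q), ∀ g, emb α (e g) = (g : Ω ≃+* Ω) := by
  let f : stabD (pb α Q) →* stb Q :=
    { toFun := fun σ => ⟨emb α (σ : AbsGal K), (emb_stb α).2 σ.2⟩
      map_one' := Subtype.ext (map_one (emb α))
      map_mul' := fun σ τ => Subtype.ext (map_mul (emb α) (σ : AbsGal K) τ) }
  have hf : Function.Bijective f := by
    constructor
    · intro σ τ h
      exact Subtype.ext (emb_inj α (congrArg Subtype.val h))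
    · intro g
      obtain ⟨σ, hσ⟩ := stb_le α hK hl hQ hlQ g.2
      refine ⟨⟨σ, (emb_stb α).1 ?_⟩, Subtype.ext hσ⟩
      rw [hσ]; exact g.2
  refine ⟨(MulEquiv.ofBijective f hf).symm, fun g => ?_⟩
  exact congrArg Subtype.val ((MulEquiv.ofBijective f hf).apply_symm_apply g)

private theorem natprod_mem {Q : Ideal (𝓞 Ω)} (hQ : Q.IsPrime) {n : ℕ} (hn : n ≠ 0)
    (h : (n : 𝓞 Ω) ∈ Q) : ∃ p : ℕ, p.Prime ∧ p ∣ n ∧ (p : 𝓞 Ω) ∈ Q := by
  induction n using Nat.recOnMul with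
  | zero => exact absurd rfl hn
  | one => exact absurd (by simpa using h) (one_notMem hQ)
  | prime p hp => exact ⟨p, hp, dvd_rfl, h⟩
  | mul a b ha hb =>
    have ha0 : a ≠ 0 := left_ne_zero_of_mul hn
    have hb0 : b ≠ 0 := right_ne_zero_of_mul hn
    rw [Nat.cast_mul] at h
    rcases hQ.mem_or_mem h with h1 | h1
    · obtain ⟨p, hp, hd, hm⟩ := ha ha0 h1
      exact ⟨p, hp, hd.mul_right b, hm⟩
    · obtain ⟨p, hp, hd, hm⟩ := hb hb0 h1
      exact ⟨p, hp, hd.mul_left a, hm⟩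

theorem inr_le (hK : IsQ K D s) {Q : Ideal (𝓞 Ω)} (hQ : Q.IsPrime) (h2 : (2 : 𝓞 Ω) ∉ Q)
    (hD : ∀ p : ℕ, p.Prime → p ∣ D → (p : 𝓞 Ω) ∉ Q) {g : Ω ≃+* Ω} (hg : g ∈ inr Q) :
    ∃ σ ∈ (pb α Q).inertia (AbsGal K), emb α σ = g := by
  have hfix : g (α (algebraMap K (AlgebraicClosure K) s)) =
      α (algebraMap K (AlgebraicClosure K) s) := by
    rcases sq_or α hK g with h | h
    · exact h
    exfalso
    have ht2 := t_sq α hK
    set t := α (algebraMap K (AlgebraicClosure K) s) with ht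
    obtain ⟨tt, htt, htt2⟩ := mk_int ht2
    have hog : og g tt = -tt := sp_ext (by rw [sp_og, htt, h, map_neg, htt])
    have h3 := (mem_inr.1 hg) tt
    rw [hog] at h3
    have h4 : (2 : 𝓞 Ω) * tt ∈ Q := by
      have := Q.neg_mem h3
      have e : -(-tt - tt) = 2 * tt := by ring
      rwa [e] at this
    rcases hQ.mem_or_mem h4 with h5 | h5
    · exact h2 h5
    · have h6 : tt ^ 2 ∈ Q := by rw [pow_two]; exact Q.mul_mem_left _ h5
      rw [htt2] at h6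
      push_cast at h6
      have h7 : (D : 𝓞 Ω) ∈ Q := by
        have := Q.neg_mem h6
        rwa [neg_neg] at this
      obtain ⟨p, hp, hd, hm⟩ := natprod_mem hQ (dpos hK).ne' h7
      exact hD p hp hd hm
  obtain ⟨σ, hσ⟩ := (emb_sq α hK g).2 hfix
  refine ⟨σ, (emb_inr α).1 ?_, hσ⟩
  rw [hσ]; exact hg

theorem inr_neg (hK : IsQ K D s) {p : ℕ} (hp : p.Prime) (hpD : p ∣ D) {Q : Ideal (𝓞 Ω)}
    (hQ : Q.IsPrime) (hpQ : (p : 𝓞 Ω) ∈ Q) {g : Ω ≃+* Ω} (hg : g ∈ inr Q)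
    (h : ∀ x : Ω, x ^ 2 = (p : Ω) → g x = -x) :
    g (α (algebraMap K (AlgebraicClosure K) s)) = -α (algebraMap K (AlgebraicClosure K) s) := by
  obtain ⟨D', hD'⟩ := hpD
  have hpD' : ¬ p ∣ D' := by
    intro hcon
    have h1 : p * p ∣ D := by rw [hD']; exact mul_dvd_mul_left p hcon
    exact hp.one_lt.ne' (Nat.isUnit_iff.1 (hK.sqf p h1))
  obtain ⟨x, hx⟩ := IsAlgClosed.exists_pow_nat_eq ((p : ℕ) : Ω) (n := 2) (by norm_num)
  obtain ⟨y, hy⟩ := IsAlgClosed.exists_pow_nat_eq ((-(D' : ℤ) : ℤ) : Ω) (n := 2) (by norm_num)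
  have ht2 := t_sq α hK
  set t := α (algebraMap K (AlgebraicClosure K) s) with ht
  have hgx := h x hx
  have hgy2 : (g y) ^ 2 = y ^ 2 := by rw [← map_pow, hy, map_intCast]
  have hgy : g y = y := by
    rcases sq_eq_sq_iff_eq_or_eq_neg.1 hgy2 with h1 | h1
    · exact h1
    exfalso
    obtain ⟨yy, hyy, hyy2⟩ := mk_int hy
    have hog : og g yy = -yy := sp_ext (by rw [sp_og, hyy, h1, map_neg, hyy])
    have h3 := (mem_inr.1 hg) yy
    rw [hog] at h3
    have h4 : ((-4 * (D' : ℤ) : ℤ) : 𝓞 Ω) ∈ Q := by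
      have h5 : (-yy - yy) * (-yy - yy) ∈ Q := Q.mul_mem_left _ h3
      have e : (-yy - yy) * (-yy - yy) = ((-4 * (D' : ℤ) : ℤ) : 𝓞 Ω) := by
        push_cast
        push_cast at hyy2
        linear_combination 4 * hyy2
      rwa [e] at h5
    have h5 := (nat_mem hp hQ hpQ _).1 h4
    have hpo : p ≠ 2 := by
      rintro rfl
      have := hK.mod
      omega
    have hp' := Nat.prime_iff_prime_int.1 hp
    rcases hp'.dvd_or_dvd h5 with h6 | h6
    · have h7 : (p : ℤ) ∣ 2 ^ 2 := by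
        have := (dvd_neg (a := (p : ℤ)) (b := 4)).1 h6
        norm_num
        exact this
      have h8 := hp'.dvd_of_dvd_pow h7
      have h9 : p ∣ 2 := by exact_mod_cast h8
      exact hpo ((Nat.prime_dvd_prime_iff_eq hp Nat.prime_two).1 h9)
    · exact hpD' (by exact_mod_cast h6)
  have hxy : t ^ 2 = (x * y) ^ 2 := by
    rw [ht2, mul_pow, hx, hy, hD']
    push_cast
    ring
  rcases sq_eq_sq_iff_eq_or_eq_neg.1 hxy with h1 | h1
  · rw [h1, map_mul, hgx, hgy]; ring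
  · rw [h1, map_neg, map_mul, hgx, hgy]; ring

end Pool.Agent.Work.MP_787500_nt.HP
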