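import Mathlib
import Pool.Agent.Work.MP_787500_nt.HP.Defs
import Pool.Agent.Work.MP_787500_nt.H10_Quad

/-!
# Module PLCOUNT (size M, only Mathlib): the places above 2 and `T`, and totally complex

* `two_above`: for `l = 2` or `Spl D l` there are exactly two places of `K` that contain `l`. The conjugation `σ : K ≃+* K`, `σ s = -s`
  (`H10_Quad.lean`, `Quad.*`, or `Algebra.IsQuadraticExtension`) acts on the places. EXISTENCE: some maximal ideal `v` contains `l` (`Ideal.exists_le_maximal`, `(l) ≠ ⊤`,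
  or `Ideal.exists_ideal_over_prime_of_isIntegral`). `σ v ≠ v`: as in `HP/Splt.lean` (`stb_le`): for `l` odd, `(A - s) (A + s) = A ^ 2 + D ∈ v`; if `A - s ∈ v` and
  `A + s ∈ v` then `2 A ∈ v`, contradiction; for `l = 2` use `w = (1 + s) / 2`, `w (w - 1) = -(1 + D) / 4` even, `σ w = 1 - w`. ONLY TWO: an integer `x ∈ v ∩ σ v'`...: if `v'` is another
  place with `l ∈ v'`, `v' ≠ v`, `v' ≠ σ v`: `v`, `σ v`, `v'` are distinct primes over `l`, but there are at most `[K : ℚ] = 2` of them (Mathlib: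
  `Ideal.sum_ramification_inertia` / `Ideal.card_primesOver_le_finrank` or: choose `x ∈ v'`, `x ∉ v`, `x ∉ σ v` (prime avoidance / distinct maximal ideals, CRT), then the norm
  `x * σ x` is an integer in `v' ∩ ℤ = (l)`, so it is in `v`; so `x ∈ v` or `σ x ∈ v`, i.e. `x ∈ σ v`: contradiction. This elementary argument is the shortest: `x * σ x` is fixed
  by `σ`, integral and rational, so an integer).
* `card_places`: the union over `l ∈ {2} ∪ T` of disjoint sets (`nat_mem`-type argument: different prime numbers are not in the same place) of two elements;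
  induction over `T`, or `Finset.card_biUnion`.
* `totallyComplex`: an infinite real place would give a real embedding with `s ^ 2 = -D < 0` (`D > 0`). (`NumberField.IsTotallyComplex`: all infinite places are complex;
  `InfinitePlace.isReal_iff`, or `InfinitePlace.isComplex_iff`.)
-/

set_option autoImplicit false
set_option linter.unusedSectionVars false

namespace Pool.Agent.Work.MP_787500_nt.HP

open IsDedekindDomain NumberField

universe u

variable {K : Type u} [Field K] [NumberField K] {D : ℕ} {s : K}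

private theorem D_pos (hK : IsQ K D s) : 0 < D := by
  have := hK.mod
  omega

private theorem exists_half (hK : IsQ K D s) {S : 𝓞 K} (hS : algebraMap (𝓞 K) K S = s) :
    ∃ (w : 𝓞 K) (m : ℤ), 2 * w = 1 + S ∧ w * (w - 1) = ((2 * m : ℤ) : 𝓞 K) := by
  obtain ⟨m, hm⟩ : ∃ m : ℕ, D = 8 * m + 7 := ⟨D / 8, by have := hK.mod; omega⟩
  have h2K : (2 : K) ≠ 0 := two_ne_zero
  have hs2 := hK.sq
  have hw : IsIntegral ℤ ((1 + s) / 2 : K) := by
    refine ⟨Polynomial.X ^ 2 - Polynomial.X + Polynomial.C (2 * (m : ℤ) + 2), ?_, ?_⟩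
    · monicity!
    · simp only [Polynomial.eval₂_add, Polynomial.eval₂_sub, Polynomial.eval₂_pow,
        Polynomial.eval₂_X, Polynomial.eval₂_C]
      have h8 : (D : K) = 8 * m + 7 := by rw [hm]; push_cast; ring
      have h9 : (algebraMap ℤ K) (2 * (m : ℤ) + 2) = 2 * (m : K) + 2 := by simp
      rw [h9]
      field_simp
      rw [h8] at hs2
      linear_combination hs2
  set w : 𝓞 K := ⟨(1 + s) / 2, hw⟩ with hwdef
  have hwK : algebraMap (𝓞 K) K w = (1 + s) / 2 := rfl
  refine ⟨w, -((m : ℤ) + 1), ?_, ?_⟩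
  · apply RingOfIntegers.ext
    change algebraMap (𝓞 K) K (2 * w) = algebraMap (𝓞 K) K (1 + S)
    rw [map_mul, map_add, hwK, hS, map_one, map_ofNat]
    field_simp
  · apply RingOfIntegers.ext
    change algebraMap (𝓞 K) K (w * (w - 1)) = algebraMap (𝓞 K) K ((2 * -((m : ℤ) + 1) : ℤ) : 𝓞 K)
    rw [map_mul, map_sub, hwK, map_one, map_intCast]
    have h8 : (D : K) = 8 * m + 7 := by rw [hm]; push_cast; ring
    rw [h8] at hs2
    push_cast
    field_simp
    linear_combination hs2

theorem two_above (hK : IsQ K D s) {l : ℕ} (hl : l = 2 ∨ Spl D l) :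
    ∃ v v' : HeightOneSpectrum (𝓞 K), v ≠ v' ∧
      ∀ w : HeightOneSpectrum (𝓞 K), (l : 𝓞 K) ∈ w.asIdeal ↔ w = v ∨ w = v' := by
  have hD := D_pos hK
  have hlp : l.Prime := by
    rcases hl with h | h
    · rw [h]; exact Nat.prime_two
    · exact h.1
  obtain ⟨σ, hσ⟩ := Quad.exists_conj hK.deg hK.sq hD
  obtain ⟨S, hS, hS2⟩ := Quad.exists_int_s hK.sq
  set τ : 𝓞 K ≃+* 𝓞 K := RingOfIntegers.mapRingEquiv σ with hτ
  have hτc : ∀ x : 𝓞 K, ((τ x : 𝓞 K) : K) = σ x := fun x => rfl
  have hσσ : ∀ x : K, σ (σ x) = x := by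
    intro x
    obtain ⟨a, b, rfl⟩ := Quad.exists_coords hK.deg hK.sq hD x
    rw [map_add, map_mul, map_ratCast, map_ratCast, hσ, map_add, map_mul, map_neg, map_ratCast,
      map_ratCast, hσ, neg_neg]
  have hττ : ∀ x : 𝓞 K, τ (τ x) = x := fun x => RingOfIntegers.ext (by
    rw [hτc, hτc, hσσ])
  have hτS : τ S = -S := by
    apply RingOfIntegers.ext
    rw [hτc]
    change σ (algebraMap (𝓞 K) K S) = algebraMap (𝓞 K) K (-S)
    rw [map_neg, hS, hσ]
  obtain ⟨v, hv⟩ := Quad.exists_place (K := K) hlp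
  have hvp := v.isPrime
  set v' : HeightOneSpectrum (𝓞 K) := ⟨v.asIdeal.comap (τ : 𝓞 K →+* 𝓞 K),
    Ideal.comap_isPrime _ _, fun h => by
      obtain ⟨x, hx, hx0⟩ := Submodule.exists_mem_ne_zero_of_ne_bot v.ne_bot
      have h1 : τ x ∈ v.asIdeal.comap (τ : 𝓞 K →+* 𝓞 K) := by
        rw [Ideal.mem_comap]
        change τ (τ x) ∈ v.asIdeal
        rw [hττ]
        exact hx
      rw [h] at h1
      have h2 : τ x = 0 := h1
      exact hx0 ((map_eq_zero_iff τ τ.injective).1 h2)⟩ with hv'
  have hmem' : ∀ x : 𝓞 K, x ∈ v'.asIdeal ↔ τ x ∈ v.asIdeal := fun x => Iff.rfl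
  have hlv' : (l : 𝓞 K) ∈ v'.asIdeal := by
    rw [hmem', map_natCast]
    exact hv
  have hne : v ≠ v' := by
    intro heq
    have hiff : ∀ x : 𝓞 K, x ∈ v.asIdeal ↔ τ x ∈ v.asIdeal := by
      intro x
      rw [← hmem', ← heq]
    rcases hl with h2 | hspl
    · subst h2
      obtain ⟨w, m, hw1, hw2⟩ := exists_half hK hS
      have hτw : τ w = 1 - w := by
        have h2 : (2 : 𝓞 K) ≠ 0 := two_ne_zero
        have h3 : 2 * τ w = 2 * (1 - w) := by
          have h4 := congrArg τ hw1
          rw [map_mul, map_add, hτS, map_one, map_ofNat] at h4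
          rw [h4]
          linear_combination hw1
        exact mul_left_cancel₀ h2 h3
      have h5 : w * (w - 1) ∈ v.asIdeal := by
        rw [hw2]
        exact Quad.mem_of_dvd hv (by push_cast; exact dvd_mul_right _ _)
      have h6 : w ∈ v.asIdeal → False := by
        intro h
        have h7 := (hiff w).1 h
        rw [hτw] at h7
        have h8 := v.asIdeal.add_mem h h7
        rw [add_sub_cancel] at h8
        exact one_notMem v h8
      rcases hvp.mem_or_mem h5 with h | h
      · exact h6 h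
      · refine h6 ((hiff w).2 ?_)
        rw [hτw]
        have := v.asIdeal.neg_mem h
        rwa [neg_sub] at this
    · obtain ⟨-, hl2, hlD, A, hA⟩ := hspl
      have h1 : ((A : 𝓞 K) - S) * ((A : 𝓞 K) + S) ∈ v.asIdeal := by
        have h2 : ((A : 𝓞 K) - S) * ((A : 𝓞 K) + S) = ((A ^ 2 + D : ℤ) : 𝓞 K) := by
          push_cast
          linear_combination -hS2
        rw [h2]
        exact Quad.mem_of_dvd hv hA
      have hτm : τ ((A : 𝓞 K) - S) = (A : 𝓞 K) + S := by
        rw [map_sub, map_intCast, hτS, sub_neg_eq_add]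
      have hτp : τ ((A : 𝓞 K) + S) = (A : 𝓞 K) - S := by
        rw [map_add, map_intCast, hτS, sub_eq_add_neg]
      have h2 : ((A : 𝓞 K) - S) ∈ v.asIdeal ∧ ((A : 𝓞 K) + S) ∈ v.asIdeal := by
        rcases hvp.mem_or_mem h1 with h | h
        · exact ⟨h, hτm ▸ (hiff _).1 h⟩
        · exact ⟨hτp ▸ (hiff _).1 h, h⟩
      have h3 : ((2 * A : ℤ) : 𝓞 K) ∈ v.asIdeal := by
        have h4 := v.asIdeal.add_mem h2.1 h2.2
        have h5 : ((A : 𝓞 K) - S) + ((A : 𝓞 K) + S) = ((2 * A : ℤ) : 𝓞 K) := by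
          push_cast; ring
        rwa [h5] at h4
      have h4 := Quad.dvd_of_mem hlp hv h3
      have hlpz := Nat.prime_iff_prime_int.1 hlp
      have h5 : (l : ℤ) ∣ A := by
        rcases hlpz.dvd_or_dvd h4 with h | h
        · exfalso
          have h6 : l ∣ 2 := by exact_mod_cast h
          exact hl2 ((Nat.prime_dvd_prime_iff_eq hlp Nat.prime_two).1 h6)
        · exact h
      have h6 : (l : ℤ) ∣ (D : ℤ) := by
        have h7 : (l : ℤ) ∣ A ^ 2 := dvd_pow h5 (by norm_num)
        have h8 := dvd_sub hA h7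
        rwa [add_sub_cancel_left] at h8
      exact hlD (by exact_mod_cast h6)
  refine ⟨v, v', hne, fun w => ⟨fun hlw => ?_, ?_⟩⟩
  · by_contra hcon
    push Not at hcon
    obtain ⟨hwv, hwv'⟩ := hcon
    have hnle : ∀ u : HeightOneSpectrum (𝓞 K), w ≠ u → ¬ w.asIdeal ≤ u.asIdeal := by
      intro u hu hle
      exact hu (HeightOneSpectrum.ext (w.isMaximal.eq_of_le u.isPrime.ne_top hle))
    have h1 : ¬ ((w.asIdeal : Set (𝓞 K)) ⊆ v.asIdeal ∪ v'.asIdeal) := by
      rw [Ideal.subset_union]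
      rintro (h | h)
      · exact hnle v hwv h
      · exact hnle v' hwv' h
    rw [Set.not_subset] at h1
    obtain ⟨x, hxw, hxn⟩ := h1
    have hx1 : x ∉ v.asIdeal := fun h => hxn (Or.inl h)
    have hx2 : τ x ∉ v.asIdeal := fun h => hxn (Or.inr h)
    obtain ⟨n, hn⟩ : ∃ n : ℤ, (n : 𝓞 K) = x * τ x := by
      obtain ⟨a, b, hab⟩ := Quad.exists_coords hK.deg hK.sq hD (x : K)
      have h2 : ((x * τ x : 𝓞 K) : K) = ((a ^ 2 + D * b ^ 2 : ℚ) : K) := by
        have h3 : ((x * τ x : 𝓞 K) : K) = (x : K) * σ x := rfl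
        rw [h3, hab, map_add, map_mul, map_ratCast, map_ratCast, hσ]
        push_cast
        linear_combination -(b : K) ^ 2 * hK.sq
      have h4 : IsIntegral ℤ (a ^ 2 + D * b ^ 2 : ℚ) := by
        have h5 : IsIntegral ℤ ((a ^ 2 + D * b ^ 2 : ℚ) : K) := by
          rw [← h2]
          exact (x * τ x).isIntegral_coe
        exact (isIntegral_algebraMap_iff (R := ℤ) (A := ℚ) (B := K)
          (algebraMap ℚ K).injective).1 (by simpa using h5)
      obtain ⟨n, hn⟩ := int_of_isIntegral_rat h4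
      refine ⟨n, RingOfIntegers.ext ?_⟩
      change algebraMap (𝓞 K) K (n : 𝓞 K) = ((x * τ x : 𝓞 K) : K)
      rw [h2, map_intCast, ← hn]
      push_cast
      rfl
    have h3 : (n : 𝓞 K) ∈ w.asIdeal := by
      rw [hn]
      exact w.asIdeal.mul_mem_right _ hxw
    have h4 := Quad.dvd_of_mem hlp hlw h3
    have h5 : (n : 𝓞 K) ∈ v.asIdeal := Quad.mem_of_dvd hv h4
    rw [hn] at h5
    rcases hvp.mem_or_mem h5 with h | h
    · exact hx1 h
    · exact hx2 h
  · rintro (rfl | rfl)
    · exact hv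
    · exact hlv'

theorem card_places (hK : IsQ K D s) {T : Finset ℕ} (hT : ∀ l ∈ T, Spl D l) :
    ∃ A : Finset (HeightOneSpectrum (𝓞 K)), (∀ v : HeightOneSpectrum (𝓞 K),
      v ∈ A ↔ (2 : 𝓞 K) ∈ v.asIdeal ∨ ∃ l ∈ T, (l : 𝓞 K) ∈ v.asIdeal) ∧
      A.card = 2 + 2 * T.card := by
  classical
  induction T using Finset.induction_on with
  | empty =>
    obtain ⟨v, v', hne, hv⟩ := two_above hK (l := 2) (Or.inl rfl)
    refine ⟨{v, v'}, fun w => ?_, ?_⟩
    · have h := hv w
      rw [Nat.cast_ofNat] at h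
      rw [h]
      simp
    · rw [Finset.card_pair hne]
      simp
  | insert l T hl ih =>
    obtain ⟨A, hA, hcard⟩ := ih (fun l' h => hT l' (Finset.mem_insert_of_mem h))
    have hspl := hT l (Finset.mem_insert_self _ _)
    obtain ⟨v, v', hne, hv⟩ := two_above hK (l := l) (Or.inr hspl)
    have hdis : Disjoint A {v, v'} := by
      rw [Finset.disjoint_left]
      intro w hwA hw
      have hlw : (l : 𝓞 K) ∈ w.asIdeal := (hv w).2 (by simpa using hw)
      rcases (hA w).1 hwA with h | ⟨l', hl', h⟩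
      · have h2 := Quad.dvd_of_mem hspl.1 hlw (n := 2) (by exact_mod_cast h)
        have h3 : l ∣ 2 := by exact_mod_cast h2
        exact hspl.2.1 ((Nat.prime_dvd_prime_iff_eq hspl.1 Nat.prime_two).1 h3)
      · have hspl' := hT l' (Finset.mem_insert_of_mem hl')
        have h2 := Quad.dvd_of_mem hspl.1 hlw (n := l') (by exact_mod_cast h)
        have h3 : l ∣ l' := by exact_mod_cast h2
        rw [(Nat.prime_dvd_prime_iff_eq hspl.1 hspl'.1).1 h3] at hl
        exact hl hl'
    refine ⟨A ∪ {v, v'}, fun w => ?_, ?_⟩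
    · rw [Finset.mem_union, hA, Finset.mem_insert, Finset.mem_singleton, ← hv w]
      constructor
      · rintro ((h | ⟨l', hl', h⟩) | h)
        · exact Or.inl h
        · exact Or.inr ⟨l', Finset.mem_insert_of_mem hl', h⟩
        · exact Or.inr ⟨l, Finset.mem_insert_self _ _, h⟩
      · rintro (h | ⟨l', hl', h⟩)
        · exact Or.inl (Or.inl h)
        · rcases Finset.mem_insert.1 hl' with rfl | hl'
          · exact Or.inr h
          · exact Or.inl (Or.inr ⟨l', hl', h⟩)
    · rw [Finset.card_union_of_disjoint hdis, hcard, Finset.card_pair hne,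
        Finset.card_insert_of_notMem hl]
      ring

theorem totallyComplex (hK : IsQ K D s) : IsTotallyComplex K := by
  refine ⟨fun v => ?_⟩
  rw [← InfinitePlace.not_isReal_iff_isComplex]
  intro hv
  have h := congrArg (InfinitePlace.embedding_of_isReal hv) hK.sq
  rw [map_pow, map_neg, map_natCast] at h
  have hD : (0 : ℝ) < D := by exact_mod_cast D_pos hK
  nlinarith [sq_nonneg (InfinitePlace.embedding_of_isReal hv s)]

end Pool.Agent.Work.MP_787500_nt.HP
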