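import Mathlib
import Pool.Agent.Work.MP_787500_nt.GP.L02_BeInv
import Pool.Agent.Work.MP_787500_nt.GP.L05_Lat0
import Pool.Agent.Work.MP_787500_nt.GP.L09_CupV
import Pool.Agent.Work.MP_787500_nt.GP.G4_TameLoc

/-!
# Module URGEN: cocycles of a tame group that vanish at `τ`

`D`, `σ`, `τ` as in `TameD`; `A`, `B` small representations with `A τ = B τ = 1`, dual to each other.
The cocycles `x` for `A` with `x τ = 0` are determined by `x σ`, which is arbitrary; a cocycle `y` for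
`B` is orthogonal to all of them iff `y τ = 0`.
-/

set_option autoImplicit false
set_option linter.unusedSectionVars false

namespace Pool.Agent.Work.MP_787500_nt.HP

open Matrix
open Pool.Agent.Work.MP_787500_nt.PA (TwoSys Sm1 Sm2 homs Coc Cob IsChar toE)
open Pool.Agent.Work.MP_787500_nt.GP

/-- limits along the powers of `l` -/
theorem ur_lim {D : Type*} {χ : D → ℤ_[2]} {l : ℕ} (hodd : Odd l) (hlt : 2 < l)
    (dens : ∀ (g : D) (n : ℕ), ∃ i : ℕ, (2 : ℤ_[2]) ^ n ∣ χ g - (l : ℤ_[2]) ^ i)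
    {V : Type*} [NormedAddCommGroup V] [CompleteSpace V] (s : ℕ → V)
    (hs : ∀ ε : ℝ, 0 < ε → ∃ e : ℕ, ∀ i j : ℕ, i ≡ j [MOD 2 ^ e] → ‖s i - s j‖ ≤ ε) :
    ∃ x : D → V, ∀ ε : ℝ, 0 < ε → ∃ N : ℕ, ∀ (g : D) (i : ℕ),
      (2 : ℤ_[2]) ^ N ∣ χ g - (l : ℤ_[2]) ^ i → ‖x g - s i‖ ≤ ε := by
  choose i hi using dens
  have key : ∀ ε : ℝ, 0 < ε → ∃ N : ℕ, ∀ (g : D) (m j : ℕ), N ≤ m →
      (2 : ℤ_[2]) ^ N ∣ χ g - (l : ℤ_[2]) ^ j → ‖s (i g m) - s j‖ ≤ ε := by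
    intro ε hε
    obtain ⟨e, he⟩ := hs ε hε
    obtain ⟨N, hN⟩ := g2_ord hodd hlt e
    refine ⟨N, fun g m j hm hj => he _ _ (hN N le_rfl _ _ ?_)⟩
    have h1 := (pow_dvd_pow (2 : ℤ_[2]) hm).trans (hi g m)
    have h2 := dvd_sub hj h1
    have h3 : χ g - (l : ℤ_[2]) ^ j - (χ g - (l : ℤ_[2]) ^ i g m) =
        (l : ℤ_[2]) ^ i g m - (l : ℤ_[2]) ^ j := by ring
    rwa [h3] at h2
  have hc : ∀ g, CauchySeq fun m => s (i g m) := by
    intro g
    rw [Metric.cauchySeq_iff]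
    intro ε hε
    obtain ⟨N, hN⟩ := key (ε / 2) (half_pos hε)
    refine ⟨N, fun m hm m' hm' => ?_⟩
    rw [dist_eq_norm]
    have h1 := hN g m (i g m') hm ((pow_dvd_pow (2 : ℤ_[2]) hm').trans (hi g m'))
    exact h1.trans_lt (half_lt_self hε)
  choose x hx using fun g => cauchySeq_tendsto_of_complete (hc g)
  refine ⟨x, fun ε hε => ?_⟩
  obtain ⟨N, hN⟩ := key ε hε
  refine ⟨N, fun g j hj => ?_⟩
  have h1 : Filter.Tendsto (fun m => ‖s (i g m) - s j‖) Filter.atTop (nhds ‖x g - s j‖) :=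
    ((hx g).sub_const _).norm
  refine le_of_tendsto h1 ?_
  filter_upwards [Filter.eventually_ge_atTop N] with m hm
  exact hN g m j hm hj

variable {D : Type*} [Group D] {SD : TwoSys D} {χ a : D → ℤ_[2]} {σ τ : D} {l : ℕ}
  {E : Type*} [NormedField E] [NormedAlgebra ℚ_[2] E] [FiniteDimensional ℚ_[2] E] {n : ℕ}
  {A B : D → Matrix (Fin n) (Fin n) E}

private theorem ur_ultra (x y : Fin n → E) {c : ℝ} (hc : 0 ≤ c) (hx : ‖x‖ ≤ c) (hy : ‖y‖ ≤ c) :
    ‖x + y‖ ≤ c := by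
  have hu := Gn.ultra 2 E
  refine (pi_norm_le_iff_of_nonneg hc).2 fun i => ?_
  exact (IsUltrametricDist.norm_add_le_max _ _).trans
    (max_le ((norm_le_pi_norm x i).trans hx) ((norm_le_pi_norm y i).trans hy))

private theorem ur_pow (hA : SmallRep SD A) (g : D) (i : ℕ) : A (g ^ i) = A g ^ i := by
  induction i with
  | zero => rw [pow_zero, pow_zero, hA.one]
  | succ i ih => rw [pow_succ, pow_succ, hA.mul, ih]

private theorem ur_one {x : D → Fin n → E} (hA : SmallRep SD A) (hx : ZV SD A x) : x 1 = 0 := by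
  have h := hx.2 1 1
  rw [mul_one, hA.one, one_mulVec] at h
  exact left_eq_add.1 h

private theorem ur_zpow {x : D → Fin n → E} (hA : SmallRep SD A) (hx : ZV SD A x) {g : D}
    (hg : x g = 0) (i : ℕ) : x (g ^ i) = 0 := by
  induction i with
  | zero => rw [pow_zero, ur_one hA hx]
  | succ i ih => rw [pow_succ, hx.2, ih, hg, mulVec_zero, add_zero]

/-- a function close to zero on all members of the system -/
private theorem ur_norm_zero {A' : Type*} [NormedAddCommGroup A'] {z : D → A'} (hz : PA.N1 SD z)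
    {g : D} (h : ∀ W, SD.mem W → ∃ w ∈ W, ∃ k : D, z k = 0 ∧ g = k * w) : z g = 0 := by
  rw [← norm_le_zero_iff]
  refine le_of_forall_pos_le_add fun ε hε => ?_
  obtain ⟨W, hW, h1⟩ := hz ε hε
  obtain ⟨w, hw, k, hk, rfl⟩ := h W hW
  have h2 := h1 k w hw
  rw [hk, sub_zero] at h2
  rw [zero_add]
  exact h2.le

/-- elements of the kernel of `χ` are close to powers of `τ` -/
theorem ur_close (h : TameD SD χ a σ τ l) {W : Subgroup D} (hW : SD.mem W) {g : D}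
    (hg : χ g = 1) : ∃ j : ℕ, (τ ^ j)⁻¹ * g ∈ W := by
  obtain ⟨m, hm⟩ := h.sep W hW
  obtain ⟨j, hj⟩ := g1_nat (a g) m
  obtain ⟨h1, h2⟩ := g1_word h 0 j
  rw [pow_zero, mul_one, pow_zero] at h1
  rw [pow_zero, mul_one] at h2
  refine ⟨j, ?_⟩
  obtain ⟨h3, h4⟩ := g1_close h (g := g) (k := τ ^ j) (n := m)
    (by rw [hg, h1, sub_self]; exact dvd_zero _) (by rw [h2]; exact hj)
  exact hm _ h3 h4

/-- the relation between `σ` and `τ` -/
theorem ur_rel (h : TameD SD χ a σ τ l) {W : Subgroup D} (hW : SD.mem W) :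
    (τ ^ l * σ)⁻¹ * (σ * τ) ∈ W := by
  have h1 : Sm1 SD (fun g : D => (QuotientGroup.mk g : D ⧸ W)) :=
    ⟨W, hW, fun g w hw => (QuotientGroup.eq.2 (by simpa using hw)).symm⟩
  exact QuotientGroup.eq.1 (tame_rel h h1).symm

theorem ur_zero (h : TameD SD χ a σ τ l) (hA : SmallRep SD A) {x : D → Fin n → E}
    (hx : ZV SD A x) (hxτ : x τ = 0) {g : D} (hg : χ g = 1) : x g = 0 := by
  refine ur_norm_zero hx.1 fun W hW => ?_
  obtain ⟨j, hj⟩ := ur_close h hW hg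
  exact ⟨_, hj, τ ^ j, ur_zpow hA hx hxτ j, by rw [mul_inv_cancel_left]⟩

theorem ur_inj (h : TameD SD χ a σ τ l) (hA : SmallRep SD A) {x : D → Fin n → E}
    (hx : ZV SD A x) (hxτ : x τ = 0) (hxσ : x σ = 0) : x = 0 := by
  funext g
  refine ur_norm_zero hx.1 fun W hW => ?_
  obtain ⟨i, j, hij⟩ := tame_gen h hW g
  refine ⟨_, hij, τ ^ j * σ ^ i, ?_, by rw [mul_inv_cancel_left]⟩
  rw [hx.2, ur_zpow hA hx hxτ, ur_zpow hA hx hxσ, mulVec_zero, add_zero]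

private theorem ur_index {W : Subgroup D} (hW : SD.mem W) (g : D) : ∃ k : ℕ, g ^ 2 ^ k ∈ W := by
  have := SD.normal hW
  obtain ⟨k, hk⟩ := SD.index hW
  exact ⟨k, by rw [← hk]; exact Subgroup.pow_index_mem W g⟩

/-- the values of a cocycle with value `v` at `S` -/
private def ps (S : Matrix (Fin n) (Fin n) E) (v : Fin n → E) (i : ℕ) : Fin n → E :=
  ∑ j ∈ Finset.range i, S ^ j *ᵥ v

private theorem ps_add (S : Matrix (Fin n) (Fin n) E) (v : Fin n → E) (i j : ℕ) :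
    ps S v (i + j) = ps S v i + S ^ i *ᵥ ps S v j := by
  unfold ps
  rw [Finset.sum_range_add, mulVec_sum]
  congr 1
  refine Finset.sum_congr rfl fun k _ => ?_
  rw [mulVec_mulVec, ← pow_add]

private theorem ps_zero (S : Matrix (Fin n) (Fin n) E) (v : Fin n → E) : ps S v 0 = 0 := by
  simp [ps]

private theorem ps_one (S : Matrix (Fin n) (Fin n) E) (v : Fin n → E) : ps S v 1 = v := by
  simp [ps]

private theorem two_norm : ‖(2 : E)‖ = 1 / 2 := by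
  have := Gn.norm_p 2 E
  rw [Nat.cast_ofNat] at this
  rw [this]
  norm_num

/-- the sums are small -/
private theorem ps_small (hA : SmallRep SD A) (v : Fin n → E) {ε : ℝ} (hε : 0 < ε) :
    ∃ e : ℕ, ∀ k : ℕ, ‖ps (A σ) v (2 ^ e * k)‖ ≤ ε := by
  obtain ⟨C, hC0, hC⟩ := rep_bdd hA
  obtain ⟨W, hW, hsm⟩ := hA.sm (1 / 2) (by norm_num)
  obtain ⟨m, hm⟩ := ur_index hW σ
  have hstep : ∀ t : ℕ, ‖ps (A σ) v (2 ^ (m + t))‖ ≤ (1 / 2) ^ t * ‖ps (A σ) v (2 ^ m)‖ := by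
    intro t
    induction t with
    | zero => rw [add_zero, pow_zero, one_mul]
    | succ t ih =>
      have h1 : 2 ^ (m + (t + 1)) = 2 ^ (m + t) + 2 ^ (m + t) := by
        rw [← add_assoc, pow_succ]
        ring
      have h2 : σ ^ 2 ^ (m + t) ∈ W := by
        rw [pow_add, pow_mul]
        exact W.pow_mem hm _
      set y := ps (A σ) v (2 ^ (m + t)) with hy
      have h3 := hsm _ h2 y
      rw [ur_pow hA] at h3
      rw [h1, ps_add, ← hy]
      have h4 : y + A σ ^ 2 ^ (m + t) *ᵥ y = (2 : E) • y + (A σ ^ 2 ^ (m + t) *ᵥ y - y) := by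
        rw [two_smul]
        abel
      rw [h4]
      have h5 : ‖(2 : E) • y + (A σ ^ 2 ^ (m + t) *ᵥ y - y)‖ ≤ 1 / 2 * ‖y‖ := by
        refine ur_ultra _ _ (by positivity) ?_ h3
        rw [norm_smul, two_norm]
      refine h5.trans ?_
      rw [pow_succ]
      calc 1 / 2 * ‖y‖ ≤ 1 / 2 * ((1 / 2) ^ t * ‖ps (A σ) v (2 ^ m)‖) :=
            mul_le_mul_of_nonneg_left ih (by norm_num)
        _ = (1 / 2) ^ t * (1 / 2) * ‖ps (A σ) v (2 ^ m)‖ := by ring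
  obtain ⟨t, ht⟩ : ∃ t : ℕ, (1 / 2 : ℝ) ^ t * (‖ps (A σ) v (2 ^ m)‖ * C) ≤ ε := by
    have h1 : Filter.Tendsto (fun t : ℕ => (1 / 2 : ℝ) ^ t * (‖ps (A σ) v (2 ^ m)‖ * C))
        Filter.atTop (nhds (0 * (‖ps (A σ) v (2 ^ m)‖ * C))) :=
      (tendsto_pow_atTop_nhds_zero_of_lt_one (by norm_num) (by norm_num)).mul_const _
    rw [zero_mul] at h1
    exact ((h1.eventually (Iio_mem_nhds hε)).exists).imp fun t ht => le_of_lt ht
  refine ⟨m + t, fun k => ?_⟩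
  induction k with
  | zero => rw [mul_zero, ps_zero, norm_zero]; exact hε.le
  | succ k ih =>
    rw [mul_add, mul_one, ps_add]
    refine ur_ultra _ _ hε.le ih ?_
    rw [← ur_pow hA]
    refine (hC _ _).trans ?_
    calc C * ‖ps (A σ) v (2 ^ (m + t))‖ ≤ C * ((1 / 2) ^ t * ‖ps (A σ) v (2 ^ m)‖) :=
          mul_le_mul_of_nonneg_left (hstep t) hC0.le
      _ = (1 / 2) ^ t * (‖ps (A σ) v (2 ^ m)‖ * C) := by ring
      _ ≤ ε := ht

private theorem ps_cong (hA : SmallRep SD A) (v : Fin n → E) {ε : ℝ} (hε : 0 < ε) :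
    ∃ e : ℕ, ∀ i j : ℕ, i ≡ j [MOD 2 ^ e] → ‖ps (A σ) v i - ps (A σ) v j‖ ≤ ε := by
  obtain ⟨C, hC0, hC⟩ := rep_bdd hA
  obtain ⟨e, he⟩ := ps_small hA (σ := σ) v (ε := ε / C) (by positivity)
  have key : ∀ i j : ℕ, i ≤ j → i ≡ j [MOD 2 ^ e] → ‖ps (A σ) v i - ps (A σ) v j‖ ≤ ε := by
    intro i j hij h
    obtain ⟨k, hk⟩ := (Nat.modEq_iff_dvd' hij).1 h
    have h1 : j = i + 2 ^ e * k := by omega
    rw [h1, ps_add, ← ur_pow hA]
    have h2 : ps (A σ) v i - (ps (A σ) v i + A (σ ^ i) *ᵥ ps (A σ) v (2 ^ e * k)) =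
        -(A (σ ^ i) *ᵥ ps (A σ) v (2 ^ e * k)) := by abel
    rw [h2, norm_neg]
    refine (hC _ _).trans ?_
    have h3 := he k
    rw [le_div_iff₀ hC0] at h3
    linarith
  refine ⟨e, fun i j h => ?_⟩
  rcases le_total i j with hij | hij
  · exact key i j hij h
  · rw [norm_sub_rev]
    exact key j i hij h.symm

theorem ur_A_one (hA : SmallRep SD A) {g : D} (hg : ∀ W, SD.mem W → g ∈ W) : A g = 1 := by
  have hv : ∀ v, A g *ᵥ v = v := by
    intro v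
    rw [← sub_eq_zero, ← norm_le_zero_iff]
    refine le_of_forall_pos_le_add fun ε hε => ?_
    obtain ⟨W, hW, h1⟩ := hA.sm (ε / (‖v‖ + 1)) (by positivity)
    have h2 := h1 g (hg W hW) v
    have h3 : ε / (‖v‖ + 1) * ‖v‖ ≤ ε := by
      rw [div_mul_eq_mul_div, div_le_iff₀ (by positivity)]
      nlinarith
    rw [zero_add]
    exact h2.trans h3
  ext i j
  have h1 := congrFun (hv (Pi.single j 1)) i
  rw [mulVec_single_one] at h1
  rw [Matrix.one_apply]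
  rw [Pi.single_apply] at h1
  exact h1

/-- the relation between `A σ` and `A τ` -/
theorem ur_Arel (h : TameD SD χ a σ τ l) (hA : SmallRep SD A) : A τ ^ l * A σ = A σ * A τ := by
  have h1 := ur_A_one hA (g := (τ ^ l * σ)⁻¹ * (σ * τ)) fun W hW => ur_rel h hW
  have h2 : A (σ * τ) = A (τ ^ l * σ) := by
    have h3 : σ * τ = (τ ^ l * σ) * ((τ ^ l * σ)⁻¹ * (σ * τ)) := by rw [mul_inv_cancel_left]
    rw [h3, hA.mul, h1, mul_one]
  rw [hA.mul, hA.mul, ur_pow hA] at h2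
  exact h2.symm

private theorem pow_fix {M : Matrix (Fin n) (Fin n) E} {w : Fin n → E} (h : M *ᵥ w = w) (k : ℕ) :
    M ^ k *ᵥ w = w := by
  induction k with
  | zero => rw [pow_zero, one_mulVec]
  | succ k ih => rw [pow_succ, ← mulVec_mulVec, h, ih]

/-- a vector fixed by `A τ ^ l` is fixed by `A τ` -/
theorem ur_fix (h : TameD SD χ a σ τ l) (hA : SmallRep SD A) {w : Fin n → E}
    (hw : A τ ^ l *ᵥ w = w) : A τ *ᵥ w = w := by
  rw [← sub_eq_zero, ← norm_le_zero_iff, norm_sub_rev]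
  refine le_of_forall_pos_le_add fun ε hε => ?_
  obtain ⟨W, hW, h1⟩ := hA.sm (ε / (‖A τ *ᵥ w‖ + 1)) (by positivity)
  obtain ⟨m, hm⟩ := ur_index hW τ
  have hcop : Nat.Coprime l (2 ^ m) := (Nat.coprime_two_right.2 h.odd).pow_right m
  have h2 := Nat.ModEq.pow_totient hcop
  have hpos : 0 < l ^ Nat.totient (2 ^ m) := pow_pos (by have := h.lt; omega) _
  obtain ⟨k, hk⟩ := (Nat.modEq_iff_dvd' hpos).1 h2.symm
  have h3 : l ^ Nat.totient (2 ^ m) = 2 ^ m * k + 1 := by omega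
  have h4 : A τ ^ l ^ Nat.totient (2 ^ m) *ᵥ w = w := by
    have h5 : 0 < Nat.totient (2 ^ m) := Nat.totient_pos.2 (by positivity)
    obtain ⟨t, ht⟩ : ∃ t, Nat.totient (2 ^ m) = t + 1 := ⟨Nat.totient (2 ^ m) - 1, by omega⟩
    rw [ht, pow_succ, mul_comm, pow_mul]
    exact pow_fix hw _
  rw [h3, pow_succ, ← mulVec_mulVec, ← ur_pow hA] at h4
  have h5 : τ ^ (2 ^ m * k) ∈ W := by
    rw [pow_mul]
    exact W.pow_mem hm k
  have h6 := h1 _ h5 (A τ *ᵥ w)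
  rw [h4] at h6
  have h7 : ε / (‖A τ *ᵥ w‖ + 1) * ‖A τ *ᵥ w‖ ≤ ε := by
    rw [div_mul_eq_mul_div, div_le_iff₀ (by positivity)]
    nlinarith [norm_nonneg (A τ *ᵥ w)]
  rw [zero_add]
  exact h6.trans h7

/-- the vectors fixed by `A τ` are stable under `A σ` -/
theorem ur_stab (h : TameD SD χ a σ τ l) (hA : SmallRep SD A) {w : Fin n → E}
    (hw : A τ *ᵥ w = w) (i : ℕ) : A τ *ᵥ (A σ ^ i *ᵥ w) = A σ ^ i *ᵥ w := by
  induction i with
  | zero => rw [pow_zero, one_mulVec, hw]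
  | succ i ih =>
    rw [pow_succ', ← mulVec_mulVec]
    refine ur_fix h hA ?_
    rw [mulVec_mulVec, ur_Arel h hA, ← mulVec_mulVec, ih]

private theorem ps_fix (h : TameD SD χ a σ τ l) (hA : SmallRep SD A) {v : Fin n → E}
    (hv : A τ *ᵥ v = v) (i : ℕ) : A τ *ᵥ ps (A σ) v i = ps (A σ) v i := by
  unfold ps
  rw [mulVec_sum]
  exact Finset.sum_congr rfl fun k _ => ur_stab h hA hv k

/-- `A g` is close to a power of `A σ` on the vectors fixed by `A τ` -/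
private theorem A_close (h : TameD SD χ a σ τ l) (hA : SmallRep SD A) {ε : ℝ}
    (hε : 0 < ε) : ∃ N : ℕ, ∀ (g : D) (i : ℕ), (2 : ℤ_[2]) ^ N ∣ χ g - (l : ℤ_[2]) ^ i →
      ∀ w : Fin n → E, A τ *ᵥ w = w → ‖A g *ᵥ w - A σ ^ i *ᵥ w‖ ≤ ε * ‖w‖ := by
  obtain ⟨C, hC0, hC⟩ := rep_bdd hA
  obtain ⟨W, hW, hsm⟩ := hA.sm (ε / C) (by positivity)
  obtain ⟨N, hN⟩ := h.sep W hW
  refine ⟨N, fun g i hi w hw => ?_⟩
  obtain ⟨j, hj⟩ := g1_nat (a g) N
  obtain ⟨h1, h2⟩ := g1_word h i j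
  obtain ⟨h3, h4⟩ := g1_close h (g := g) (k := τ ^ j * σ ^ i) (n := N)
    (by rw [h1]; exact hi) (by rw [h2]; exact hj)
  have h5 := hN _ h3 h4
  have h6 : A (τ ^ j * σ ^ i) *ᵥ w = A σ ^ i *ᵥ w := by
    rw [hA.mul, ur_pow hA, ur_pow hA, ← mulVec_mulVec]
    exact pow_fix (ur_stab h hA hw i) j
  have h7 : A g = A (τ ^ j * σ ^ i) * A ((τ ^ j * σ ^ i)⁻¹ * g) := by
    rw [← hA.mul, mul_inv_cancel_left]
  have h8 : A g *ᵥ w - A σ ^ i *ᵥ w =
      A (τ ^ j * σ ^ i) *ᵥ (A ((τ ^ j * σ ^ i)⁻¹ * g) *ᵥ w - w) := by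
    rw [mulVec_sub, mulVec_mulVec, ← h7, h6]
  rw [h8]
  refine (hC _ _).trans ?_
  calc C * ‖A ((τ ^ j * σ ^ i)⁻¹ * g) *ᵥ w - w‖ ≤ C * (ε / C * ‖w‖) :=
        mul_le_mul_of_nonneg_left (hsm _ h5 w) hC0.le
    _ = ε * ‖w‖ := by field_simp

theorem ur_exists' (h : TameD SD χ a σ τ l) (hA : SmallRep SD A) {v : Fin n → E}
    (hv : A τ *ᵥ v = v) : ∃ x, ZV SD A x ∧ x τ = 0 ∧ x σ = v := by
  have hcomp : CompleteSpace (Fin n → E) := by
    have : CompleteSpace E := FiniteDimensional.complete ℚ_[2] E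
    infer_instance
  obtain ⟨x, hx⟩ := ur_lim h.odd h.lt h.dens (ps (A σ) v) (fun ε hε => ps_cong hA v hε)
  obtain ⟨C, hC0, hC⟩ := rep_bdd hA
  have hval : ∀ g i, χ g = (l : ℤ_[2]) ^ i → x g = ps (A σ) v i := by
    intro g i hg
    rw [← sub_eq_zero, ← norm_le_zero_iff]
    refine le_of_forall_pos_le_add fun ε hε => ?_
    obtain ⟨N, hN⟩ := hx ε hε
    rw [zero_add]
    exact hN g i (by rw [hg, sub_self]; exact dvd_zero _)
  have hfix : ∀ t, A τ *ᵥ x t = x t := by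
    intro t
    rw [← sub_eq_zero, ← norm_le_zero_iff]
    refine le_of_forall_pos_le_add fun ε hε => ?_
    obtain ⟨N, hN⟩ := hx (ε / (C + 1)) (by positivity)
    obtain ⟨i, hi⟩ := h.dens t N
    have e1 := hN t i hi
    have h1 : A τ *ᵥ x t - x t = A τ *ᵥ (x t - ps (A σ) v i) - (x t - ps (A σ) v i) := by
      rw [mulVec_sub, ps_fix h hA hv]
      abel
    rw [h1, zero_add]
    refine (norm_sub_le _ _).trans ?_
    have e2 := hC τ (x t - ps (A σ) v i)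
    have e3 : C * ‖x t - ps (A σ) v i‖ ≤ C * (ε / (C + 1)) := mul_le_mul_of_nonneg_left e1 hC0.le
    have e4 : C * (ε / (C + 1)) + ε / (C + 1) = ε := by field_simp
    linarith
  have hmul : ∀ s t, x (s * t) = x s + A s *ᵥ x t := by
    intro s t
    rw [← sub_eq_zero, ← norm_le_zero_iff]
    refine le_of_forall_pos_le_add fun ε hε => ?_
    set M : ℝ := 1 + 1 + C + ‖x t‖ with hM
    have hM0 : 0 < M := by positivity
    obtain ⟨N, hN⟩ := hx (ε / M) (by positivity)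
    obtain ⟨N', hN'⟩ := A_close h hA (ε := ε / M) (by positivity)
    obtain ⟨i, hi⟩ := h.dens s (max N N')
    obtain ⟨j, hj⟩ := h.dens t (max N N')
    have hij : (2 : ℤ_[2]) ^ (max N N') ∣ χ (s * t) - (l : ℤ_[2]) ^ (i + j) := by
      have e : χ (s * t) - (l : ℤ_[2]) ^ (i + j) =
          (χ s - (l : ℤ_[2]) ^ i) * χ t + (l : ℤ_[2]) ^ i * (χ t - (l : ℤ_[2]) ^ j) := by
        rw [h.char.mul, pow_add]
        ring
      rw [e]
      exact dvd_add (hi.mul_right _) (hj.mul_left _)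
    have hle : ∀ {y : ℤ_[2]}, (2 : ℤ_[2]) ^ (max N N') ∣ y → (2 : ℤ_[2]) ^ N ∣ y := fun hy =>
      (pow_dvd_pow _ (le_max_left N N')).trans hy
    have hle' : ∀ {y : ℤ_[2]}, (2 : ℤ_[2]) ^ (max N N') ∣ y → (2 : ℤ_[2]) ^ N' ∣ y := fun hy =>
      (pow_dvd_pow _ (le_max_right N N')).trans hy
    have e1 := hN _ _ (hle hij)
    have e2 := hN _ _ (hle hi)
    have e3 := hN _ _ (hle hj)
    have e4 := hN' _ _ (hle' hi) (x t) (hfix t)
    have e5 := hC (σ ^ i) (x t - ps (A σ) v j)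
    rw [ur_pow hA] at e5
    have h1 : x (s * t) - (x s + A s *ᵥ x t) = (x (s * t) - ps (A σ) v (i + j)) -
        (x s - ps (A σ) v i) - A σ ^ i *ᵥ (x t - ps (A σ) v j) - (A s *ᵥ x t - A σ ^ i *ᵥ x t) := by
      rw [ps_add, mulVec_sub]
      abel
    rw [h1]
    have h2 : ‖(x (s * t) - ps (A σ) v (i + j)) - (x s - ps (A σ) v i) -
        A σ ^ i *ᵥ (x t - ps (A σ) v j) - (A s *ᵥ x t - A σ ^ i *ᵥ x t)‖ ≤
        ‖x (s * t) - ps (A σ) v (i + j)‖ + ‖x s - ps (A σ) v i‖ +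
        ‖A σ ^ i *ᵥ (x t - ps (A σ) v j)‖ + ‖A s *ᵥ x t - A σ ^ i *ᵥ x t‖ := by
      refine (norm_sub_le _ _).trans (add_le_add ?_ le_rfl)
      refine (norm_sub_le _ _).trans (add_le_add ?_ le_rfl)
      exact norm_sub_le _ _
    refine h2.trans ?_
    have h3 : C * ‖x t - ps (A σ) v j‖ ≤ C * (ε / M) := mul_le_mul_of_nonneg_left e3 hC0.le
    have h4 : ε / M + ε / M + C * (ε / M) + ε / M * ‖x t‖ = ε := by
      have : ε / M + ε / M + C * (ε / M) + ε / M * ‖x t‖ = M * (ε / M) := by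
        rw [hM]
        ring
      rw [this, mul_div_cancel₀ _ hM0.ne']
    linarith
  have hN1 : PA.N1 SD x := by
    intro ε hε
    obtain ⟨N, hN⟩ := hx (ε / (C + 1)) (by positivity)
    obtain ⟨W, hW, h1⟩ := h.char.cont N
    refine ⟨W, hW, fun g w hw => ?_⟩
    have h2 := h1 1 w hw
    rw [one_mul, h.char.one] at h2
    have h3 := hN w 0 (by rw [pow_zero]; exact h2)
    rw [ps_zero, sub_zero] at h3
    have h4 : x (g * w) - x g = A g *ᵥ x w := by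
      rw [hmul]
      abel
    rw [h4]
    refine (hC _ _).trans_lt ?_
    rw [le_div_iff₀ (by positivity)] at h3
    have h5 : 0 ≤ ‖x w‖ := norm_nonneg _
    by_cases h6 : ‖x w‖ = 0
    · rw [h6, mul_zero]
      exact hε
    · have h7 : 0 < ‖x w‖ := lt_of_le_of_ne h5 (Ne.symm h6)
      nlinarith
  refine ⟨x, ⟨hN1, hmul⟩, ?_, ?_⟩
  · rw [hval τ 0 (by rw [h.τχ, pow_zero]), ps_zero]
  · rw [hval σ 1 (by rw [h.σχ, pow_one]), ps_one]

theorem ur_exists (h : TameD SD χ a σ τ l) (hA : SmallRep SD A) (hτ : A τ = 1) (v : Fin n → E) :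
    ∃ x, ZV SD A x ∧ x τ = 0 ∧ x σ = v := ur_exists' h hA (by rw [hτ, one_mulVec])

/-- the value at `σ` of a cocycle that vanishes at `τ` is fixed by `A τ` -/
theorem ur_val (h : TameD SD χ a σ τ l) (hA : SmallRep SD A) {x : D → Fin n → E}
    (hx : ZV SD A x) (hxτ : x τ = 0) : A τ *ᵥ x σ = x σ := by
  refine ur_fix h hA ?_
  have h1 : x ((τ ^ l * σ)⁻¹ * (σ * τ)) = 0 := by
    refine ur_norm_zero hx.1 fun W hW => ⟨_, ur_rel h hW, 1, ur_one hA hx, (one_mul _).symm⟩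
  have h2 : x (σ * τ) = x (τ ^ l * σ) := by
    have h3 : σ * τ = (τ ^ l * σ) * ((τ ^ l * σ)⁻¹ * (σ * τ)) := by rw [mul_inv_cancel_left]
    rw [h3, hx.2, h1, mulVec_zero, add_zero]
  rw [hx.2, hx.2, hxτ, mulVec_zero, add_zero, ur_zpow hA hx hxτ, zero_add, ur_pow hA] at h2
  exact h2.symm

/-- a cocycle with values in `E` is a coboundary iff its explicit invariant is 0 -/
theorem be_iff_iota (h : TameD SD χ a σ τ l) {f : D → D → E} (hf : PA.ZE SD χ f) :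
    PA.BE SD χ f ↔ iota σ τ l f = 0 := by
  have L := tame_locH h (isUnit_one (M := ℤ_[2]))
  have hi : ∀ φ : E →ₗ[ℚ_[2]] ℚ_[2], iota σ τ l (fun s t => pr0 (φ (f s t))) =
      pr0 (φ (iota σ τ l f)) := by
    intro φ
    simp only [iota, map_sub, map_sum]
  constructor
  · intro hb
    have h1 : ∀ φ : E →ₗ[ℚ_[2]] ℚ_[2], pr0 (φ (iota σ τ l f)) = 0 := by
      intro φ
      have := be_inv_zero L hb φ
      simp only [one_smul] at this
      rw [← hi, this]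
    by_contra hne
    obtain ⟨φ, hφ⟩ : ∃ φ : Module.Dual ℚ_[2] E, φ (iota σ τ l f) ≠ 0 := by
      by_contra hcon
      push Not at hcon
      exact hne ((Module.forall_dual_apply_eq_zero_iff ℚ_[2] (iota σ τ l f)).1 hcon)
    have h2 := h1 ((1 / 2 / φ (iota σ τ l f)) • φ)
    rw [LinearMap.smul_apply, smul_eq_mul, div_mul_cancel₀ _ hφ] at h2
    obtain ⟨c, hc⟩ := pr0_eq_zero.1 h2
    have h3 : ‖(c : ℚ_[2])‖ ≤ 1 := c.2
    rw [hc, norm_div, norm_one] at h3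
    rw [two_norm (E := ℚ_[2])] at h3
    norm_num at h3
  · intro h0
    refine be_E L hf fun φ => ?_
    simp only [one_smul]
    rw [hi, h0, map_zero, map_zero]

theorem ur_perp (h : TameD SD χ a σ τ l) (hA : SmallRep SD A) (hB : SmallRep SD B)
    (hAτ : A τ = 1) {b : Matrix (Fin n) (Fin n) E}
    (hdual : ∀ d x y, bil b (A d *ᵥ x) (B d *ᵥ y) = toE E (χ d) * bil b x y) (hb : b.det ≠ 0)
    {y : D → Fin n → E} (hy : ZV SD B y) :
    (∀ x, ZV SD A x → x τ = 0 → PA.BE SD χ (cupE B b x y)) ↔ y τ = 0 := by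
  have hr : LocRep SD χ (⊤ : Submodule (OE E) (Fin n → E)) b A B :=
    ⟨hA.one, hA.mul, hB.one, hB.mul, fun _ _ _ => trivial, fun _ _ _ => trivial, hA.sm, hB.sm,
      hdual⟩
  have hval : ∀ x, ZV SD A x → x τ = 0 → iota σ τ l (cupE B b x y) = bil b (x σ) (B σ *ᵥ y τ) := by
    intro x hx hxτ
    have h1 : ∀ i, x (τ ^ i) = 0 := ur_zpow hA hx hxτ
    have h2 : ∀ w : Fin n → E, bil b 0 w = 0 := fun w => by simp [bil]
    simp only [iota, cupE, h1, h2, sub_zero, Finset.sum_const_zero]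
  constructor
  · intro hall
    have h3 : ∀ v : Fin n → E, bil b v (B σ *ᵥ y τ) = 0 := by
      intro v
      obtain ⟨x, hx, hxτ, hxσ⟩ := ur_exists h hA hAτ v
      rw [← hxσ, ← hval x hx hxτ]
      exact (be_iff_iota h (cupE_ZE hr hx hy)).1 (hall x hx hxτ)
    have h4 : b *ᵥ (B σ *ᵥ y τ) = 0 := by
      funext i
      have := h3 (Pi.single i 1)
      rw [bil, single_one_dotProduct] at this
      exact this
    have h5 : B σ *ᵥ y τ = 0 := by
      have h6 : b⁻¹ *ᵥ (b *ᵥ (B σ *ᵥ y τ)) = B σ *ᵥ y τ := by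
        rw [mulVec_mulVec, nonsing_inv_mul _ (isUnit_iff_ne_zero.2 hb), one_mulVec]
      rw [← h6, h4, mulVec_zero]
    have h6 : B σ⁻¹ *ᵥ (B σ *ᵥ y τ) = y τ := by
      rw [mulVec_mulVec, ← hB.mul, inv_mul_cancel, hB.one, one_mulVec]
    rw [← h6, h5, mulVec_zero]
  · intro hyτ x hx hxτ
    rw [be_iff_iota h (cupE_ZE hr hx hy), hval x hx hxτ, hyτ, mulVec_zero]
    simp [bil]

end Pool.Agent.Work.MP_787500_nt.HP
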