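import Mathlib
import Pool.Agent.Work.MP_787500_nt.HP.UrGen
import Pool.Agent.Work.MP_787500_nt.GP.L15_FinV

/-!
# Module URFULL: cocycles of a tame group whose restriction to the inertia group is a coboundary

`D`, `σ`, `τ` as in `TameD`; `A`, `B` small representations dual to each other. The space of the cocycles
`x` for `A` such that `x τ = A τ v - v` for some `v` has dimension `n`, and its annihilator is the
corresponding space for `B`.
-/

set_option autoImplicit false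
set_option linter.unusedSectionVars false

namespace Pool.Agent.Work.MP_787500_nt.HP

open Matrix
open Pool.Agent.Work.MP_787500_nt.PA (TwoSys Sm1 Sm2 homs Coc Cob IsChar toE)
open Pool.Agent.Work.MP_787500_nt.GP

section linalg

variable {E : Type*} [Field E] {n : ℕ}

/-- the annihilator of the kernel is the range of the transpose -/
theorem ker_perp (M : Matrix (Fin n) (Fin n) E) {w : Fin n → E}
    (hw : ∀ v, M *ᵥ v = 0 → v ⬝ᵥ w = 0) : ∃ u, w = Mᵀ *ᵥ u := by
  let φ : Module.Dual E (Fin n → E) :=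
    { toFun := fun v => v ⬝ᵥ w
      map_add' := fun v v' => add_dotProduct v v' w
      map_smul' := fun a v => by rw [smul_dotProduct, RingHom.id_apply] }
  have h1 : φ ∈ (LinearMap.ker M.mulVecLin).dualAnnihilator := by
    rw [Submodule.mem_dualAnnihilator]
    intro v hv
    exact hw v hv
  rw [← LinearMap.range_dualMap_eq_dualAnnihilator_ker] at h1
  obtain ⟨ψ, hψ⟩ := h1
  refine ⟨fun i => ψ (Pi.single i 1), ?_⟩
  have h2 : ∀ v : Fin n → E, ψ v = v ⬝ᵥ fun i => ψ (Pi.single i 1) := by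
    intro v
    rw [LinearMap.pi_apply_eq_sum_univ ψ v, dotProduct]
    refine Finset.sum_congr rfl fun i _ => ?_
    have h3 : (fun j => if i = j then (1 : E) else 0) = Pi.single i 1 := by
      funext j
      rw [Pi.single_apply]
      simp only [eq_comm]
    rw [h3, smul_eq_mul]
  funext i
  have h4 : ψ (M *ᵥ Pi.single i 1) = w i := by
    have h5 := congrArg (fun f : Module.Dual E (Fin n → E) => f (Pi.single i 1)) hψ
    have h6 : φ (Pi.single i 1) = w i := single_one_dotProduct i w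
    exact h5.trans h6
  rw [← h4, h2, dotProduct_comm, Matrix.dotProduct_mulVec, dotProduct_single, mul_one,
    ← Matrix.mulVec_transpose]

end linalg

variable {D : Type*} [Group D] {SD : TwoSys D} {χ a : D → ℤ_[2]} {σ τ : D} {l : ℕ}
  {E : Type*} [NormedField E] [NormedAlgebra ℚ_[2] E] [FiniteDimensional ℚ_[2] E] {n : ℕ}
  {A B : D → Matrix (Fin n) (Fin n) E}

/-- coboundaries are cocycles -/
theorem cob_zv (hA : SmallRep SD A) (v : Fin n → E) : ZV SD A (fun d => A d *ᵥ v - v) := by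
  obtain ⟨C, hC0, hC⟩ := rep_bdd hA
  constructor
  · intro ε hε
    obtain ⟨W, hW, hsm⟩ := hA.sm (ε / (C * (‖v‖ + 1))) (by positivity)
    refine ⟨W, hW, fun g w hw => ?_⟩
    have e : (fun d => A d *ᵥ v - v) (g * w) - (fun d => A d *ᵥ v - v) g =
        A g *ᵥ (A w *ᵥ v - v) := by
      simp only
      rw [mulVec_sub, mulVec_mulVec, ← hA.mul]
      abel
    rw [e]
    refine ((hC g _).trans (mul_le_mul_of_nonneg_left (hsm w hw v) hC0.le)).trans_lt ?_
    have h4 : 0 ≤ ‖v‖ := norm_nonneg v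
    have e2 : C * (ε / (C * (‖v‖ + 1)) * ‖v‖) = ε * (‖v‖ / (‖v‖ + 1)) := by
      field_simp
    rw [e2]
    have h5 : ‖v‖ / (‖v‖ + 1) < 1 := by rw [div_lt_one (by positivity)]; linarith
    nlinarith
  · intro s t
    simp only
    rw [hA.mul, mulVec_sub, mulVec_mulVec]
    abel

theorem f_inertia (h : TameD SD χ a σ τ l) (hA : SmallRep SD A) {x : D → Fin n → E}
    (hx : ZV SD A x) {v : Fin n → E} (hv : x τ = A τ *ᵥ v - v) {g : D} (hg : χ g = 1) :
    x g = A g *ᵥ v - v := by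
  have h1 : ZV SD A (x - fun d => A d *ᵥ v - v) := (zV SD A).sub_mem hx (cob_zv hA v)
  have h2 := ur_zero h hA h1 (by rw [Pi.sub_apply, hv, sub_self]) hg
  rw [Pi.sub_apply] at h2
  exact sub_eq_zero.1 h2

theorem range_close (h : TameD SD χ a σ τ l) (hB : SmallRep SD B) {g : D} (hg : χ g = 1)
    (u : Fin n → E) : ∃ u', B g *ᵥ u - u = B τ *ᵥ u' - u' := by
  obtain ⟨C, hC0, hC⟩ := rep_bdd hB
  let R : Submodule ℚ_[2] (Fin n → E) :=
    (LinearMap.range ((B τ).mulVecLin - LinearMap.id)).restrictScalars ℚ_[2]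
  have hR : ∀ y, y ∈ R ↔ ∃ u', B τ *ᵥ u' - u' = y := fun y => Iff.rfl
  have hcl : IsClosed (R : Set (Fin n → E)) := Submodule.closed_of_finiteDimensional R
  have hj : ∀ j : ℕ, B (τ ^ j) *ᵥ u - u ∈ R := by
    intro j
    induction j with
    | zero =>
      rw [pow_zero, hB.one, one_mulVec, sub_self]
      exact R.zero_mem
    | succ j ih =>
      have h1 : B (τ ^ (j + 1)) *ᵥ u - u =
          (B τ *ᵥ (B (τ ^ j) *ᵥ u) - B (τ ^ j) *ᵥ u) + (B (τ ^ j) *ᵥ u - u) := by
        rw [pow_succ', hB.mul, mulVec_mulVec]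
        abel
      rw [h1]
      exact R.add_mem ((hR _).2 ⟨_, rfl⟩) ih
  have h1 : B g *ᵥ u - u ∈ closure (R : Set (Fin n → E)) := by
    rw [Metric.mem_closure_iff]
    intro ε hε
    obtain ⟨W, hW, hsm⟩ := hB.sm (ε / (C * (‖u‖ + 1))) (by positivity)
    obtain ⟨j, hj'⟩ := ur_close h hW hg
    refine ⟨_, hj j, ?_⟩
    rw [dist_eq_norm]
    have h2 : B g *ᵥ u - u - (B (τ ^ j) *ᵥ u - u) =
        B (τ ^ j) *ᵥ (B ((τ ^ j)⁻¹ * g) *ᵥ u - u) := by
      rw [mulVec_sub, mulVec_mulVec, ← hB.mul, mul_inv_cancel_left]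
      abel
    rw [h2]
    refine ((hC _ _).trans (mul_le_mul_of_nonneg_left (hsm _ hj' u) hC0.le)).trans_lt ?_
    have h4 : 0 ≤ ‖u‖ := norm_nonneg u
    have e2 : C * (ε / (C * (‖u‖ + 1)) * ‖u‖) = ε * (‖u‖ / (‖u‖ + 1)) := by
      field_simp
    rw [e2]
    have h5 : ‖u‖ / (‖u‖ + 1) < 1 := by rw [div_lt_one (by positivity)]; linarith
    nlinarith
  rw [hcl.closure_eq] at h1
  obtain ⟨u', hu'⟩ := (hR _).1 h1
  exact ⟨u', hu'.symm⟩

/-- vectors orthogonal to the vectors fixed by `A τ` -/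
theorem fix_perp (hB : SmallRep SD B) (hτ : χ τ = 1) {b : Matrix (Fin n) (Fin n) E}
    (hdual : ∀ d x y, bil b (A d *ᵥ x) (B d *ᵥ y) = toE E (χ d) * bil b x y) (hb : b.det ≠ 0)
    {w : Fin n → E} (hw : ∀ v, A τ *ᵥ v = v → bil b v w = 0) :
    ∃ u, w = B τ *ᵥ u - u := by
  have h1E : toE E (1 : ℤ_[2]) = 1 := by simp [toE]
  obtain ⟨u, hu⟩ := ker_perp (A τ - 1) (w := b *ᵥ w) fun v hv => by
    rw [sub_mulVec, one_mulVec, sub_eq_zero] at hv
    exact hw v hv
  -- `u = b u'`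
  have hbu : u = b *ᵥ (b⁻¹ *ᵥ u) := by
    rw [mulVec_mulVec, mul_nonsing_inv _ (isUnit_iff_ne_zero.2 hb), one_mulVec]
  set u' := b⁻¹ *ᵥ u with hu'
  have hinv : B τ *ᵥ (B τ⁻¹ *ᵥ u') = u' := by
    rw [mulVec_mulVec, ← hB.mul, mul_inv_cancel, hB.one, one_mulVec]
  refine ⟨-(B τ⁻¹ *ᵥ u'), ?_⟩
  rw [mulVec_neg, hinv]
  -- compare the values of `bil b`
  have key : ∀ v : Fin n → E, v ⬝ᵥ (b *ᵥ w) = v ⬝ᵥ (b *ᵥ (-u' - -(B τ⁻¹ *ᵥ u'))) := by
    intro v
    have h2 := hdual τ v (B τ⁻¹ *ᵥ u')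
    rw [hinv, hτ, h1E, one_mul] at h2
    unfold bil at h2
    rw [hu, transpose_sub, transpose_one, sub_mulVec, one_mulVec, dotProduct_sub,
      Matrix.dotProduct_mulVec v, Matrix.vecMul_transpose, hbu]
    simp only [neg_sub_neg, mulVec_sub, dotProduct_sub]
    rw [← h2]
  have h3 : b *ᵥ w = b *ᵥ (-u' - -(B τ⁻¹ *ᵥ u')) := by
    funext i
    have := key (Pi.single i 1)
    rwa [single_one_dotProduct, single_one_dotProduct] at this
  have h4 := congrArg (fun y => b⁻¹ *ᵥ y) h3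
  simp only [mulVec_mulVec, nonsing_inv_mul _ (isUnit_iff_ne_zero.2 hb), one_mulVec] at h4
  exact h4

theorem f_perp (h : TameD SD χ a σ τ l) (hA : SmallRep SD A) (hB : SmallRep SD B)
    {b : Matrix (Fin n) (Fin n) E}
    (hdual : ∀ d x y, bil b (A d *ᵥ x) (B d *ᵥ y) = toE E (χ d) * bil b x y) (hb : b.det ≠ 0)
    {y : D → Fin n → E} (hy : ZV SD B y) :
    (∀ x, ZV SD A x → (∃ v, x τ = A τ *ᵥ v - v) → PA.BE SD χ (cupE B b x y)) ↔
      ∃ v, y τ = B τ *ᵥ v - v := by
  have hr : LocRep SD χ (⊤ : Submodule (OE E) (Fin n → E)) b A B :=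
    ⟨hA.one, hA.mul, hB.one, hB.mul, fun _ _ _ => trivial, fun _ _ _ => trivial, hA.sm, hB.sm,
      hdual⟩
  have hval : ∀ x, ZV SD A x → x τ = 0 → iota σ τ l (cupE B b x y) = bil b (x σ) (B σ *ᵥ y τ) := by
    intro x hx hxτ
    have h1 : ∀ i, x (τ ^ i) = 0 := by
      intro i
      refine ur_zero h hA hx hxτ ?_
      have := (g1_word h 0 i).1
      rwa [pow_zero, mul_one, pow_zero] at this
    have h2 : ∀ w : Fin n → E, bil b 0 w = 0 := fun w => by simp [bil]
    simp only [iota, cupE, h1, h2, sub_zero, Finset.sum_const_zero]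
  constructor
  · intro hall
    have h3 : ∀ v : Fin n → E, A τ *ᵥ v = v → bil b v (B σ *ᵥ y τ) = 0 := by
      intro v hv
      obtain ⟨x, hx, hxτ, hxσ⟩ := ur_exists' h hA hv
      rw [← hxσ, ← hval x hx hxτ]
      refine (be_iff_iota h (cupE_ZE hr hx hy)).1 (hall x hx ⟨0, ?_⟩)
      rw [hxτ, mulVec_zero, sub_zero]
    obtain ⟨u, hu⟩ := fix_perp hB h.τχ hdual hb h3
    have h4 : y τ = B (σ⁻¹ * τ * σ) *ᵥ (B σ⁻¹ *ᵥ u) - B σ⁻¹ *ᵥ u := by
      have h5 : B σ⁻¹ *ᵥ (B σ *ᵥ y τ) = y τ := by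
        rw [mulVec_mulVec, ← hB.mul, inv_mul_cancel, hB.one, one_mulVec]
      rw [← h5, hu, mulVec_sub, mulVec_mulVec, mulVec_mulVec, ← hB.mul, ← hB.mul]
      congr 3
      group
    have h6 : χ (σ⁻¹ * τ * σ) = 1 := by
      rw [h.char.mul, h.char.mul, h.τχ, mul_one, ← h.char.mul, inv_mul_cancel, h.char.one]
    obtain ⟨u', hu'⟩ := range_close h hB h6 (B σ⁻¹ *ᵥ u)
    exact ⟨u', by rw [h4, hu']⟩
  · rintro ⟨v', hv'⟩ x hx ⟨v, hv⟩
    -- `y = y₀ + cob v'`
    have hy0 : ZV SD B (y - fun d => B d *ᵥ v' - v') := (zV SD B).sub_mem hy (cob_zv hB v')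
    have hy0τ : (y - fun d => B d *ᵥ v' - v') τ = 0 := by rw [Pi.sub_apply, hv', sub_self]
    have hx0 : ZV SD A (x - fun d => A d *ᵥ v - v) := (zV SD A).sub_mem hx (cob_zv hA v)
    have hx0τ : (x - fun d => A d *ᵥ v - v) τ = 0 := by rw [Pi.sub_apply, hv, sub_self]
    have e1 : PA.BE SD χ (cupE B b (x - fun d => A d *ᵥ v - v) (y - fun d => B d *ᵥ v' - v')) := by
      rw [be_iff_iota h (cupE_ZE hr hx0 hy0)]
      have h1 : ∀ i, (x - fun d => A d *ᵥ v - v) (τ ^ i) = 0 := by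
        intro i
        refine ur_zero h hA hx0 hx0τ ?_
        have := (g1_word h 0 i).1
        rwa [pow_zero, mul_one, pow_zero] at this
      have h2 : ∀ w : Fin n → E, bil b 0 w = 0 := fun w => by simp [bil]
      simp only [iota, cupE, h1, h2, sub_zero, Finset.sum_const_zero, hy0τ, mulVec_zero]
      simp [bil]
    have e2 : PA.BE SD χ (cupE B b x (fun d => B d *ᵥ v' - v')) :=
      (cob_perpV hr (L := zV SD A) (fun X hX => hX) v').2 x hx
    have e3 : PA.BE SD χ (cupE B b (fun d => A d *ᵥ v - v) (y - fun d => B d *ᵥ v' - v')) := by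
      refine ⟨fun s => bil b v ((y - fun d => B d *ᵥ v' - v') s), ?_, ?_⟩
      · intro ε hε
        obtain ⟨Cb, hCb, hbb⟩ := Gn.pair_bound b
        obtain ⟨W, hW, h1⟩ := hy0.1 (ε / (Cb * ‖v‖ + 1)) (by positivity)
        refine ⟨W, hW, fun g w hw => ?_⟩
        simp only
        rw [← bil_sub_right]
        have h3 : ‖bil b v ((y - fun d => B d *ᵥ v' - v') (g * w) -
          (y - fun d => B d *ᵥ v' - v') g)‖ ≤ _ := hbb v _
        refine h3.trans_lt ?_
        have h4 := (h1 g w hw).le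
        calc Cb * ‖v‖ * ‖(y - fun d => B d *ᵥ v' - v') (g * w) -
              (y - fun d => B d *ᵥ v' - v') g‖ ≤ Cb * ‖v‖ * (ε / (Cb * ‖v‖ + 1)) :=
              mul_le_mul_of_nonneg_left h4 (by positivity)
          _ < ε := by
              rw [mul_div_assoc', div_lt_iff₀ (by positivity)]
              nlinarith [norm_nonneg v]
      · funext s t
        show bil b (A s *ᵥ v - v) (B s *ᵥ (y - fun d => B d *ᵥ v' - v') t) = _
        simp only [PA.dE]
        rw [hy0.2 s t, bil_sub_left, hdual, bil_add_right]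
        ring
    have e4 : cupE B b x y = fun s t =>
        (cupE B b (x - fun d => A d *ᵥ v - v) (y - fun d => B d *ᵥ v' - v') s t +
        cupE B b (fun d => A d *ᵥ v - v) (y - fun d => B d *ᵥ v' - v') s t) +
        cupE B b x (fun d => B d *ᵥ v' - v') s t := by
      funext s t
      simp only [cupE, Pi.sub_apply, mulVec_sub, bil_sub_left, bil_sub_right]
      ring
    rw [e4]
    exact be_add (be_add e1 e3) e2

/-- the cocycles whose value at `τ` is that of a coboundary -/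
def fSub (SD : TwoSys D) (A : D → Matrix (Fin n) (Fin n) E) (τ : D) :
    Submodule E (D → Fin n → E) where
  carrier := {x | ZV SD A x ∧ ∃ v, x τ = A τ *ᵥ v - v}
  add_mem' := by
    rintro x y ⟨h1, v, hv⟩ ⟨h2, w, hw⟩
    refine ⟨(zV SD A).add_mem h1 h2, v + w, ?_⟩
    rw [Pi.add_apply, hv, hw, mulVec_add]
    abel
  zero_mem' := ⟨(zV SD A).zero_mem, 0, by rw [mulVec_zero, sub_zero]; rfl⟩
  smul_mem' := by
    rintro c x ⟨h1, v, hv⟩
    refine ⟨(zV SD A).smul_mem c h1, c • v, ?_⟩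
    rw [Pi.smul_apply, hv, mulVec_smul, smul_sub]

theorem f_finrank (h : TameD SD χ a σ τ l) (hA : SmallRep SD A) :
    FiniteDimensional E (fSub SD A τ) ∧ Module.finrank E (fSub SD A τ) = n := by
  have h0 : FiniteDimensional E (zV SD A) := zV_fd (tame_homs h).1 hA.one hA.mul
  have hle : fSub SD A τ ≤ zV SD A := fun x hx => hx.1
  have hfd : FiniteDimensional E (fSub SD A τ) := Submodule.finiteDimensional_of_le hle
  refine ⟨hfd, ?_⟩
  let M : (Fin n → E) →ₗ[E] (Fin n → E) := (A τ).mulVecLin - LinearMap.id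
  have hM : ∀ v, M v = A τ *ᵥ v - v := fun v => rfl
  let ev : fSub SD A τ →ₗ[E] (Fin n → E) :=
    { toFun := fun x => x.1 τ
      map_add' := fun x y => rfl
      map_smul' := fun a x => rfl }
  have hev : ∀ x, ev x = x.1 τ := fun x => rfl
  have hrange : LinearMap.range ev = LinearMap.range M := by
    ext y
    constructor
    · rintro ⟨x, rfl⟩
      obtain ⟨v, hv⟩ := x.2.2
      exact ⟨v, by rw [hM, hev, hv]⟩
    · rintro ⟨v, rfl⟩
      exact ⟨⟨fun d => A d *ᵥ v - v, cob_zv hA v, v, rfl⟩, rfl⟩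
  let es : LinearMap.ker ev →ₗ[E] LinearMap.ker M :=
    { toFun := fun x => ⟨x.1.1 σ, by
        have h1 : x.1.1 τ = 0 := x.2
        rw [LinearMap.mem_ker, hM, ur_val h hA x.1.2.1 h1, sub_self]⟩
      map_add' := fun x y => rfl
      map_smul' := fun a x => rfl }
  have hinj : Function.Injective es := by
    rw [injective_iff_map_eq_zero]
    intro x hx
    have h1 : x.1.1 τ = 0 := x.2
    have h2 : x.1.1 σ = 0 := congrArg Subtype.val hx
    exact Subtype.ext (Subtype.ext (ur_inj h hA x.1.2.1 h1 h2))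
  have hsurj : Function.Surjective es := by
    rintro ⟨v, hv⟩
    rw [LinearMap.mem_ker, hM, sub_eq_zero] at hv
    obtain ⟨x, h1, h2, h3⟩ := ur_exists' h hA hv
    exact ⟨⟨⟨x, h1, 0, by rw [h2, mulVec_zero, sub_zero]⟩, h2⟩, Subtype.ext h3⟩
  have h1 := LinearMap.finrank_range_add_finrank_ker ev
  have h2 := LinearMap.finrank_range_add_finrank_ker M
  rw [hrange, (LinearEquiv.ofBijective es ⟨hinj, hsurj⟩).finrank_eq, h2,
    Module.finrank_fin_fun] at h1
  exact h1.symm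

end Pool.Agent.Work.MP_787500_nt.HP
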