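import Mathlib
import Pool.Agent.Work.MP_787500_nt.GP.StDefs

/-!
# Module CHOOSEQ (size S-M, Mathlib only): an auxiliary prime number

Let `M = ∏ l ∈ T, l` (odd, as all `l` are odd primes) and `N = 16 * M`. By the Chinese remainder theorem there is `a` with `a ≡ 7` modulo 16 and
`a ≡ -1` modulo `M`; it is prime to `N`. By Dirichlet's theorem (Mathlib: `Nat.forall_exists_prime_gt_and_eq_mod`,
`Nat.infinite_setOf_prime_and_eq_mod` or similar) there is a prime `q` with `q ≡ a` modulo `N`. For `l ∈ T`: `l ∣ 1 ^ 2 + q` (so `A = 1` in `SplitPr`), `l ≠ 2`,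
and `l ≠ q` (otherwise `l ∣ 1`).
-/

set_option autoImplicit false

namespace Pool.Agent.Work.MP_787500_nt.HP

open Pool.Agent.Work.MP_787500_nt.GP

theorem exists_q (T : Finset ℕ) (hT : ∀ l ∈ T, l.Prime) (h2 : ∀ l ∈ T, l ≠ 2) :
    ∃ q : ℕ, q.Prime ∧ q % 16 = 7 ∧ ∀ l ∈ T, SplitPr q l := by
  obtain ⟨M, hM⟩ : ∃ M : ℕ, M = ∏ l ∈ T, l := ⟨_, rfl⟩
  have hM0 : 0 < M := hM ▸ Finset.prod_pos fun l hl => (hT l hl).pos
  have hodd : Nat.Coprime 2 M := by
    rw [hM]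
    exact Nat.Coprime.prod_right fun l hl =>
      (Nat.coprime_primes Nat.prime_two (hT l hl)).2 (h2 l hl).symm
  have hco : Nat.Coprime 16 M := by
    have h16 : (16 : ℕ) = 2 ^ 4 := by norm_num
    rw [h16]
    exact hodd.pow_left 4
  obtain ⟨k, hk1, hk2⟩ := Nat.chineseRemainder hco 7 (M - 1)
  have hc1 : Nat.Coprime k 16 := by
    rw [Nat.Coprime, hk1.gcd_eq]
    norm_num
  have hc2 : Nat.Coprime k M := by
    rw [Nat.Coprime, hk2.gcd_eq]
    obtain ⟨m, rfl⟩ : ∃ m, M = m + 1 := ⟨M - 1, by omega⟩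
    simp
  obtain ⟨q, -, hq, hqk⟩ := Nat.forall_exists_prime_gt_and_modEq 0 (q := 16 * M) (a := k)
    (by positivity) (hc1.mul_right hc2)
  refine ⟨q, hq, ?_, fun l hl => ?_⟩
  · have h1 : q ≡ 7 [MOD 16] := (hqk.of_mul_right M).trans hk1
    exact h1
  · have hlM : l ∣ M := hM ▸ Finset.dvd_prod_of_mem _ hl
    have h1 : q ≡ M - 1 [MOD M] := (hqk.of_mul_left 16).trans hk2
    have h3 : q + 1 ≡ 0 [MOD M] := by
      have h4 := h1.add_right 1
      rw [Nat.sub_add_cancel hM0] at h4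
      exact h4.trans (Nat.modEq_zero_iff_dvd.2 dvd_rfl)
    have h4 : l ∣ q + 1 := hlM.trans (Nat.modEq_zero_iff_dvd.1 h3)
    refine ⟨hT l hl, h2 l hl, ?_, 1, ?_⟩
    · rintro rfl
      have h5 : l ∣ 1 := (Nat.dvd_add_right dvd_rfl).1 h4
      exact (hT l hl).one_lt.ne' (Nat.dvd_one.1 h5)
    · have h5 : ((1 : ℤ) ^ 2 + (q : ℤ)) = ((q + 1 : ℕ) : ℤ) := by
        push_cast
        ring
      rw [h5]
      exact_mod_cast h4

end Pool.Agent.Work.MP_787500_nt.HP
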