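import Mathlib
import Pool.Agent.Work.MP_787500_nt.HP.UrGen
import Pool.Agent.Work.MP_787500_nt.HP.CocSub
import Pool.Agent.Work.MP_787500_nt.GP.LT2_Sep
import Pool.Agent.Work.MP_787500_nt.GP.K2_KumZ
import Pool.Agent.Work.MP_787500_nt.GP.L20a_Dim

/-!
# Module URARITH: the unramified cocycles of the decomposition group of a prime not above 2
-/

set_option autoImplicit false
set_option linter.unusedSectionVars false

namespace Pool.Agent.Work.MP_787500_nt.HP

open Matrix NumberField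
open Pool.Agent.Work.MP_787500_nt.PA (TwoSys Sm1 Sm2 homs Coc Cob IsChar cyc toE)
open Pool.Agent.Work.MP_787500_nt.GP

universe u

/-- the continuous cocycles of `D` that vanish on `I` -/
def urL {G : Type*} [Group G] [TopologicalSpace G] {E : Type*} [NormedField E] {n : ℕ}
    (D : Subgroup G) (I : Set G) (A : D → Matrix (Fin n) (Fin n) E) :
    Submodule E (D → Fin n → E) where
  carrier := {x | Parity.IsCocycle A x ∧ ∀ d : D, (d : G) ∈ I → x d = 0}
  add_mem' := fun h h' => ⟨h.1.add h'.1, fun d hd => by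
    rw [Pi.add_apply, h.2 d hd, h'.2 d hd, add_zero]⟩
  zero_mem' := ⟨Parity.IsCocycle.zero A, fun _ _ => rfl⟩
  smul_mem' := fun a _ h => ⟨h.1.smul a, fun d hd => by
    rw [Pi.smul_apply, h.2 d hd, smul_zero]⟩

theorem basis_K (K : Type u) [Field K] : ∀ O ∈ nhds (1 : AbsGal K), ∃ U : Subgroup (AbsGal K),
    IsOpen (U : Set (AbsGal K)) ∧ (U : Set (AbsGal K)) ⊆ O := by
  intro O hO
  obtain ⟨V, hV, hVO⟩ := (krullTopology_mem_nhds_one_iff K (AlgebraicClosure K) O).1 hO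
  exact ⟨V.fixingSubgroup, V.fixingSubgroup_isOpen, hVO⟩

variable {K : Type u} [Field K] [NumberField K] {P : Ideal (𝓞 (AlgebraicClosure K))}
  {E : Type*} [NormedField E] [NormedAlgebra ℚ_[2] E] [FiniteDimensional ℚ_[2] E] {n : ℕ}
  {a : stabD P → ℤ_[2]} {σ τ : stabD P} {l : ℕ} {A B : stabD P → Matrix (Fin n) (Fin n) E}

theorem mem_urL (hP : P.IsPrime) (h2 : (2 : 𝓞 (AlgebraicClosure K)) ∉ P)
    (hT : TameD (subSys (stabD P)) (fun d => cyc (d : AbsGal K)) a σ τ l)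
    (hτ : (τ : AbsGal K) ∈ P.inertia (AbsGal K)) (hA : ProRep A) {x : stabD P → Fin n → E} :
    x ∈ urL (stabD P) (P.inertia (AbsGal K)) A ↔ ZV (subSys (stabD P)) A x ∧ x τ = 0 := by
  have hs := sub_small (basis_K K) (stabD_closed P) hA
  have hc := sub_coc (basis_K K) (stabD_closed P) hA (x := x)
  constructor
  · rintro ⟨h3, h4⟩
    exact ⟨hc.1 h3, h4 τ hτ⟩
  · rintro ⟨h3, h4⟩
    exact ⟨hc.2 h3, fun d hd => ur_zero hT hs h3 h4 (cyc_inertia hP h2 hd)⟩

theorem finrank_urL (hP : P.IsPrime) (h2 : (2 : 𝓞 (AlgebraicClosure K)) ∉ P)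
    (hT : TameD (subSys (stabD P)) (fun d => cyc (d : AbsGal K)) a σ τ l)
    (hτ : (τ : AbsGal K) ∈ P.inertia (AbsGal K)) (hA : ProRep A) (hAτ : A τ = 1) :
    FiniteDimensional E (urL (stabD P) (P.inertia (AbsGal K)) A) ∧
      Module.finrank E (urL (stabD P) (P.inertia (AbsGal K)) A) = n := by
  have hs := sub_small (basis_K K) (stabD_closed P) hA
  let ev : urL (stabD P) (P.inertia (AbsGal K)) A →ₗ[E] (Fin n → E) :=
    { toFun := fun x => x.1 σ
      map_add' := fun x y => rfl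
      map_smul' := fun a x => rfl }
  have hinj : Function.Injective ev := by
    rw [injective_iff_map_eq_zero]
    intro x hx
    obtain ⟨h3, h4⟩ := (mem_urL hP h2 hT hτ hA).1 x.2
    exact Subtype.ext (ur_inj hT hs h3 h4 hx)
  have hsurj : Function.Surjective ev := by
    intro v
    obtain ⟨x, h3, h4, h5⟩ := ur_exists hT hs hAτ v
    exact ⟨⟨x, (mem_urL hP h2 hT hτ hA).2 ⟨h3, h4⟩⟩, h5⟩
  let e := LinearEquiv.ofBijective ev ⟨hinj, hsurj⟩
  refine ⟨LinearEquiv.finiteDimensional e.symm, ?_⟩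
  rw [e.finrank_eq, Module.finrank_fin_fun]

theorem cob_le_urL (hA : ProRep A)
    (hAI : ∀ d : stabD P, (d : AbsGal K) ∈ P.inertia (AbsGal K) → A d = 1) :
    Parity.coboundaries A ≤ urL (stabD P) (P.inertia (AbsGal K)) A := by
  rintro x ⟨v, hv⟩
  obtain rfl : x = fun d => A d *ᵥ v - v := funext hv
  refine ⟨⟨?_, fun s t => ?_⟩, fun d hd => ?_⟩
  · exact (Continuous.matrix_mulVec hA.cont continuous_const).sub continuous_const
  · simp only
    rw [hA.mul, mulVec_sub, mulVec_mulVec]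
    abel
  · simp only
    rw [hAI d hd, one_mulVec, sub_self]

theorem even_urL (hP : P.IsPrime) (h2 : (2 : 𝓞 (AlgebraicClosure K)) ∉ P)
    (hT : TameD (subSys (stabD P)) (fun d => cyc (d : AbsGal K)) a σ τ l)
    (hτ : (τ : AbsGal K) ∈ P.inertia (AbsGal K)) (hA : ProRep A)
    (hAI : ∀ d : stabD P, (d : AbsGal K) ∈ P.inertia (AbsGal K) → A d = 1) :
    Even (Parity.dimModulo (urL (stabD P) (P.inertia (AbsGal K)) A) (Parity.coboundaries A) +
      Module.finrank E (Parity.fixedBy A)) := by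
  obtain ⟨h3, h4⟩ := finrank_urL hP h2 hT hτ hA (hAI τ hτ)
  have h5 := dimModulo_add (cob_le_urL hA hAI) h3
  have h6 := finrank_cob A
  refine ⟨Module.finrank E (Parity.fixedBy A), ?_⟩
  omega

theorem perp_urL (hP : P.IsPrime) (h2 : (2 : 𝓞 (AlgebraicClosure K)) ∉ P)
    (hT : TameD (subSys (stabD P)) (fun d => cyc (d : AbsGal K)) a σ τ l)
    (hτ : (τ : AbsGal K) ∈ P.inertia (AbsGal K)) (hA : ProRep A) (hB : ProRep B)
    (hAI : ∀ d : stabD P, (d : AbsGal K) ∈ P.inertia (AbsGal K) → A d = 1)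
    {b : Matrix (Fin n) (Fin n) E} (hb : b.det ≠ 0)
    (hdual : ∀ d, (A d)ᵀ * b * B d = toE E (cyc (d : AbsGal K)) • b) {y : stabD P → Fin n → E} :
    Parity.IsPerp (fun d : stabD P => toE E (cyc (d : AbsGal K))) B b
      (urL (stabD P) (P.inertia (AbsGal K)) A : Set (stabD P → Fin n → E)) y ↔
      y ∈ urL (stabD P) (P.inertia (AbsGal K)) B := by
  have hsA := sub_small (basis_K K) (stabD_closed P) hA
  have hsB := sub_small (basis_K K) (stabD_closed P) hB
  have hd : ∀ d x y, bil b (A d *ᵥ x) (B d *ᵥ y) = toE E (cyc (d : AbsGal K)) * bil b x y := by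
    intro d x y
    unfold bil
    rw [← vecMul_transpose, ← dotProduct_mulVec, mulVec_mulVec, mulVec_mulVec,
      hdual, smul_mulVec, dotProduct_smul, smul_eq_mul]
  have hL : ∀ x ∈ urL (stabD P) (P.inertia (AbsGal K)) A, Parity.IsCocycle A x :=
    fun x hx => hx.1
  rw [mem_urL hP h2 hT hτ hB, sub_perp (basis_K K) (stabD_closed P) hT.char hA hB hL]
  have key : ∀ hy : ZV (subSys (stabD P)) B y, _ ↔ _ := fun hy =>
    ur_perp hT hsA hsB (hAI τ hτ) hd hb hy
  constructor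
  · rintro ⟨h3, h4⟩
    refine ⟨h3, (key h3).1 fun x hx hxτ => h4 x ?_⟩
    exact (mem_urL hP h2 hT hτ hA).2 ⟨hx, hxτ⟩
  · rintro ⟨h3, h4⟩
    refine ⟨h3, fun x hx => ?_⟩
    obtain ⟨h5, h6⟩ := (mem_urL hP h2 hT hτ hA).1 hx
    exact (key h3).2 h4 x h5 h6

end Pool.Agent.Work.MP_787500_nt.HP
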