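import Mathlib
import Pool.Agent.Work.MP_787500_nt.HP.Splt
import Pool.Agent.Work.MP_787500_nt.PA.LocA

/-!
# Module DECA (size M-L): a prime of the ring of all algebraic integers comes from an embedding

(1) `v`: `Q ∩ 𝓞 F` (`Ideal.comap`), a prime, not `⊥` because it contains `l`. (2) `ι₀ : AlgebraicClosure F →ₐ[F] AlgebraicClosure F_v`:
`IsAlgClosed.lift`. `N` from `PA.exists_N_locA v`; `N 1 = 1`, `N (-x) = N x` (`PA.norm_neg_locA`). `N (algebraMap x) < 1 ↔ Valued.v x < 1`
(pass to inverses in the fifth property). (3) For an algebraic integer `x`, `N (ι₀ x) ≤ 1`: the coefficients of its minimal polynomial are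
integers, `N ≤ 1` on integers (ultrametric), and `N (ι₀ x) > 1` would give `N (x ^ n) > N (the rest)`. So
`Q₀ = {x : 𝓞 _ | N (ι₀ x) < 1}` is a prime ideal, and `Q₀ ∩ 𝓞 F = v.asIdeal` (by (2)). (4) `exists_smul_eq` (`H10_Gal.lean`, it needs
`IsGalois F (AlgebraicClosure F)`): `Q = g • Q₀` for some `g`; take `ι = ι₀ ∘ g⁻¹` (`x ∈ Q ↔ g⁻¹ • x ∈ Q₀`).
* `decA_val`: let `x ≠ 0` and `L` a finite Galois extension of `F` in the closure with `x ∈ L` (`normalClosure` of `F⟮x⟯`, or adjoin also all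
  conjugates; in fact any number field `L` that contains `x` and `g x` is not needed: only `x ∈ L`), `𝔮 = Q ∩ 𝓞 L`, a nonzero prime of the Dedekind
  domain `𝓞 L`. `x = a / b` with `a, b ∈ 𝓞 L`, and if `𝔮.valuation x ≤ 1` one can take `b ∉ 𝔮`; if it is `< 1`, moreover `a ∈ 𝔮`
  (for example `IsLocalization.AtPrime` / `HeightOneSpectrum.valuation` lemmas in the library `GP`, `H10_Val.lean`; or: choose `b` in the
  ideal `{b | b x ∈ 𝓞 L}` not in `𝔮`). If `N (ι x) ≤ 1` then `𝔮.valuation x ≤ 1`: otherwise `x⁻¹ = a / b` with `a ∈ 𝔮`, `b ∉ 𝔮`, so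
  `N (ι x⁻¹) = N (ι a) / N (ι b) < 1`. So `x = a / b`, `b ∉ Q`, and `g x = g a / g b` with `g b ∉ Q`: `N (ι (g b)) = 1`, `N (ι (g a)) ≤ 1`.
-/

set_option autoImplicit false
set_option linter.unusedSectionVars false

namespace Pool.Agent.Work.MP_787500_nt.HP

open IsDedekindDomain NumberField
open Pool.Agent.Work.MP_787500_nt.PA (TwoSys Sm1 Sm2 homs Coc Cob IsChar cyc Opn)
open Pool.Agent.Work.MP_787500_nt.GP

universe u

variable {F : Type u} [Field F] [NumberField F]

/-- `N` is an absolute value of the algebraic closure of the completion, and `Q` is the ideal of the algebraic integers of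
absolute value less than 1 -/
structure IsN (Q : Ideal (𝓞 (AlgebraicClosure F))) {v : HeightOneSpectrum (𝓞 F)}
    (ι : AlgebraicClosure F →ₐ[F] AlgebraicClosure (v.adicCompletion F))
    (N : AlgebraicClosure (v.adicCompletion F) → ℝ) : Prop where
  mul : ∀ x y, N (x * y) = N x * N y
  add : ∀ x y, N (x + y) ≤ max (N x) (N y)
  nonneg : ∀ x, 0 ≤ N x
  zero : ∀ x, N x = 0 ↔ x = 0
  inv : ∀ (τ : AlgebraicClosure (v.adicCompletion F) ≃ₐ[v.adicCompletion F]
          AlgebraicClosure (v.adicCompletion F)) (x), N (τ x) = N x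
  dense : ∀ (c : v.adicCompletion F) (δ : ℝ), 0 < δ →
        ∃ k : F, N (algebraMap _ _ (c - algebraMap F _ k)) < δ
  int : ∀ x : 𝓞 (AlgebraicClosure F), N (ι x) ≤ 1
  lt : ∀ x : 𝓞 (AlgebraicClosure F), N (ι x) < 1 ↔ x ∈ Q

private theorem deca_one {L : Type*} [Field L] {N : L → ℝ} (mul : ∀ x y, N (x * y) = N x * N y)
    (zero : ∀ x, N x = 0 ↔ x = 0) : N 1 = 1 := by
  have h1 : N 1 ≠ 0 := fun h => one_ne_zero ((zero 1).1 h)
  have h2 := mul 1 1
  rw [mul_one] at h2
  exact mul_left_cancel₀ h1 (by rw [← h2, mul_one])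

/-- the valuation of a function `N` -/
private noncomputable def deca_val {L : Type*} [Field L] (N : L → ℝ) (mul : ∀ x y, N (x * y) = N x * N y)
    (add : ∀ x y, N (x + y) ≤ max (N x) (N y)) (nonneg : ∀ x, 0 ≤ N x) (zero : ∀ x, N x = 0 ↔ x = 0) :
    Valuation L NNReal where
  toFun x := ⟨N x, nonneg x⟩
  map_zero' := NNReal.eq ((zero 0).2 rfl)
  map_one' := NNReal.eq (deca_one mul zero)
  map_mul' x y := NNReal.eq (mul x y)
  map_add_le_max' x y := by
    rw [← NNReal.coe_le_coe, NNReal.coe_max]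
    exact add x y

private theorem deca_int {L : Type*} [Field L] {N : L → ℝ} (mul : ∀ x y, N (x * y) = N x * N y)
    (add : ∀ x y, N (x + y) ≤ max (N x) (N y)) (nonneg : ∀ x, 0 ≤ N x) (zero : ∀ x, N x = 0 ↔ x = 0)
    {x : L} {p : Polynomial ℤ} (hp : p.Monic) (he : p.eval₂ (Int.castRingHom L) x = 0) : N x ≤ 1 := by
  have h1 : IsIntegral (deca_val N mul add nonneg zero).integer x := by
    refine ⟨p.map (Int.castRingHom _), hp.map _, ?_⟩
    rw [Polynomial.eval₂_map]
    rw [← he]
    congr 1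
  have h2 := (Valuation.integer.integers (deca_val N mul add nonneg zero)).mem_of_integral h1
  exact NNReal.coe_le_coe.2 h2

private theorem deca_inv {L : Type*} [Field L] {N : L → ℝ} (mul : ∀ x y, N (x * y) = N x * N y)
    (zero : ∀ x, N x = 0 ↔ x = 0) {x : L} (hx : x ≠ 0) : N x * N x⁻¹ = 1 := by
  rw [← mul, mul_inv_cancel₀ hx, deca_one mul zero]

theorem exists_isN {Q : Ideal (𝓞 (AlgebraicClosure F))} (hQ : Q.IsPrime) {l : ℕ} (hl : l.Prime)
    (hlQ : (l : 𝓞 (AlgebraicClosure F)) ∈ Q) :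
    ∃ (v : HeightOneSpectrum (𝓞 F))
      (ι : AlgebraicClosure F →ₐ[F] AlgebraicClosure (v.adicCompletion F))
      (N : AlgebraicClosure (v.adicCompletion F) → ℝ), (l : 𝓞 F) ∈ v.asIdeal ∧ IsN Q ι N := by
  have hprime : (Q.comap (algebraMap (𝓞 F) (𝓞 (AlgebraicClosure F)))).IsPrime :=
    Ideal.comap_isPrime _ _
  have hlv : (l : 𝓞 F) ∈ Q.comap (algebraMap (𝓞 F) (𝓞 (AlgebraicClosure F))) := by
    rw [Ideal.mem_comap, map_natCast]
    exact hlQ
  have hne : Q.comap (algebraMap (𝓞 F) (𝓞 (AlgebraicClosure F))) ≠ ⊥ := by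
    intro h
    rw [h, Ideal.mem_bot, Nat.cast_eq_zero] at hlv
    exact hl.ne_zero hlv
  let v : HeightOneSpectrum (𝓞 F) := ⟨_, hprime, hne⟩
  obtain ⟨N, mul, add, nonneg, zero, hle, inv, dense⟩ := PA.exists_N_locA v
  let ι₀ : AlgebraicClosure F →ₐ[F] AlgebraicClosure (v.adicCompletion F) := IsAlgClosed.lift
  have hint : ∀ x : 𝓞 (AlgebraicClosure F), N (ι₀ x) ≤ 1 := fun x =>
    by
      obtain ⟨p, hp, he⟩ := RingOfIntegers.isIntegral_coe x
      refine deca_int mul add nonneg zero hp ?_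
      have h1 := congrArg ι₀.toRingHom he
      rw [Polynomial.hom_eval₂, map_zero] at h1
      rw [← h1]
      congr 1
      exact (RingHom.eq_intCast' _).symm
  have hone := deca_one mul zero
  -- the prime of `ι₀`
  let Q₀ : Ideal (𝓞 (AlgebraicClosure F)) :=
    { carrier := {x | N (ι₀ x) < 1}
      add_mem' := by
        intro a b ha hb
        show N (ι₀ ((a : AlgebraicClosure F) + (b : AlgebraicClosure F))) < 1
        rw [map_add]
        exact (add _ _).trans_lt (max_lt ha hb)
      zero_mem' := by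
        show N (ι₀ 0) < 1
        rw [map_zero, (zero 0).2 rfl]
        exact one_pos
      smul_mem' := by
        intro a b hb
        show N (ι₀ ((a : AlgebraicClosure F) * (b : AlgebraicClosure F))) < 1
        rw [map_mul, mul]
        exact (mul_le_of_le_one_left (nonneg _) (hint a)).trans_lt hb }
  have hQ₀ : ∀ x, x ∈ Q₀ ↔ N (ι₀ x) < 1 := fun _ => Iff.rfl
  have hQ₀p : Q₀.IsPrime := by
    refine ⟨fun h => ?_, fun {a b} hab => ?_⟩
    · have h1 : (1 : 𝓞 (AlgebraicClosure F)) ∈ Q₀ := by rw [h]; trivial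
      have h2 : N (ι₀ 1) < 1 := h1
      rw [map_one, hone] at h2
      exact lt_irrefl _ h2
    · by_contra h
      rw [not_or, hQ₀, hQ₀, not_lt, not_lt] at h
      have h2 : N (ι₀ ((a : AlgebraicClosure F) * (b : AlgebraicClosure F))) < 1 := hab
      rw [map_mul, mul, (hint a).antisymm h.1, (hint b).antisymm h.2, one_mul] at h2
      exact lt_irrefl _ h2
  have hlt : ∀ z : v.adicCompletion F, N (algebraMap _ _ z) < 1 ↔ Valued.v z < 1 := by
    intro z
    rcases eq_or_ne z 0 with rfl | hz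
    · rw [map_zero, map_zero, (zero 0).2 rfl]
      exact ⟨fun _ => one_pos, fun _ => one_pos⟩
    · have hz' : algebraMap (v.adicCompletion F) (AlgebraicClosure (v.adicCompletion F)) z ≠ 0 :=
        (map_ne_zero _).2 hz
      have h1 := deca_inv mul zero hz'
      have h2 : N (algebraMap (v.adicCompletion F) (AlgebraicClosure (v.adicCompletion F)) z)⁻¹ ≤ 1 ↔
          Valued.v z⁻¹ ≤ 1 := by
        rw [← map_inv₀]
        exact hle z⁻¹
      have hp : 0 < N (algebraMap (v.adicCompletion F) (AlgebraicClosure (v.adicCompletion F)) z) :=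
        (nonneg _).lt_of_ne fun h => hz' ((zero _).1 h.symm)
      have hp' : 0 < N (algebraMap (v.adicCompletion F) (AlgebraicClosure (v.adicCompletion F)) z)⁻¹ :=
        (nonneg _).lt_of_ne fun h => inv_ne_zero hz' ((zero _).1 h.symm)
      have h3 : N (algebraMap (v.adicCompletion F) (AlgebraicClosure (v.adicCompletion F)) z) < 1 ↔
          ¬ N (algebraMap (v.adicCompletion F) (AlgebraicClosure (v.adicCompletion F)) z)⁻¹ ≤ 1 := by
        rw [not_le]
        constructor
        · intro h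
          by_contra h'
          rw [not_lt] at h'
          have := mul_lt_one_of_nonneg_of_lt_one_left hp.le h h'
          rw [h1] at this
          exact lt_irrefl _ this
        · intro h
          by_contra h'
          rw [not_lt] at h'
          have := one_lt_mul_of_le_of_lt h' h
          rw [h1] at this
          exact lt_irrefl _ this
      rw [h3, h2, map_inv₀, not_le, one_lt_inv₀ (zero_lt_iff.2 ((map_ne_zero _).2 hz))]
  have hcomap : Q₀.comap (algebraMap (𝓞 F) (𝓞 (AlgebraicClosure F))) =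
      Q.comap (algebraMap (𝓞 F) (𝓞 (AlgebraicClosure F))) := by
    ext x
    rw [Ideal.mem_comap, hQ₀]
    have h1 : ι₀ ((algebraMap (𝓞 F) (𝓞 (AlgebraicClosure F)) x : 𝓞 (AlgebraicClosure F)) :
        AlgebraicClosure F) = algebraMap (v.adicCompletion F) (AlgebraicClosure (v.adicCompletion F))
          (algebraMap F (v.adicCompletion F) (x : F)) := by
      rw [← IsScalarTower.algebraMap_apply]
      exact ι₀.commutes (x : F)
    rw [h1, hlt]
    have h2 : Valued.v (algebraMap F (v.adicCompletion F) (x : F)) =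
        HeightOneSpectrum.valuation F v (x : F) :=
      HeightOneSpectrum.valuedAdicCompletion_eq_valuation v x
    rw [h2, HeightOneSpectrum.valuation_lt_one_iff_mem]
  obtain ⟨g, hg⟩ := exists_smul_eq Q₀ Q hcomap
  refine ⟨v, ι₀.comp (g⁻¹ : AbsGal F).toAlgHom, N, hlv, mul, add, nonneg, zero, inv, dense, fun x => ?_,
    fun x => ?_⟩
  · exact hint (g⁻¹ • x)
  · rw [hg, Ideal.mem_pointwise_smul_iff_inv_smul_mem, hQ₀]
    rfl

/-- two algebraic integers are comparable modulo a prime -/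
private theorem deca_cond {Q : Ideal (𝓞 (AlgebraicClosure F))} (hQ : Q.IsPrime) {l : ℕ} (hl : l.Prime)
    (hlQ : (l : 𝓞 (AlgebraicClosure F)) ∈ Q) (a b : 𝓞 (AlgebraicClosure F)) :
    ∃ r s : 𝓞 (AlgebraicClosure F), s ∉ Q ∧ (a * r = b * s ∨ b * r = a * s) := by
  let L : IntermediateField F (AlgebraicClosure F) :=
    IntermediateField.adjoin F {(a : AlgebraicClosure F), (b : AlgebraicClosure F)}
  have hfd : FiniteDimensional F L := IntermediateField.finiteDimensional_adjoin fun x _ =>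
    Algebra.IsIntegral.isIntegral x
  have hL : NumberField L := NumberField.of_module_finite F L
  have haL : (a : AlgebraicClosure F) ∈ L := IntermediateField.subset_adjoin _ _ (Or.inl rfl)
  have hbL : (b : AlgebraicClosure F) ∈ L := IntermediateField.subset_adjoin _ _ (Or.inr rfl)
  have hinj : Function.Injective (algebraMap L (AlgebraicClosure F)) :=
    (algebraMap L (AlgebraicClosure F)).injective
  have hai : IsIntegral ℤ (⟨a, haL⟩ : L) := (isIntegral_algebraMap_iff hinj).1
    (RingOfIntegers.isIntegral_coe a)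
  have hbi : IsIntegral ℤ (⟨b, hbL⟩ : L) := (isIntegral_algebraMap_iff hinj).1
    (RingOfIntegers.isIntegral_coe b)
  let a' : 𝓞 L := ⟨⟨a, haL⟩, hai⟩
  let b' : 𝓞 L := ⟨⟨b, hbL⟩, hbi⟩
  have ha' : algebraMap (𝓞 L) (𝓞 (AlgebraicClosure F)) a' = a := RingOfIntegers.ext rfl
  have hb' : algebraMap (𝓞 L) (𝓞 (AlgebraicClosure F)) b' = b := RingOfIntegers.ext rfl
  let P : Ideal (𝓞 L) := Q.comap (algebraMap (𝓞 L) (𝓞 (AlgebraicClosure F)))
  have hP : P.IsPrime := Ideal.comap_isPrime _ _
  have hPb : P ≠ ⊥ := by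
    intro h
    have h1 : (l : 𝓞 L) ∈ P := by
      rw [Ideal.mem_comap, map_natCast]
      exact hlQ
    rw [h, Ideal.mem_bot, Nat.cast_eq_zero] at h1
    exact hl.ne_zero h1
  have hdvr : IsDiscreteValuationRing (Localization.AtPrime P) :=
    IsLocalization.AtPrime.isDiscreteValuationRing_of_dedekind_domain (𝓞 L) hPb _
  have hinj2 : Function.Injective (algebraMap (𝓞 L) (Localization.AtPrime P)) :=
    IsLocalization.injective _ P.primeCompl_le_nonZeroDivisors
  have key : ∀ (a b : 𝓞 L) (c : Localization.AtPrime P),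
      algebraMap (𝓞 L) (Localization.AtPrime P) a * c = algebraMap (𝓞 L) (Localization.AtPrime P) b →
      ∃ r s : 𝓞 L, s ∉ P ∧ a * r = b * s := by
    intro a b c h
    obtain ⟨⟨r, s⟩, hrs⟩ := IsLocalization.surj P.primeCompl c
    refine ⟨r, s, s.2, hinj2 ?_⟩
    rw [map_mul, map_mul, ← h, mul_assoc, ← hrs]
  obtain ⟨c, hc | hc⟩ := ValuationRing.cond (algebraMap (𝓞 L) (Localization.AtPrime P) a')
    (algebraMap (𝓞 L) (Localization.AtPrime P) b')
  · obtain ⟨r, s, hs, h⟩ := key a' b' c hc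
    refine ⟨algebraMap _ _ r, algebraMap _ _ s, hs, Or.inl ?_⟩
    rw [← ha', ← hb', ← map_mul, ← map_mul, h]
  · obtain ⟨r, s, hs, h⟩ := key b' a' c hc
    refine ⟨algebraMap _ _ r, algebraMap _ _ s, hs, Or.inr ?_⟩
    rw [← ha', ← hb', ← map_mul, ← map_mul, h]

theorem decA_val {Q : Ideal (𝓞 (AlgebraicClosure F))} (hQ : Q.IsPrime) {l : ℕ} (hl : l.Prime)
    (hlQ : (l : 𝓞 (AlgebraicClosure F)) ∈ Q) {v : HeightOneSpectrum (𝓞 F)}
    {ι : AlgebraicClosure F →ₐ[F] AlgebraicClosure (v.adicCompletion F)}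
    {N : AlgebraicClosure (v.adicCompletion F) → ℝ} (h : IsN Q ι N) {g : AbsGal F}
    (hg : g ∈ stabD Q) {x : AlgebraicClosure F} (hx : N (ι x) ≤ 1) : N (ι (g x)) ≤ 1 := by
  have hone := deca_one h.mul h.zero
  have hmem : ∀ y : 𝓞 (AlgebraicClosure F), y ∉ Q → N (ι y) = 1 := fun y hy =>
    (h.int y).antisymm (not_lt.1 fun h1 => hy ((h.lt y).1 h1))
  have hgm : ∀ y : 𝓞 (AlgebraicClosure F), y ∉ Q → N (ι (g (y : AlgebraicClosure F))) = 1 :=
    fun y hy => hmem (g • y) fun h1 => hy ((hg y).2 h1)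
  have hgi : ∀ y : 𝓞 (AlgebraicClosure F), N (ι (g (y : AlgebraicClosure F))) ≤ 1 :=
    fun y => h.int (g • y)
  -- a fraction with denominator not in `Q`
  have frac : ∀ r s : 𝓞 (AlgebraicClosure F), s ∉ Q → x * s = r → N (ι (g x)) ≤ 1 := by
    intro r s hs he
    have h1 : N (ι (g x)) * N (ι (g (s : AlgebraicClosure F))) = N (ι (g (r : AlgebraicClosure F))) := by
      rw [← h.mul, ← map_mul, ← map_mul, he]
    rw [hgm s hs, mul_one] at h1
    rw [h1]
    exact hgi r
  rcases eq_or_ne x 0 with rfl | hx0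
  · rw [map_zero, map_zero, (h.zero 0).2 rfl]
    exact zero_le_one
  have halg : IsAlgebraic ℤ x := by
    have h1 : Algebra.IsAlgebraic ℚ (AlgebraicClosure F) := Algebra.IsAlgebraic.trans ℚ F _
    exact (IsFractionRing.isAlgebraic_iff ℤ ℚ (AlgebraicClosure F)).2 (h1.isAlgebraic x)
  obtain ⟨m, hm, him⟩ := halg.exists_integral_multiple
  let a : 𝓞 (AlgebraicClosure F) := ⟨m • x, him⟩
  have ha : (a : AlgebraicClosure F) = m * x := zsmul_eq_mul _ _
  have hm' : (m : AlgebraicClosure F) ≠ 0 := Int.cast_ne_zero.2 hm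
  obtain ⟨r, s, hs, he⟩ := deca_cond hQ hl hlQ a (m : 𝓞 (AlgebraicClosure F))
  have he' : ((a : AlgebraicClosure F) * r = m * s) ∨ ((m : AlgebraicClosure F) * r = a * s) := by
    rcases he with he | he
    · left
      have := congrArg (fun y : 𝓞 (AlgebraicClosure F) => (y : AlgebraicClosure F)) he
      simpa using this
    · right
      have := congrArg (fun y : 𝓞 (AlgebraicClosure F) => (y : AlgebraicClosure F)) he
      simpa using this
  rw [ha] at he'
  rcases he' with he | he
  · -- `x * r = s`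
    have h1 : x * (r : AlgebraicClosure F) = s := mul_left_cancel₀ hm' (by rw [← he]; ring)
    have hr : r ∉ Q := by
      intro hr
      have h2 : N (ι x) * N (ι (r : AlgebraicClosure F)) = 1 := by
        rw [← h.mul, ← map_mul, h1, hmem s hs]
      have h3 := (h.lt r).2 hr
      have h4 : N (ι x) * N (ι (r : AlgebraicClosure F)) < 1 :=
        (mul_le_of_le_one_left (h.nonneg _) hx).trans_lt h3
      rw [h2] at h4
      exact lt_irrefl _ h4
    exact frac s r hr h1
  · have h1 : x * (s : AlgebraicClosure F) = r := mul_left_cancel₀ hm' (by rw [he]; ring)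
    exact frac r s hs h1

end Pool.Agent.Work.MP_787500_nt.HP
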