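import Mathlib
import Pool.Agent.Work.MP_787500_nt.HP.DecA
import Pool.Agent.Work.MP_787500_nt.PA.DecCl

/-!
# Module DECB (size M): the decomposition group of an embedding is the stabilizer of the prime

`exists_isN` gives `v`, `ι`, `N`. `decomp ι ≤ stabD Q`: `τ (ι x) = ι (g x)` gives `N (ι (g x)) = N (ι x)` (`IsN.inv`), and `IsN.lt`.
`stabD Q ≤ decomp ι`: let `g ∈ stabD Q`. As `decomp ι` is closed (`PA.decomp_closed`), it suffices that for every open normal subgroup `U` there is
`d ∈ decomp ι` with `d⁻¹ g ∈ U` (closure; `krullTopology_mem_nhds_one_iff_of_normal` or as in the proof of `PA.decomp_mul_core`).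
The fixed field of `U` is finite over `F`, `= F⟮θ⟯` (`Field.exists_primitive_element`). Let `p = minpoly F_v (ι θ)`. CLAIM: `p (ι (g θ)) = 0`.
Then there is `τ` over `F_v` with `τ (ι θ) = ι (g θ)` (`isConjRoot_iff_exists_algEquiv`, the closure is normal over `F_v`, which has
characteristic 0), `d = PA.resHom ι τ` satisfies `d θ = g θ` (`PA.resHom_spec`, injectivity of `ι`), so `d⁻¹ g` fixes `θ`.
Proof of the claim: otherwise `δ = N (p (ι (g θ))) > 0`. `N 2`, or rather `N (ι l) < 1` (`IsN.lt`) and `> 0`: choose `k` with `N (ι l) ^ k < δ`. By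
`IsN.dense` there is a polynomial `p'` over `F` with coefficients so close to those of `p` that `N (p' (ι θ)) < N (ι l) ^ k` (as `p (ι θ) = 0`) and
`N (p' (ι (g θ)) - p (ι (g θ))) < δ`, so `N (p' (ι (g θ))) ≥ δ` (ultrametric). Let `y = p' (θ)`: `ι y = p' (ι θ)`, `ι (g y) = p' (ι (g θ))`. Put
`x = y / l ^ k`: `N (ι x) < 1`, so `N (ι (g x)) ≤ 1` by `decA_val`, so `N (ι (g y)) ≤ N (ι l) ^ k < δ`: contradiction.
-/

set_option autoImplicit false
set_option linter.unusedSectionVars false

namespace Pool.Agent.Work.MP_787500_nt.HP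

open IsDedekindDomain NumberField
open Pool.Agent.Work.MP_787500_nt.PA (TwoSys Sm1 Sm2 homs Coc Cob IsChar cyc Opn)
open Pool.Agent.Work.MP_787500_nt.GP

universe u

variable {F : Type u} [Field F] [NumberField F]

section aux

variable {Q : Ideal (𝓞 (AlgebraicClosure F))} {v : HeightOneSpectrum (𝓞 F)}
  {ι : AlgebraicClosure F →ₐ[F] AlgebraicClosure (v.adicCompletion F)}
  {N : AlgebraicClosure (v.adicCompletion F) → ℝ}

private theorem db_one (h : IsN Q ι N) : N 1 = 1 := by
  have h1 := h.mul 1 1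
  rw [mul_one] at h1
  have h2 : N 1 ≠ 0 := fun h3 => one_ne_zero ((h.zero 1).1 h3)
  have h3 : N 1 * (N 1 - 1) = 0 := by linear_combination -h1
  rcases mul_eq_zero.1 h3 with h4 | h4
  · exact absurd h4 h2
  · linarith

private theorem db_neg (h : IsN Q ι N) (x : AlgebraicClosure (v.adicCompletion F)) :
    N (-x) = N x := by
  have h1 : N (-1) * N (-1) = 1 := by
    rw [← h.mul, neg_mul_neg, mul_one, db_one h]
  have h2 : N (-1) = 1 := by
    have h3 := h.nonneg (-1)
    nlinarith
  have h3 : -x = (-1) * x := by ring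
  rw [h3, h.mul, h2, one_mul]

private theorem db_sum (h : IsN Q ι N) {b : ℝ} (hb : 0 < b) {σ : Type*} (s : Finset σ)
    (f : σ → AlgebraicClosure (v.adicCompletion F)) (hf : ∀ i ∈ s, N (f i) < b) :
    N (∑ i ∈ s, f i) < b := by
  classical
  induction s using Finset.induction_on with
  | empty =>
    rw [Finset.sum_empty, (h.zero 0).2 rfl]
    exact hb
  | insert a s ha ih =>
    rw [Finset.sum_insert ha]
    exact lt_of_le_of_lt (h.add _ _) (max_lt (hf a (Finset.mem_insert_self a s))
      (ih fun i hi => hf i (Finset.mem_insert_of_mem hi)))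

private theorem db_pow (h : IsN Q ι N) (x : AlgebraicClosure (v.adicCompletion F)) (k : ℕ) :
    N (x ^ k) = N x ^ k := by
  induction k with
  | zero => rw [pow_zero, pow_zero, db_one h]
  | succ k ih => rw [pow_succ, pow_succ, h.mul, ih]

/-- the main approximation argument -/
private theorem db_root (hQ : Q.IsPrime) {l : ℕ} (hl : l.Prime)
    (hlQ : (l : 𝓞 (AlgebraicClosure F)) ∈ Q) (h : IsN Q ι N) {g : AbsGal F}
    (hg : g ∈ stabD Q) (θ : AlgebraicClosure F) :
    Polynomial.aeval (ι (g θ)) (minpoly (v.adicCompletion F) (ι θ)) = 0 := by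
  have hl0 : (l : AlgebraicClosure F) ≠ 0 := Nat.cast_ne_zero.2 hl.ne_zero
  have hιl : ι (l : AlgebraicClosure F) = (l : AlgebraicClosure (v.adicCompletion F)) :=
    map_natCast ι l
  have hιl0 : ι (l : AlgebraicClosure F) ≠ 0 := fun h0 =>
    hl0 (ι.toRingHom.injective (h0.trans (map_zero ι).symm))
  set c := N (ι (l : AlgebraicClosure F)) with hc
  have hc0 : 0 < c := lt_of_le_of_ne (h.nonneg _) (fun h0 => hιl0 ((h.zero _).1 h0.symm))
  have hc1 : c < 1 := by
    have := (h.lt (l : 𝓞 (AlgebraicClosure F))).2 hlQ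
    rwa [show (((l : 𝓞 (AlgebraicClosure F))) : AlgebraicClosure F) = (l : AlgebraicClosure F)
      from map_natCast (algebraMap (𝓞 (AlgebraicClosure F)) (AlgebraicClosure F)) l] at this
  by_contra hne
  set p := minpoly (v.adicCompletion F) (ι θ) with hp
  set δ := N (Polynomial.aeval (ι (g θ)) p) with hδ
  have hδ0 : 0 < δ := lt_of_le_of_ne (h.nonneg _) (fun h0 => hne ((h.zero _).1 h0.symm))
  obtain ⟨k, hk⟩ := exists_pow_lt_of_lt_one hδ0 hc1
  have hck : 0 < c ^ k := pow_pos hc0 k
  -- a common bound for the powers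
  obtain ⟨M, hM0, hM⟩ : ∃ M : ℝ, 0 < M ∧ ∀ i ∈ Finset.range (p.natDegree + 1),
      N (ι θ ^ i) ≤ M ∧ N (ι (g θ) ^ i) ≤ M := by
    refine ⟨∑ i ∈ Finset.range (p.natDegree + 1), (N (ι θ ^ i) + N (ι (g θ) ^ i)) + 1, ?_, ?_⟩
    · have : 0 ≤ ∑ i ∈ Finset.range (p.natDegree + 1), (N (ι θ ^ i) + N (ι (g θ) ^ i)) :=
        Finset.sum_nonneg fun i _ => add_nonneg (h.nonneg _) (h.nonneg _)
      linarith
    · intro i hi
      have h1 : N (ι θ ^ i) + N (ι (g θ) ^ i) ≤
          ∑ i ∈ Finset.range (p.natDegree + 1), (N (ι θ ^ i) + N (ι (g θ) ^ i)) :=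
        Finset.single_le_sum (f := fun i => N (ι θ ^ i) + N (ι (g θ) ^ i))
          (fun i _ => add_nonneg (h.nonneg _) (h.nonneg _)) hi
      have h2 := h.nonneg (ι θ ^ i)
      have h3 := h.nonneg (ι (g θ) ^ i)
      constructor <;> linarith
  have hε : 0 < c ^ k / M := div_pos hck hM0
  choose q hq using fun i : ℕ => h.dense (p.coeff i) (c ^ k / M) hε
  -- the approximate value at a point
  have happ : ∀ z : AlgebraicClosure F,
      (∀ i ∈ Finset.range (p.natDegree + 1), N (ι z ^ i) ≤ M) →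
      N (Polynomial.aeval (ι z) p -
        ι (∑ i ∈ Finset.range (p.natDegree + 1), algebraMap F (AlgebraicClosure F) (q i) * z ^ i)) <
        c ^ k := by
    intro z hz
    have h1 : Polynomial.aeval (ι z) p -
        ι (∑ i ∈ Finset.range (p.natDegree + 1), algebraMap F (AlgebraicClosure F) (q i) * z ^ i) =
        ∑ i ∈ Finset.range (p.natDegree + 1),
          algebraMap (v.adicCompletion F) (AlgebraicClosure (v.adicCompletion F))
            (p.coeff i - algebraMap F (v.adicCompletion F) (q i)) * ι z ^ i := by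
      rw [Polynomial.aeval_eq_sum_range, map_sum, ← Finset.sum_sub_distrib]
      refine Finset.sum_congr rfl fun i _ => ?_
      rw [map_mul, map_pow, AlgHom.commutes, map_sub, sub_mul, Algebra.smul_def,
        ← IsScalarTower.algebraMap_apply]
    rw [h1]
    refine db_sum h hck _ _ fun i hi => ?_
    rw [h.mul]
    have h2 := hq i
    have h3 := hz i hi
    have h4 := h.nonneg (algebraMap (v.adicCompletion F) (AlgebraicClosure (v.adicCompletion F))
            (p.coeff i - algebraMap F (v.adicCompletion F) (q i)))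
    calc _ ≤ N (algebraMap (v.adicCompletion F) (AlgebraicClosure (v.adicCompletion F))
            (p.coeff i - algebraMap F (v.adicCompletion F) (q i))) * M :=
          mul_le_mul_of_nonneg_left h3 h4
      _ < c ^ k / M * M := mul_lt_mul_of_pos_right h2 hM0
      _ = c ^ k := div_mul_cancel₀ _ hM0.ne'
  set y := ∑ i ∈ Finset.range (p.natDegree + 1), algebraMap F (AlgebraicClosure F) (q i) * θ ^ i
    with hy
  have hgy : g y = ∑ i ∈ Finset.range (p.natDegree + 1),
      algebraMap F (AlgebraicClosure F) (q i) * (g θ) ^ i := by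
    rw [hy, map_sum]
    refine Finset.sum_congr rfl fun i _ => ?_
    rw [map_mul, map_pow, AlgEquiv.commutes]
  have h1 := happ θ fun i hi => (hM i hi).1
  rw [hp, minpoly.aeval, zero_sub, db_neg h, ← hp, ← hy] at h1
  have h2 := happ (g θ) fun i hi => (hM i hi).2
  rw [← hgy] at h2
  have h3 : δ ≤ N (ι (g y)) := by
    by_contra hcon
    push Not at hcon
    have h4 : Polynomial.aeval (ι (g θ)) p =
        (Polynomial.aeval (ι (g θ)) p - ι (g y)) + ι (g y) := by ring
    have h5 : δ ≤ max (N (Polynomial.aeval (ι (g θ)) p - ι (g y))) (N (ι (g y))) := by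
      calc δ = N ((Polynomial.aeval (ι (g θ)) p - ι (g y)) + ι (g y)) := by rw [← h4]
        _ ≤ _ := h.add _ _
    rcases le_max_iff.1 h5 with h6 | h6
    · linarith
    · linarith
  -- `x = y / l ^ k`
  have hlk : (l : AlgebraicClosure F) ^ k ≠ 0 := pow_ne_zero k hl0
  have hxy : y / (l : AlgebraicClosure F) ^ k * (l : AlgebraicClosure F) ^ k = y :=
    div_mul_cancel₀ _ hlk
  set x := y / (l : AlgebraicClosure F) ^ k with hx
  have hNx : N (ι x) * c ^ k = N (ι y) := by
    rw [hc, ← db_pow h, ← h.mul, ← map_pow, ← map_mul, hxy]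
  have hNgx : N (ι (g x)) * c ^ k = N (ι (g y)) := by
    rw [hc, ← db_pow h, ← h.mul, ← map_pow, ← map_mul]
    congr 2
    rw [← hxy, map_mul, map_pow, map_natCast]
  have hle : N (ι x) ≤ 1 := by
    by_contra hcon
    push Not at hcon
    have : c ^ k < N (ι x) * c ^ k := by nlinarith
    linarith
  have hle' := decA_val hQ hl hlQ h hg hle
  have : N (ι (g x)) * c ^ k ≤ c ^ k := by nlinarith
  linarith

private theorem db_lift (hQ : Q.IsPrime) {l : ℕ} (hl : l.Prime)
    (hlQ : (l : 𝓞 (AlgebraicClosure F)) ∈ Q) (h : IsN Q ι N) {g : AbsGal F}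
    (hg : g ∈ stabD Q) (θ : AlgebraicClosure F) : ∃ d ∈ decomp ι, d θ = g θ := by
  have : CharZero (v.adicCompletion F) :=
    charZero_of_injective_algebraMap (algebraMap F (v.adicCompletion F)).injective
  have h1 := db_root hQ hl hlQ h hg θ
  have hint : IsIntegral (v.adicCompletion F) (ι θ) := Algebra.IsIntegral.isIntegral _
  have h2 : IsConjRoot (v.adicCompletion F) (ι θ) (ι (g θ)) :=
    (isConjRoot_iff_aeval_eq_zero hint).2 h1
  obtain ⟨τ, hτ⟩ := isConjRoot_iff_exists_algEquiv.1 h2.symm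
  refine ⟨PA.resHom ι τ, ⟨τ, PA.resHom_spec ι τ⟩, ?_⟩
  apply ι.toRingHom.injective
  show ι (PA.resHom ι τ θ) = ι (g θ)
  rw [← PA.resHom_spec, hτ]

end aux

theorem exists_dec {Q : Ideal (𝓞 (AlgebraicClosure F))} (hQ : Q.IsPrime) {l : ℕ} (hl : l.Prime)
    (hlQ : (l : 𝓞 (AlgebraicClosure F)) ∈ Q) :
    ∃ (v : HeightOneSpectrum (𝓞 F))
      (ι : AlgebraicClosure F →ₐ[F] AlgebraicClosure (v.adicCompletion F)),
      (l : 𝓞 F) ∈ v.asIdeal ∧ decomp ι = stabD Q := by
  obtain ⟨v, ι, N, hlv, hN⟩ := exists_isN hQ hl hlQ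
  refine ⟨v, ι, hlv, le_antisymm ?_ ?_⟩
  · rintro σ ⟨τ, hτ⟩ x
    rw [← hN.lt, ← hN.lt]
    have h1 : ((σ • x : 𝓞 (AlgebraicClosure F)) : AlgebraicClosure F) =
        σ (x : AlgebraicClosure F) := rfl
    rw [h1, ← hτ, hN.inv]
  · intro g hg
    by_contra hcon
    have hopen : IsOpen ((decomp ι : Set (AbsGal F))ᶜ) := (PA.decomp_closed ι).isOpen_compl
    have hnhds : (fun h : AbsGal F => g * h) ⁻¹' ((decomp ι : Set (AbsGal F))ᶜ) ∈ nhds 1 := by
      refine (hopen.preimage (continuous_const.mul continuous_id)).mem_nhds ?_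
      simpa using hcon
    rw [krullTopology_mem_nhds_one_iff] at hnhds
    obtain ⟨L, hL, hLU⟩ := hnhds
    obtain ⟨θ, hθ⟩ := Field.exists_primitive_element F L
    obtain ⟨d, hd, hdθ⟩ := db_lift hQ hl hlQ hN hg (θ : AlgebraicClosure F)
    have hfix : (g⁻¹ * d) ∈ L.fixingSubgroup := by
      rw [IntermediateField.mem_fixingSubgroup_iff]
      intro x hx
      have hx' : (⟨x, hx⟩ : L) ∈ IntermediateField.adjoin F {θ} := by rw [hθ]; trivial
      suffices hkey : ∀ z : L, z ∈ IntermediateField.adjoin F {θ} →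
          (g⁻¹ * d) (z : AlgebraicClosure F) = (z : AlgebraicClosure F) from hkey ⟨x, hx⟩ hx'
      intro z hz
      refine IntermediateField.adjoin_induction F
        (p := fun (z : L) _ => (g⁻¹ * d) (z : AlgebraicClosure F) = (z : AlgebraicClosure F))
        ?_ ?_ ?_ ?_ ?_ hz
      · rintro z rfl
        show g⁻¹ (d (z : AlgebraicClosure F)) = _
        rw [hdθ]
        exact AlgEquiv.symm_apply_apply g _
      · intro a
        exact AlgEquiv.commutes _ _
      · intro a b _ _ ha hb
        show (g⁻¹ * d) ((a : AlgebraicClosure F) + b) = (a : AlgebraicClosure F) + b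
        rw [map_add, ha, hb]
      · intro a _ ha
        show (g⁻¹ * d) ((a : AlgebraicClosure F)⁻¹) = (a : AlgebraicClosure F)⁻¹
        rw [map_inv₀, ha]
      · intro a b _ _ ha hb
        show (g⁻¹ * d) ((a : AlgebraicClosure F) * b) = (a : AlgebraicClosure F) * b
        rw [map_mul, ha, hb]
    have h1 := hLU hfix
    apply h1
    show g * (g⁻¹ * d) ∈ decomp ι
    rw [mul_inv_cancel_left]
    exact hd

end Pool.Agent.Work.MP_787500_nt.HP
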