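import Mathlib
import Pool.Agent.Work.MP_787500_nt.HP.UrArith
import Pool.Agent.Work.MP_787500_nt.HP.AboveK
import Pool.Agent.Work.MP_787500_nt.PA.KapK

/-!
# Module AUXSEL: removal of auxiliary primes

`T ⊆ T'`, `ρ` unramified outside 2 and `T`. The Selmer group for `T` with the local conditions `L` is the
Selmer group for `T'` with the conditions `L` at 2 and `T` and the unramified cocycles at the other
elements of `T'`; so the parity formula for `T'` implies that for `T`.
-/

set_option autoImplicit false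
set_option linter.unusedSectionVars false

namespace Pool.Agent.Work.MP_787500_nt.HP

open Matrix NumberField
open Pool.Agent.Work.MP_787500_nt.PA (TwoSys Sm1 Sm2 homs Coc Cob IsChar cyc toE)
open Pool.Agent.Work.MP_787500_nt.GP

universe u

variable {K : Type u} [Field K] [NumberField K]

private theorem as_int {l : ℕ} (hl : l.Prime) {P : Ideal (𝓞 (AlgebraicClosure K))}
    (hP : P.IsPrime) (hlP : (l : 𝓞 (AlgebraicClosure K)) ∈ P) {m : ℕ} (hm : m.Prime)
    (h : (m : 𝓞 (AlgebraicClosure K)) ∈ P) : m = l := by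
  by_contra hne
  have hcop : IsCoprime (m : ℤ) (l : ℤ) :=
    Nat.isCoprime_iff_coprime.2 ((Nat.coprime_primes hm hl).2 hne)
  obtain ⟨a, b, hab⟩ := hcop
  apply hP.ne_top
  rw [Ideal.eq_top_iff_one]
  have h1 : (1 : 𝓞 (AlgebraicClosure K)) = (a : 𝓞 (AlgebraicClosure K)) * m + b * l := by
    have := congrArg (Int.cast : ℤ → 𝓞 (AlgebraicClosure K)) hab
    push_cast at this
    exact this.symm
  rw [h1]
  exact P.add_mem (P.mul_mem_left _ h) (P.mul_mem_left _ hlP)

theorem two_notMem {T : Finset ℕ} {P : ℕ → Ideal (𝓞 (AlgebraicClosure K))} (hP : IsP T P) {l : ℕ}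
    (hl : l ∈ T) : (2 : 𝓞 (AlgebraicClosure K)) ∉ P l := by
  intro h
  have h1 : ((2 : ℕ) : 𝓞 (AlgebraicClosure K)) ∈ P l := by exact_mod_cast h
  exact hP.odd l hl (as_int (hP.prime l hl) (hP.isPrime l (Or.inl hl)) (hP.mem l (Or.inl hl))
    Nat.prime_two h1).symm

theorem inT_mono {T T' : Finset ℕ} (h : T ⊆ T') : inT K T' ⊆ inT K T := by
  rintro σ ⟨Q, h1, h2, h3, h4⟩
  exact ⟨Q, h1, h2, fun l hl => h3 l (h hl), h4⟩

theorem kap_inT {T : Finset ℕ} {c : AlgebraicClosure K ≃+* AlgebraicClosure K}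
    (hc : ∀ x, c (c x) = x) {κ : AbsGal K → AbsGal K}
    (hκ : ∀ (σ : AbsGal K) (x : AlgebraicClosure K), κ σ x = c (σ (c x))) {σ : AbsGal K}
    (hσ : σ ∈ inT K T) : κ σ ∈ inT K T := by
  obtain ⟨Q, h1, h2, h3, h4⟩ := hσ
  let C : 𝓞 (AlgebraicClosure K) ≃+* 𝓞 (AlgebraicClosure K) := RingOfIntegers.mapRingEquiv c
  refine ⟨Q.comap (C : 𝓞 (AlgebraicClosure K) →+* 𝓞 (AlgebraicClosure K)),
    Ideal.comap_isPrime _ _, ?_, fun l hl h => ?_, ?_⟩
  · intro h
    apply h2
    have h5 : (C : 𝓞 (AlgebraicClosure K) →+* 𝓞 (AlgebraicClosure K)) 2 ∈ Q := h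
    rwa [map_ofNat] at h5
  · apply h3 l hl
    have h5 : (C : 𝓞 (AlgebraicClosure K) →+* 𝓞 (AlgebraicClosure K)) l ∈ Q := h
    rwa [map_natCast] at h5
  · intro x
    show C (κ σ • x - x) ∈ Q
    have h5 : C (κ σ • x) = σ • C x := by
      apply RingOfIntegers.ext
      show c (κ σ _) = σ (c _)
      rw [hκ, hc]
      rfl
    rw [map_sub, h5]
    exact h4 (C x)

/-- the inertia group at `P l` is among the inertia groups outside 2 and `T` if `l ∉ T` -/
theorem inertia_inT {T T' : Finset ℕ} {P : ℕ → Ideal (𝓞 (AlgebraicClosure K))} (hP : IsP T' P)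
    (hTT : T ⊆ T') {l : ℕ} (hl : l ∈ T') (hlT : l ∉ T) {σ : AbsGal K}
    (hσ : σ ∈ (P l).inertia (AbsGal K)) : σ ∈ inT K T := by
  refine ⟨P l, hP.isPrime l (Or.inl hl), two_notMem hP hl, fun m hm h => ?_, hσ⟩
  exact hlT (as_int (hP.prime l hl) (hP.isPrime l (Or.inl hl)) (hP.mem l (Or.inl hl))
    (hP.prime m (hTT hm)) h ▸ hm)

variable {E : Type*} [NormedField E] [NormedAlgebra ℚ_[2] E] {n : ℕ}

/-- the local conditions `L` at 2 and `T`, the unramified cocycles at the other elements of `T'` -/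
noncomputable def extL {T : Finset ℕ} (T' : Finset ℕ) (P : ℕ → Ideal (𝓞 (AlgebraicClosure K)))
    (ρ : AbsGal K → Matrix (Fin n) (Fin n) E)
    (L : ∀ w : Option T, Submodule E (stabD (PP P w) → Fin n → E)) :
    ∀ w : Option T', Submodule E (stabD (PP P w) → Fin n → E)
  | none => L none
  | some l => if h : (l : ℕ) ∈ T then L (some ⟨l, h⟩) else
      urL (stabD (P l)) ((P l).inertia (AbsGal K)) (fun σ => ρ σ)

section ext

variable {T T' : Finset ℕ} {P : ℕ → Ideal (𝓞 (AlgebraicClosure K))}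
  {ρ : AbsGal K → Matrix (Fin n) (Fin n) E}
  {L : ∀ w : Option T, Submodule E (stabD (PP P w) → Fin n → E)}

theorem extL_none : extL T' P ρ L none = L none := rfl

theorem extL_pos {l : T'} (h : (l : ℕ) ∈ T) : extL T' P ρ L (some l) = L (some ⟨l, h⟩) := dif_pos h

theorem extL_neg {l : T'} (h : (l : ℕ) ∉ T) : extL T' P ρ L (some l) =
    urL (stabD (P l)) ((P l).inertia (AbsGal K)) (fun σ => ρ σ) := dif_neg h

end ext

variable [FiniteDimensional ℚ_[2] E]

/-- tame data at the elements of `T'` -/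
def TameP (T' : Finset ℕ) (P : ℕ → Ideal (𝓞 (AlgebraicClosure K))) : Prop :=
  ∀ l ∈ T', ∃ (a : stabD (P l) → ℤ_[2]) (σ τ : stabD (P l)),
    (τ : AbsGal K) ∈ (P l).inertia (AbsGal K) ∧
    TameD (subSys (stabD (P l))) (fun d => cyc (d : AbsGal K)) a σ τ l

section main

variable {D : ℕ} {s : K} {c : AlgebraicClosure K ≃+* AlgebraicClosure K}
  {κ : AbsGal K →* AbsGal K} {T T' : Finset ℕ} {P : ℕ → Ideal (𝓞 (AlgebraicClosure K))}
  {ρ : AbsGal K →* Matrix (Fin n) (Fin n) E} {b : Matrix (Fin n) (Fin n) E}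

theorem proRep_rho {I : Set (AbsGal K)} {χ : AbsGal K → E}
    (hρ : Parity.IsConjDual I χ κ ρ b) (D : Subgroup (AbsGal K)) :
    ProRep (fun σ : D => ρ σ) :=
  ⟨map_one ρ, fun s t => by rw [Subgroup.coe_mul, map_mul], hρ.cont.comp continuous_subtype_val,
    fun s => hρ.proTwo s⟩

theorem proRep_kap {I : Set (AbsGal K)} {χ : AbsGal K → E} (hκc : Continuous κ)
    (hρ : Parity.IsConjDual I χ κ ρ b) (D : Subgroup (AbsGal K)) :
    ProRep (fun σ : D => ρ (κ σ)) :=
  ⟨by rw [Subgroup.coe_one, map_one, map_one],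
    fun s t => by rw [Subgroup.coe_mul, map_mul, map_mul],
    hρ.cont.comp (hκc.comp continuous_subtype_val), fun s => by
      have e : ∀ k : ℕ, ρ (κ s ^ 2 ^ k) = ρ (κ ((s ^ 2 ^ k : D) : AbsGal K)) := fun k => by
        rw [Subgroup.coe_pow, map_pow κ]
      exact (hρ.proTwo (κ s)).congr e⟩

/-- the two conditions on `x` at `D` -/
private def Cnd (κ : AbsGal K → AbsGal K) (ρ : AbsGal K → Matrix (Fin n) (Fin n) E)
    (b : Matrix (Fin n) (Fin n) E) (x : AbsGal K → Fin n → E) (D : Subgroup (AbsGal K))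
    (M : Submodule E (D → Fin n → E)) : Prop :=
  (fun σ : D => x σ) ∈ M ∧ Parity.IsPerp (fun σ : D => Parity.cyclo E (σ : AbsGal K))
    (fun σ : D => ρ (κ σ)) b (M : Set (D → Fin n → E)) (fun σ : D => x (κ σ))

theorem sel_eq (hK : IsQ K D s) (hc : PA.IsConj s c)
    (hκ : ∀ (σ : AbsGal K) (x : AlgebraicClosure K), κ σ x = c (σ (c x))) (hTT : T ⊆ T')
    (hP : IsP T' P) (hT : TameP T' P)
    (hρ : Parity.IsConjDual (inT K T) (Parity.cyclo E) κ ρ b) (hb : b.det ≠ 0)
    (L : ∀ w : Option T, Submodule E (stabD (PP P w) → Fin n → E)) :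
    Parity.selmerF (inT K T) (Parity.cyclo E) κ ρ b (fun w : Option T => stabD (PP P w)) L =
      Parity.selmerF (inT K T') (Parity.cyclo E) κ ρ b (fun w : Option T' => stabD (PP P w))
        (extL T' P ρ L) := by
  have hκc : Continuous κ := PA.kappa_continuous hc.sq hκ
  have hκκ : ∀ g, κ (κ g) = g := by
    intro g
    ext x
    rw [hκ, hκ, hc.sq, hc.sq]
  -- the condition at the other primes
  have hperp : ∀ l ∈ T', l ∉ T → ∀ y : stabD (P l) → Fin n → E,
      Parity.IsPerp (fun d : stabD (P l) => Parity.cyclo E (d : AbsGal K)) (fun d => ρ (κ d)) b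
        (urL (stabD (P l)) ((P l).inertia (AbsGal K)) (fun σ => ρ σ) :
          Set (stabD (P l) → Fin n → E)) y ↔
      y ∈ urL (stabD (P l)) ((P l).inertia (AbsGal K)) (fun σ => ρ (κ σ)) := by
    intro l hl hlT y
    obtain ⟨a, σ, τ, hτ, htm⟩ := hT l hl
    exact perp_urL (hP.isPrime l (Or.inl hl)) (two_notMem hP hl) htm hτ (proRep_rho hρ _)
      (proRep_kap hκc hρ _) (fun d hd => hρ.unram _ (inertia_inT hP hTT hl hlT hd)) hb
      (fun d => hρ.dual d)
  ext x
  constructor
  · rintro ⟨h1, h2, h3⟩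
    refine ⟨h1, fun σ hσ => h2 σ (inT_mono hTT hσ), ?_⟩
    rintro (_ | l)
    · exact h3 none
    · by_cases hlT : (l : ℕ) ∈ T
      · have h4 : (extL T' P ρ L (some l) : Submodule E (stabD (P l) → Fin n → E)) =
          L (some ⟨l, hlT⟩) := extL_pos hlT
        have h5 := h3 (some ⟨l, hlT⟩)
        show Cnd κ ρ b x (stabD (P l)) (extL T' P ρ L (some l))
        rw [h4]
        exact h5
      · have h4 : (extL T' P ρ L (some l) : Submodule E (stabD (P l) → Fin n → E)) =
          urL (stabD (P l)) ((P l).inertia (AbsGal K)) (fun σ => ρ σ) := extL_neg hlT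
        show Cnd κ ρ b x (stabD (P l)) (extL T' P ρ L (some l))
        rw [h4]
        refine ⟨⟨⟨h1.1.comp continuous_subtype_val, fun s t => h1.2 s t⟩, fun d hd =>
          h2 _ (inertia_inT hP hTT l.2 hlT hd)⟩, ?_⟩
        refine (hperp l l.2 hlT _).2 ⟨⟨h1.1.comp (hκc.comp continuous_subtype_val), fun s t => ?_⟩,
          fun d hd => h2 _ (kap_inT hc.sq hκ (inertia_inT hP hTT l.2 hlT hd))⟩
        show x (κ (s * t : stabD (P l))) = _
        rw [Subgroup.coe_mul, map_mul, h1.2]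
  · rintro ⟨h1, h2, h3⟩
    have hun : ∀ l ∈ T', l ∉ T → ∀ d ∈ (P l).inertia (AbsGal K), x d = 0 ∧ x (κ d) = 0 := by
      intro l hl hlT d hd
      have hds : d ∈ stabD (P l) := by
        intro y
        have h5 : d • y - y ∈ P l := hd y
        constructor
        · intro hy
          have h6 := (P l).add_mem h5 hy
          rwa [sub_add_cancel] at h6
        · intro hy
          have h6 := (P l).sub_mem hy h5
          rwa [sub_sub_cancel] at h6
      have h4 : (extL T' P ρ L (some ⟨l, hl⟩) : Submodule E (stabD (P l) → Fin n → E)) =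
          urL (stabD (P l)) ((P l).inertia (AbsGal K)) (fun σ => ρ σ) :=
        extL_neg (l := (⟨l, hl⟩ : T')) hlT
      have h5 : Cnd κ ρ b x (stabD (P l)) (extL T' P ρ L (some ⟨l, hl⟩)) := h3 (some ⟨l, hl⟩)
      rw [h4] at h5
      exact ⟨h5.1.2 ⟨d, hds⟩ hd, ((hperp l hl hlT _).1 h5.2).2 ⟨d, hds⟩ hd⟩
    have hx1 : x 1 = 0 := by
      have h := h1.2 1 1
      rw [mul_one, map_one, one_mulVec] at h
      exact left_eq_add.1 h
    refine ⟨h1, ?_, ?_⟩
    · rintro σ ⟨Q, hQ, hQ2, hQT, hσ⟩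
      by_cases h4 : ∀ l ∈ T', (l : 𝓞 (AlgebraicClosure K)) ∉ Q
      · exact h2 σ ⟨Q, hQ, hQ2, h4, hσ⟩
      · push Not at h4
        obtain ⟨l, hl, hlQ⟩ := h4
        have hlT : l ∉ T := fun h => hQT l h hlQ
        obtain ⟨g, hg⟩ := above_k hK (hP.prime l hl) hc hκ (hP.isPrime l (Or.inl hl))
          (hP.mem l (Or.inl hl)) hQ hlQ
        -- the value at the conjugate element
        have hxg : x (g⁻¹ * σ * g) = 0 ∧ ρ (g⁻¹ * σ * g) = 1 := by
          rcases hg with ⟨-, hg⟩ | ⟨-, hg⟩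
          · have h5 := (hg σ).1 hσ
            exact ⟨(hun l hl hlT _ h5).1, hρ.unram _ (inertia_inT hP hTT hl hlT h5)⟩
          · have h5 := (hg σ).1 hσ
            have h6 := (hun l hl hlT _ h5).2
            have h7 := hρ.unram _ (kap_inT hc.sq hκ (inertia_inT hP hTT hl hlT h5))
            rw [hκκ] at h6 h7
            exact ⟨h6, h7⟩
        obtain ⟨h5, h6⟩ := hxg
        have h7 : σ = g * (g⁻¹ * σ * g) * g⁻¹ := by group
        rw [h7, h1.2, h1.2, h5, mulVec_zero, add_zero, map_mul, h6, mul_one]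
        have h8 := h1.2 g g⁻¹
        rw [mul_inv_cancel, hx1] at h8
        exact h8.symm
    · rintro (_ | l)
      · exact h3 none
      · have h4 : (extL T' P ρ L (some ⟨l, hTT l.2⟩) : Submodule E (stabD (P l) → Fin n → E)) =
          L (some l) := extL_pos (l := (⟨l, hTT l.2⟩ : T')) l.2
        have h5 : Cnd κ ρ b x (stabD (P l)) (extL T' P ρ L (some ⟨l, hTT l.2⟩)) :=
          h3 (some ⟨l, hTT l.2⟩)
        rw [h4] at h5
        exact h5

theorem parity_desc (hK : IsQ K D s) (hc : PA.IsConj s c)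
    (hκ : ∀ (σ : AbsGal K) (x : AlgebraicClosure K), κ σ x = c (σ (c x))) (hTT : T ⊆ T')
    (hP : IsP T' P) (hT : TameP T' P)
    (hρ : Parity.IsConjDual (inT K T) (Parity.cyclo E) κ ρ b) (hb : b.det ≠ 0)
    (H : Parity.ParityFormula (inT K T') (Parity.cyclo E) κ ρ b
      (fun w : Option T' => stabD (PP P w))) :
    Parity.ParityFormula (inT K T) (Parity.cyclo E) κ ρ b
      (fun w : Option T => stabD (PP P w)) := by
  intro L hL
  have hL' : ∀ w : Option T', Parity.Between
      (Parity.coboundaries (fun σ : stabD (PP P w) => ρ σ)) (extL T' P ρ L w)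
      (Parity.cocycles (fun σ : stabD (PP P w) => ρ σ)) := by
    rintro (_ | l)
    · exact hL none
    · by_cases hlT : (l : ℕ) ∈ T
      · rw [extL_pos hlT]
        exact hL (some ⟨l, hlT⟩)
      · rw [extL_neg hlT]
        exact ⟨cob_le_urL (proRep_rho hρ _)
          fun d hd => hρ.unram _ (inertia_inT hP hTT l.2 hlT hd), fun x hx => hx.1⟩
  obtain ⟨h1, h2, h3, h4⟩ := H (extL T' P ρ L) hL'
  rw [← sel_eq hK hc hκ hTT hP hT hρ hb L] at h2 h3 h4
  refine ⟨?_, h2, h3, ?_⟩
  · rintro (_ | l)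
    · exact h1 none
    · have h5 := h1 (some ⟨l, hTT l.2⟩)
      rw [extL_pos (l := (⟨l, hTT l.2⟩ : T')) l.2] at h5
      exact h5
  · let f' : T' → ℕ := fun l => Parity.dimModulo (extL T' P ρ L (some l))
      (Parity.coboundaries (fun σ : stabD (PP P (some l)) => ρ σ)) +
      Module.finrank E (Parity.fixedBy (fun σ : stabD (PP P (some l)) => ρ σ))
    let f : T → ℕ := fun l => Parity.dimModulo (L (some l))
      (Parity.coboundaries (fun σ : stabD (PP P (some l)) => ρ σ)) +
      Module.finrank E (Parity.fixedBy (fun σ : stabD (PP P (some l)) => ρ σ))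
    have hf1 : ∀ (l : T') (h : (l : ℕ) ∈ T), f' l = f ⟨l, h⟩ := by
      intro l h
      show Parity.dimModulo (extL T' P ρ L (some l)) _ + _ = _
      rw [extL_pos h]
      rfl
    have hf2 : ∀ l : T', (l : ℕ) ∉ T → Even (f' l) := by
      intro l h
      show Even (Parity.dimModulo (extL T' P ρ L (some l)) _ + _)
      rw [extL_neg h]
      obtain ⟨a, σ, τ, hτ, htm⟩ := hT l l.2
      exact even_urL (hP.isPrime l (Or.inl l.2)) (two_notMem hP l.2) htm hτ (proRep_rho hρ _)
        (fun d hd => hρ.unram _ (inertia_inT hP hTT l.2 h hd))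
    have hsum : ∃ m, ∑ l, f' l = ∑ l, f l + 2 * m := by
      have h5 : ∑ l, f' l = ∑ l ∈ Finset.univ.filter (fun l : T' => (l : ℕ) ∈ T), f' l +
          ∑ l ∈ Finset.univ.filter (fun l : T' => ¬ (l : ℕ) ∈ T), f' l :=
        (Finset.sum_filter_add_sum_filter_not _ _ _).symm
      have h6 : ∑ l ∈ Finset.univ.filter (fun l : T' => (l : ℕ) ∈ T), f' l = ∑ l, f l := by
        refine Finset.sum_bij' (fun l hl => (⟨l, (Finset.mem_filter.1 hl).2⟩ : T))
          (fun l _ => (⟨l, hTT l.2⟩ : T')) (fun _ _ => Finset.mem_univ _)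
          (fun l _ => Finset.mem_filter.2 ⟨Finset.mem_univ _, l.2⟩) (fun _ _ => rfl)
          (fun _ _ => rfl) (fun l hl => hf1 l _)
      obtain ⟨m, hm⟩ : Even (∑ l ∈ Finset.univ.filter (fun l : T' => ¬ (l : ℕ) ∈ T), f' l) :=
        Finset.even_sum _ fun l hl => hf2 l (Finset.mem_filter.1 hl).2
      exact ⟨m, by rw [h5, h6, hm, two_mul]⟩
    obtain ⟨m, hm⟩ := hsum
    rw [Fintype.sum_option] at h4 ⊢
    have h5 : Even (Parity.dimModulo (Parity.selmerF (inT K T) (Parity.cyclo E) κ ρ b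
        (fun w : Option T => stabD (PP P w)) L) (Parity.coboundaries ρ) +
        Module.finrank E (Parity.fixedBy (fun σ : AbsGal K => ρ σ)) +
        (Parity.dimModulo (L none) (Parity.coboundaries
          (fun σ : stabD (PP P (none : Option T)) => ρ σ)) +
        Module.finrank E (Parity.fixedBy (fun σ : stabD (PP P (none : Option T)) => ρ σ)) +
        ∑ l, f' l)) := h4
    change Even (Parity.dimModulo (Parity.selmerF (inT K T) (Parity.cyclo E) κ ρ b
        (fun w : Option T => stabD (PP P w)) L) (Parity.coboundaries ρ) +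
        Module.finrank E (Parity.fixedBy (fun σ : AbsGal K => ρ σ)) +
        (Parity.dimModulo (L none) (Parity.coboundaries
          (fun σ : stabD (PP P (none : Option T)) => ρ σ)) +
        Module.finrank E (Parity.fixedBy (fun σ : stabD (PP P (none : Option T)) => ρ σ)) +
        ∑ l, f l))
    rw [hm] at h5
    rw [Nat.even_iff] at h5 ⊢
    omega

end main

end Pool.Agent.Work.MP_787500_nt.HP
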