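import Mathlib
import Pool.Agent.Work.MP_787500_nt.HP.Defs
import Pool.Agent.Work.MP_787500_nt.GP.FDefs

/-!
The version of `GP/FDefs.lean` for a family of pairs `(θ, φ)` (the proofs are the same).
-/

set_option autoImplicit false
set_option linter.unusedSectionVars false

namespace Pool.Agent.Work.MP_787500_nt.HP

open Pool.Agent.Work.MP_787500_nt.GP

open Pool.Agent.Work.MP_787500_nt.PA (TwoSys Sm1 Sm2 homs Coc Cob IsChar)

section modules

variable {G : Type*} [Group G] {S : TwoSys G} {Φ : Type*} [Fintype Φ] {D : Φ → Type*}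
  [∀ w, Group (D w)] {SD : ∀ w, TwoSys (D w)} {j : ∀ w, D w →* G} {χ : G → ℤ_[2]}
  {inv : ∀ w, (D w → D w → A0) → A0} {κ : G →* G} {Θ : Set (G × G)}
  {O : Type*} [CommRing O] {M : Type*} [AddCommGroup M] [Module O M]
  {ρ : G → M → M} {b : M →+ M →+ A0}

/-- a self-dual module and its twist form a perfect pair -/
theorem SDualF.pair (H : ParHF S SD j χ inv κ Θ) (h : SDualF S χ κ Θ O ρ b) :
    Pair S χ ρ (fun g => ρ (κ g)) b := by
  refine ⟨h.act, h.act.comp κ, h.sm, ?_, h.eqv, h.nd, fun m' hm => h.nd m' fun m => ?_⟩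
  · obtain ⟨W, hW, h1⟩ := h.sm
    obtain ⟨W', hW', h2⟩ := H.ksys W hW
    exact ⟨W', hW', fun w hw m => h1 _ (h2 w hw) m⟩
  · rw [h.symm]
    exact hm m

theorem SDualF.locPair (H : ParHF S SD j χ inv κ Θ) (h : SDualF S χ κ Θ O ρ b) (w : Φ) :
    Pair (SD w) (fun d => χ (j w d)) (fun d => ρ (j w d)) (fun d => ρ (κ (j w d))) b :=
  (h.pair H).comp (H.jsm w)

/-- the cocycles of `D w` with values in the twist of `M` that are orthogonal to (the cocycles in) `Λ` -/
def perpM (H : ParHF S SD j χ inv κ Θ) (h : SDualF S χ κ Θ O ρ b) (w : Φ)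
    (Λ : Submodule O (D w → M)) : Submodule O (D w → M) where
  carrier := {y | Z1 (SD w) (fun d => ρ (κ (j w d))) y ∧
    ∀ x ∈ Λ, Z1 (SD w) (fun d => ρ (j w d)) x →
      inv w (cup11 (fun d => ρ (κ (j w d))) b x y) = 0}
  add_mem' := by
    rintro y y' ⟨h1, h2⟩ ⟨h1', h2'⟩
    have hp := h.locPair H w
    refine ⟨Z1.add hp.act' h1 h1', fun x hx hx1 => ?_⟩
    have e : cup11 (fun d => ρ (κ (j w d))) b x (y + y') = fun s t =>
        cup11 (fun d => ρ (κ (j w d))) b x y s t + cup11 (fun d => ρ (κ (j w d))) b x y' s t := by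
      funext s t
      simp only [cup11, Pi.add_apply]
      rw [hp.act'.add, map_add]
    rw [e, (H.loc w).add _ _ (cup11_Z2 hp hx1 h1) (cup11_Z2 hp hx1 h1'), h2 x hx hx1,
      h2' x hx hx1, add_zero]
  zero_mem' := by
    have hp := h.locPair H w
    refine ⟨(zM (O := O) (SD w) hp.act' (fun g => h.lin _)).zero_mem, fun x _ _ => ?_⟩
    have e : cup11 (fun d => ρ (κ (j w d))) b x (0 : D w → M) =
        d1 (tw fun d => χ (j w d)) (fun _ => 0) := by
      funext s t
      simp [cup11, d1, tw, hp.act'.zero]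
    rw [e]
    refine (H.loc w).cob _ ?_
    obtain ⟨W, hW⟩ := (SD w).ex
    exact ⟨W, hW, fun _ _ _ => rfl⟩
  smul_mem' := by
    rintro a y ⟨h1, h2⟩
    have hp := h.locPair H w
    refine ⟨(zM (O := O) (SD w) hp.act' (fun g => h.lin _)).smul_mem a h1, fun x hx hx1 => ?_⟩
    have e : cup11 (fun d => ρ (κ (j w d))) b x (a • y) =
        cup11 (fun d => ρ (κ (j w d))) b (a • x) y := by
      funext s t
      simp only [cup11, Pi.smul_apply]
      rw [h.lin, h.bal]
    rw [e]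
    exact h2 _ (Λ.smul_mem a hx) ((zM (O := O) (SD w) hp.act (fun g => h.lin _)).smul_mem a hx1)

/-- the global cocycles whose restrictions by `j w` lie in `Λ w` and whose restrictions by `κ ∘ j w`
lie in `Γ w` -/
def selM (h : SDualF S χ κ Θ O ρ b) (j : ∀ w, D w →* G) (Λ Γ : ∀ w, Submodule O (D w → M)) :
    Submodule O (G → M) where
  carrier := {x | Z1 S ρ x ∧ (∀ w, (fun d => x (j w d)) ∈ Λ w) ∧
    ∀ w, (fun d => x (κ (j w d))) ∈ Γ w}
  add_mem' := fun h1 h1' => ⟨Z1.add h.act h1.1 h1'.1, fun w => (Λ w).add_mem (h1.2.1 w) (h1'.2.1 w),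
    fun w => (Γ w).add_mem (h1.2.2 w) (h1'.2.2 w)⟩
  zero_mem' := ⟨(zM (O := O) S h.act (fun g => h.lin _)).zero_mem, fun w => (Λ w).zero_mem,
    fun w => (Γ w).zero_mem⟩
  smul_mem' := fun a x h1 => ⟨(zM (O := O) S h.act (fun g => h.lin _)).smul_mem a h1.1,
    fun w => (Λ w).smul_mem a (h1.2.1 w), fun w => (Γ w).smul_mem a (h1.2.2 w)⟩

end modules

end Pool.Agent.Work.MP_787500_nt.HP
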