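import Mathlib
import Pool.Agent.Work.MP_787500_nt.HP.FamDefs

/-!
The version of `GP/F08_AltZ.lean` for a family of pairs `(θ, φ)` (the proofs are the same).
-/

set_option autoImplicit false
set_option linter.unusedSectionVars false

namespace Pool.Agent.Work.MP_787500_nt.HP

open Pool.Agent.Work.MP_787500_nt.GP

open Pool.Agent.Work.MP_787500_nt.PA (TwoSys Sm1 Sm2 homs Coc Cob IsChar)

variable {G : Type*} [Group G] {S : TwoSys G} {Φ : Type*} [Fintype Φ] {D : Φ → Type*}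
  [∀ w, Group (D w)] {SD : ∀ w, TwoSys (D w)} {j : ∀ w, D w →* G} {χ : G → ℤ_[2]}
  {inv : ∀ w, (D w → D w → A0) → A0} {κ : G →* G} {Θ : Set (G × G)}
  {O : Type*} [CommRing O] {M : Type*} [AddCommGroup M] [Module O M] [Finite M]
  {ρ : G → M → M} {b : M →+ M →+ A0}

private theorem f08_one (h : SDualF S χ κ Θ O ρ b) {x : G → M} (hx : Z1 S ρ x) : x 1 = 0 := by
  have h1 := hx.2 1 1
  rw [mul_one, h.act.one] at h1
  exact left_eq_add.1 h1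

private theorem f08_smul (h : SDualF S χ κ Θ O ρ b) {x : G → M} (hx : Z1 S ρ x) (a : O) :
    Z1 S ρ (fun g => a • x g) :=
  (zM (O := O) S h.act (fun g => h.lin _)).smul_mem a hx

/-- the key relations modulo the system -/
private theorem f08_rel (H : ParHF S SD j χ inv κ Θ) (h : SDualF S χ κ Θ O ρ b) {x : G → M}
    (hx : Z1 S ρ x) {θ φ : G} (hp : (θ, φ) ∈ Θ) :
    (∀ m, ρ θ (ρ (κ θ) m) = m) ∧ (∀ m, ρ (κ θ) (ρ θ m) = m) ∧ ρ θ (x (κ θ)) = -x θ ∧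
      (∀ m, ρ φ (ρ θ m) = ρ θ (ρ (κ φ) m)) ∧ x φ + ρ φ (x θ) = x θ + ρ θ (x (κ φ)) := by
  obtain ⟨W₁, hW₁, h1⟩ := h.sm
  obtain ⟨W₂, hW₂, h2⟩ := hx.1
  have hW := S.inf hW₁ hW₂
  have ht : θ * κ θ ∈ W₁ ⊓ W₂ := H.tk _ hp _ hW
  have hf : (θ * κ φ)⁻¹ * (φ * θ) ∈ W₁ ⊓ W₂ := H.fk _ hp _ hW
  have e1 : ∀ m, ρ θ (ρ (κ θ) m) = m := fun m => by
    rw [← h.act.mul]
    exact h1 _ ht.1 m
  have hinvθ : ∀ m, ρ θ⁻¹ (ρ θ m) = m := fun m => by
    rw [← h.act.mul, inv_mul_cancel, h.act.one]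
  have e2 : ∀ m, ρ (κ θ) (ρ θ m) = m := by
    intro m
    have h3 := e1 (ρ θ m)
    have h4 := congrArg (ρ θ⁻¹) h3
    rwa [hinvθ, hinvθ] at h4
  have e3 : ρ θ (x (κ θ)) = -x θ := by
    have h3 := hx.2 θ (κ θ)
    have h4 : x (θ * κ θ) = 0 := by
      rw [← one_mul (θ * κ θ), h2 1 _ ht.2, f08_one h hx]
    rw [h4] at h3
    exact (neg_eq_of_add_eq_zero_right h3.symm).symm
  have hw : φ * θ = θ * κ φ * ((θ * κ φ)⁻¹ * (φ * θ)) := by
    rw [mul_inv_cancel_left]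
  have e4 : ∀ m, ρ φ (ρ θ m) = ρ θ (ρ (κ φ) m) := by
    intro m
    rw [← h.act.mul, ← h.act.mul, hw, h.act.mul, h1 _ hf.1]
  have e5 : x φ + ρ φ (x θ) = x θ + ρ θ (x (κ φ)) := by
    rw [← hx.2, ← hx.2, hw, h2 _ _ hf.2]
  exact ⟨e1, e2, e3, e4, e5⟩

private theorem f08_pair (H : ParHF S SD j χ inv κ Θ) (h : SDualF S χ κ Θ O ρ b) {x : G → M}
    (hx : Z1 S ρ x) (a : O) {θ φ : G} (hp : (θ, φ) ∈ Θ) :
    b (a • x θ) (x (κ θ)) = b (a • x θ) (ρ (κ θ) (x (κ (κ θ)))) ∧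
      b (a • x φ) (x (κ φ)) + b (a • x φ) (ρ (κ φ) (x (κ θ))) =
        b (a • x θ) (ρ (κ θ) (x (κ (κ φ)))) := by
  obtain ⟨e1, e2, e3, e4, e5⟩ := f08_rel H h hx hp
  have hL : ∀ m, b (a • ρ θ m) m = 0 := by
    intro m
    rw [h.symm, ← h.bal]
    exact h.alt _ hp a m
  have hP : ∀ m m', b (a • ρ θ m) m' + b (a • ρ θ m') m = 0 := by
    intro m m'
    have h1 := hL (m + m')
    rw [h.act.add, smul_add] at h1
    simp only [map_add, AddMonoidHom.add_apply] at h1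
    rw [hL, hL, zero_add, add_zero] at h1
    rw [add_comm]
    exact h1
  have hL' : ∀ m, b (a • m) (ρ (κ θ) m) = 0 := by
    intro m
    have h1 := hL (ρ (κ θ) m)
    rwa [e1] at h1
  have hP' : ∀ m m', b (a • m) (ρ (κ θ) m') + b (a • m') (ρ (κ θ) m) = 0 := by
    intro m m'
    have h1 := hP (ρ (κ θ) m) (ρ (κ θ) m')
    rwa [e1, e1] at h1
  have hxkt : x (κ θ) = -ρ (κ θ) (x θ) := by
    rw [← h.act.neg, ← e3, e2]
  have hxkp : x (κ φ) = ρ (κ θ) (x φ + ρ φ (x θ) - x θ) := by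
    rw [e5, add_sub_cancel_left, e2]
  have hkp : ρ (κ φ) (ρ (κ θ) (x θ)) = ρ (κ θ) (ρ φ (x θ)) := by
    have h1 := e4 (ρ (κ θ) (x θ))
    rw [e1] at h1
    rw [h1, e2]
  refine ⟨?_, ?_⟩
  · rw [H.kk, hL', hxkt, map_neg, hL', neg_zero]
  · rw [H.kk, hxkp, hxkt, h.act.neg, hkp, h.act.sub, h.act.add, map_neg, map_sub, map_add, hL',
      zero_add]
    have h1 := hP' (x θ) (x φ)
    rw [eq_neg_of_add_eq_zero_left h1]
    abel

theorem alt_zero (H : ParHF S SD j χ inv κ Θ) (h : SDualF S χ κ Θ O ρ b) {x : G → M}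
    (hx : Z1 S ρ x) (a : O) :
    ∑ w, inv w (cup11 (fun d => ρ (κ (j w d))) b (fun d => a • x (j w d))
      (fun d => x (κ (j w d)))) = 0 := by
  have hxk : Z1 S (fun g => ρ (κ g)) (fun g => x (κ g)) := Z1.comp H.ksys hx
  have hax := f08_smul h hx a
  have hx1 := f08_one h hx
  refine H.alt (cup11 (fun g => ρ (κ g)) b (fun g => a • x g) (fun g => x (κ g)))
    (fun g => b (a • x g) (x (κ g))) (cup11_Z2 (h.pair H) hax hxk) ?_ ?_ ?_ ?_ ?_ ?_ ?_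
  · intro g
    show b (a • x g) (ρ (κ g) (x (κ 1))) = 0
    rw [map_one, hx1, h.act.zero, map_zero]
  · intro g
    show b (a • x 1) (ρ (κ 1) (x (κ g))) = 0
    rw [hx1, smul_zero, map_zero]
    rfl
  · obtain ⟨W₁, hW₁, h1⟩ := hx.1
    obtain ⟨W₂, hW₂, h2⟩ := hxk.1
    exact ⟨W₁ ⊓ W₂, S.inf hW₁ hW₂, fun g w hw => by
      show b (a • x (g * w)) (x (κ (g * w))) = b (a • x g) (x (κ g))
      have h2' : x (κ (g * w)) = x (κ g) := h2 g w hw.2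
      rw [h1 g w hw.1, h2']⟩
  · intro s t
    show b (a • x (κ s)) (ρ (κ (κ s)) (x (κ (κ t)))) + b (a • x s) (ρ (κ s) (x (κ t))) =
      -(b (a • x s) (x (κ s)) + χ s • b (a • x t) (x (κ t)) - b (a • x (s * t)) (x (κ (s * t))))
    rw [H.kk, H.kk, map_mul, hx.2 s t, hx.2 (κ s) (κ t), smul_add, ← h.lin]
    simp only [map_add, AddMonoidHom.add_apply]
    rw [h.eqv]
    have h1 : b (ρ s (a • x t)) (x (κ s)) = b (a • x (κ s)) (ρ s (x t)) := by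
      rw [h.symm, h.lin, ← h.bal]
    rw [h1]
    abel
  · intro g
    show b (a • x (κ g)) (x (κ (κ g))) = b (a • x g) (x (κ g))
    rw [H.kk, h.bal, h.symm]
  · rintro ⟨θ, φ⟩ hp
    exact (f08_pair H h hx a hp).1
  · rintro ⟨θ, φ⟩ hp
    exact (f08_pair H h hx a hp).2

end Pool.Agent.Work.MP_787500_nt.HP
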