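import Mathlib
import Pool.Agent.Work.MP_787500_nt.HP.FamF06
import Pool.Agent.Work.MP_787500_nt.HP.FamF11
import Pool.Agent.Work.MP_787500_nt.GP.F12_Homs

/-!
The version of `GP/F13_LocStep.lean` for a family of pairs `(θ, φ)` (the proofs are the same).
-/

set_option autoImplicit false
set_option linter.unusedSectionVars false

namespace Pool.Agent.Work.MP_787500_nt.HP

open Pool.Agent.Work.MP_787500_nt.GP

open Pool.Agent.Work.MP_787500_nt.PA (TwoSys Sm1 Sm2 homs Coc Cob IsChar)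

variable {G : Type*} [Group G] {S : TwoSys G} {Φ : Type*} [Fintype Φ] {D : Φ → Type*}
  [∀ w, Group (D w)] {SD : ∀ w, TwoSys (D w)} {j : ∀ w, D w →* G} {χ : G → ℤ_[2]}
  {inv : ∀ w, (D w → D w → A0) → A0} {κ : G →* G} {Θ : Set (G × G)}
  {O : Type*} [CommRing O] [IsLocalRing O] [Finite (IsLocalRing.ResidueField O)]
  {M : Type*} [AddCommGroup M] [Module O M] [Finite M]
  {ρ : G → M → M} {b : M →+ M →+ A0}

variable {M₁ Mb : Type*} [AddCommGroup M₁] [Module O M₁] [AddCommGroup Mb] [Module O Mb]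
  [Finite M₁] [Finite Mb] {ρ₁ : G → M₁ → M₁} {ρb : G → Mb → Mb} {bb : Mb →+ Mb →+ A0} {e : M}
  {i : M₁ →ₗ[O] M} {π : M₁ →ₗ[O] Mb}

/-- the local condition for `M`: cocycles with values in the annihilator of `O e` -/
def lam0 (h : SDualF S χ κ Θ O ρ b) (SD : ∀ w, TwoSys (D w)) (j : ∀ w, D w →* G) (e : M)
    (w : Φ) : Submodule O (D w → M) where
  carrier := {x | Z1 (SD w) (fun d => ρ (j w d)) x ∧ ∀ (a : O) d, b (a • e) (x d) = 0}
  add_mem' := fun hx hy => ⟨Z1.add (h.act.comp (j w)) hx.1 hy.1, fun a d => by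
    simp only [Pi.add_apply, map_add, hx.2, hy.2, add_zero]⟩
  zero_mem' := ⟨(zM (O := O) (SD w) (h.act.comp (j w)) (fun g => h.lin _)).zero_mem,
    fun a d => by simp⟩
  smul_mem' := fun c x hx => ⟨(zM (O := O) (SD w) (h.act.comp (j w))
    (fun g => h.lin _)).smul_mem c hx.1, fun a d => by
      simp only [Pi.smul_apply]
      rw [← h.bal, smul_smul]
      exact hx.2 _ d⟩

/-- the local condition for `Mb`: cocycles that lift to `M₁` -/
def lam1 (SD : ∀ w, TwoSys (D w)) (j : ∀ w, D w →* G) (h1 : IsAct ρ₁)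
    (hlin : ∀ g (a : O) m, ρ₁ g (a • m) = a • ρ₁ g m) (π : M₁ →ₗ[O] Mb)
    (w : Φ) : Submodule O (D w → Mb) :=
  (zM (O := O) (SD w) (h1.comp (j w)) (fun g => hlin _)).map (π.compLeft (D w))

theorem lin₁ (h : SDualF S χ κ Θ O ρ b) (hs : SubQ ρ b ρ₁ ρb bb e i π) (g : G) (a : O) (m : M₁) :
    ρ₁ g (a • m) = a • ρ₁ g m := by
  apply hs.iinj
  rw [hs.eqi, map_smul, h.lin, map_smul, hs.eqi]

section f13

variable {X : Type*} [Group X] {T : TwoSys X} {c : X →* G}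

theorem f13_two (h2 : (2 : O) ∈ IsLocalRing.maximalIdeal O)
    (hs : SubQ ρ b ρ₁ ρb bb e i π) (a : O) : a • e + a • e = 0 := by
  rw [← add_smul, ← two_mul]
  exact hs.em _ (Ideal.mul_mem_right _ _ h2)

theorem f13_hf (h2 : (2 : O) ∈ IsLocalRing.maximalIdeal O)
    (hs : SubQ ρ b ρ₁ ρb bb e i π) (a : O) (m : M) : ∃ t, b (a • e) m = hf t := by
  apply eq_hf
  rw [← AddMonoidHom.add_apply, ← map_add, f13_two h2 hs, map_zero, AddMonoidHom.zero_apply]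

theorem f13_first (H : ParHF S SD j χ inv κ Θ) (h2 : (2 : O) ∈ IsLocalRing.maximalIdeal O)
    (h : SDualF S χ κ Θ O ρ b) (hs : SubQ ρ b ρ₁ ρb bb e i π) (g : G) (a : O) (m : M) :
    b (a • e) (ρ g m) = b (a • e) m := by
  have h1 := h.eqv (κ g) (a • e) m
  rw [h.lin, hs.efix, H.kk] at h1
  obtain ⟨t, ht⟩ := f13_hf h2 hs a m
  rw [h1, ht]
  exact smul_hf (H.glob.char.odd _) t

theorem f13_sm₁ (h : SDualF S χ κ Θ O ρ b) (hs : SubQ ρ b ρ₁ ρb bb e i π) : Smooth S ρ₁ := by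
  obtain ⟨W, hW, h1⟩ := h.sm
  refine ⟨W, hW, fun w hw m => hs.iinj ?_⟩
  rw [hs.eqi]
  exact h1 w hw _

theorem f13_iZ (hs : SubQ ρ b ρ₁ ρb bb e i π) {x : X → M₁} (hx : Z1 T (fun d => ρ₁ (c d)) x) :
    Z1 T (fun d => ρ (c d)) (fun d => i (x d)) := by
  obtain ⟨⟨W, hW, h1⟩, h2⟩ := hx
  refine ⟨⟨W, hW, fun g w hw => ?_⟩, fun s t => ?_⟩
  · simp only [h1 g w hw]
  · simp only [h2 s t, map_add, hs.eqi]

theorem f13_pZ (hs : SubQ ρ b ρ₁ ρb bb e i π) {x : X → M₁} (hx : Z1 T (fun d => ρ₁ (c d)) x) :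
    Z1 T (fun d => ρb (c d)) (fun d => π (x d)) := by
  obtain ⟨⟨W, hW, h1⟩, h2⟩ := hx
  refine ⟨⟨W, hW, fun g w hw => ?_⟩, fun s t => ?_⟩
  · simp only [h1 g w hw]
  · simp only [h2 s t, map_add, hs.eqp]

theorem f13_lift (hs : SubQ ρ b ρ₁ ρb bb e i π) {x : X → M} (hx : Z1 T (fun d => ρ (c d)) x)
    (h0 : ∀ (a : O) d, b (a • e) (x d) = 0) :
    ∃ x₁, Z1 T (fun d => ρ₁ (c d)) x₁ ∧ ∀ d, i (x₁ d) = x d := by
  choose x₁ hx₁ using fun d => (hs.iran (x d)).1 fun a => h0 a d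
  obtain ⟨⟨W, hW, h1⟩, h2⟩ := hx
  refine ⟨x₁, ⟨⟨W, hW, fun g w hw => hs.iinj ?_⟩, fun s t => hs.iinj ?_⟩, hx₁⟩
  · rw [hx₁, hx₁, h1 g w hw]
  · rw [hx₁, h2, map_add, hs.eqi, hx₁, hx₁]

theorem f13_cup (hs : SubQ ρ b ρ₁ ρb bb e i π) (x y : X → M₁) :
    cup11 (fun d => ρb (c d)) bb (fun d => π (x d)) (fun d => π (y d)) =
      cup11 (fun d => ρ (c d)) b (fun d => i (x d)) (fun d => i (y d)) := by
  funext s t
  simp only [cup11]
  rw [← hs.eqp, hs.pair, hs.eqi]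

theorem f13_ee (hne : Θ.Nonempty) (h : SDualF S χ κ Θ O ρ b) (hs : SubQ ρ b ρ₁ ρb bb e i π) (a a' : O) :
    b (a • e) (a' • e) = 0 := by
  obtain ⟨p, hp⟩ := hne
  have h1 := h.alt p hp (a' * a) e
  rwa [hs.efix, mul_smul, h.bal] at h1

theorem f13_ker (hne : Θ.Nonempty) (h : SDualF S χ κ Θ O ρ b) (hs : SubQ ρ b ρ₁ ρb bb e i π) (T : TwoSys X)
    (c : X →* G) :
    Nat.card {x : X → M₁ // Z1 T (fun d => ρ₁ (c d)) x ∧ ∀ s, π (x s) = 0} =
      Nat.card {x : X → M // (Sm1 T x ∧ ∀ s t, x (s * t) = x s + x t) ∧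
        ∀ s, ∃ a : O, x s = a • e} := by
  refine Nat.card_congr (Equiv.ofBijective (fun x => ⟨fun s => i (x.1 s), ?_⟩) ⟨?_, ?_⟩)
  · have hx := f13_iZ hs x.2.1
    refine ⟨⟨hx.1, fun s t => ?_⟩, fun s => (hs.pker _).1 (x.2.2 s)⟩
    have h1 := hx.2 s t
    obtain ⟨a, ha⟩ := (hs.pker _).1 (x.2.2 t)
    beta_reduce at h1 ⊢
    rw [h1, ha, h.lin, hs.efix]
  · intro x y hxy
    apply Subtype.ext
    funext s
    apply hs.iinj
    exact congrFun (congrArg Subtype.val hxy) s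
  · rintro ⟨x, ⟨hx1, hx2⟩, hx3⟩
    have hZ : Z1 T (fun d => ρ (c d)) x := by
      refine ⟨hx1, fun s t => ?_⟩
      obtain ⟨a, ha⟩ := hx3 t
      beta_reduce
      rw [hx2, ha, h.lin, hs.efix]
    obtain ⟨x₁, h1, h3⟩ := f13_lift hs hZ (by
      intro a d
      obtain ⟨a', ha'⟩ := hx3 d
      rw [ha', f13_ee hne h hs])
    refine ⟨⟨x₁, h1, fun s => (hs.pker _).2 ?_⟩, ?_⟩
    · rw [h3]
      exact hx3 s
    · apply Subtype.ext
      funext s
      exact h3 s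

theorem f13_hom (H : ParHF S SD j χ inv κ Θ) (h2 : (2 : O) ∈ IsLocalRing.maximalIdeal O)
    (h : SDualF S χ κ Θ O ρ b) (hs : SubQ ρ b ρ₁ ρb bb e i π) (a : O) {y : X → M}
    (hy : Z1 T (fun d => ρ (c d)) y) :
    ∃ f ∈ homs T ⊤, ∀ d, b (a • e) (y d) = hf (f d) := by
  choose f hf' using fun d => f13_hf h2 hs a (y d)
  obtain ⟨⟨W, hW, h1⟩, h3⟩ := hy
  refine ⟨f, ⟨⟨W, hW, fun g w hw => hf_inj ?_⟩, fun g hg => absurd trivial hg,
    fun s _ t _ => hf_inj ?_⟩, hf'⟩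
  · rw [← hf', ← hf', h1 g w hw]
  · rw [hf_add, ← hf', ← hf', ← hf', h3, map_add, f13_first H h2 h hs]

theorem f13_corr (hne : Θ.Nonempty) (h2 : (2 : O) ∈ IsLocalRing.maximalIdeal O)
    (h : SDualF S χ κ Θ O ρ b) (hs : SubQ ρ b ρ₁ ρb bb e i π)
    (hc : ∀ W, S.mem W → ∃ W', T.mem W' ∧ ∀ v ∈ W', c v ∈ W) {y₁ : X → M₁} (hy₁ : Sm1 T y₁)
    (hy : Z1 T (fun d => ρb (c d)) (fun d => π (y₁ d)))
    (h0 : ∀ (m : M) (f : X → X → ZMod 2), Coc T ⊤ f →
      (∀ s t, hf (f s t) = b (i (d1 (fun d => ρ₁ (c d)) y₁ s t)) m) → Cob T ⊤ f) :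
    ∃ y₂, Z1 T (fun d => ρ₁ (c d)) y₂ ∧ ∀ d, π (y₂ d) = π (y₁ d) := by
  have hact : IsAct (fun d => ρ₁ (c d)) := hs.act₁.comp c
  have hFe : ∀ s t, ∃ a : O, i (d1 (fun d => ρ₁ (c d)) y₁ s t) = a • e := by
    intro s t
    rw [← hs.pker]
    simp only [d1, map_sub, map_add, hs.eqp]
    exact sub_eq_zero.2 (hy.2 s t).symm
  have hrep : ∀ f : M →+ A0, ∃ m, ∀ x, b x m = f x := fun f =>
    exists_rep b f fun a ha => by rw [h.nd a ha, map_zero]
  obtain ⟨y', hy1, hy2, hy3⟩ := cob_span h2 hs.ene hs.em hrep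
    (F := fun s t => i (d1 (fun d => ρ₁ (c d)) y₁ s t)) (T := T) (by
      obtain ⟨W, hW, h3⟩ := d1_sm hact ((f13_sm₁ h hs).comp hc) hy₁
      exact ⟨W, hW, fun g k w hw w' hw' => congrArg i (h3 g k w hw w' hw')⟩) hFe (by
      intro r s t
      have h3 := congrArg i (d2_d1 hact y₁ r s t)
      obtain ⟨a, ha⟩ := hFe s t
      simp only [d2, map_sub, map_add, map_zero, hs.eqi, ha, h.lin, hs.efix] at h3
      rw [ha]
      rw [sub_eq_zero] at h3
      rw [← h3]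
      abel) h0
  choose u hu using fun s => (hs.iran (y' s)).1 fun a => by
    obtain ⟨a', ha'⟩ := hy2 s
    rw [ha', f13_ee hne h hs]
  have husm : Sm1 T u := by
    obtain ⟨W, hW, h3⟩ := hy1
    exact ⟨W, hW, fun g w hw => hs.iinj (by rw [hu, hu, h3 g w hw])⟩
  refine ⟨fun s => y₁ s - u s, ⟨?_, fun s t => hs.iinj ?_⟩, fun d => ?_⟩
  · obtain ⟨W, hW, h3⟩ := hy₁
    obtain ⟨W', hW', h4⟩ := husm
    exact ⟨W ⊓ W', T.inf hW hW', fun g w hw => by
      beta_reduce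
      rw [h3 g w hw.1, h4 g w hw.2]⟩
  · have h3 := hy3 s t
    simp only [d1, map_sub, map_add, hs.eqi] at h3
    obtain ⟨a, ha⟩ := hy2 t
    have h4 : ρ (c s) (y' t) = y' t := by rw [ha, h.lin, hs.efix]
    simp only [map_sub, map_add, hs.eqi, hu]
    rw [h.act.sub, h4]
    rw [sub_eq_iff_eq_add] at h3
    have h5 : i (y₁ (s * t)) = i (y₁ s) + ρ (c s) (i (y₁ t)) - (y' s + y' t - y' (s * t)) := by
      rw [h3]
      abel
    rw [h5]
    abel
  · rw [map_sub, (hs.pker (u d)).2 (by rw [hu]; exact hy2 d), sub_zero]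

theorem f13_cob (h2 : (2 : O) ∈ IsLocalRing.maximalIdeal O)
    (h : SDualF S χ κ Θ O ρ b) (hs : SubQ ρ b ρ₁ ρb bb e i π) {y₁ x₂ : X → M₁}
    (hy₁ : Sm1 T y₁) (hx₂ : Z1 T (fun d => ρ₁ (c d)) x₂) (hyx : ∀ d, π (y₁ d) = π (x₂ d)) {m : M}
    {f : X → X → ZMod 2} (hf' : ∀ s t, hf (f s t) = b (i (d1 (fun d => ρ₁ (c d)) y₁ s t)) m) :
    Cob T ⊤ f := by
  have h1 : ∀ d, ∃ a : O, i (y₁ d - x₂ d) = a • e := fun d => by
    rw [← hs.pker, map_sub, hyx, sub_self]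
  have h3 : ∀ d, ∃ t, b (i (y₁ d - x₂ d)) m = hf t := by
    intro d
    obtain ⟨a, ha⟩ := h1 d
    rw [ha]
    exact f13_hf h2 hs a m
  choose z hz using h3
  have hzs : Sm1 T z := by
    obtain ⟨W, hW, h3⟩ := hy₁
    obtain ⟨W', hW', h4⟩ := hx₂.1
    exact ⟨W ⊓ W', T.inf hW hW', fun g w hw => hf_inj (by
      rw [← hz, ← hz, h3 g w hw.1, h4 g w hw.2])⟩
  refine ⟨z, hzs, fun s _ t _ => hf_inj ?_⟩
  rw [hf', hf_add, hf_add, ← hz, ← hz, ← hf_neg (z (s * t)), ← hz]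
  obtain ⟨a, ha⟩ := h1 t
  have h5 : ρ (c s) (i (y₁ t - x₂ t)) = i (y₁ t - x₂ t) := by rw [ha, h.lin, hs.efix]
  have h6 : i (d1 (fun d => ρ₁ (c d)) y₁ s t) =
      i (y₁ s - x₂ s) + i (y₁ t - x₂ t) - i (y₁ (s * t) - x₂ (s * t)) := by
    rw [← h5]
    simp only [d1, map_sub, map_add, hs.eqi, hx₂.2 s t, h.act.sub]
    abel
  rw [h6, map_sub, map_add]
  simp only [AddMonoidHom.sub_apply, AddMonoidHom.add_apply]
  abel

end f13

theorem betw0 (H : ParHF S SD j χ inv κ Θ) (h2 : (2 : O) ∈ IsLocalRing.maximalIdeal O)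
    (h : SDualF S χ κ Θ O ρ b) (hb : SDualF S χ κ Θ O ρb bb) (hs : SubQ ρ b ρ₁ ρb bb e i π) (w : Φ) :
    Betw (SD w) (fun d => ρ (j w d)) (lam0 h SD j e w) := by
  refine ⟨fun m => ⟨d0_Z1 (h.act.comp (j w)) (h.sm.comp (H.jsm w)) m, fun a d => ?_⟩,
    fun x hx => hx.1⟩
  show b (a • e) (ρ (j w d) m - m) = 0
  rw [map_sub, f13_first H h2 h hs, sub_self]

theorem betw1 (H : ParHF S SD j χ inv κ Θ) (h2 : (2 : O) ∈ IsLocalRing.maximalIdeal O)
    (h : SDualF S χ κ Θ O ρ b) (hb : SDualF S χ κ Θ O ρb bb) (hs : SubQ ρ b ρ₁ ρb bb e i π) (w : Φ) :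
    Betw (SD w) (fun d => ρb (j w d)) (lam1 SD j hs.act₁ (lin₁ h hs) π w) := by
  refine ⟨fun m => ?_, fun x hx => ?_⟩
  · obtain ⟨m, rfl⟩ := hs.psurj m
    refine ⟨d0 (fun d => ρ₁ (j w d)) m, d0_Z1 (hs.act₁.comp (j w))
      ((f13_sm₁ h hs).comp (H.jsm w)) m, ?_⟩
    funext d
    show π (ρ₁ (j w d) m - m) = ρb (j w d) (π m) - π m
    rw [map_sub, hs.eqp]
  · obtain ⟨x₁, hx₁, rfl⟩ := hx
    exact f13_pZ hs hx₁

theorem card0 (H : ParHF S SD j χ inv κ Θ) (h2 : (2 : O) ∈ IsLocalRing.maximalIdeal O)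
    (h : SDualF S χ κ Θ O ρ b) (hb : SDualF S χ κ Θ O ρb bb) (hs : SubQ ρ b ρ₁ ρb bb e i π) (w : Φ) :
    Nat.card (lam0 h SD j e w) = Nat.card (lam1 SD j hs.act₁ (lin₁ h hs) π w) *
      Nat.card (IsLocalRing.ResidueField O) ^ Module.finrank (ZMod 2) (homs (SD w) ⊤) := by
  have e1 : Nat.card (lam0 h SD j e w) =
      Nat.card (zM (O := O) (SD w) (hs.act₁.comp (j w)) (fun g => lin₁ h hs _)) := by
    refine (Nat.card_congr (Equiv.ofBijective (fun x => ⟨fun s => i (x.1 s),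
      f13_iZ hs x.2, fun a d => (hs.iran _).2 ⟨_, rfl⟩ a⟩) ⟨?_, ?_⟩)).symm
    · intro x y hxy
      apply Subtype.ext
      funext s
      apply hs.iinj
      exact congrFun (congrArg Subtype.val hxy) s
    · rintro ⟨x, hx1, hx2⟩
      obtain ⟨x₁, h1, h3⟩ := f13_lift hs hx1 hx2
      exact ⟨⟨x₁, h1⟩, Subtype.ext (funext h3)⟩
  have e2 := Submodule.card_eq_card_quotient_mul_card (LinearMap.ker
    ((π.compLeft (D w)).domRestrict
      (zM (O := O) (SD w) (hs.act₁.comp (j w)) (fun g => lin₁ h hs _))))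
  rw [Nat.card_congr (LinearMap.quotKerEquivRange _).toEquiv] at e2
  have e3 : LinearMap.range ((π.compLeft (D w)).domRestrict
      (zM (O := O) (SD w) (hs.act₁.comp (j w)) (fun g => lin₁ h hs _))) =
      lam1 SD j hs.act₁ (lin₁ h hs) π w := LinearMap.range_domRestrict _ _
  have e4 : Nat.card (LinearMap.ker ((π.compLeft (D w)).domRestrict
      (zM (O := O) (SD w) (hs.act₁.comp (j w)) (fun g => lin₁ h hs _)))) =
      Nat.card {x : D w → M₁ // Z1 (SD w) (fun d => ρ₁ (j w d)) x ∧ ∀ s, π (x s) = 0} := by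
    refine Nat.card_congr ⟨fun x => ⟨x.1.1, x.1.2, fun s => congrFun x.2 s⟩,
      fun x => ⟨⟨x.1, x.2.1⟩, funext x.2.2⟩, fun x => rfl, fun x => rfl⟩
  rw [e1, e2, e3, e4, f13_ker H.ne h hs, card_homs_span h2 hs.ene hs.em (H.loc w).fin, mul_comm]

theorem lift_perp (H : ParHF S SD j χ inv κ Θ) (h2 : (2 : O) ∈ IsLocalRing.maximalIdeal O)
    (h : SDualF S χ κ Θ O ρ b) (hb : SDualF S χ κ Θ O ρb bb) (hs : SubQ ρ b ρ₁ ρb bb e i π) (w : Φ)
    {y : D w → Mb} (hy : y ∈ perpM H hb w (lam1 SD j hs.act₁ (lin₁ h hs) π w)) :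
    ∃ y₁, Z1 (SD w) (fun d => ρ₁ (κ (j w d))) y₁ ∧ ∀ d, y d = π (y₁ d) := by
  have L := H.loc w
  have hp := h.locPair H w
  have hpb := hb.locPair H w
  let y₁ : D w → M₁ := fun d => Function.surjInv hs.psurj (y d)
  have hy₁ : ∀ d, π (y₁ d) = y d := fun d => Function.surjInv_eq hs.psurj (y d)
  have hy₁s : Sm1 (SD w) y₁ := by
    obtain ⟨W, hW, h3⟩ := hy.1.1
    exact ⟨W, hW, fun g v hv => congrArg (Function.surjInv hs.psurj) (h3 g v hv)⟩
  have hc : ∀ W, S.mem W → ∃ W', (SD w).mem W' ∧ ∀ v ∈ W', (κ.comp (j w)) v ∈ W := by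
    intro W hW
    obtain ⟨W', hW', h3⟩ := H.ksys W hW
    obtain ⟨W'', hW'', h4⟩ := H.jsm w W' hW'
    exact ⟨W'', hW'', fun v hv => h3 _ (h4 v hv)⟩
  obtain ⟨y₂, h3, h4⟩ := f13_corr (c := κ.comp (j w)) H.ne h2 h hs hc hy₁s (by
    have e1 : (fun d => π (y₁ d)) = y := funext hy₁
    rw [e1]
    exact hy.1) (by
    intro m f hf1 hf2
    apply L.one f hf1
    obtain ⟨x₁, hx₁, hx₂⟩ := f13_lift (c := j w) hs
      (d0_Z1 (h.act.comp (j w)) (h.sm.comp (H.jsm w)) m) (fun a d => by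
        show b (a • e) (ρ (j w d) m - m) = 0
        rw [map_sub, f13_first H h2 h hs, sub_self])
    have e2 : cup11 (fun d => ρ (κ (j w d))) b (d0 (fun d => ρ (j w d)) m) (fun d => i (y₁ d)) =
        cup11 (fun d => ρb (κ (j w d))) bb (fun d => π (x₁ d)) y := by
      have e3 : (d0 (fun d => ρ (j w d)) m) = fun d => i (x₁ d) := funext fun d => (hx₂ d).symm
      have e4 : y = fun d => π (y₁ d) := funext fun d => (hy₁ d).symm
      rw [e3, e4]
      exact (f13_cup (c := κ.comp (j w)) hs x₁ y₁).symm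
    have hx₁b : Z1 (SD w) (fun d => ρb (j w d)) (fun d => π (x₁ d)) := f13_pZ (c := j w) hs hx₁
    have hz : Z2 (SD w) (tw fun d => χ (j w d))
        (cup11 (fun d => ρb (κ (j w d))) bb (fun d => π (x₁ d)) y) := cup11_Z2 hpb hx₁b hy.1
    have hz0 : inv w (cup11 (fun d => ρb (κ (j w d))) bb (fun d => π (x₁ d)) y) = 0 :=
      hy.2 _ ⟨x₁, hx₁, rfl⟩ hx₁b
    have hsm : Sm1 (SD w) (cup01 b m fun d => i (y₁ d)) := by
      apply cup01_sm
      obtain ⟨W, hW, h5⟩ := hy₁s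
      exact ⟨W, hW, fun g v hv => congrArg i (h5 g v hv)⟩
    have e5 : (fun s t => hf (f s t)) = fun s t =>
        d1 (tw fun d => χ (j w d)) (cup01 b m fun d => i (y₁ d)) s t +
          -cup11 (fun d => ρb (κ (j w d))) bb (fun d => π (x₁ d)) y s t := by
      funext s t
      have h5 := leib01 hp.eqv m (fun d => i (y₁ d)) s t
      rw [h5, e2, hf2]
      have h6 : cup02 b m (d1 (fun d => ρ (κ (j w d))) fun d => i (y₁ d)) s t =
          b (i (d1 (fun d => ρ₁ ((κ.comp (j w)) d)) y₁ s t)) m := by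
        show b m (d1 (fun d => ρ (κ (j w d))) (fun d => i (y₁ d)) s t) = _
        rw [h.symm]
        congr 2
        simp only [d1, map_sub, map_add, hs.eqi]
        rfl
      rw [h6]
      abel
    have hz1 := d1_tw_Z2 L.char hsm
    have e6 : inv w (fun s t => hf (f s t)) = 0 := by
      have hz2 : Z2 (SD w) (tw fun d => χ (j w d)) (fun s t => hf (f s t)) := by
        rw [e5]
        exact Z2.add (isAct_tw L.char) hz1 (Z2.neg (isAct_tw L.char) hz)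
      have h7 := L.add _ _ hz hz2
      rw [hz0, zero_add] at h7
      rw [← h7, ← L.cob _ hsm]
      congr 1
      funext s t
      have h8 := congrFun (congrFun e5 s) t
      beta_reduce at h8
      rw [h8]
      abel
    exact e6)
  exact ⟨y₂, h3, fun d => by rw [h4, hy₁]⟩

theorem val_perp (H : ParHF S SD j χ inv κ Θ) (h2 : (2 : O) ∈ IsLocalRing.maximalIdeal O)
    (h : SDualF S χ κ Θ O ρ b) (hb : SDualF S χ κ Θ O ρb bb) (hs : SubQ ρ b ρ₁ ρb bb e i π) (w : Φ)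
    {y : D w → M} (hy : y ∈ perpM H h w (lam0 h SD j e w)) (a : O) (d : D w) :
    b (a • e) (y d) = 0 := by
  have L := H.loc w
  have hp := h.locPair H w
  obtain ⟨f, hf1, hf2⟩ := f13_hom (c := κ.comp (j w)) H h2 h hs a hy.1
  have hf0 : f = 0 := by
    refine L.nondeg f hf1 fun ψ hψ => ?_
    let E : ZMod 2 →+ M := ZMod.lift 2 ⟨zmultiplesHom M (a • e), by
      show ((2 : ℕ) : ℤ) • (a • e) = 0
      rw [natCast_zsmul, two_nsmul, f13_two h2 hs]⟩
    have hE1 : E 1 = a • e := by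
      have h3 := ZMod.lift_coe 2 ⟨zmultiplesHom M (a • e), by
        show ((2 : ℕ) : ℤ) • (a • e) = 0
        rw [natCast_zsmul, two_nsmul, f13_two h2 hs]⟩ 1
      rw [Int.cast_one] at h3
      rw [h3]
      show (1 : ℤ) • (a • e) = a • e
      rw [one_zsmul]
    have hE : ∀ c : ZMod 2, E c = 0 ∨ E c = a • e := by
      intro c
      rcases (by decide : ∀ c : ZMod 2, c = 0 ∨ c = 1) c with rfl | rfl
      · exact Or.inl (map_zero E)
      · exact Or.inr hE1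
    have hEO : ∀ c : ZMod 2, ∃ a' : O, E c = a' • e := by
      intro c
      rcases hE c with h3 | h3
      · exact ⟨0, by rw [h3, zero_smul]⟩
      · exact ⟨a, h3⟩
    have hEf : ∀ (c : ZMod 2) (d : D w), b (E c) (y d) = hf (c * f d) := by
      intro c d
      rcases (by decide : ∀ c : ZMod 2, c = 0 ∨ c = 1) c with rfl | rfl
      · rw [map_zero, map_zero, zero_mul, hf_zero, AddMonoidHom.zero_apply]
      · rw [hE1, one_mul, hf2]
    have hx : Z1 (SD w) (fun d => ρ (j w d)) (fun d => E (ψ d)) := by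
      obtain ⟨⟨W, hW, h3⟩, -, h4⟩ := hψ
      refine ⟨⟨W, hW, fun g v hv => congrArg E (h3 g v hv)⟩, fun s t => ?_⟩
      beta_reduce
      obtain ⟨a', ha'⟩ := hEO (ψ t)
      rw [h4 s trivial t trivial, map_add, ha', h.lin, hs.efix]
    have hxl : (fun d => E (ψ d)) ∈ lam0 h SD j e w := by
      refine ⟨hx, fun a' d => ?_⟩
      obtain ⟨a'', ha''⟩ := hEO (ψ d)
      beta_reduce
      rw [ha'', f13_ee H.ne h hs]
    have h0 := hy.2 _ hxl hx
    have e1 : cup11 (fun d => ρ (κ (j w d))) b (fun d => E (ψ d)) y =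
        fun s t => hf (ψ s * f t) := by
      funext s t
      show b (E (ψ s)) (ρ (κ (j w s)) (y t)) = hf (ψ s * f t)
      rw [← hEf]
      obtain ⟨a', ha'⟩ := hEO (ψ s)
      rw [ha', f13_first H h2 h hs]
    have hz : Z2 (SD w) (tw fun d => χ (j w d)) (fun s t => hf (ψ s * f t)) := by
      rw [← e1]
      exact cup11_Z2 hp hx hy.1
    have hsm : Sm1 (SD w) (fun s => hf (ψ s * f s)) := by
      obtain ⟨W, hW, h3⟩ := hψ.1
      obtain ⟨W', hW', h4⟩ := hf1.1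
      refine ⟨W ⊓ W', (SD w).inf hW hW', fun g v hv => ?_⟩
      beta_reduce
      rw [h3 g v hv.1, h4 g v hv.2]
    have e2 : (fun s t => hf (f s * ψ t)) = fun s t =>
        d1 (tw fun d => χ (j w d)) (fun s => hf (ψ s * f s)) s t + -hf (ψ s * f t) := by
      funext s t
      have h3 : d1 (tw fun d => χ (j w d)) (fun s => hf (ψ s * f s)) s t =
          hf (ψ s * f s + ψ t * f t + ψ (s * t) * f (s * t)) := by
        show hf (ψ s * f s) + χ (j w s) • hf (ψ t * f t) - hf (ψ (s * t) * f (s * t)) = _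
        rw [smul_hf (L.char.odd s), hf_add, hf_add, sub_eq_add_neg, hf_neg]
      rw [h3, hf_neg, ← hf_add, hψ.2.2 s trivial t trivial, hf1.2.2 s trivial t trivial]
      congr 1
      generalize ψ s = p
      generalize ψ t = p'
      generalize f s = r
      generalize f t = r'
      revert p p' r r'
      decide
    have hz1 := d1_tw_Z2 L.char hsm
    have hz2 : Z2 (SD w) (tw fun d => χ (j w d)) (fun s t => hf (f s * ψ t)) := by
      rw [e2]
      exact Z2.add (isAct_tw L.char) hz1 (Z2.neg (isAct_tw L.char) hz)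
    have h7 := L.add _ _ hz hz2
    rw [e1] at h0
    rw [h0, zero_add] at h7
    rw [← h7, ← L.cob _ hsm]
    congr 1
    funext s t
    have h8 := congrFun (congrFun e2 s) t
    beta_reduce at h8
    rw [h8]
    abel
  rw [hf2, hf0]
  exact hf_zero

end Pool.Agent.Work.MP_787500_nt.HP
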