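import Mathlib
import Pool.Agent.Work.MP_787500_nt.HP.FamF10
import Pool.Agent.Work.MP_787500_nt.HP.FamF14

/-!
The version of `GP/F15_Main.lean` for a family of pairs `(θ, φ)` (the proofs are the same).
-/

set_option autoImplicit false
set_option linter.unusedSectionVars false

namespace Pool.Agent.Work.MP_787500_nt.HP

open Pool.Agent.Work.MP_787500_nt.GP

open Pool.Agent.Work.MP_787500_nt.PA (TwoSys Sm1 Sm2 homs Coc Cob IsChar)

universe u v

private theorem f15_pow {G : Type*} [Group G] {S : TwoSys G} {Φ : Type*} [Fintype Φ]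
    {D : Φ → Type*} [∀ w, Group (D w)] {SD : ∀ w, TwoSys (D w)} {j : ∀ w, D w →* G}
    {χ : G → ℤ_[2]} {inv : ∀ w, (D w → D w → A0) → A0} {κ : G →* G} {Θ : Set (G × G)}
    (H : ParHF S SD j χ inv κ Θ)
    {O : Type*} [CommRing O] [IsLocalRing O] [Finite (IsLocalRing.ResidueField O)]
    {M : Type*} [AddCommGroup M] [Module O M] [Finite M]
    {ρ : G → M → M} {b : M →+ M →+ A0} (h : SDualF S χ κ Θ O ρ b)
    (Λ : ∀ w, Submodule O (D w → M)) (hΛ : ∀ w, Betw (SD w) (fun d => ρ (j w d)) (Λ w)) :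
    IsPow (Nat.card (IsLocalRing.ResidueField O))
      (Nat.card (selM h j Λ fun w => perpM H h w (Λ w)) * ∏ w, Nat.card (Λ w)) := by
  have h1 := sel_finite H h Λ fun w => perpM H h w (Λ w)
  refine isPow_mul (card_pow (O := O) _) ?_
  refine Finset.prod_induction _ (IsPow _) (fun a b => isPow_mul) ⟨0, by simp⟩ fun w _ => ?_
  have h2 := betw_finite H h w (hΛ w)
  exact card_pow (O := O) (Λ w)

private theorem f15_main {G : Type*} [Group G] {S : TwoSys G} {Φ : Type*} [Fintype Φ]
    {D : Φ → Type*} [∀ w, Group (D w)] {SD : ∀ w, TwoSys (D w)} {j : ∀ w, D w →* G}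
    {χ : G → ℤ_[2]} {inv : ∀ w, (D w → D w → A0) → A0} {κ : G →* G} {Θ : Set (G × G)}
    (H : ParHF S SD j χ inv κ Θ)
    {O : Type v} [CommRing O] [IsLocalRing O] [Finite (IsLocalRing.ResidueField O)]
    (h2 : (2 : O) ∈ IsLocalRing.maximalIdeal O) (n : ℕ) :
    ∀ {M : Type u} [AddCommGroup M] [Module O M] [Finite M]
    {ρ : G → M → M} {b : M →+ M →+ A0} (h : SDualF S χ κ Θ O ρ b)
    (Λ : ∀ w, Submodule O (D w → M)) (_ : ∀ w, Betw (SD w) (fun d => ρ (j w d)) (Λ w)),
    Nat.card M = n →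
    EvPow (Nat.card (IsLocalRing.ResidueField O))
      (Nat.card (selM h j Λ fun w => perpM H h w (Λ w)) * ∏ w, Nat.card (Λ w)) := by
  induction n using Nat.strong_induction_on with
  | _ n ih =>
    intro M _ _ _ ρ b h Λ hΛ hn
    rcases subsingleton_or_nontrivial M with hM | hM
    · have e1 : Nat.card (selM h j Λ fun w => perpM H h w (Λ w)) = 1 :=
        Nat.card_of_subsingleton 0
      have e2 : ∏ w, Nat.card (Λ w) = 1 :=
        Finset.prod_eq_one fun w _ => Nat.card_of_subsingleton 0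
      rw [e1, e2]
      exact ⟨0, by simp⟩
    · obtain ⟨M₁, _, _, Mb, _, _, ρ₁, ρb, bb, e, i, π, _, _, hb, hs, hlt⟩ :=
        exists_sub H.kk h2 h H.ne
      have b0 := fun w => betw0 H h2 h hb hs w
      have b1 := fun w => betw1 H h2 h hb hs w
      have b2 : ∀ w, Betw (SD w) (fun d => ρ (j w d)) (Λ w ⊓ lam0 h SD j e w) := fun w =>
        ⟨fun m => ⟨(hΛ w).cob m, (b0 w).cob m⟩, fun x hx => (hΛ w).coc x hx.1⟩
      have c1 := change H h (Λ := fun w => Λ w ⊓ lam0 h SD j e w) b2 hΛ fun w => inf_le_left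
      have c2 := change H h (Λ := fun w => Λ w ⊓ lam0 h SD j e w) b2 b0 fun w => inf_le_right
      have c3 := ih _ (by rw [← hn]; exact hlt) hb (lam1 SD j hs.act₁ (lin₁ h hs) π) b1 rfl
      have c4 := sel_step H h2 h hb hs
      have c5 : ∏ w, Nat.card (lam0 h SD j e w) =
          (∏ w, Nat.card (lam1 SD j hs.act₁ (lin₁ h hs) π w)) *
            Nat.card (IsLocalRing.ResidueField O) ^ Module.finrank (ZMod 2) (homs S ⊤) := by
        rw [H.count, ← Finset.prod_pow_eq_pow_sum, ← Finset.prod_mul_distrib]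
        exact Finset.prod_congr rfl fun w _ => card0 H h2 h hb hs w
      have c6 : EvPow (Nat.card (IsLocalRing.ResidueField O))
          (Nat.card (selM h j (lam0 h SD j e) fun w => perpM H h w (lam0 h SD j e w)) *
            ∏ w, Nat.card (lam0 h SD j e w)) := by
        rw [c4, c5]
        have c7 := evPow_mul c3 (⟨Module.finrank (ZMod 2) (homs S ⊤), rfl⟩ :
          EvPow (Nat.card (IsLocalRing.ResidueField O))
            (Nat.card (IsLocalRing.ResidueField O) ^
              (2 * Module.finrank (ZMod 2) (homs S ⊤))))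
        convert c7 using 1
        rw [two_mul, pow_add]
        ring
      have p1 := f15_pow H h _ b2
      have p2 := f15_pow H h _ hΛ
      have c8 := evPow_cancel q_two_le p1 c6 c2
      rw [mul_comm] at c1
      exact evPow_cancel q_two_le p2 c8 c1

theorem finite_parity {G : Type*} [Group G] {S : TwoSys G} {Φ : Type*} [Fintype Φ] {D : Φ → Type*}
    [∀ w, Group (D w)] {SD : ∀ w, TwoSys (D w)} {j : ∀ w, D w →* G} {χ : G → ℤ_[2]}
    {inv : ∀ w, (D w → D w → A0) → A0} {κ : G →* G} {Θ : Set (G × G)}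
    (H : ParHF S SD j χ inv κ Θ)
    {O : Type v} [CommRing O] [IsLocalRing O] [Finite (IsLocalRing.ResidueField O)]
    (h2 : (2 : O) ∈ IsLocalRing.maximalIdeal O)
    {M : Type u} [AddCommGroup M] [Module O M] [Finite M]
    {ρ : G → M → M} {b : M →+ M →+ A0} (h : SDualF S χ κ Θ O ρ b)
    (Λ : ∀ w, Submodule O (D w → M)) (hΛ : ∀ w, Betw (SD w) (fun d => ρ (j w d)) (Λ w)) :
    EvPow (Nat.card (IsLocalRing.ResidueField O))
      (Nat.card (selM h j Λ fun w => perpM H h w (Λ w)) * ∏ w, Nat.card (Λ w)) :=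
  f15_main H h2 _ h Λ hΛ rfl

end Pool.Agent.Work.MP_787500_nt.HP
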