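import Mathlib
import Pool.Agent.Work.MP_787500_nt.HP.FamDefs
import Pool.Agent.Work.MP_787500_nt.GP.L08_MN

/-!
The finite level modules are self-dual in the sense of `SDualF`.
-/

set_option autoImplicit false
set_option linter.unusedSectionVars false

namespace Pool.Agent.Work.MP_787500_nt.HP

open Matrix
open Pool.Agent.Work.MP_787500_nt.PA (TwoSys Sm1 Sm2 homs Coc Cob IsChar toE)
open Pool.Agent.Work.MP_787500_nt.GP

theorem sdualF_of {G : Type*} [Group G] {S : TwoSys G} {χ : G → ℤ_[2]} {κ : G →* G}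
    {Θ : Set (G × G)} {O : Type*} [CommRing O] {M : Type*} [AddCommGroup M] [Module O M]
    {ρ : G → M → M} {b : M →+ M →+ A0} (hne : Θ.Nonempty)
    (h : ∀ p ∈ Θ, SDual S χ κ p.1 O ρ b) : SDualF S χ κ Θ O ρ b := by
  obtain ⟨p, hp⟩ := hne
  have h1 := h p hp
  exact ⟨h1.act, h1.lin, h1.sm, h1.symm, h1.bal, h1.eqv, h1.nd, fun p hp => (h p hp).alt⟩

variable {E : Type*} [NormedField E] [NormedAlgebra ℚ_[2] E] [FiniteDimensional ℚ_[2] E] {n : ℕ}
  {b : Matrix (Fin n) (Fin n) E} {l : OE E} {t : E →ₗ[ℚ_[2]] ℚ_[2]}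
  {T : Submodule (OE E) (Fin n → E)}

theorem sdualF_MN {G : Type*} [Group G] {S : TwoSys G} {χ : G → ℤ_[2]} {κ : G →* G}
    {Θ : Set (G × G)} (hne : Θ.Nonempty) (h : Lat b l t T) {ρ : G → Matrix (Fin n) (Fin n) E}
    (hr : LocRep S χ T b ρ (fun g => ρ (κ g)))
    (hal : ∀ p ∈ Θ, ∀ x : Fin n → E, bil b x (ρ p.1 *ᵥ x) = 0) (N : ℕ) :
    SDualF S χ κ Θ (OE E) (actN l N ρ hr.st) (bN h N) :=
  sdualF_of hne fun p hp => sdual_MN h hr (hal p hp) N

end Pool.Agent.Work.MP_787500_nt.HP
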