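import Mathlib
import Pool.Agent.Work.MP_787500_nt.GP.FinDefs
import Pool.Agent.Work.MP_787500_nt.GP.ADefs
import Pool.Agent.Work.MP_787500_nt.HP.FamL18
import Pool.Agent.Work.MP_787500_nt.Gn.Final
import Pool.Agent.Work.MP_787500_nt.GP.L04_Func
import Pool.Agent.Work.MP_787500_nt.GP.L20a_Dim
import Pool.Agent.Work.MP_787500_nt.HP.CocSub
import Pool.Agent.Work.MP_787500_nt.GP.L07_LatDual

/-!
From the hypotheses `ParHF` for the full systems of the local groups to the parity formula: the version of `GP/L20_Final.lean` for a family of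
pairs `(θ, φ)`.
-/

set_option autoImplicit false
set_option linter.unusedSectionVars false

namespace Pool.Agent.Work.MP_787500_nt.HP

open IsDedekindDomain NumberField
open Pool.Agent.Work.MP_787500_nt.PA (TwoSys Sm1 Sm2 homs Coc Cob IsChar goodSys core cyc Opn SU)
open Pool.Agent.Work.MP_787500_nt.Gn (GoodG)

open Matrix
open Pool.Agent.Work.MP_787500_nt.GP
open Pool.Agent.Work.MP_787500_nt.PA (toE)

theorem final_fam {G : Type*} [Group G] [TopologicalSpace G] [IsTopologicalGroup G] [CompactSpace G]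
    {I : Set G} (hB : Gn.Base (⊤ : Subgroup G) I)
    (hbasis : ∀ O ∈ nhds (1 : G), ∃ U : Subgroup G, IsOpen (U : Set G) ∧ (U : Set G) ⊆ O)
    {S : TwoSys G} (hS : ∀ W, S.mem W ↔ GoodG 2 ⊤ I W) {Φ : Type*} [Fintype Φ]
    {D : Φ → Subgroup G} (hD : ∀ w, IsClosed (D w : Set G))
    {χ : G → ℤ_[2]} {κ : G →* G} (hκ : Continuous κ) {Θ : Set (G × G)} {inv : ∀ w, (D w → D w → A0) → A0}
    (H : ParHF S (fun w => subSys (D w)) (fun w => (D w).subtype) χ inv κ Θ)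
    (hχΘ : ∀ p ∈ Θ, χ p.1 = -1)
    {E : Type*} [NormedField E] [NormedAlgebra ℚ_[2] E] [FiniteDimensional ℚ_[2] E] {n : ℕ}
    {ρ : G →* Matrix (Fin n) (Fin n) E} {b : Matrix (Fin n) (Fin n) E} (hb : b.det ≠ 0)
    (hρ : Gn.ConjDual 2 (⊤ : Subgroup G) I (fun g => toE E (χ g)) κ ρ b) :
    Parity.ParityFormula I (fun g => toE E (χ g)) κ ρ b D := by
  have hρc : ∀ k ∈ Gn.core 2 ⊤ I, ρ k = 1 := fun k hk => Gn.rho_core hB hρ hk
  have hpr : ∀ w, ProRep (fun d : D w => ρ d) := fun w =>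
    ⟨map_one ρ, fun s t => map_mul ρ _ _, hρ.cont.comp continuous_subtype_val,
      fun s => hρ.proP s trivial⟩
  have hprk : ∀ w, ProRep (fun d : D w => ρ (κ d)) := fun w =>
    ⟨by
      show ρ (κ 1) = 1
      rw [map_one, map_one], fun s t => by
      show ρ (κ (s * t)) = ρ (κ s) * ρ (κ t)
      rw [map_mul, map_mul], hρ.cont.comp (hκ.comp continuous_subtype_val),
      fun s => by
        have h := hρ.proP (κ s) trivial
        refine h.congr fun k => ?_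
        show ρ (κ s ^ 2 ^ k) = ρ (κ ((s : G) ^ 2 ^ k))
        rw [map_pow κ]⟩
  have hsm : ∀ ε : ℝ, 0 < ε → ∃ W, S.mem W ∧ ∀ w ∈ W, ∀ x : Fin n → E,
      ‖ρ w *ᵥ x - x‖ ≤ ε * ‖x‖ := by
    intro ε hε
    obtain ⟨W, hW, h⟩ := Gn.rho_N1 hB hρ hε
    refine ⟨W, (hS W).2 hW, fun w hw x => ?_⟩
    have h1 := h 1 w hw x
    rwa [one_mul, map_one, one_mulVec] at h1
  have hsm' : ∀ ε : ℝ, 0 < ε → ∃ W, S.mem W ∧ ∀ w ∈ W, ∀ x : Fin n → E,
      ‖ρ (κ w) *ᵥ x - x‖ ≤ ε * ‖x‖ := by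
    intro ε hε
    obtain ⟨W, hW, h⟩ := hsm ε hε
    obtain ⟨W', hW', h'⟩ := H.ksys W hW
    exact ⟨W', hW', fun w hw x => h _ (h' w hw) x⟩
  have hd : ∀ (g : G) (x y : Fin n → E),
      bil b (ρ g *ᵥ x) (ρ (κ g) *ᵥ y) = toE E (χ g) * bil b x y := by
    intro g x y
    unfold bil
    rw [← vecMul_transpose, ← dotProduct_mulVec, mulVec_mulVec, mulVec_mulVec,
      hρ.dual, smul_mulVec, dotProduct_smul, smul_eq_mul]
  have hΘc : ∀ p ∈ Θ, p.1 * κ p.1 ∈ Gn.core 2 ⊤ I := by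
    intro p hp
    rw [Gn.core, Subgroup.mem_sInf]
    intro W hW
    exact H.tk p hp W ((hS W).2 hW)
  have hΘ' : ∀ p ∈ Θ, ρ p.1 * ρ (κ p.1) = 1 := by
    intro p hp
    rw [← map_mul]
    exact hρc _ (hΘc p hp)
  have hal : ∀ p ∈ Θ, ∀ x : Fin n → E, bil b x (ρ p.1 *ᵥ x) = 0 := fun p hp x =>
    alt_V hρ.symm (κ := κ) hd (hχΘ p hp) (hΘ' p hp) x
  obtain ⟨p, hp⟩ := H.ne
  have hχθ := hχΘ p hp
  have hθ' := hΘ' p hp
  obtain ⟨T, hst, hdual, hbdd, hopn⟩ := exists_lattice (S := S) (ρ := fun g => ρ g)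
    ⟨map_one ρ, map_mul ρ, hsm⟩ hb hρ.symm H.glob.char H.kk hd hχθ hθ'
  obtain ⟨l, hl0, hl1, hlm⟩ := exists_unif E
  obtain ⟨t, ht1, ht2, ht3⟩ := exists_func E
  have hlat : Lat b l t T := ⟨hl0, hl1, hlm, ht1, ht2, ht3, hρ.symm, hdual, hbdd, hopn⟩
  have hrep : LocRep S χ T b (fun g => ρ g) (fun g => ρ (κ g)) :=
    { one := map_one ρ
      mul := map_mul ρ
      one' := by rw [map_one, map_one]
      mul' := fun s u => by rw [map_mul, map_mul]
      st := hst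
      st' := fun g => hst (κ g)
      sm := hsm
      sm' := hsm'
      dual := hd }
  intro L hL
  have hLZ : ∀ w, ∀ X ∈ L w, ZV (subSys (D w)) (fun d => ρ ((D w).subtype d)) X := fun w X hX =>
    (sub_coc hbasis (hD w) (hpr w)).1 ((hL w).2 hX)
  have hL0 : ∀ w v, (fun d => ρ ((D w).subtype d) *ᵥ v - v) ∈ L w := fun w v =>
    (hL w).1 ⟨v, fun σ => rfl⟩
  have hev := parV (ρ := fun g => ρ g) H hlat hrep hal hLZ hL0
  have hsel : Parity.selmerF I (fun g => toE E (χ g)) κ ρ b D L =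
      selV S (fun w => subSys (D w)) (fun w => (D w).subtype) χ κ b (fun g => ρ g) L := by
    have hzz : ∀ X : G → Fin n → E, (Parity.IsCocycle ρ X ∧ ∀ σ ∈ I, X σ = 0) ↔
        ZV S (fun g => ρ g) X := by
      intro X
      constructor
      · rintro ⟨⟨h1, h2⟩, h3⟩
        obtain ⟨h4, h5⟩ := Gn.small_x hB hρ h1 h2 h3
        refine ⟨fun ε hε => ?_, h5⟩
        obtain ⟨W, hW, h6⟩ := h4 ε hε
        exact ⟨W, (hS W).2 hW, h6⟩
      · rintro ⟨h4, h5⟩
        have h6 : X ∈ Gn.Zgd hB 2 ρ := by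
          refine ⟨fun ε hε => ?_, h5⟩
          obtain ⟨W, hW, h6⟩ := h4 ε hε
          exact ⟨W, (hS W).1 hW, h6⟩
        exact ⟨⟨Gn.zg_continuous h6, h5⟩, fun σ hσ => Gn.zg_inertia h6 hσ⟩
    have hpp : ∀ w (y : D w → Fin n → E),
        Parity.IsPerp (fun σ : D w => toE E (χ σ)) (fun σ : D w => ρ (κ σ)) b (L w) y ↔
        PerpV (subSys (D w)) (fun d => χ ((D w).subtype d)) b (fun d => ρ (κ ((D w).subtype d))) (L w) y :=
      fun w y => sub_perp hbasis (hD w) (H.loc w).char (hpr w) (hprk w) (fun x hx => (hL w).2 hx)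
    ext X
    constructor
    · rintro ⟨h1, h2, h3⟩
      exact ⟨(hzz X).1 ⟨h1, h2⟩, fun w => (h3 w).1, fun w => (hpp w _).1 (h3 w).2⟩
    · rintro ⟨h1, h2, h3⟩
      obtain ⟨h4, h5⟩ := (hzz X).2 h1
      exact ⟨h4, h5, fun w => ⟨h2 w, (hpp w _).2 (h3 w)⟩⟩
  have hfd : ∀ w, FiniteDimensional E (L w) := by
    intro w
    have h1 : FiniteDimensional E (zV (subSys (D w)) (fun d : D w => ρ d)) :=
      zV_fd (H.loc w).fin (map_one ρ) (fun s u => map_mul ρ _ _)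
    have h2 : L w ≤ zV (subSys (D w)) (fun d : D w => ρ d) := fun X hX => hLZ w X hX
    exact Submodule.finiteDimensional_of_le h2
  have hfs : FiniteDimensional E
      (selV S (fun w => subSys (D w)) (fun w => (D w).subtype) χ κ b (fun g => ρ g) L) := selV_fd H hrep
  have hcs : Parity.coboundaries ρ ≤ Parity.selmerF I (fun g => toE E (χ g)) κ ρ b D L := by
    rintro X ⟨v, hv⟩
    rw [hsel]
    obtain rfl : X = fun g => ρ g *ᵥ v - v := funext hv
    have h1 : (fun g => ρ g *ᵥ v - v) ∈ Gn.Zgd hB 2 ρ := Gn.cob_mem hB hρ ⟨v, fun _ => rfl⟩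
    refine ⟨⟨fun ε hε => ?_, h1.2⟩, fun w => hL0 w v, fun w => ?_⟩
    · obtain ⟨W, hW, h6⟩ := h1.1 ε hε
      exact ⟨W, (hS W).2 hW, h6⟩
    · exact cob_perpV (locRep_of H hrep w) (hLZ w) v
  have hchar : CharZero E := charZero_of_injective_algebraMap (algebraMap ℚ_[2] E).injective
  have hn : Even n := even_n hb (A := ρ p.1) (by
    intro h
    have h1 := congrArg Matrix.det hθ'
    rw [det_mul, h, zero_mul, det_one] at h1
    exact zero_ne_one h1) (hal p hp)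
  refine ⟨hfd, ?_, hcs, ?_⟩
  · rw [hsel]
    exact hfs
  · rw [hsel] at hcs ⊢
    exact even_count hn (fun g => ρ g) (fun w (σ : D w) => ρ σ) hfs hfd hcs (fun w => (hL w).1) hev

end Pool.Agent.Work.MP_787500_nt.HP
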