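import Mathlib
import Pool.Agent.Work.MP_787500_nt.HP.Defs
import Pool.Agent.Work.MP_787500_nt.GP.E2_Delta
import Pool.Agent.Work.MP_787500_nt.GP.T18_Count
import Pool.Agent.Work.MP_787500_nt.GP.B4_Recip

/-!
The hypotheses `ParHF` from local data with a sum formula.
-/

set_option autoImplicit false
set_option linter.unusedSectionVars false

namespace Pool.Agent.Work.MP_787500_nt.HP

open Pool.Agent.Work.MP_787500_nt.PA (TwoSys Sm1 Sm2 homs Coc Cob IsChar)
open Pool.Agent.Work.MP_787500_nt.GP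

variable {G : Type*} [Group G] {S : TwoSys G} {Φ : Type*} [Fintype Φ] {D : Φ → Type*}
  [∀ w, Group (D w)] {SD : ∀ w, TwoSys (D w)} {j : ∀ w, D w →* G} {χ : G → ℤ_[2]}
  {inv : ∀ w, (D w → D w → A0) → A0} {κ : G →* G}

/-- local data with a sum formula -/
structure SumH (S : TwoSys G) (SD : ∀ w, TwoSys (D w)) (j : ∀ w, D w →* G) (χ : G → ℤ_[2])
    (inv : ∀ w, (D w → D w → A0) → A0) (κ : G →* G) (B : Finset ℕ) (θ φ : ℕ → G) (m : ℕ → ℤ)
    (v : ℕ → ℤ_[2]) : Prop where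
  char : IsChar S χ
  loc : ∀ w, LocH (SD w) (fun d => χ (j w d)) (inv w)
  jsm : ∀ w W, S.mem W → ∃ W', (SD w).mem W' ∧ ∀ v ∈ W', j w v ∈ W
  kk : ∀ g, κ (κ g) = g
  ksys : ∀ W, S.mem W → ∃ W', S.mem W' ∧ ∀ v ∈ W', κ v ∈ W
  kchi : ∀ g, χ (κ g) = χ g
  mm : ∀ p ∈ B, 2 * m p = 1 - p
  tht : ∀ p ∈ B, χ (θ p) = -1
  phi : ∀ p ∈ B, χ (φ p) = (p : ℤ_[2])
  tk : ∀ p ∈ B, ∀ W, S.mem W → θ p * κ (θ p) ∈ W
  fk : ∀ p ∈ B, ∀ W, S.mem W → (θ p * κ (φ p))⁻¹ * (φ p * θ p) ∈ W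
  sum : ∀ (z : G → G → A0) (u : G → A0), Z2 S (tw χ) z → (∀ g, z g 1 = 0) → (∀ g, z 1 g = 0) →
    Sm1 S u → (∀ a b, z (κ a) (κ b) + z a b = -d1 (tw χ) u a b) → (∀ g, u (κ g) = u g) →
    ∑ w, inv w (fun a b => z (j w a) (j w b)) = ∑ p ∈ B, v p • Dta κ (θ p) (φ p) (m p) z u

variable {B : Finset ℕ} {θ φ : ℕ → G} {m : ℕ → ℤ} {v : ℕ → ℤ_[2]}

theorem SumH.kap (H : SumH S SD j χ inv κ B θ φ m v) {f : G → G → A0} (hf : Z2 S (tw χ) f) :
    Z2 S (tw χ) (fun a b => f (κ a) (κ b)) := by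
  have h := Z2.comp (SD := S) (j := κ) H.ksys hf
  have e : (fun d => tw χ (κ d)) = tw χ := by
    funext d t
    show χ (κ d) • t = χ d • t
    rw [H.kchi]
  rwa [e] at h

theorem SumH.recip (H : SumH S SD j χ inv κ B θ φ m v) {f : G → G → A0} (hf : Z2 S (tw χ) f) :
    ∑ w, (inv w (fun a b => f (j w a) (j w b)) -
      inv w (fun a b => f (κ (j w a)) (κ (j w b)))) = 0 := by
  have hact : IsAct (tw χ) := isAct_tw H.char
  have hx : Sm1 S (fun _ : G => f 1 1) := by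
    obtain ⟨W, hW⟩ := S.ex
    exact ⟨W, hW, fun _ _ _ => rfl⟩
  have hB : Z2 S (tw χ) (d1 (tw χ) fun _ : G => f 1 1) := d1_tw_Z2 H.char hx
  set y : G → G → A0 := fun a b => f a b - d1 (tw χ) (fun _ : G => f 1 1) a b with hy
  have hyZ : Z2 S (tw χ) y := by
    have := hf.add hact (hB.neg hact)
    have e : (fun a b => f a b + -d1 (tw χ) (fun _ : G => f 1 1) a b) = y := by
      funext a b
      exact (sub_eq_add_neg _ _).symm
    rwa [e] at this
  have hd : ∀ a b, d1 (tw χ) (fun _ : G => f 1 1) a b = χ a • f 1 1 := by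
    intro a b
    show f 1 1 + χ a • f 1 1 - f 1 1 = _
    abel
  have hfa : ∀ a, f a 1 = χ a • f 1 1 := by
    intro a
    have h := hf.2 a 1 1
    unfold GP.d2 tw at h
    rw [mul_one, mul_one] at h
    have h' : χ a • f 1 1 - f a 1 = 0 := by
      rw [← h]
      abel
    exact (sub_eq_zero.1 h').symm
  have hfb : ∀ a, f 1 a = f 1 1 := by
    intro a
    have h := hf.2 1 1 a
    unfold GP.d2 tw at h
    rw [one_mul, one_mul, H.char.one, one_smul] at h
    have h' : f 1 a - f 1 1 = 0 := by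
      rw [← h]
      abel
    exact sub_eq_zero.1 h'
  have hy1 : ∀ g, y g 1 = 0 := by
    intro g
    show f g 1 - d1 (tw χ) (fun _ : G => f 1 1) g 1 = 0
    rw [hd, hfa, sub_self]
  have hy2 : ∀ g, y 1 g = 0 := by
    intro g
    show f 1 g - d1 (tw χ) (fun _ : G => f 1 1) 1 g = 0
    rw [hd, hfb, H.char.one, one_smul, sub_self]
  have hz : Z2 S (tw χ) (fun a b => y a b - y (κ a) (κ b)) := by
    have := hyZ.add hact ((H.kap hyZ).neg hact)
    have e : (fun a b => y a b + -y (κ a) (κ b)) = fun a b => y a b - y (κ a) (κ b) := by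
      funext a b
      exact (sub_eq_add_neg _ _).symm
    rwa [e] at this
  have h0 : Sm1 S (fun _ : G => (0 : A0)) := by
    obtain ⟨W, hW⟩ := S.ex
    exact ⟨W, hW, fun _ _ _ => rfl⟩
  have key := H.sum (fun a b => y a b - y (κ a) (κ b)) (fun _ => 0) hz
    (fun g => by simp only [hy1, map_one, sub_self])
    (fun g => by simp only [hy2, map_one, sub_self]) h0
    (fun a b => by
      have e : d1 (tw χ) (fun _ : G => (0 : A0)) a b = 0 := by
        show (0 : A0) + χ a • (0 : A0) - 0 = 0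
        rw [smul_zero, add_zero, sub_self]
      rw [e, neg_zero, H.kk, H.kk]
      abel) (fun _ => rfl)
  have hz0 : ∑ p ∈ B, v p • Dta κ (θ p) (φ p) (m p) (fun a b => y a b - y (κ a) (κ b))
      (fun _ => 0) = 0 := by
    refine Finset.sum_eq_zero fun p hp => ?_
    rw [dta_kap (S := S) (χ := χ) (q := p) (m := m p) (H.mm p hp) H.char H.kk H.ksys
      H.kchi (H.tht p hp) (H.phi p hp) (H.tk p hp) (H.fk p hp) hyZ hy1 hy2, smul_zero]
  rw [hz0] at key
  rw [← key]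
  refine Finset.sum_congr rfl fun w _ => ?_
  have hl : ∀ {g : G → G → A0}, Z2 S (tw χ) g →
      Z2 (SD w) (tw fun d => χ (j w d)) (fun a b => g (j w a) (j w b)) := fun hg =>
    Z2.comp (H.jsm w) hg
  have e1 : inv w (fun a b => f (j w a) (j w b)) = inv w (fun a b => y (j w a) (j w b)) := by
    have e2 : (fun a b => f (j w a) (j w b)) = fun a b => y (j w a) (j w b) +
        d1 (tw fun d => χ (j w d)) (fun _ : D w => f 1 1) a b := by
      funext a b
      exact (sub_add_cancel (f (j w a) (j w b)) _).symm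
    have hx' : Sm1 (SD w) (fun _ : D w => f 1 1) := by
      obtain ⟨W, hW⟩ := (SD w).ex
      exact ⟨W, hW, fun _ _ _ => rfl⟩
    rw [e2, (H.loc w).add _ _ (hl hyZ) (d1_tw_Z2 (H.loc w).char hx'), (H.loc w).cob _ hx', add_zero]
  have e4 : inv w (fun a b => f (κ (j w a)) (κ (j w b))) =
      inv w (fun a b => y (κ (j w a)) (κ (j w b))) := by
    have e2 : (fun a b => f (κ (j w a)) (κ (j w b))) = fun a b => y (κ (j w a)) (κ (j w b)) +
        d1 (tw fun d => χ (j w d)) (fun _ : D w => f 1 1) a b := by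
      funext a b
      have e3 : d1 (tw fun d => χ (j w d)) (fun _ : D w => f 1 1) a b =
          d1 (tw χ) (fun _ : G => f 1 1) (κ (j w a)) (κ (j w b)) := by
        rw [hd, H.kchi]
        show f 1 1 + χ (j w a) • f 1 1 - f 1 1 = _
        abel
      rw [e3]
      exact (sub_add_cancel (f (κ (j w a)) (κ (j w b))) _).symm
    have hx' : Sm1 (SD w) (fun _ : D w => f 1 1) := by
      obtain ⟨W, hW⟩ := (SD w).ex
      exact ⟨W, hW, fun _ _ _ => rfl⟩
    rw [e2, (H.loc w).add _ _ (hl (H.kap hyZ)) (d1_tw_Z2 (H.loc w).char hx'), (H.loc w).cob _ hx',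
      add_zero]
  rw [e1, e4]
  exact ((H.loc w).sub_map (hl hyZ) (hl (H.kap hyZ))).symm

theorem SumH.alt (H : SumH S SD j χ inv κ B θ φ m v) (z : G → G → A0) (u : G → A0)
    (hz : Z2 S (tw χ) z) (h1 : ∀ g, z g 1 = 0) (h2 : ∀ g, z 1 g = 0) (hu : Sm1 S u)
    (h3 : ∀ a b, z (κ a) (κ b) + z a b = -d1 (tw χ) u a b) (h4 : ∀ g, u (κ g) = u g)
    (h5 : ∀ p ∈ B, u (θ p) = z (θ p) (κ (θ p)))
    (h6 : ∀ p ∈ B, u (φ p) + z (φ p) (θ p) = z (θ p) (κ (φ p))) :
    ∑ w, inv w (fun a b => z (j w a) (j w b)) = 0 := by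
  rw [H.sum z u hz h1 h2 hu h3 h4]
  refine Finset.sum_eq_zero fun p hp => ?_
  have h7 : Dta κ (θ p) (φ p) (m p) z u = 0 := by
    unfold Dta
    rw [h5 p hp, sub_self, smul_zero, ← h6 p hp]
    abel
  rw [h7, smul_zero]

theorem SumH.glob (H : SumH S SD j χ inv κ B θ φ m v)
    (hfin : FiniteDimensional (ZMod 2) (homs S ⊤))
    (hinj : ∀ ω ∈ homs S ⊤, (∀ w d, ω (j w d) = 0) → (∀ w d, ω (κ (j w d)) = 0) → ω = 0)
    (hsha : ∀ f, Coc S ⊤ f → (∀ w, Cob (SD w) ⊤ (fun a b => f (j w a) (j w b))) →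
      (∀ w, Cob (SD w) ⊤ (fun a b => f (κ (j w a)) (κ (j w b)))) → Cob S ⊤ f)
    (hcount : Module.finrank (ZMod 2) (homs S ⊤) = ∑ w, Module.finrank (ZMod 2) (homs (SD w) ⊤)) :
    GlobH S (fun i : Φ × Bool => SD i.1)
      (fun i => if i.2 then κ.comp (j i.1) else j i.1) χ
      (fun i f => if i.2 then -inv i.1 f else inv i.1 f) := by
  have jsm : ∀ (i : Φ × Bool) W, S.mem W → ∃ W', (SD i.1).mem W' ∧
      ∀ w ∈ W', (if i.2 then κ.comp (j i.1) else j i.1) w ∈ W := by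
    rintro ⟨w, b⟩ W hW
    cases b with
    | false =>
      simp only [Bool.false_eq_true, if_false]
      exact H.jsm w W hW
    | true =>
      obtain ⟨W1, hW1, h1⟩ := H.ksys W hW
      obtain ⟨W2, hW2, h2⟩ := H.jsm w W1 hW1
      simp only [if_true]
      exact ⟨W2, hW2, fun v hv => h1 _ (h2 v hv)⟩
  have loc : ∀ i : Φ × Bool, LocH (SD i.1)
      (fun d => χ ((if i.2 then κ.comp (j i.1) else j i.1) d))
      (fun f => if i.2 then -inv i.1 f else inv i.1 f) := by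
    rintro ⟨w, b⟩
    cases b with
    | false =>
      simp only [Bool.false_eq_true, if_false]
      exact H.loc w
    | true =>
      simp only [if_true]
      have e : (fun d => χ ((κ.comp (j w)) d)) = fun d => χ (j w d) := by
        funext d
        exact H.kchi _
      rw [e]
      exact (H.loc w).negInv
  have inj : ∀ ω ∈ homs S ⊤,
      (∀ (i : Φ × Bool) (d : D i.1), ω ((if i.2 then κ.comp (j i.1) else j i.1) d) = 0) →
      ω = 0 := by
    intro ω hω h
    refine hinj ω hω (fun w d => ?_) (fun w d => ?_)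
    · have := h (w, false) d
      simpa using this
    · have := h (w, true) d
      simpa using this
  have rec0 : ∀ f, Z2 S (tw χ) f → ∑ i : Φ × Bool,
      (if i.2 then
        -inv i.1 (fun a b => f ((if i.2 then κ.comp (j i.1) else j i.1) a)
          ((if i.2 then κ.comp (j i.1) else j i.1) b))
        else inv i.1 (fun a b => f ((if i.2 then κ.comp (j i.1) else j i.1) a)
          ((if i.2 then κ.comp (j i.1) else j i.1) b))) = 0 := by
    intro f hf
    rw [Fintype.sum_prod_type]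
    rw [← H.recip hf]
    refine Finset.sum_congr rfl fun w _ => ?_
    rw [Fintype.sum_bool]
    simp only [if_true, Bool.false_eq_true, if_false]
    rw [sub_eq_neg_add]
    rfl
  refine ⟨H.char, jsm, loc, hfin, inj, ?_, rec0, ?_⟩
  · intro f hf h
    refine hsha f hf (fun w => ?_) (fun w => ?_)
    · have := h (w, false)
      simpa using this
    · have := h (w, true)
      simpa using this
  · refine mid_of_count H.char jsm loc hfin inj rec0 ?_
    rw [hcount, Fintype.sum_prod_type, Finset.mul_sum]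
    refine Finset.sum_congr rfl fun w _ => ?_
    rw [Fintype.sum_bool]
    exact two_mul _

theorem SumH.parHF (H : SumH S SD j χ inv κ B θ φ m v) (hB : B.Nonempty)
    (hfin : FiniteDimensional (ZMod 2) (homs S ⊤))
    (hinj : ∀ ω ∈ homs S ⊤, (∀ w d, ω (j w d) = 0) → (∀ w d, ω (κ (j w d)) = 0) → ω = 0)
    (hsha : ∀ f, Coc S ⊤ f → (∀ w, Cob (SD w) ⊤ (fun a b => f (j w a) (j w b))) →
      (∀ w, Cob (SD w) ⊤ (fun a b => f (κ (j w a)) (κ (j w b)))) → Cob S ⊤ f)
    (hcount : Module.finrank (ZMod 2) (homs S ⊤) = ∑ w, Module.finrank (ZMod 2) (homs (SD w) ⊤)) :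
    ParHF S SD j χ inv κ {p | ∃ n ∈ B, p = (θ n, φ n)} := by
  refine ⟨H.glob hfin hinj hsha hcount, H.loc, H.jsm, H.kk, H.ksys, H.kchi, hcount, ?_, ?_, ?_, ?_⟩
  · obtain ⟨n, hn⟩ := hB
    exact ⟨(θ n, φ n), n, hn, rfl⟩
  · rintro p ⟨n, hn, rfl⟩
    exact H.tk n hn
  · rintro p ⟨n, hn, rfl⟩
    exact H.fk n hn
  · intro z u hz h1 h2 hu h3 h4 h5 h6
    exact H.alt z u hz h1 h2 hu h3 h4 (fun p hp => h5 (θ p, φ p) ⟨p, hp, rfl⟩)
      (fun p hp => h6 (θ p, φ p) ⟨p, hp, rfl⟩)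

end Pool.Agent.Work.MP_787500_nt.HP
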