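import Mathlib
import Pool.Agent.Work.MP_787500_nt.HP.Defs

/-!
# Module EXTCOC (size M): extension of a cocycle to a group with a subgroup of index two

`H = e G ⊔ e G c`, `c c = 1`, `e (κ g) = c e g c`, `χ c = -1`. By `hcr` the two cases exclude each other and `g` is unique (`e` is injective; `e g = e g' * c` would
give `c = e (g'⁻¹ g)`). Define `F` by (for `b = e h` or `b = e h * c`) `F (e g) b = z g h`, `F (e g * c) b = z g (κ h) + χ (e g) • u h`.
`IsExt.d2`: `d2 (tw χ) F a b d = 0`. Because `F a (b c) = F a b` one may take `d = e h`.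
Note `c e g = e (κ g) c`. Put `X g = χ (e g)`, `X (κ g) = X g`.
* `a = e k`: both for `b = e g` and `b = e g c` the claim is the cocycle relation of `z` at `(k, g, h)`, resp. at `(k, g, κ h)` (the terms
  `X k X g u h - X (k g) u h` cancel).
* `a = e k c`, `b = e g`: `a b = e (k κ g) c`: `-X k z g h - (z (k κg) (κh) + X (k g) u h) + (z k (κg κh) + X k u (g h)) - (z k (κg) + X k u g)`; with the cocycle
  relation of `z` at `(k, κ g, κ h)` this is `-X k (z g h + z (κ g) (κ h) + u g + X g u h - u (g h)) = 0` by `h3`.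
* `a = e k c`, `b = e g c`: `a b = e (k κ g)`, `b d = e (g κ h) c`: `-X k (z g (κ h) + X g u h) - z (k κ g) h + z k (κ g h) + X k u (g κ h) - z k (κ g) - X k u g`;
  with the relation of `z` at `(k, κ g, h)` it is `-X k (z g (κ h) + z (κ g) h + u g + X g u h - u (g κ h)) = 0` by `h3` at `(g, κ h)` and `u (κ h) = u h`.
* normalised: `u 1 = 0` by `h3` at `(1, 1)`.
-/

set_option autoImplicit false
set_option linter.unusedSectionVars false

namespace Pool.Agent.Work.MP_787500_nt.HP

open Pool.Agent.Work.MP_787500_nt.GP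

/-- the set-up: `e` embeds `G` as a subgroup of index two of `H`, `c` is an involution outside it -/
structure Dbl {G H : Type*} [Group G] [Group H] (e : G →* H) (c : H) (κ : G →* G) (χ : H → ℤ_[2]) :
    Prop where
  inj : Function.Injective e
  cc : c * c = 1
  ne : ∀ g, e g ≠ c
  all : ∀ h, ∃ g, h = e g ∨ h = e g * c
  κ : ∀ g, e (κ g) = c * e g * c
  mul : ∀ a b, χ (a * b) = χ a * χ b
  one : χ 1 = 1
  neg : χ c = -1

/-- `F` extends the pair `(z, u)` -/
structure IsExt {G H : Type*} [Group G] [Group H] (e : G →* H) (c : H) (κ : G →* G) (χ : H → ℤ_[2])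
    (z : G → G → A0) (u : G → A0) (F : H → H → A0) : Prop where
  ff : ∀ g h, F (e g) (e h) = z g h
  cf : ∀ g h, F (e g * c) (e h) = z g (κ h) + χ (e g) • u h
  fc : ∀ a g, F a (e g * c) = F a (e g)

variable {G H : Type*} [Group G] [Group H] {e : G →* H} {c : H} {κ : G →* G} {χ : H → ℤ_[2]}
  {z : G → G → A0} {u : G → A0} {F : H → H → A0}

private theorem Dbl.ne' (h : Dbl e c κ χ) (g g' : G) : e g ≠ e g' * c := by
  intro h1
  apply h.ne (g'⁻¹ * g)
  rw [map_mul, h1, map_inv, inv_mul_cancel_left]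

theorem exists_isExt (h : Dbl e c κ χ) (z : G → G → A0) (u : G → A0) :
    ∃ F, IsExt e c κ χ z u F := by
  classical
  choose π hπ using h.all
  have e1 : ∀ g, π (e g) = g := by
    intro g
    rcases hπ (e g) with h1 | h1
    · exact (h.inj h1).symm
    · exact absurd h1 (h.ne' _ _)
  have e2 : ∀ g, π (e g * c) = g := by
    intro g
    rcases hπ (e g * c) with h1 | h1
    · exact absurd h1.symm (h.ne' _ _)
    · exact (h.inj (mul_right_cancel h1)).symm
  refine ⟨fun a b => if a = e (π a) then z (π a) (π b) else z (π a) (κ (π b)) + χ (e (π a)) • u (π b),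
    ?_, ?_, ?_⟩
  · intro g g'
    simp only [e1, if_true]
  · intro g g'
    have h1 : ¬ (e g * c = e g) := fun h2 => h.ne' _ _ h2.symm
    simp only [e1, e2, if_neg h1]
  · intro a g
    simp only [e1, e2]

private theorem Dbl.chi (h : Dbl e c κ χ) (g : G) : χ (e (κ g)) = χ (e g) := by
  rw [h.κ, h.mul, h.mul, h.neg]
  ring

private theorem Dbl.kk (h : Dbl e c κ χ) (g : G) : κ (κ g) = g := by
  apply h.inj
  rw [h.κ, h.κ]
  have h1 : c * (c * e g * c) * c = (c * c) * e g * (c * c) := by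
    simp only [mul_assoc]
  rw [h1, h.cc, one_mul, mul_one]

private theorem Dbl.comm (h : Dbl e c κ χ) (g : G) : c * e g = e (κ g) * c := by
  rw [h.κ, mul_assoc (c * e g) c c, h.cc, mul_one]

private theorem IsExt.fc' (h : Dbl e c κ χ) (hF : IsExt e c κ χ z u F) (a b : H) :
    F a (b * c) = F a b := by
  obtain ⟨g, hg | hg⟩ := h.all b
  · rw [hg]
    exact hF.fc a g
  · rw [hg, mul_assoc, h.cc, mul_one]
    exact (hF.fc a g).symm

private theorem IsExt.d2e (h : Dbl e c κ χ) (hF : IsExt e c κ χ z u F)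
    (hz : ∀ a b d, GP.d2 (tw fun g => χ (e g)) z a b d = 0)
    (h3 : ∀ a b, z (κ a) (κ b) + z a b = -d1 (tw fun g => χ (e g)) u a b)
    (h4 : ∀ g, u (κ g) = u g) (a b : H) (g₀ : G) : GP.d2 (tw χ) F a b (e g₀) = 0 := by
  simp only [GP.d2, GP.d1, tw] at hz h3 ⊢
  obtain ⟨k, hk | hk⟩ := h.all a
  · obtain ⟨g, hg | hg⟩ := h.all b
    · rw [hk, hg, ← map_mul, ← map_mul, hF.ff, hF.ff, hF.ff, hF.ff]
      exact hz k g g₀
    · have e1 : a * b = e (k * g) * c := by rw [hk, hg, map_mul, mul_assoc]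
      have e2 : b * e g₀ = e (g * κ g₀) * c := by
        rw [hg, mul_assoc, h.comm, map_mul, mul_assoc]
      rw [e1, e2, hF.fc, hk, hg, hF.cf, hF.cf, hF.fc, hF.ff, hF.ff, map_mul, h.mul]
      have h5 := hz k g (κ g₀)
      linear_combination (norm := module) h5
  · have hχa : χ a = -χ (e k) := by
      rw [hk, h.mul, h.neg]
      ring
    obtain ⟨g, hg | hg⟩ := h.all b
    · have e1 : a * b = e (k * κ g) * c := by
        rw [hk, hg, mul_assoc, h.comm, map_mul, mul_assoc]
      rw [e1, hχa, hg, ← map_mul, hk, hF.ff, hF.cf, hF.cf, hF.cf, map_mul κ, map_mul e, h.mul,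
        h.chi]
      have h5 := hz k (κ g) (κ g₀)
      have h6 := h3 g g₀
      linear_combination (norm := module) h5 - χ (e k) • h6
    · have e1 : a * b = e (k * κ g) := by
        rw [hk, hg, mul_assoc, ← mul_assoc c, h.comm, mul_assoc, h.cc, mul_one, map_mul]
      have e2 : b * e g₀ = e (g * κ g₀) * c := by
        rw [hg, mul_assoc, h.comm, map_mul, mul_assoc]
      rw [e1, e2, hχa, hF.fc, hg, hF.fc, hk, hF.cf, hF.cf, hF.cf, hF.ff, map_mul κ, h.kk]
      have h5 := hz k (κ g) g₀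
      have h6 := h3 g (κ g₀)
      rw [h.kk, h4] at h6
      linear_combination (norm := module) h5 - χ (e k) • h6

theorem IsExt.d2 (h : Dbl e c κ χ) (hF : IsExt e c κ χ z u F)
    (hz : ∀ a b d, GP.d2 (tw fun g => χ (e g)) z a b d = 0)
    (h3 : ∀ a b, z (κ a) (κ b) + z a b = -d1 (tw fun g => χ (e g)) u a b)
    (h4 : ∀ g, u (κ g) = u g) (a b d : H) : GP.d2 (tw χ) F a b d = 0 := by
  obtain ⟨g, hg | hg⟩ := h.all d
  · rw [hg]
    exact IsExt.d2e h hF hz h3 h4 a b g
  · have h5 := IsExt.d2e h hF hz h3 h4 a b g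
    simp only [GP.d2] at h5 ⊢
    rw [hg, ← mul_assoc, IsExt.fc' h hF, IsExt.fc' h hF, IsExt.fc' h hF]
    exact h5

theorem IsExt.norm (h : Dbl e c κ χ) (hF : IsExt e c κ χ z u F) (h1 : ∀ g, z g 1 = 0)
    (h2 : ∀ g, z 1 g = 0) (h3 : ∀ a b, z (κ a) (κ b) + z a b = -d1 (tw fun g => χ (e g)) u a b) :
    (∀ g, F g 1 = 0) ∧ (∀ g, F 1 g = 0) ∧ F c c = 0 := by
  have hu : u 1 = 0 := by
    have h4 := h3 1 1
    simp only [GP.d1, tw, map_one, h.one, h1, mul_one, one_smul, add_zero] at h4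
    have h5 : u 1 = 0 - -(u 1 + u 1 - u 1) := by abel
    rw [h5, ← h4, sub_zero]
  have h10 : ∀ g, F (e g * c) (e 1) = 0 := by
    intro g
    rw [hF.cf, map_one, h1, hu, smul_zero, add_zero]
  refine ⟨fun g => ?_, fun g => ?_, ?_⟩
  · obtain ⟨k, hk | hk⟩ := h.all g
    · rw [hk, ← map_one e, hF.ff, h1]
    · rw [hk, ← map_one e, h10]
  · rw [← map_one e]
    obtain ⟨k, hk | hk⟩ := h.all g
    · rw [hk, hF.ff, h2]
    · rw [hk, hF.fc, hF.ff, h2]
  · have h5 := h10 1
    rw [← hF.fc, map_one, one_mul] at h5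
    exact h5

end Pool.Agent.Work.MP_787500_nt.HP
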