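import Mathlib
import Pool.Agent.Work.MP_787500_nt.HP.ExtCoc
import Pool.Agent.Work.MP_787500_nt.HP.Splt
import Pool.Agent.Work.MP_787500_nt.HP.EmbGood

/-!
# Module EXTK (size M-L): the extended cocycle is smooth

`t = α s`, `c t = -t`.
* `dbl`: `inj`: `emb_inj`. `ne`, `all`: `emb_sq`, `sq_or` (if `g t = -t` then `g * c` fixes `t` and `g = (g c) c`). `mul`, `one`: `cyQ` is multiplicative
  (`map_mul`).
* `good_map`: `W' = ((W ⊓ W.comap κ).map (emb α))`. Normal: conjugation by `emb α g` (normal in `AbsGal K`), by `c`: it exchanges `W` and `W.comap κ`. Index: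
  `[H : W'] = [H : range (emb α)] [AbsGal K : W ⊓ W.comap κ]` (`Subgroup.index_map`, `Subgroup.relIndex_mul_index`), the range has index 2 (it is the
  kernel of `g ↦ g t / t`, or `Subgroup.index_eq_two_iff`), and `W.comap κ` has the index of `W` (`κ` is bijective, `κ (κ g) = g`), `index_inf`. `OpnQ`: an open subgroup
  of `AbsGal K` contains all elements that fix a certain finite set (`krullTopology_mem_nhds_one_iff`, a basis); `W.comap κ` is open (`κ` is
  continuous: `PA.kappa_continuous`, or: `κ g` fixes `x` iff `g` fixes `c x`); take the images of these elements under `α` and `t`. Inertia: for `Q ∌ 2`, `l ∉ Q` for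
  `l ∈ T ∪ D.primeFactors`: `inr_le` gives `g = emb α σ` with `σ` in the inertia group of `pb α Q`, so `σ ∈ W` (`GoodT`), and `κ σ = c σ c` is in the inertia group of
  `pb α` of the prime `c Q` (comap under `og c`), which contains no such number either.
* `ext_smooth`: choose a member `W` of `sysT K T` for which `z`, `u` are smooth and `2 ^ n ∣ cyc w - 1` for `w ∈ W`, where `2 ^ n • u g = 0` for all `g` (`u` takes
  finitely many values, `W₂` of finite index, and every element of `A0` is killed by a power of 2; see the lemmas in `GP/T01_A0.lean`). `W'` from `good_map`. For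
  `w = emb x`, `w' = emb y` with `x, κ x, y, κ y ∈ W`: `e g * e x = e (g x)`, `e g * c * e x = e (g κ x) * c`; so `F` is invariant
  (for the second form use `χ (e (g κ x)) • u h = χ (e g) • u h`).
* `exists_ext`: put together with `exists_isExt`, `IsExt.d2`, `IsExt.norm` (`cyQ_emb`).
-/

set_option autoImplicit false
set_option linter.unusedSectionVars false

namespace Pool.Agent.Work.MP_787500_nt.HP

open IsDedekindDomain NumberField
open Pool.Agent.Work.MP_787500_nt.PA (TwoSys Sm1 Sm2 homs Coc Cob IsChar cyc Opn)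
open Pool.Agent.Work.MP_787500_nt.GP

universe u

variable {Ω : Type u} [Field Ω] [CharZero Ω] [IsAlgClosed Ω] {K : Type u} [Field K] [NumberField K]
  (α : AlgebraicClosure K ≃+* Ω) {D : ℕ} {s : K} {c : Ω ≃+* Ω} {κ : AbsGal K →* AbsGal K}

omit [CharZero Ω] [IsAlgClosed Ω] in
private theorem extk_ne (hK : IsQ K D s) : -α (algebraMap K (AlgebraicClosure K) s) ≠
    α (algebraMap K (AlgebraicClosure K) s) := by
  intro h
  rw [← map_neg, ← map_neg] at h
  have h1 : -s = s := (algebraMap K (AlgebraicClosure K)).injective (α.injective h)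
  have h2 : s = 0 := self_eq_neg.1 h1.symm
  have h3 := hK.sq
  rw [h2, zero_pow two_ne_zero, zero_eq_neg, Nat.cast_eq_zero] at h3
  have h4 := hK.mod
  rw [h3] at h4
  exact absurd h4 (by decide)

/-- finitely many elements from an open subgroup -/
private theorem extk_fix {W : Subgroup (AbsGal K)} (hW : IsOpen (W : Set (AbsGal K))) :
    ∃ s : Finset (AlgebraicClosure K), ∀ σ : AbsGal K, (∀ x ∈ s, σ x = x) → σ ∈ W := by
  classical
  obtain ⟨E, hE, h⟩ := (krullTopology_mem_nhds_one_iff K (AlgebraicClosure K) _).1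
    (hW.mem_nhds W.one_mem)
  have hfd : FiniteDimensional K E := hE
  let b := Module.finBasis K E
  refine ⟨Finset.univ.image fun i => (b i : AlgebraicClosure K), fun σ hσ => h ?_⟩
  rw [SetLike.mem_coe, IntermediateField.mem_fixingSubgroup_iff]
  intro x hx
  have h1 := congrArg (fun y : E => (y : AlgebraicClosure K)) (b.sum_repr ⟨x, hx⟩)
  have h2 : ∑ i, algebraMap K (AlgebraicClosure K) (b.repr ⟨x, hx⟩ i) *
      (b i : AlgebraicClosure K) = x := by
    refine Eq.trans ?_ h1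
    simp only [IntermediateField.coe_sum, Algebra.smul_def]
    rfl
  have h3 : ∀ i, σ (b i : AlgebraicClosure K) = b i := fun i =>
    hσ _ (Finset.mem_image_of_mem _ (Finset.mem_univ i))
  have h4 : ∀ a : K, σ (algebraMap K (AlgebraicClosure K) a) = algebraMap K (AlgebraicClosure K) a :=
    fun a => AlgEquiv.commutes σ a
  rw [← h2, map_sum]
  refine Finset.sum_congr rfl fun i _ => ?_
  rw [map_mul, h3, h4]

theorem dbl (hK : IsQ K D s) (hc : ∀ x, c (c x) = x)
    (hcs : c (α (algebraMap K (AlgebraicClosure K) s)) = -α (algebraMap K (AlgebraicClosure K) s))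
    (hcc : cyQ c = -1) (hκ : ∀ σ, emb α (κ σ) = c * emb α σ * c) : Dbl (emb α) c κ cyQ := by
  have hcc' : c * c = 1 := RingEquiv.ext fun x => hc x
  refine ⟨emb_inj α, hcc', fun g hg => ?_, fun h => ?_, hκ, fun a b => ?_, ?_, hcc⟩
  · have h1 := (emb_sq α hK c).1 ⟨g, hg⟩
    rw [hcs] at h1
    exact extk_ne α hK h1
  · rcases sq_or α hK h with h1 | h1
    · obtain ⟨g, hg⟩ := (emb_sq α hK h).2 h1
      exact ⟨g, Or.inl hg.symm⟩
    · have h2 : (h * c) (α (algebraMap K (AlgebraicClosure K) s)) =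
          α (algebraMap K (AlgebraicClosure K) s) := by
        show h (c (α (algebraMap K (AlgebraicClosure K) s))) = _
        rw [hcs, map_neg, h1, neg_neg]
      obtain ⟨g, hg⟩ := (emb_sq α hK (h * c)).2 h2
      exact ⟨g, Or.inr (by rw [hg, mul_assoc, hcc', mul_one])⟩
  · unfold cyQ
    rw [map_mul, Units.val_mul]
  · unfold cyQ
    rw [map_one, Units.val_one]

theorem good_map (hK : IsQ K D s) (hc : ∀ x, c (c x) = x)
    (hcs : c (α (algebraMap K (AlgebraicClosure K) s)) = -α (algebraMap K (AlgebraicClosure K) s))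
    (hcc : cyQ c = -1) (hκ : ∀ σ, emb α (κ σ) = c * emb α σ * c) {T : Finset ℕ}
    {W : Subgroup (AbsGal K)} (hW : GoodT K T W) :
    ∃ W' : Subgroup (Ω ≃+* Ω), (qsys Ω ((T ∪ D.primeFactors : Finset ℕ) : Set ℕ)).mem W' ∧
      ∀ h ∈ W', ∃ g ∈ W, κ g ∈ W ∧ emb α g = h := by
  classical
  have hd := dbl α hK hc hcs hcc hκ
  have hkk : ∀ σ, κ (κ σ) = σ := fun σ => emb_inj α (by
    rw [hκ, hκ, ← mul_assoc, ← mul_assoc, hd.cc, one_mul, mul_assoc, hd.cc, mul_one])
  have hWn : W.Normal := hW.normal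
  have hcn : (W.comap κ).Normal := inferInstance
  -- a finite set of elements
  obtain ⟨s₀, hs₀⟩ := extk_fix hW.isOpen
  let ct : Ω := α (algebraMap K (AlgebraicClosure K) s)
  refine ⟨(W ⊓ W.comap κ).map (emb α), ⟨⟨?_, ?_, ?_⟩, ?_⟩, ?_⟩
  · -- open
    refine ⟨{ct} ∪ (s₀.image α ∪ s₀.image fun x => c (α x)), fun g hg => ?_⟩
    obtain ⟨σ, rfl⟩ := (emb_sq α hK g).2 (hg _ (Finset.mem_union_left _
      (Finset.mem_singleton_self _)))
    refine ⟨σ, ⟨hs₀ σ fun x hx => ?_, ?_⟩, rfl⟩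
    · have h1 := hg (α x) (Finset.mem_union_right _ (Finset.mem_union_left _
        (Finset.mem_image_of_mem _ hx)))
      rw [emb_apply, α.symm_apply_apply] at h1
      exact α.injective h1
    · refine hs₀ (κ σ) fun x hx => ?_
      have h1 := hg (c (α x)) (Finset.mem_union_right _ (Finset.mem_union_right _
        (Finset.mem_image_of_mem _ hx)))
      have h2 : emb α (κ σ) (α x) = α x := by
        rw [hκ]
        show c (emb α σ (c (α x))) = α x
        rw [h1, hc]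
      rw [emb_apply, α.symm_apply_apply] at h2
      exact α.injective h2
  · -- normal
    refine ⟨?_⟩
    rintro _ ⟨w, hw, rfl⟩ h
    have hn : (W ⊓ W.comap κ).Normal := inferInstance
    rcases hd.all h with ⟨g, rfl | rfl⟩
    · exact ⟨g * w * g⁻¹, hn.conj_mem w hw g, by rw [map_mul, map_mul, map_inv]⟩
    · refine ⟨g * κ w * g⁻¹, hn.conj_mem (κ w) ⟨hw.2, ?_⟩ g, ?_⟩
      · show κ (κ w) ∈ W
        rw [hkk]
        exact hw.1
      · have hci : c⁻¹ = c := inv_eq_of_mul_eq_one_left hd.cc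
        rw [map_mul, map_mul, map_inv, hκ, mul_inv_rev, hci]
        simp only [mul_assoc]
  · -- index
    have h1 : ∃ k : ℕ, W.index = 2 ^ k := goodG_index hW
    have h2 : (W.comap κ).index = W.index :=
      Subgroup.index_comap_of_surjective W (f := κ) fun σ => ⟨κ σ, hkk σ⟩
    obtain ⟨k, hk⟩ := index_inf h1 (by rw [h2]; exact h1)
    have h3 : (emb α).range.index = 2 := by
      rw [Subgroup.index_eq_two_iff]
      refine ⟨c, fun b => ?_⟩
      have h4 : b * c ∈ (emb α).range ↔ b ct = -ct := by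
        rw [MonoidHom.mem_range, emb_sq α hK]
        show b (c ct) = ct ↔ _
        rw [show c ct = -ct from hcs, map_neg, neg_eq_iff_eq_neg]
      have h5 : b ∈ (emb α).range ↔ b ct = ct := by
        rw [MonoidHom.mem_range, emb_sq α hK]
      rw [h4, h5]
      rcases sq_or α hK b with h6 | h6
      · exact Or.inr ⟨h6, fun h7 => extk_ne α hK (h7.symm.trans h6)⟩
      · exact Or.inl ⟨h6, fun h7 => extk_ne α hK (h6.symm.trans h7)⟩
    exact ⟨k + 1, by rw [Subgroup.index_map_of_injective _ (emb_inj α), hk, h3, pow_succ]⟩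
  · -- inertia
    intro Q hQ h2 hT g hg
    obtain ⟨σ, hσ, rfl⟩ := inr_le α hK hQ h2 (fun p hp hpD => hT p (Finset.mem_coe.2
      (Finset.mem_union_right _ (Nat.mem_primeFactors.2 ⟨hp, hpD, hK.sqf.ne_zero⟩)))) hg
    have key : ∀ Q' : Ideal (𝓞 Ω), Q'.IsPrime → (2 : 𝓞 Ω) ∉ Q' → (∀ l ∈ T, (l : 𝓞 Ω) ∉ Q') →
        ∀ τ, τ ∈ (pb α Q').inertia (AbsGal K) → τ ∈ W := by
      intro Q' hQ' h2' hT' τ hτ
      refine hW.inertia τ ⟨pb α Q', pb_prime α hQ', fun h3 => h2' ?_, fun l hl h3 =>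
        hT' l hl ((pb_nat α l).1 h3), hτ⟩
      have h4 := (pb_nat α (Q := Q') 2).1
      rw [Nat.cast_ofNat, Nat.cast_ofNat] at h4
      exact h4 h3
    have hT1 : ∀ l ∈ T, (l : 𝓞 Ω) ∉ Q := fun l hl => hT l (Finset.mem_coe.2
      (Finset.mem_union_left _ hl))
    refine ⟨σ, ⟨key Q hQ h2 hT1 σ hσ, ?_⟩, rfl⟩
    show κ σ ∈ W
    refine key (Q.comap (og c : 𝓞 Ω →+* 𝓞 Ω)) (Ideal.comap_isPrime _ _) (fun h3 => h2 ?_)
      (fun l hl h3 => hT1 l hl ?_) (κ σ) ((emb_inr α).1 ?_)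
    · have h5 : (og c : 𝓞 Ω →+* 𝓞 Ω) 2 ∈ Q := h3
      rwa [map_ofNat] at h5
    · have h5 : (og c : 𝓞 Ω →+* 𝓞 Ω) l ∈ Q := h3
      rwa [map_natCast] at h5
    · rw [hκ, mem_inr]
      intro x
      show (og c : 𝓞 Ω →+* 𝓞 Ω) (og (c * emb α σ * c) x - x) ∈ Q
      rw [map_sub]
      show og c (og (c * emb α σ * c) x) - og c x ∈ Q
      rw [og_mul, og_mul, ← og_mul c c, hd.cc, og_one]
      exact hg (og c x)
  · rintro _ ⟨w, hw, rfl⟩
    exact ⟨w, hw.1, hw.2, rfl⟩

theorem exists_ext (hK : IsQ K D s) (hc : ∀ x, c (c x) = x)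
    (hcs : c (α (algebraMap K (AlgebraicClosure K) s)) = -α (algebraMap K (AlgebraicClosure K) s))
    (hcc : cyQ c = -1) (hκ : ∀ σ, emb α (κ σ) = c * emb α σ * c) {T : Finset ℕ}
    {z : AbsGal K → AbsGal K → A0} {u : AbsGal K → A0} (hz : Z2 (sysT K T) (tw cyc) z)
    (h1 : ∀ g, z g 1 = 0) (h2 : ∀ g, z 1 g = 0) (hu : Sm1 (sysT K T) u)
    (h3 : ∀ a b, z (κ a) (κ b) + z a b = -d1 (tw cyc) u a b) (h4 : ∀ g, u (κ g) = u g) :
    ∃ F : (Ω ≃+* Ω) → (Ω ≃+* Ω) → A0, IsExt (emb α) c κ cyQ z u F ∧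
      Z2 (qsys Ω ((T ∪ D.primeFactors : Finset ℕ) : Set ℕ)) (tw cyQ) F ∧ (∀ g, F g 1 = 0) ∧
      (∀ g, F 1 g = 0) ∧ F c c = 0 := by
  have hd := dbl α hK hc hcs hcc hκ
  obtain ⟨F, hF⟩ := exists_isExt hd z u
  have hcy : (fun g : AbsGal K => cyQ (emb α g)) = cyc := funext (cyQ_emb α)
  have h3' : ∀ a b, z (κ a) (κ b) + z a b = -d1 (tw fun g : AbsGal K => cyQ (emb α g)) u a b := by
    rw [hcy]
    exact h3
  refine ⟨F, hF, ⟨?_, hF.d2 hd (by rw [hcy]; exact hz.2) h3' h4⟩, hF.norm hd h1 h2 h3'⟩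
  -- smoothness
  have hfin := sm1_fin hu
  have : Finite (Set.range u) := hfin
  obtain ⟨k, -, hk⟩ := a0_killed (fun t : Set.range u => (t : A0))
  obtain ⟨⟨W1, hW1, hz1⟩, -⟩ := hz
  obtain ⟨W2, hW2, hu2⟩ := hu
  have hch := PA.isChar_cyc (K := K)
  obtain ⟨W3, hW3, hc3⟩ := hch.cont k
  have hW3' : GoodT K T W3 := by
    obtain ⟨g1, g2, g3, g4⟩ := hW3
    refine ⟨g1, g2, le_top, fun g _ => g3 g, fun σ hσ => ?_⟩
    obtain ⟨Q, hQ, hQ2, -, h5⟩ := hσ
    exact g4 Q hQ hQ2 h5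
  obtain ⟨W', hW', hmap⟩ := good_map α hK hc hcs hcc hκ ((hW1.inf hW2).inf hW3')
  have hcyc : ∀ w ∈ W3, ∀ g, cyc w • u g = u g := by
    intro w hw g
    have h5 := hc3 1 w hw
    rw [one_mul, hch.one] at h5
    exact hk (cyc w) h5 ⟨u g, ⟨g, rfl⟩⟩
  have hkk : ∀ σ, κ (κ σ) = σ := fun σ => emb_inj α (by
    rw [hκ, hκ, ← mul_assoc, ← mul_assoc, hd.cc, one_mul, mul_assoc, hd.cc, mul_one])
  have hcw : ∀ x, c * emb α x = emb α (κ x) * c := by
    intro x
    rw [hκ, mul_assoc _ c c, hd.cc, mul_one]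
  -- the case of a second variable in `AbsGal K`
  have key : ∀ a, ∀ x ∈ (W1 ⊓ W2) ⊓ W3, κ x ∈ (W1 ⊓ W2) ⊓ W3 → ∀ h, ∀ y ∈ (W1 ⊓ W2) ⊓ W3,
      κ y ∈ (W1 ⊓ W2) ⊓ W3 → F (a * emb α x) (emb α (h * y)) = F a (emb α h) := by
    intro a x hx hkx h y hy hky
    rcases hd.all a with ⟨g, rfl | rfl⟩
    · rw [← map_mul, hF.ff, hF.ff]
      exact hz1 _ _ _ hx.1.1 _ hy.1.1
    · rw [mul_assoc, hcw, ← mul_assoc, ← map_mul, hF.cf, hF.cf, map_mul κ,
        hz1 _ _ _ hkx.1.1 _ hky.1.1, hu2 _ _ hy.1.2, map_mul, hd.mul, cyQ_emb α (κ x), mul_smul,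
        hcyc _ hkx.2]
  refine ⟨W', hW', fun g h w hw w' hw' => ?_⟩
  obtain ⟨x, hx, hkx, rfl⟩ := hmap w hw
  obtain ⟨y, hy, hky, rfl⟩ := hmap w' hw'
  rcases hd.all h with ⟨h', rfl | rfl⟩
  · rw [← map_mul]
    exact key g x hx hkx h' y hy hky
  · rw [mul_assoc, hcw, ← mul_assoc, ← map_mul, hF.fc, hF.fc]
    exact key g x hx hkx h' (κ y) hky (by rw [hkk]; exact hy)

end Pool.Agent.Work.MP_787500_nt.HP
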