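import Mathlib
import Pool.Agent.Work.MP_787500_nt.HP.Splt
import Pool.Agent.Work.MP_787500_nt.HP.EmbGood

/-!
# Module KTHETA (size M): the elements `θ`, `φ` at a ramified prime number `p`

`t = α s`; `g t = ± t` for every `g` (`sq_or`), and `g` is in the range of `emb α` iff `g t = t` (`emb_sq`). `τ t = -t` by `inr_neg`; so `τ * c` fixes `t`:
`emb α θ = τ * c`, `emb α θ * c = τ` (`c * c = 1`). If `σ t = t` then `σ = emb α φ`; otherwise `σ * τ⁻¹` fixes `t`: `emb α φ = σ * τ⁻¹`.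
`cyQ_emb`, `cyQ` multiplicative: `cyc θ * (-1) = cyQ τ = 1`, `cyc φ = cyQ σ = p` (in both cases).
`hin`: for every prime `Q` with `2 ∉ Q`, `l ∉ Q` for `l ∈ T`, an element of `(pb α Q).inertia` is in every `GoodT K T W`. It applies to `P` and to the prime
`c P = P.comap (og c)` (`p ∈ P`; `p ≠ 2`, `p ∉ T`: `nat_mem`).
`tk`: `emb α (θ * κ θ) = τ * τ ∈ inr P`, `emb_inr`. `fk`: `emb α ((θ * κ φ)⁻¹ * (φ * θ)) = c * (f⁻¹ * τ⁻¹ * f * τ) * c` with `f = emb α φ ∈ stb P` (`inr_le_stb`), and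
`f⁻¹ * τ⁻¹ * f * τ ∈ inr P` (`inr P` is normalised by `stb P`), so the element is in `inr (c P)`: use `emb_inr` for `c P`.
-/

set_option autoImplicit false
set_option linter.unusedSectionVars false

namespace Pool.Agent.Work.MP_787500_nt.HP

open IsDedekindDomain NumberField
open Pool.Agent.Work.MP_787500_nt.PA (TwoSys Sm1 Sm2 homs Coc Cob IsChar cyc Opn)
open Pool.Agent.Work.MP_787500_nt.GP

universe u

variable {Ω : Type u} [Field Ω] [CharZero Ω] [IsAlgClosed Ω] {K : Type u} [Field K] [NumberField K]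
  (α : AlgebraicClosure K ≃+* Ω) {D : ℕ} {s : K} {c : Ω ≃+* Ω} {κ : AbsGal K →* AbsGal K}

private theorem c_mul_c (hc : ∀ x, c (c x) = x) : c * c = 1 := by
  ext x
  exact hc x

/-- the conjugate of an element of the inertia group -/
theorem conj_inr (hc : ∀ x, c (c x) = x) {Q : Ideal (𝓞 Ω)} {g : Ω ≃+* Ω} (hg : g ∈ inr Q) :
    c * g * c ∈ inr (Q.comap (og c : 𝓞 Ω →+* 𝓞 Ω)) := by
  rw [mem_inr]
  intro x
  rw [Ideal.mem_comap]
  have h1 : (og c : 𝓞 Ω →+* 𝓞 Ω) (og (c * g * c) x - x) = og g (og c x) - og c x := by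
    rw [map_sub]
    congr 1
    show og c (og (c * g * c) x) = _
    rw [← og_mul, ← og_mul]
    congr 1
    rw [mul_assoc c g c, ← mul_assoc c c, c_mul_c hc, one_mul]
  rw [h1]
  exact hg _

theorem conj_stb (hc : ∀ x, c (c x) = x) {Q : Ideal (𝓞 Ω)} {g : Ω ≃+* Ω} (hg : g ∈ stb Q) :
    c * g * c ∈ stb (Q.comap (og c : 𝓞 Ω →+* 𝓞 Ω)) := by
  rw [mem_stb]
  intro x
  rw [Ideal.mem_comap, Ideal.mem_comap]
  have h1 : (og c : 𝓞 Ω →+* 𝓞 Ω) (og (c * g * c) x) = og g (og c x) := by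
    show og c (og (c * g * c) x) = _
    rw [← og_mul, ← og_mul]
    congr 1
    rw [mul_assoc c g c, ← mul_assoc c c, c_mul_c hc, one_mul]
  rw [h1]
  exact hg _

private theorem inr_conj {Q : Ideal (𝓞 Ω)} {f g : Ω ≃+* Ω} (hf : f ∈ stb Q) (hg : g ∈ inr Q) :
    f⁻¹ * g * f ∈ inr Q := by
  rw [mem_inr]
  intro x
  rw [mem_stb.1 hf]
  have h1 : og f (og (f⁻¹ * g * f) x - x) = og g (og f x) - og f x := by
    rw [map_sub, ← og_mul, ← og_mul]
    congr 2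
    rw [mul_assoc f⁻¹ g f, mul_inv_cancel_left]
  rw [h1]
  exact hg _

private theorem cyQ_mul (g h : Ω ≃+* Ω) : cyQ (g * h) = cyQ g * cyQ h := by
  unfold cyQ
  rw [map_mul, Units.val_mul]

theorem exists_ktheta (hK : IsQ K D s) (hc : ∀ x, c (c x) = x)
    (hcs : c (α (algebraMap K (AlgebraicClosure K) s)) = -α (algebraMap K (AlgebraicClosure K) s))
    (hcc : cyQ c = -1) (hκ : ∀ σ, emb α (κ σ) = c * emb α σ * c) {T : Finset ℕ}
    (hT : ∀ l ∈ T, Spl D l) {p : ℕ} (hp : p.Prime) (hpD : p ∣ D) {P : Ideal (𝓞 Ω)}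
    (hP : P.IsPrime) (hpP : (p : 𝓞 Ω) ∈ P) {σ τ : Ω ≃+* Ω} (hσ : σ ∈ stb P) (hτ : τ ∈ inr P)
    (hττ : ∀ x : Ω, x ^ 2 = (p : Ω) → τ x = -x) (hχσ : cyQ σ = (p : ℤ_[2])) (hχτ : cyQ τ = 1) :
    ∃ θ φ : AbsGal K, emb α θ * c = τ ∧ (emb α φ = σ ∨ emb α φ * τ = σ) ∧ cyc θ = -1 ∧
      cyc φ = (p : ℤ_[2]) ∧ (∀ W, GoodT K T W → θ * κ θ ∈ W) ∧
      ∀ W, GoodT K T W → (θ * κ φ)⁻¹ * (φ * θ) ∈ W := by
  have hcc2 : c * c = 1 := c_mul_c hc
  have hcinv : c⁻¹ = c := inv_eq_of_mul_eq_one_left hcc2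
  -- `θ`
  have hτt := inr_neg α hK hp hpD hP hpP hτ hττ
  obtain ⟨θ, hθ⟩ : ∃ θ : AbsGal K, emb α θ = τ * c := by
    refine (emb_sq α hK (τ * c)).2 ?_
    show τ (c (α (algebraMap K (AlgebraicClosure K) s))) = _
    rw [hcs, map_neg, hτt, neg_neg]
  have hθc : emb α θ * c = τ := by rw [hθ, mul_assoc, hcc2, mul_one]
  -- `φ`
  obtain ⟨φ, hφ⟩ : ∃ φ : AbsGal K, emb α φ = σ ∨ emb α φ * τ = σ := by
    rcases sq_or α hK σ with h | h
    · obtain ⟨φ, hφ⟩ := (emb_sq α hK σ).2 h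
      exact ⟨φ, Or.inl hφ⟩
    · obtain ⟨φ, hφ⟩ := (emb_sq α hK (σ * τ⁻¹)).2 (by
        have h1 : τ⁻¹ (α (algebraMap K (AlgebraicClosure K) s)) =
            -α (algebraMap K (AlgebraicClosure K) s) := by
          have h2 : τ (-α (algebraMap K (AlgebraicClosure K) s)) =
              α (algebraMap K (AlgebraicClosure K) s) := by rw [map_neg, hτt, neg_neg]
          conv_lhs => rw [← h2]
          exact τ.symm_apply_apply _
        show σ (τ⁻¹ (α (algebraMap K (AlgebraicClosure K) s))) = _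
        rw [h1, map_neg, h, neg_neg])
      exact ⟨φ, Or.inr (by rw [hφ, inv_mul_cancel_right])⟩
  have hcθ : cyc θ = -1 := by
    rw [← cyQ_emb α θ, hθ, cyQ_mul, hχτ, hcc, one_mul]
  have hcφ : cyc φ = (p : ℤ_[2]) := by
    rw [← cyQ_emb α φ]
    rcases hφ with h | h
    · rw [h, hχσ]
    · rw [← hχσ, ← h, cyQ_mul, hχτ, mul_one]
  have hfstb : emb α φ ∈ stb P := by
    rcases hφ with h | h
    · rw [h]
      exact hσ
    · have h1 : emb α φ = σ * τ⁻¹ := by rw [← h, mul_inv_cancel_right]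
      rw [h1]
      exact (stb P).mul_mem hσ ((stb P).inv_mem (inr_le_stb P hτ))
  -- the arithmetic of the primes
  have hp2 : p ≠ 2 := by
    rintro rfl
    have := hK.mod
    omega
  have hin : ∀ Q : Ideal (𝓞 Ω), Q.IsPrime → (p : 𝓞 Ω) ∈ Q → ∀ g : AbsGal K, emb α g ∈ inr Q →
      ∀ W, GoodT K T W → g ∈ W := by
    intro Q hQ hpQ g hg W hW
    refine hW.inertia g ⟨pb α Q, pb_prime α hQ, ?_, ?_, (emb_inr α).1 hg⟩
    · intro h
      have h1 : ((2 : ℕ) : 𝓞 Ω) ∈ Q := (pb_nat α 2).1 (by exact_mod_cast h)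
      have h2 : ((2 : ℤ) : 𝓞 Ω) ∈ Q := by exact_mod_cast h1
      rw [nat_mem hp hQ hpQ 2] at h2
      have h3 : p ∣ 2 := by exact_mod_cast h2
      exact hp2 ((Nat.prime_dvd_prime_iff_eq hp Nat.prime_two).1 h3)
    · intro l hl h
      have h1 : (l : 𝓞 Ω) ∈ Q := (pb_nat α l).1 h
      have h2 : ((l : ℤ) : 𝓞 Ω) ∈ Q := by exact_mod_cast h1
      rw [nat_mem hp hQ hpQ l] at h2
      have h3 : p ∣ l := by exact_mod_cast h2
      obtain ⟨g1, g2, g3, g4⟩ := hT l hl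
      rw [(Nat.prime_dvd_prime_iff_eq hp g1).1 h3] at hpD
      exact g3 hpD
  refine ⟨θ, φ, hθc, hφ, hcθ, hcφ, fun W hW => ?_, fun W hW => ?_⟩
  · refine hin P hP hpP _ ?_ W hW
    have h1 : emb α (θ * κ θ) = τ * τ := by
      rw [map_mul, hκ, hθ]
      calc τ * c * (c * (τ * c) * c) = τ * (c * c) * τ * (c * c) := by group
        _ = τ * τ := by rw [hcc2, mul_one, mul_one]
    rw [h1]
    exact (inr P).mul_mem hτ hτ
  · refine hin (P.comap (og c : 𝓞 Ω →+* 𝓞 Ω)) (Ideal.comap_isPrime _ _) ?_ _ ?_ W hW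
    · rw [Ideal.mem_comap, map_natCast]
      exact hpP
    · have h1 : emb α ((θ * κ φ)⁻¹ * (φ * θ)) =
          c * ((emb α φ)⁻¹ * τ⁻¹ * emb α φ * τ) * c := by
        rw [map_mul, map_inv, map_mul, map_mul, hκ, hθ]
        calc (τ * c * (c * emb α φ * c))⁻¹ * (emb α φ * (τ * c))
            = c⁻¹ * (emb α φ)⁻¹ * (c * c)⁻¹ * τ⁻¹ * (emb α φ * (τ * c)) := by group
          _ = c * ((emb α φ)⁻¹ * τ⁻¹ * emb α φ * τ) * c := by
              rw [hcc2, inv_one, mul_one, hcinv]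
              group
      rw [h1]
      refine conj_inr hc ?_
      exact (inr P).mul_mem (inr_conj hfstb ((inr P).inv_mem hτ)) hτ

end Pool.Agent.Work.MP_787500_nt.HP
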