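import Mathlib
import Pool.Agent.Work.MP_787500_nt.HP.KTheta
import Pool.Agent.Work.MP_787500_nt.HP.ExtK
import Pool.Agent.Work.MP_787500_nt.HP.ExtIota
import Pool.Agent.Work.MP_787500_nt.HP.Iso

/-!
# Module KSUM (size L): the local invariants over `K` and the sum formula

`T' = T ∪ D.primeFactors`. For `w : Option T` let `w' : Option T'` be `none`, resp. `some ⟨l, _⟩`; `PP P w' = PP P w` holds by `rfl` after cases on `w`. `stb_equiv`
(`l = 2` or `Spl D l`) gives `e w : stb (PP P w) ≃* stabD (pb α (PP P w))` with `emb α (e w g) = g`. Define `inv w f = invQ w' (fun a b => f (e w a) (e w b))`.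
* `LocH`: `locH_iso` for `(e w).symm` (the correspondence of the systems is `fsys_iso`), `cyQ_emb`. The dimension 3: `homs_iso`. The tame data: `tameD_iso`, `emb_inr`,
  `iota` (unfold, `map_pow`).
* For `p ∈ D.primeFactors`: `hQ.tame ⟨p, _⟩` gives `a`, `u`, `σ`, `τ`; `exists_ktheta` gives `θ p`, `φ p` (for all `p` by choice, arbitrary values outside);
  `m p = (1 - p) / 2`: `D` is odd (`D % 8 = 7`), so `p` is odd. `v p = u`.
* The sum formula: `exists_ext` gives `F`; `hQ.recip F` : `∑ w : Option T', invQ w (F|) = 0`. `Fintype.sum_option`, and `T'` is the disjoint union of `T` and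
  `D.primeFactors` (`Spl D l` gives `¬ l ∣ D`; for the sum over `T'` as a subtype use `Finset.sum_coe_sort` / `Finset.sum_attach` and a function on `ℕ` defined by
  `dif`, then `Finset.sum_union`). `invQ none (F|) = inv none (z|)` and `invQ ⟨l, _⟩ (F|) = inv (some l) (z|)` for `l ∈ T` because
  `z (e w a) (e w b) = F (emb α (e w a)) (emb α (e w b)) = F a b` (`IsExt.ff`). For `p ∈ D.primeFactors`: `invQ (F|) = u • iota σ τ p F = -(v p • Dta ...)` by
  `ext_iota` (`dbl` gives `Dbl`; `iota` of the restriction of `F` to the subgroup at `σ`, `τ` is `iota` of `F` at their images: unfold).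
-/

set_option autoImplicit false
set_option linter.unusedSectionVars false

namespace Pool.Agent.Work.MP_787500_nt.HP

open IsDedekindDomain NumberField
open Pool.Agent.Work.MP_787500_nt.PA (TwoSys Sm1 Sm2 homs Coc Cob IsChar cyc Opn)
open Pool.Agent.Work.MP_787500_nt.GP

universe u

variable {Ω : Type u} [Field Ω] [CharZero Ω] [IsAlgClosed Ω] {K : Type u} [Field K] [NumberField K]
  (α : AlgebraicClosure K ≃+* Ω) {D : ℕ} {s : K} {c : Ω ≃+* Ω} {κ : AbsGal K →* AbsGal K}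

/-- Local invariants over `K` at the primes `X w`: `θ p`, `φ p` for the prime divisors `p` of `D`. -/
structure KDat (D : ℕ) (κ : AbsGal K →* AbsGal K) (T : Finset ℕ)
    (X : Option T → Ideal (𝓞 (AlgebraicClosure K)))
    (inv : ∀ w : Option T, (stabD (X w) → stabD (X w) → A0) → A0)
    (θ φ : ℕ → AbsGal K) (m : ℕ → ℤ) (v : ℕ → ℤ_[2]) : Prop where
  loc : ∀ w, LocH (subSys (stabD (X w))) (fun d => cyc (d : AbsGal K)) (inv w)
  two : Module.finrank (ZMod 2) (homs (subSys (stabD (X none))) ⊤) = 3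
  tame : ∀ l : T, ∃ (a : stabD (X (some l)) → ℤ_[2]) (u : ℤ_[2]) (σ τ : stabD (X (some l))),
    IsUnit u ∧ (τ : AbsGal K) ∈ (X (some l)).inertia (AbsGal K) ∧
    TameD (subSys (stabD (X (some l)))) (fun d => cyc (d : AbsGal K)) a σ τ l ∧
    ∀ f, inv (some l) f = u • iota σ τ l f
  mm : ∀ p ∈ D.primeFactors, 2 * m p = 1 - p
  tht : ∀ p ∈ D.primeFactors, cyc (θ p) = -1
  phi : ∀ p ∈ D.primeFactors, cyc (φ p) = (p : ℤ_[2])
  tk : ∀ p ∈ D.primeFactors, ∀ W, GoodT K T W → θ p * κ (θ p) ∈ W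
  fk : ∀ p ∈ D.primeFactors, ∀ W, GoodT K T W → (θ p * κ (φ p))⁻¹ * (φ p * θ p) ∈ W
  sum : ∀ (z : AbsGal K → AbsGal K → A0) (u : AbsGal K → A0), Z2 (sysT K T) (tw cyc) z →
    (∀ g, z g 1 = 0) → (∀ g, z 1 g = 0) → Sm1 (sysT K T) u →
    (∀ a b, z (κ a) (κ b) + z a b = -d1 (tw cyc) u a b) → (∀ g, u (κ g) = u g) →
    ∑ w, inv w (fun a b => z a b) = ∑ p ∈ D.primeFactors, v p • Dta κ (θ p) (φ p) (m p) z u

section place

variable {Q : Ideal (𝓞 Ω)} (e : stb Q ≃* stabD (pb α Q)) (he : ∀ g, emb α (e g) = (g : Ω ≃+* Ω))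

include he

theorem ksum_sys (W : Subgroup (stb Q)) :
    (subSys (stabD (pb α Q))).mem (W.comap (e.symm : stabD (pb α Q) →* stb Q)) ↔
      (fsys (stb Q)).mem W := by
  rw [← fsys_iso α e he]
  have h : (W.comap (e.symm : stabD (pb α Q) →* stb Q)).comap (e : stb Q →* stabD (pb α Q)) = W := by
    ext g
    simp [Subgroup.mem_comap]
  rw [h]

theorem ksum_cyc (d : stabD (pb α Q)) : cyQ ((e.symm d : stb Q) : Ω ≃+* Ω) = cyc (d : AbsGal K) := by
  rw [← he (e.symm d), e.apply_symm_apply, cyQ_emb]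

theorem ksum_loc {iq : (stb Q → stb Q → A0) → A0}
    (H : LocH (fsys (stb Q)) (fun d => cyQ (d : Ω ≃+* Ω)) iq) :
    LocH (subSys (stabD (pb α Q))) (fun d => cyc (d : AbsGal K))
      (fun f => iq (fun a b => f (e a) (e b))) := by
  have h := locH_iso e.symm (ksum_sys α e he) H
  have h2 : (fun d : stabD (pb α Q) => cyQ ((e.symm d : stb Q) : Ω ≃+* Ω)) =
      fun d : stabD (pb α Q) => cyc (d : AbsGal K) := funext fun d => ksum_cyc α e he d
  rw [h2] at h
  exact h

theorem ksum_two : Module.finrank (ZMod 2) (homs (subSys (stabD (pb α Q))) ⊤) =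
    Module.finrank (ZMod 2) (homs (fsys (stb Q)) ⊤) :=
  homs_iso e.symm (ksum_sys α e he)

theorem ksum_tame {a : stb Q → ℤ_[2]} {σ τ : stb Q} {l : ℕ}
    (H : TameD (fsys (stb Q)) (fun d => cyQ (d : Ω ≃+* Ω)) a σ τ l) :
    TameD (subSys (stabD (pb α Q))) (fun d => cyc (d : AbsGal K)) (fun d => a (e.symm d)) (e σ)
      (e τ) l := by
  have h := tameD_iso e.symm (ksum_sys α e he) H
  have h2 : (fun d : stabD (pb α Q) => cyQ ((e.symm d : stb Q) : Ω ≃+* Ω)) =
      fun d : stabD (pb α Q) => cyc (d : AbsGal K) := funext fun d => ksum_cyc α e he d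
  rw [h2] at h
  exact h

theorem ksum_inertia {τ : stb Q} (hτ : (τ : Ω ≃+* Ω) ∈ inr Q) :
    ((e τ : stabD (pb α Q)) : AbsGal K) ∈ (pb α Q).inertia (AbsGal K) := by
  rw [← emb_inr, he]
  exact hτ

end place

theorem ksum_iota {G H A : Type*} [Group G] [Group H] [AddCommGroup A] (e : G →* H) (σ τ : G)
    (l : ℕ) (f : H → H → A) : iota σ τ l (fun a b => f (e a) (e b)) = iota (e σ) (e τ) l f := by
  unfold iota
  simp only [map_pow]

theorem exists_kdat (hK : IsQ K D s) (hc : ∀ x, c (c x) = x)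
    (hcs : c (α (algebraMap K (AlgebraicClosure K) s)) = -α (algebraMap K (AlgebraicClosure K) s))
    (hcc : cyQ c = -1) (hκ : ∀ σ, emb α (κ σ) = c * emb α σ * c) {T : Finset ℕ}
    (hT : ∀ l ∈ T, Spl D l) {P : ℕ → Ideal (𝓞 Ω)} (hP : IsP (T ∪ D.primeFactors) P)
    {invQ : ∀ w : Option (T ∪ D.primeFactors : Finset ℕ),
      (stb (PP P w) → stb (PP P w) → A0) → A0} (hQ : QDat c (T ∪ D.primeFactors) P invQ) :
    ∃ (inv : ∀ w : Option T, (stabD (pb α (PP P w)) → stabD (pb α (PP P w)) → A0) → A0)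
      (θ φ : ℕ → AbsGal K) (m : ℕ → ℤ) (v : ℕ → ℤ_[2]),
      KDat D κ T (fun w => pb α (PP P w)) inv θ φ m v := by
  classical
  have hD0 : D ≠ 0 := hK.sqf.ne_zero
  have hmT : ∀ l ∈ T, l ∈ T ∪ D.primeFactors := fun l hl => Finset.mem_union_left _ hl
  have hmD : ∀ l ∈ D.primeFactors, l ∈ T ∪ D.primeFactors := fun l hl => Finset.mem_union_right _ hl
  obtain ⟨e2, he2⟩ := stb_equiv (α := α) hK (l := 2) (Or.inl rfl) (hP.isPrime 2 (Or.inr rfl))
    (hP.mem 2 (Or.inr rfl))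
  have hel : ∀ l : T, ∃ e : stb (P l) ≃* stabD (pb α (P l)), ∀ g, emb α (e g) = (g : Ω ≃+* Ω) :=
    fun l => stb_equiv (α := α) hK (l := l) (Or.inr (hT l l.2))
      (hP.isPrime l (Or.inl (hmT l l.2))) (hP.mem l (Or.inl (hmT l l.2)))
  choose el hel using hel
  -- the elements at the ramified primes
  have hram : ∀ p : ℕ, ∃ (θ φ : AbsGal K) (m : ℤ) (v : ℤ_[2]), p ∈ D.primeFactors →
      2 * m = 1 - p ∧ cyc θ = -1 ∧ cyc φ = (p : ℤ_[2]) ∧ (∀ W, GoodT K T W → θ * κ θ ∈ W) ∧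
      (∀ W, GoodT K T W → (θ * κ φ)⁻¹ * (φ * θ) ∈ W) ∧
      ∀ (z : AbsGal K → AbsGal K → A0) (u : AbsGal K → A0) (F : (Ω ≃+* Ω) → (Ω ≃+* Ω) → A0),
        Z2 (sysT K T) (tw cyc) z → (∀ g, z g 1 = 0) → (∀ g, z 1 g = 0) → Sm1 (sysT K T) u →
        (∀ a b, z (κ a) (κ b) + z a b = -d1 (tw cyc) u a b) → IsExt (emb α) c κ cyQ z u F →
        ∀ h : p ∈ T ∪ D.primeFactors, invQ (some ⟨p, h⟩) (fun a b => F a b) =
          -(v • Dta κ θ φ m z u) := by
    intro p
    by_cases hp : p ∈ D.primeFactors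
    · have hpp : p.Prime := Nat.prime_of_mem_primeFactors hp
      have hpD : p ∣ D := Nat.dvd_of_mem_primeFactors hp
      obtain ⟨a, u, σ, τ, hu, hτ, hττ, hTam, hinv⟩ := hQ.tame ⟨p, hmD p hp⟩
      obtain ⟨θ, φ, h1, h2, h3, h4, h5, h6⟩ := exists_ktheta α hK hc hcs hcc hκ hT hpp hpD
        (hP.isPrime p (Or.inl (hmD p hp))) (hP.mem p (Or.inl (hmD p hp))) σ.2 hτ hττ hTam.σχ
        hTam.τχ
      have hodd : Odd p := hTam.odd
      obtain ⟨k, hk⟩ := hodd
      have hm : (2 : ℤ) * (-(k : ℤ)) = 1 - (p : ℤ) := by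
        rw [hk]; push_cast; ring
      refine ⟨θ, φ, -(k : ℤ), u, fun _ => ⟨hm, h3, h4, h5, h6, ?_⟩⟩
      intro z w F hz hz1 hz2 hw h3' hF h
      have hcy : (fun g => cyQ (emb α g)) = (cyc : AbsGal K → ℤ_[2]) := funext fun g => cyQ_emb α g
      have hio : iota (σ : Ω ≃+* Ω) (τ : Ω ≃+* Ω) p F = -Dta κ θ φ (-(k : ℤ)) z w := by
        refine ext_iota (S := sysT K T) (dbl α hK hc hcs hcc hκ) hF ?_ hw hz1 hz2 ?_ hm h1 h2
          hTam.τχ hTam.σχ h5 h6
        · rw [hcy]; exact hz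
        · rw [hcy]; exact h3'
      have h8 : invQ (some ⟨p, h⟩) (fun a b => F a b) = u • iota σ τ p (fun a b => F a b) :=
        hinv _
      rw [h8]
      have h9 : iota σ τ p (fun a b : stb (P p) => F a b) =
          iota (σ : Ω ≃+* Ω) (τ : Ω ≃+* Ω) p F := ksum_iota (stb (P p)).subtype σ τ p F
      rw [h9, hio, smul_neg]
    · exact ⟨1, 1, 0, 0, fun h => absurd h hp⟩
  choose θ φ m v hram using hram
  let inv : ∀ w : Option T, (stabD (pb α (PP P w)) → stabD (pb α (PP P w)) → A0) → A0 := fun w =>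
    match w with
    | none => fun f => invQ none (fun a b => f (e2 a) (e2 b))
    | some l => fun f => invQ (some ⟨l, hmT l l.2⟩) (fun a b => f (el l a) (el l b))
  refine ⟨inv, θ, φ, m, v, ?_⟩
  constructor
  · rintro (_ | l)
    · exact ksum_loc α e2 he2 (hQ.loc none)
    · exact ksum_loc α (el l) (hel l) (hQ.loc (some ⟨l, hmT l l.2⟩))
  · exact (ksum_two α e2 he2).trans hQ.two
  · intro l
    obtain ⟨a, u, σ, τ, hu, hτ, hττ, hTam, hinv⟩ := hQ.tame ⟨l, hmT l l.2⟩
    refine ⟨fun d => a ((el l).symm d), u, el l σ, el l τ, hu,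
      ksum_inertia α (el l) (hel l) hτ, ksum_tame α (el l) (hel l) hTam, fun f => ?_⟩
    have h8 : inv (some l) f = u • iota σ τ l (fun a b => f (el l a) (el l b)) := hinv _
    rw [h8]
    congr 1
    exact ksum_iota ((el l : stb (P l) →* stabD (pb α (P l)))) σ τ l f
  · exact fun p hp => (hram p hp).1
  · exact fun p hp => (hram p hp).2.1
  · exact fun p hp => (hram p hp).2.2.1
  · exact fun p hp => (hram p hp).2.2.2.1
  · exact fun p hp => (hram p hp).2.2.2.2.1
  · intro z u hz hz1 hz2 hu h3 h4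
    obtain ⟨F, hF, hFZ, hF1, hF2, hFc⟩ := exists_ext α hK hc hcs hcc hκ hz hz1 hz2 hu h3 h4
    have hsum := hQ.recip F hFZ hF1 hF2 hFc
    rw [Fintype.sum_option] at hsum ⊢
    have hdisj : Disjoint T D.primeFactors := by
      rw [Finset.disjoint_left]
      intro l hl hlD
      exact (hT l hl).2.2.1 (Nat.dvd_of_mem_primeFactors hlD)
    let G : ℕ → A0 := fun n => if h : n ∈ T ∪ D.primeFactors then
      invQ (some ⟨n, h⟩) (fun a b => F a b) else 0
    have hG : ∀ n (h : n ∈ T ∪ D.primeFactors), G n = invQ (some ⟨n, h⟩) (fun a b => F a b) :=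
      fun n h => dif_pos h
    have hs1 : ∑ l : (T ∪ D.primeFactors : Finset ℕ), invQ (some l) (fun a b => F a b) =
        ∑ n ∈ T ∪ D.primeFactors, G n := by
      rw [← Finset.sum_coe_sort (T ∪ D.primeFactors) G]
      exact Finset.sum_congr rfl fun l _ => (hG l l.2).symm
    have hs2 : ∑ l : T, inv (some l) (fun a b => z a b) = ∑ n ∈ T, G n := by
      rw [← Finset.sum_coe_sort T G]
      refine Finset.sum_congr rfl fun l _ => ?_
      rw [hG l (hmT l l.2)]
      show invQ (some ⟨l, hmT l l.2⟩) (fun a b => z (el l a) (el l b)) = _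
      congr 1
      funext a b
      rw [← hF.ff, hel, hel]
    have hs3 : inv none (fun a b => z a b) = invQ none (fun a b => F a b) := by
      show invQ none (fun a b => z (e2 a) (e2 b)) = _
      congr 1
      funext a b
      rw [← hF.ff, he2, he2]
    have hs4 : ∑ n ∈ D.primeFactors, G n =
        -∑ p ∈ D.primeFactors, v p • Dta κ (θ p) (φ p) (m p) z u := by
      rw [← Finset.sum_neg_distrib]
      refine Finset.sum_congr rfl fun p hp => ?_
      rw [hG p (hmD p hp)]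
      exact (hram p hp).2.2.2.2.2 z u F hz hz1 hz2 hu h3 hF _
    rw [hs1, Finset.sum_union hdisj, hs4] at hsum
    rw [hs2, hs3]
    rw [← add_assoc, add_neg_eq_zero] at hsum
    exact hsum

end Pool.Agent.Work.MP_787500_nt.HP
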