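import Mathlib
import Pool.Agent.Work.MP_787500_nt.HP.Defs

/-!
# Module CONJ (size M, Mathlib only): involutions of an algebraically closed field

`c` is an automorphism of order two of the algebraically closed field `Ω` of characteristic 0.
* `conj_i`: `(c i) ^ 2 = -1`, so `c i = i` or `c i = -i`. Suppose `c i = i`. Take `x₀` with `c x₀ ≠ x₀` and
  `x = x₀ - c x₀ ≠ 0`, `c x = -x`. Let `y ^ 2 = x`. `(c y) ^ 2 = -x = (i y) ^ 2`, so `c y = ± i y` and
  `y = c (c y) = ± i (± i y) = -y`, so `y = 0`: contradiction.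
* `exists_real`: for every `n` there is `r` with `c r = r`, `r ^ 2 = n`. Induction: `0`. If `r ^ 2 = n`, `c r = r`, let
  `w ^ 2 = r + i`; `N = w * c w` is fixed by `c`, `N ^ 2 = (r + i) (r - i) = n + 1`.
* `conj_real`: `x = ± r`. `conj_imag`: `x = ± i r`.
* `cyQ_conj`: `cyQ (c * c) = 1`, so `cyQ c = 1` or `-1` in the domain `ℤ_[2]`. If it is 1 then `c` fixes the roots of unity of
  2-power order, in particular `i` (`cyclotomicCharacter.spec`, or `cyclotomicCharacter.toZModPow`; see the proof of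
  `PA.cyc_core` and `conj_zp` for how the character is used): contradiction to `conj_i`.
-/

set_option autoImplicit false
set_option linter.unusedSectionVars false

namespace Pool.Agent.Work.MP_787500_nt.HP

universe u

variable {Ω : Type u} [Field Ω] [CharZero Ω] [IsAlgClosed Ω] {c : Ω ≃+* Ω}

theorem conj_i (hc : ∀ x, c (c x) = x) (h : ∃ x, c x ≠ x) {i : Ω} (hi : i ^ 2 = -1) : c i = -i := by
  have h1 : (c i) ^ 2 = i ^ 2 := by rw [← map_pow, hi, map_neg, map_one]
  rcases sq_eq_sq_iff_eq_or_eq_neg.1 h1 with h2 | h2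
  · exfalso
    obtain ⟨x₀, hx₀⟩ := h
    have hx : c (x₀ - c x₀) = -(x₀ - c x₀) := by rw [map_sub, hc]; ring
    have hxne : x₀ - c x₀ ≠ 0 := sub_ne_zero.2 (Ne.symm hx₀)
    obtain ⟨y, hy⟩ := IsAlgClosed.exists_pow_nat_eq (x₀ - c x₀) (n := 2) (by norm_num)
    have h3 : (c y) ^ 2 = (i * y) ^ 2 := by
      rw [← map_pow, hy, hx, mul_pow, hi, hy]; ring
    have h4 : y = -y := by
      rcases sq_eq_sq_iff_eq_or_eq_neg.1 h3 with h5 | h5
      · have h6 := hc y
        rw [h5, map_mul, h2, h5] at h6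
        linear_combination -h6 + y * hi
      · have h6 := hc y
        rw [h5, map_neg, map_mul, h2, h5] at h6
        linear_combination -h6 + y * hi
    have h5 : y = 0 := self_eq_neg.1 h4
    rw [h5] at hy
    exact hxne (by rw [← hy]; ring)
  · exact h2

private theorem exists_real (hc : ∀ x, c (c x) = x) (h : ∃ x, c x ≠ x) (n : ℕ) :
    ∃ r : Ω, c r = r ∧ r ^ 2 = (n : Ω) := by
  induction n with
  | zero => exact ⟨0, map_zero c, by simp⟩
  | succ n ih =>
    obtain ⟨r, hr, hr2⟩ := ih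
    obtain ⟨i, hi⟩ := IsAlgClosed.exists_pow_nat_eq (-1 : Ω) (n := 2) (by norm_num)
    obtain ⟨w, hw⟩ := IsAlgClosed.exists_pow_nat_eq (r + i) (n := 2) (by norm_num)
    refine ⟨w * c w, ?_, ?_⟩
    · rw [map_mul, hc, mul_comm]
    · have h1 : (c w) ^ 2 = r - i := by
        rw [← map_pow, hw, map_add, hr, conj_i hc h hi]; ring
      rw [mul_pow, hw, h1]
      push_cast
      linear_combination hr2 - hi

theorem conj_real (hc : ∀ x, c (c x) = x) (h : ∃ x, c x ≠ x) (n : ℕ) {x : Ω}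
    (hx : x ^ 2 = (n : Ω)) : c x = x := by
  obtain ⟨r, hr, hr2⟩ := exists_real hc h n
  rcases sq_eq_sq_iff_eq_or_eq_neg.1 (hx.trans hr2.symm) with rfl | rfl
  · exact hr
  · rw [map_neg, hr]

theorem conj_imag (hc : ∀ x, c (c x) = x) (h : ∃ x, c x ≠ x) (n : ℕ) {x : Ω}
    (hx : x ^ 2 = -(n : Ω)) : c x = -x := by
  obtain ⟨r, hr, hr2⟩ := exists_real hc h n
  obtain ⟨i, hi⟩ := IsAlgClosed.exists_pow_nat_eq (-1 : Ω) (n := 2) (by norm_num)
  have h1 : x ^ 2 = (i * r) ^ 2 := by rw [hx, mul_pow, hi, hr2]; ring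
  rcases sq_eq_sq_iff_eq_or_eq_neg.1 h1 with rfl | rfl
  · rw [map_mul, hr, conj_i hc h hi]; ring
  · rw [map_neg, map_mul, hr, conj_i hc h hi]; ring

theorem cyQ_conj (hc : ∀ x, c (c x) = x) (h : ∃ x, c x ≠ x) : cyQ c = -1 := by
  have h1 : c * c = 1 := by
    ext x
    exact hc x
  have h2 : cyclotomicCharacter Ω 2 c * cyclotomicCharacter Ω 2 c = 1 := by
    rw [← map_mul, h1, map_one]
  have h3 : cyQ c * cyQ c = 1 := by
    have := congrArg (Units.val) h2
    simpa [cyQ] using this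
  rcases mul_self_eq_one_iff.1 h3 with h4 | h4
  · exfalso
    obtain ⟨i, hi⟩ := IsAlgClosed.exists_pow_nat_eq (-1 : Ω) (n := 2) (by norm_num)
    have h5 := cyclotomicCharacter.spec 2 (n := 2) c i (by
      rw [show (2 : ℕ) ^ 2 = 2 * 2 from rfl, pow_mul, hi]; norm_num)
    have h6 : (cyclotomicCharacter Ω 2 c).val = 1 := h4
    rw [h6, map_one, conj_i hc h hi] at h5
    have h7 : ((1 : ZMod (2 ^ 2))).val = 1 := by decide
    rw [h7, pow_one] at h5
    have h8 : i = 0 := self_eq_neg.1 h5.symm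
    rw [h8] at hi
    norm_num at hi
  · exact h4

end Pool.Agent.Work.MP_787500_nt.HP
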