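import Mathlib
import Pool.Agent.Work.MP_787500_nt.HP.Rec0
import Pool.Agent.Work.MP_787500_nt.GP.E4_KapT
import Pool.Agent.Work.MP_787500_nt.GP.E5_KapCoc
import Pool.Agent.Work.MP_787500_nt.GP.E6_YZero
import Pool.Agent.Work.MP_787500_nt.GP.E7_Alt

/-!
The local invariants over `ℚ (√-q)` with the alternation property for all pairs `(θ, φ)` (the proof is that of `exists_parH`,
`GP/A1_ParH.lean`).
-/

set_option autoImplicit false
set_option linter.unusedSectionVars false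

namespace Pool.Agent.Work.MP_787500_nt.HP

open IsDedekindDomain NumberField
open Pool.Agent.Work.MP_787500_nt.PA (TwoSys Sm1 Sm2 homs Coc Cob IsChar goodSys core cyc Opn SU)
open Pool.Agent.Work.MP_787500_nt.Gn (GoodG)
open Pool.Agent.Work.MP_787500_nt.GP

universe u

variable {K : Type u} [Field K] [NumberField K]

theorem exists_alt0 {q : ℕ} {s : K} (hK : IsBase K q s) {v : HeightOneSpectrum (𝓞 K)}
    (hv : (2 : 𝓞 K) ∈ v.asIdeal)
    (ι : AlgebraicClosure K →ₐ[K] AlgebraicClosure (v.adicCompletion K)) {T : Finset ℕ}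
    (hT : ∀ l ∈ T, SplitPr q l) {c : AlgebraicClosure K ≃+* AlgebraicClosure K}
    (hc : PA.IsConj s c) {κ : AbsGal K →* AbsGal K}
    (hκ : ∀ (σ : AbsGal K) (x : AlgebraicClosure K), κ σ x = c (σ (c x)))
    {P : ℕ → Ideal (𝓞 (AlgebraicClosure K))}
    (hP : ∀ l ∈ T, (P l).IsPrime ∧ (l : 𝓞 (AlgebraicClosure K)) ∈ P l)
    {a : AbsGal K → ZMod 2} (ha : ∀ g, a g = 0 ↔ (4 : ℤ_[2]) ∣ cyc g - 1) :
    ∃ inv : ∀ w : Option T, (DD ι P w → DD ι P w → A0) → A0,
      (∀ w, LocH (sysD K T (DD ι P w)) (fun d => cyc (d : AbsGal K)) (inv w)) ∧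
      Module.finrank (ZMod 2) (homs (sysD K T (DD ι P (T := T) none)) ⊤) = 3 ∧
      (∀ l : T, ∃ (r : ℕ → AlgebraicClosure K) (b : AbsGal K → ℤ_[2]) (u : ℤ_[2])
        (σ τ : stabD (P l)), IsKum r b ∧ r 0 = ((l : ℕ) : AlgebraicClosure K) ∧ IsUnit u ∧
        (τ : AbsGal K) ∈ (P l).inertia (AbsGal K) ∧
        TameD (sysD K T (stabD (P l))) (fun d => cyc (d : AbsGal K))
          (fun d => b (d : AbsGal K)) σ τ l ∧
        ∀ f : stabD (P l) → stabD (P l) → A0, inv (some l) f = u • iota σ τ l f) ∧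
      inv none (fun d b => hf (a (d : AbsGal K) * a (b : AbsGal K))) = half ∧
      ∀ θ φ : AbsGal K, cyc θ = -1 → cyc φ = (q : ℤ_[2]) → (∀ W, GoodT K T W → θ * κ θ ∈ W) →
        (∀ W, GoodT K T W → (θ * κ φ)⁻¹ * (φ * θ) ∈ W) →
        ∀ (z : AbsGal K → AbsGal K → A0) (u : AbsGal K → A0), Z2 (sysT K T) (tw cyc) z →
        (∀ g, z g 1 = 0) → (∀ g, z 1 g = 0) → Sm1 (sysT K T) u →
        (∀ a b, z (κ a) (κ b) + z a b = -d1 (tw cyc) u a b) → (∀ g, u (κ g) = u g) →
        u θ = z θ (κ θ) → u φ + z φ θ = z θ (κ φ) →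
        ∑ w, inv w (fun a b => z (a : AbsGal K) (b : AbsGal K)) = 0 := by
  classical
  obtain ⟨inv, N, e, H, h3, h2, hi⟩ := exists_rec0 hK hv ι hT hc hκ hP
  have h2P : ∀ l ∈ T, (2 : 𝓞 (AlgebraicClosure K)) ∉ P l := by
    intro l hl h4
    have h3 := hT l hl
    obtain ⟨k, hk⟩ := h3.1.odd_of_ne_two h3.2.1
    apply (hP l hl).1.ne_top
    rw [Ideal.eq_top_iff_one]
    have h5 : (1 : 𝓞 (AlgebraicClosure K)) = (l : 𝓞 (AlgebraicClosure K)) - 2 * k := by
      rw [hk]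
      push_cast
      ring
    rw [h5]
    exact (P l).sub_mem (hP l hl).2 ((P l).mul_mem_right _ h4)
  have haa : inv none (fun d b => hf (a (d : AbsGal K) * a (b : AbsGal K))) = half :=
    inv_aa hK hv ι (H.loc none) ha
  obtain ⟨k, hk⟩ : ∃ k : ℕ, q = 16 * k + 7 := ⟨q / 16, by
    have := hK.2.2.2
    omega⟩
  refine ⟨inv, H.loc, h3, hi, haa, ?_⟩
  intro θ φ hθ hφ tk fk
  have haθ : a θ = 1 := by
    have h4 : ¬ (4 : ℤ_[2]) ∣ cyc θ - 1 := by
      rw [hθ]
      rintro ⟨x, hx⟩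
      have h5 : (2 : ℤ_[2]) * (2 * x + 1) = 0 := by linear_combination -hx
      have h6 : (2 : ℤ_[2]) * x + 1 = 0 := (mul_eq_zero.1 h5).resolve_left two_ne_zero
      have h7 := congrArg (PadicInt.toZMod (p := 2)) h6
      rw [map_add, map_mul, map_ofNat, map_one, map_zero] at h7
      have h8 : (2 : ZMod 2) = 0 := by decide
      rw [h8, zero_mul, zero_add] at h7
      exact one_ne_zero h7
    have h5 : a θ ≠ 0 := fun h => h4 ((ha θ).1 h)
    revert h5
    generalize a θ = x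
    revert x
    decide
  refine H.alt (m := -8 * k - 3) (q := q) ?_ ?_ hθ hφ tk fk (homs_mono (a_mem ha)) ?_ haθ
    haa ?_ ?_
  · rw [hk]
    push_cast
    ring
  · exact ⟨-4 * k - 2, by ring⟩
  · intro g
    have h1 : a (κ g) = 0 ↔ a g = 0 := by rw [ha, ha, H.kchi]
    revert h1
    generalize a (κ g) = x
    generalize a g = y
    revert x y
    decide
  · intro l
    obtain ⟨r, b, u, σ, τ, -, -, -, hτ, -, he⟩ := hi l
    refine (he _).trans ?_
    have hτi : ∀ i : ℕ, a ((τ ^ i : stabD (P l)) : AbsGal K) = 0 := by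
      intro i
      rw [ha, Subgroup.coe_pow, cyc_inertia (hP l l.2).1 (h2P l l.2) (pow_mem hτ i), sub_self]
      exact dvd_zero _
    have h4 : iota σ τ l (fun d b : stabD (P l) => a (d : AbsGal K) * a (b : AbsGal K)) = 0 := by
      have h5 := hτi 1
      rw [pow_one] at h5
      simp only [iota, h5, hτi, mul_zero, zero_mul, Finset.sum_const_zero, sub_zero]
    show u • iota σ τ l (fun d b : stabD (P l) => hf (a (d : AbsGal K) * a (b : AbsGal K))) = 0
    rw [iota_hf, h4, hf_zero, smul_zero]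
  · exact fun w hw hwk => kap_coc H.char H.kk H.ksys H.kchi ha
      (fun ψ hψ hψk => kap_T hK hT hc hκ hP ha hψ hψk) hw hwk

end Pool.Agent.Work.MP_787500_nt.HP
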