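import Mathlib
import Pool.Agent.Work.MP_787500_nt.GP.L20b_Loc
import Pool.Agent.Work.MP_787500_nt.GP.H2_Transfer
import Pool.Agent.Work.MP_787500_nt.GP.ADefs
import Pool.Agent.Work.MP_787500_nt.PA.ResKer
import Pool.Agent.Work.MP_787500_nt.PA.Chain
import Pool.Agent.Work.MP_787500_nt.GP.GDefs

/-!
# Module COF (size M): the members of the system are cofinal in the local group

`LocS` is in `GP/L20b_Loc.lean`; `core = Gn.core 2 ⊤ I`.
* `cof_core`: every `g ∈ D ⊓ core` lies in `W'` (a member of `subSys D`). As `S3_VLoc_le` in `GP/S3_VLoc.lean`: if not, let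
  `C = D ⊓ core` (or work in `subSys (D ⊓ core)`), `W'' = {x : C | x ∈ W'}`, a member of `subSys C` (`U` open with
  `U.subgroupOf D ≤ W'`), different from `⊤`; `PA.exists_index_two` gives a nonzero `ω ∈ homs (subSys C) ⊤` that vanishes on `W''`;
  extended by 0 to `G` it contradicts `LocS.nohom`.
* `LocS.cof`: `LocS.stab` for `U'` open with `U'.subgroupOf D ≤ W'` gives `W`: for `d ∈ D ⊓ W` there is `d₀ ∈ D ⊓ core` with
  `d₀⁻¹ d ∈ U'`, so `d = d₀ (d₀⁻¹ d) ∈ W'`.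
* `loc_sub`: `locH_transfer` (`GP/H2_Transfer.lean`) with `φ = id : D →* D`, `S := SD`, `SD := subSys D`: `h₁` because a member
  `W.subgroupOf D` of `SD` is a member of `subSys D` (`Gn.GoodG.isOpen`, normal, index by `goodG_index`, see `sysD`), `h₂` is `LocS.cof`, `h₃` is trivial.
* `tame_sub`: only the field `sep` (by `LocS.cof` and the old `sep`) and the two `IsChar`, `C1` (members of `SD` are members of `subSys D`) change.
-/

set_option autoImplicit false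
set_option linter.unusedSectionVars false

namespace Pool.Agent.Work.MP_787500_nt.HP

open Pool.Agent.Work.MP_787500_nt.PA (TwoSys Sm1 Sm2 homs Coc Cob IsChar cyc Opn)
open Pool.Agent.Work.MP_787500_nt.Gn (GoodG)
open Pool.Agent.Work.MP_787500_nt.GP

variable {G : Type*} [Group G] [TopologicalSpace G] [IsTopologicalGroup G] [CompactSpace G]
  {I : Set G} {D : Subgroup G} {SD : TwoSys D}

theorem cof_core (hS : LocS I D SD) {W' : Subgroup D} (hW' : (subSys D).mem W') (g : D)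
    (hg : (g : G) ∈ Gn.core 2 ⊤ I) : g ∈ W' := by
  classical
  by_contra hgW
  set C : Subgroup G := D ⊓ Gn.core 2 ⊤ I with hC
  have hCD : C ≤ D := inf_le_left
  set W'' : Subgroup C := W'.comap (Subgroup.inclusion hCD) with hW''
  have hn : W'.Normal := (subSys D).normal hW'
  obtain ⟨k, hk⟩ := (subSys D).index hW'
  obtain ⟨⟨U, hU, hUW⟩, -, -⟩ := hW'
  have hmem : (subSys C).mem W'' := by
    refine ⟨⟨U, hU, fun x hx => ?_⟩, inferInstance, ?_⟩
    · exact hUW (Subgroup.mem_subgroupOf.2 (Subgroup.mem_subgroupOf.1 hx))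
    · have h1 : W''.index ∣ 2 ^ k := by
        rw [hW'', Subgroup.index_comap, ← hk]
        exact Subgroup.relIndex_dvd_index_of_normal W' _
      obtain ⟨m, -, hm⟩ := (Nat.dvd_prime_pow Nat.prime_two).1 h1
      exact ⟨m, hm⟩
  have hgC : (g : G) ∈ C := ⟨g.2, hg⟩
  obtain ⟨ω, hω, hω0, hωW⟩ := PA.exists_index_two (S := subSys C)
    (H := W'') ⟨_, hmem, le_rfl⟩ (by
      intro h
      have h1 : (⟨g, hgC⟩ : C) ∈ W'' := by
        rw [h]
        exact Subgroup.mem_top _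
      exact hgW h1)
  obtain ⟨μ, hμ⟩ : ∃ μ : G → ZMod 2, ∀ (g : G) (hg : g ∈ C), μ g = ω ⟨g, hg⟩ :=
    ⟨fun g => if hg : g ∈ C then ω ⟨g, hg⟩ else 0, fun g hg => dif_pos hg⟩
  apply hω0
  funext ⟨x, hx⟩
  rw [← hμ x hx]
  refine hS.nohom μ ?_ ⟨U, hU, ?_⟩ x hx
  · intro a ha b hb
    rw [hμ _ (Subgroup.mul_mem _ ha hb), hμ a ha, hμ b hb]
    exact hω.2.2 ⟨a, ha⟩ trivial ⟨b, hb⟩ trivial
  · intro a ha
    rw [hμ a ha.1]
    exact hωW ⟨a, ha.1⟩ (hUW (Subgroup.mem_subgroupOf.2 ha.2))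

theorem cof (hS : LocS I D SD) {W' : Subgroup D} (hW' : (subSys D).mem W') :
    ∃ W, GoodG 2 ⊤ I W ∧ W.subgroupOf D ≤ W' := by
  obtain ⟨U, hU, hUW⟩ := hW'.1
  obtain ⟨W, hW, h⟩ := hS.stab hU
  refine ⟨W, hW, fun d hd => ?_⟩
  obtain ⟨d₀, hd₀, h1⟩ := h d ⟨d.2, Subgroup.mem_subgroupOf.1 hd⟩
  have h2 : (⟨d₀, hd₀.1⟩ : D) ∈ W' := cof_core hS hW' ⟨d₀, hd₀.1⟩ hd₀.2
  have h3 : (⟨d₀, hd₀.1⟩ : D)⁻¹ * d ∈ W' := hUW (Subgroup.mem_subgroupOf.2 h1)
  have h4 := W'.mul_mem h2 h3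
  rwa [mul_inv_cancel_left] at h4

theorem mem_subSys (hS : LocS I D SD) {W : Subgroup D} (hW : SD.mem W) : (subSys D).mem W := by
  obtain ⟨W0, hW0, rfl⟩ := (hS.mem W).1 hW
  have hn : W0.Normal := hW0.normal
  obtain ⟨k, hk⟩ := goodG_index hW0
  refine ⟨⟨W0, hW0.isOpen, le_rfl⟩, inferInstance, ?_⟩
  obtain ⟨m, -, hm⟩ := (Nat.dvd_prime_pow Nat.prime_two).1
    (hk ▸ Subgroup.relIndex_dvd_index_of_normal W0 D)
  exact ⟨m, hm⟩

private theorem cof' (hS : LocS I D SD) {W' : Subgroup D} (hW' : (subSys D).mem W') :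
    ∃ W, SD.mem W ∧ W ≤ W' := by
  obtain ⟨W, hW, h⟩ := cof hS hW'
  exact ⟨_, (hS.mem _).2 ⟨W, hW, rfl⟩, h⟩

theorem loc_sub (hS : LocS I D SD) {χ : D → ℤ_[2]} {inv : (D → D → A0) → A0}
    (H : LocH SD χ inv) : ∃ inv' : (D → D → A0) → A0, LocH (subSys D) χ inv' ∧
      (∀ f : D → D → A0, Sm2 SD f → inv' f = inv f) ∧
      Module.finrank (ZMod 2) (homs (subSys D) ⊤) = Module.finrank (ZMod 2) (homs SD ⊤) := by
  obtain ⟨inv', h1, h2, -, h4⟩ := locH_transfer (S := SD) (SD := subSys D) (MonoidHom.id D)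
    (fun W hW => ⟨W, mem_subSys hS hW, fun w hw => hw⟩)
    (fun W' hW' => by
      obtain ⟨W, hW, h⟩ := cof' hS hW'
      exact ⟨W, hW, fun d hd => h hd⟩)
    (fun W _ g => ⟨g, by
      rw [MonoidHom.id_apply, inv_mul_cancel]
      exact W.one_mem⟩) H
  exact ⟨inv', h1, fun f hf => h2 f hf, h4⟩

private theorem c1_sub (hS : LocS I D SD) {z : D → ℤ_[2]} (h : PA.C1 SD z) :
    PA.C1 (subSys D) z := by
  intro n
  obtain ⟨W, hW, h1⟩ := h n
  exact ⟨W, mem_subSys hS hW, h1⟩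

theorem tame_sub (hS : LocS I D SD) {χ a : D → ℤ_[2]} {σ τ : D} {l : ℕ}
    (H : TameD SD χ a σ τ l) : TameD (subSys D) χ a σ τ l where
  char := ⟨H.char.one, H.char.mul, c1_sub hS H.char.cont, H.char.odd⟩
  c1 := c1_sub hS H.c1
  coc := H.coc
  odd := H.odd
  lt := H.lt
  σχ := H.σχ
  σa := H.σa
  τχ := H.τχ
  τa := H.τa
  dens := H.dens
  sep := by
    intro W' hW'
    obtain ⟨W, hW, h⟩ := cof' hS hW'
    obtain ⟨n, hn⟩ := H.sep W hW
    exact ⟨n, fun g h1 h2 => h (hn g h1 h2)⟩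

end Pool.Agent.Work.MP_787500_nt.HP
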