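import Mathlib
import Pool.Agent.Work.MP_787500_nt.HP.Alt0
import Pool.Agent.Work.MP_787500_nt.HP.Cof
import Pool.Agent.Work.MP_787500_nt.HP.DecB
import Pool.Agent.Work.MP_787500_nt.HP.Iso
import Pool.Agent.Work.MP_787500_nt.HP.EmbGood
import Pool.Agent.Work.MP_787500_nt.GP.S3_VLoc
import Pool.Agent.Work.MP_787500_nt.GP.LT2_Sep

/-!
# Module QLOC (size L): the local invariants, transported from `ℚ (√-q)` to `Ω`

`P₀ l = pb α (P l)`, `c₀ = α⁻¹ c α` (`(α.trans c).trans α.symm`): `PA.IsConj s c₀` by `hcs`. `hκ` gives `κ σ x = c₀ (σ (c₀ x))`. `IsQ K q s` is clear from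
`hK`, and `SplitPr q l` gives `Spl q l` (the same, `l ≠ q` iff `¬ l ∣ q`). `exists_dec` for `P₀ 2` gives `v`, `ι` with `decomp ι = stabD (P₀ 2)`.
`exists_alt0` with `a g = eps (emb α g)` (`cyQ_emb`) gives `inv₀` for `D₀ w = DD ι P₀ w` (`D₀ none = decomp ι`, `D₀ (some l) = stabD (P₀ l)`).
(1) For every `w : Option T` there is `e w : stb (PP P w) ≃* D₀ w` with `emb α (e w g) = g`: `stb_equiv` (for `none` followed by
`MulEquiv.subgroupCongr` of `decomp ι = stabD (P₀ 2)`).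
(2) `LocS (inT K T) (D₀ w) (sysD K T (D₀ w))` (`GP/L20b_Loc.lean`): `baseT K T`; basis, closed, nohom as in the proof of `main` in `GP/A2_Main.lean`
(`PA.decomp_closed`, `stabD_closed`, `v_nohom`, `tame_nohom`).
(3) `w = none`: `loc_sub` gives `inv₁`, then `locH_iso` with `e none` and `fsys_iso` gives
`inv none = fun F => inv₁ (fun a b => F ((e none).symm a) ((e none).symm b))`; dimension 3 by `homs_iso`, `loc_sub`.
(4) `w = some l`: from `exists_alt0`: `r`, `b`, `u`, `σ`, `τ`. `tame_sub`, `tameD_iso` give `TameD (fsys (stb (P l))) _ (b ∘ e) (e.symm σ) (e.symm τ) l`.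
`inv (some l) F = u • iota (e.symm σ) (e.symm τ) l F`; `LocH` by `tame_locH`. `e.symm τ ∈ inr (P l)` by `emb_inr`. `x ^ 2 = l` in `Ω`: `r 1 ^ 2 = r 0 = l`, so
`x = ± α (r 1)`, and `τ (r 1) = zp K 1 (b τ) * r 1 = -r 1` (`TameD.τa : b τ = 1`, `zt_one`).
(5) The last property: with `z a b = F (emb α a) (emb α b)` (`z2_comap`), `exists_alt0` gives `∑ w, inv₀ w (z|) = 0`, and
`inv w (F|) = inv₀ w (z|)`: `w = none`: `F ((e none).symm a) ((e none).symm b) = z a b`, and `inv₁ = inv₀` on functions that are smooth for `sysD`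
(`z` is). `w = some l`: both are `u • iota`, `iota (e.symm σ) (e.symm τ) l (F|) = iota σ τ l (z|)` (unfold `iota`, `map_pow`).
-/

set_option autoImplicit false
set_option linter.unusedSectionVars false

namespace Pool.Agent.Work.MP_787500_nt.HP

open IsDedekindDomain NumberField
open Pool.Agent.Work.MP_787500_nt.PA (TwoSys Sm1 Sm2 homs Coc Cob IsChar cyc Opn)
open Pool.Agent.Work.MP_787500_nt.GP

universe u

variable {Ω : Type u} [Field Ω] [CharZero Ω] [IsAlgClosed Ω] {K : Type u} [Field K] [NumberField K]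
  (α : AlgebraicClosure K ≃+* Ω)

theorem exists_qloc {q : ℕ} {s : K} (hK : IsBase K q s) {c : Ω ≃+* Ω} (hc : ∀ x, c (c x) = x)
    (hcs : c (α (algebraMap K (AlgebraicClosure K) s)) = -α (algebraMap K (AlgebraicClosure K) s))
    {κ : AbsGal K →* AbsGal K} (hκ : ∀ σ, emb α (κ σ) = c * emb α σ * c) {T : Finset ℕ}
    (hT : ∀ l ∈ T, SplitPr q l) {P : ℕ → Ideal (𝓞 Ω)} (hP : IsP T P) :
    ∃ inv : ∀ w : Option T, (stb (PP P w) → stb (PP P w) → A0) → A0,
      (∀ w, LocH (fsys (stb (PP P w))) (fun d => cyQ (d : Ω ≃+* Ω)) (inv w)) ∧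
      Module.finrank (ZMod 2) (homs (fsys (stb (PP P (none : Option T)))) ⊤) = 3 ∧
      (∀ l : T, ∃ (a : stb (P l) → ℤ_[2]) (u : ℤ_[2]) (σ τ : stb (P l)), IsUnit u ∧
        (τ : Ω ≃+* Ω) ∈ inr (P l) ∧ (∀ x : Ω, x ^ 2 = ((l : ℕ) : Ω) → (τ : Ω ≃+* Ω) x = -x) ∧
        TameD (fsys (stb (P l))) (fun d => cyQ (d : Ω ≃+* Ω)) a σ τ l ∧
        ∀ f, inv (some l) f = u • iota σ τ l f) ∧
      ∀ θ φ : AbsGal K, cyc θ = -1 → cyc φ = (q : ℤ_[2]) → (∀ W, GoodT K T W → θ * κ θ ∈ W) →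
        (∀ W, GoodT K T W → (θ * κ φ)⁻¹ * (φ * θ) ∈ W) →
        ∀ (F : (Ω ≃+* Ω) → (Ω ≃+* Ω) → A0) (u : AbsGal K → A0), Z2 (qsys Ω T) (tw cyQ) F →
        (∀ g, F g 1 = 0) → (∀ g, F 1 g = 0) → Sm1 (sysT K T) u →
        (∀ a b, F (emb α (κ a)) (emb α (κ b)) + F (emb α a) (emb α b) = -d1 (tw cyc) u a b) →
        (∀ g, u (κ g) = u g) → u θ = F (emb α θ) (emb α (κ θ)) →
        u φ + F (emb α φ) (emb α θ) = F (emb α θ) (emb α (κ φ)) →
        ∑ w, inv w (fun a b => F a b) = 0 := by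
  classical
  -- the conjugation and the primes of the closure of `K`
  obtain ⟨c₀, hc₀⟩ : ∃ c₀ : AlgebraicClosure K ≃+* AlgebraicClosure K,
      ∀ x, c₀ x = α.symm (c (α x)) := ⟨(α.trans c).trans α.symm, fun x => rfl⟩
  have hconj : PA.IsConj s c₀ := ⟨fun x => by
    rw [hc₀, hc₀, α.apply_symm_apply, hc, α.symm_apply_apply], by
    rw [hc₀, hcs, map_neg, α.symm_apply_apply]⟩
  have hκ₀ : ∀ (σ : AbsGal K) (x : AlgebraicClosure K), κ σ x = c₀ (σ (c₀ x)) := by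
    intro σ x
    have h := DFunLike.congr_fun (hκ σ) (α x)
    rw [emb_apply, α.symm_apply_apply] at h
    apply α.injective
    rw [h, hc₀, hc₀, α.apply_symm_apply]
    rfl
  obtain ⟨P₀, hP₀d⟩ : ∃ P₀ : ℕ → Ideal (𝓞 (AlgebraicClosure K)), P₀ = fun l => pb α (P l) :=
    ⟨_, rfl⟩
  have hP₀ : ∀ l ∈ T, (P₀ l).IsPrime ∧ (l : 𝓞 (AlgebraicClosure K)) ∈ P₀ l := by
    intro l hl
    rw [hP₀d]
    exact ⟨pb_prime α (hP.isPrime l (Or.inl hl)), (pb_nat α l).2 (hP.mem l (Or.inl hl))⟩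
  have h2P : (P 2).IsPrime := hP.isPrime 2 (Or.inr rfl)
  have h2m : ((2 : ℕ) : 𝓞 Ω) ∈ P 2 := hP.mem 2 (Or.inr rfl)
  obtain ⟨v, ι, hv, hdec⟩ := exists_dec (pb_prime α h2P) Nat.prime_two ((pb_nat α 2).2 h2m)
  have hv' : (2 : 𝓞 K) ∈ v.asIdeal := by exact_mod_cast hv
  have ha : ∀ g : AbsGal K, eps (emb α g) = 0 ↔ (4 : ℤ_[2]) ∣ cyc g - 1 := by
    intro g
    unfold eps
    rw [cyQ_emb]
    split_ifs with h
    · simp [h]
    · simp [h]
  obtain ⟨inv₀, hloc₀, h3₀, htame₀, -, halt₀⟩ :=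
    exists_alt0 hK hv' ι hT hconj hκ₀ hP₀ (a := fun g => eps (emb α g)) ha
  have hKQ : IsQ K q s := ⟨hK.1, hK.2.1, hK.2.2.1.prime.squarefree, by
    have := hK.2.2.2
    omega⟩
  have hSpl : ∀ l ∈ T, Spl q l := by
    intro l hl
    obtain ⟨h1, h2, h3, h4⟩ := hT l hl
    exact ⟨h1, h2, fun h => h3 ((Nat.prime_dvd_prime_iff_eq h1 hK.2.2.1).1 h), h4⟩
  have hdec' : stabD (pb α (P 2)) = decomp ι := hdec.symm
  obtain ⟨e2, he2⟩ : ∃ e : stb (P 2) ≃* decomp ι,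
      ∀ g, emb α (e g : AbsGal K) = (g : Ω ≃+* Ω) := by
    obtain ⟨e, he⟩ := stb_equiv α hKQ (Or.inl rfl) h2P h2m
    exact ⟨e.trans (MulEquiv.subgroupCongr hdec'), fun g => he g⟩
  have hel : ∀ l : T, ∃ e : stb (P l) ≃* stabD (P₀ l),
      ∀ g, emb α (e g : AbsGal K) = (g : Ω ≃+* Ω) := by
    intro l
    rw [hP₀d]
    exact stb_equiv α hKQ (Or.inr (hSpl l l.2)) (hP.isPrime l (Or.inl l.2))
      (hP.mem l (Or.inl l.2))
  -- the local systems
  have hbasis : ∀ O ∈ nhds (1 : AbsGal K), ∃ U : Subgroup (AbsGal K),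
      IsOpen (U : Set (AbsGal K)) ∧ (U : Set (AbsGal K)) ⊆ O := by
    intro O hO
    obtain ⟨V, hV, hVO⟩ := (krullTopology_mem_nhds_one_iff K (AlgebraicClosure K) O).1 hO
    exact ⟨V.fixingSubgroup, V.fixingSubgroup_isOpen, hVO⟩
  have hS2 : LocS (inT K T) (decomp ι) (sysD K T (decomp ι)) :=
    ⟨baseT K T, hbasis, PA.decomp_closed ι, fun W' => Iff.rfl,
      fun μ h1 h2 g hg => v_nohom hK hv' ι μ h1 h2 hg⟩
  have hSl : ∀ l : T, LocS (inT K T) (stabD (P₀ l)) (sysD K T (stabD (P₀ l))) := by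
    intro l
    refine ⟨baseT K T, hbasis, stabD_closed (P₀ l), fun W' => Iff.rfl,
      fun μ h1 h2 g hg => ?_⟩
    have hl := hT l l.2
    obtain ⟨hPp, hlP⟩ := hP₀ l l.2
    have h3 : (2 : 𝓞 (AlgebraicClosure K)) ∉ P₀ l := by
      intro h4
      obtain ⟨k, hk⟩ := hl.1.odd_of_ne_two hl.2.1
      apply hPp.ne_top
      rw [Ideal.eq_top_iff_one]
      have h5 : (1 : 𝓞 (AlgebraicClosure K)) = (l : 𝓞 (AlgebraicClosure K)) - 2 * k := by
        rw [hk]
        push_cast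
        ring
      rw [h5]
      exact (P₀ l).sub_mem hlP ((P₀ l).mul_mem_right _ h4)
    exact tame_nohom hPp hl.1 hlP h3 l.2 μ h1 h2 hg
  -- the place above 2
  have key0 : ∃ inv : (stb (P 2) → stb (P 2) → A0) → A0,
      LocH (fsys (stb (P 2))) (fun d => cyQ (d : Ω ≃+* Ω)) inv ∧
      Module.finrank (ZMod 2) (homs (fsys (stb (P 2))) ⊤) = 3 ∧
      ∀ F : (Ω ≃+* Ω) → (Ω ≃+* Ω) → A0, Sm2 (qsys Ω T) F →
        inv (fun a b => F a b) = inv₀ none (fun a b => F (emb α a) (emb α b)) := by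
    obtain ⟨inv₁, hloc₁, heq₁, hfin₁⟩ := loc_sub hS2 (hloc₀ none)
    have hiso := fsys_iso α e2 he2
    have hχ : (fun d => cyc ((e2 d : decomp ι) : AbsGal K)) =
        fun d : stb (P 2) => cyQ (d : Ω ≃+* Ω) := by
      funext d
      rw [← he2 d, cyQ_emb]
    refine ⟨fun F => inv₁ (fun a b => F (e2.symm a) (e2.symm b)), ?_, ?_, ?_⟩
    · have h := locH_iso e2 hiso hloc₁
      rw [hχ] at h
      exact h
    · rw [homs_iso e2 hiso, hfin₁]
      exact h3₀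
    · intro F hF
      have h1 : (fun a b : decomp ι => F (e2.symm a : Ω ≃+* Ω) (e2.symm b : Ω ≃+* Ω)) =
          fun a b : decomp ι => F (emb α a) (emb α b) := by
        funext a b
        rw [← he2, ← he2, e2.apply_symm_apply, e2.apply_symm_apply]
      show inv₁ (fun a b : decomp ι => F (e2.symm a : Ω ≃+* Ω) (e2.symm b : Ω ≃+* Ω)) = _
      rw [h1]
      apply heq₁
      obtain ⟨W, hW, hW2⟩ := hF
      refine ⟨_, ⟨_, good_comap α hW, rfl⟩, fun g h w hw w' hw' => ?_⟩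
      show F (emb α (g * w : AbsGal K)) (emb α (h * w' : AbsGal K)) = F (emb α g) (emb α h)
      rw [map_mul, map_mul]
      exact hW2 _ _ _ hw _ hw'
  -- the places in `T`
  have keyl : ∀ l : T, ∃ inv : (stb (P l) → stb (P l) → A0) → A0,
      (∃ (a : stb (P l) → ℤ_[2]) (u : ℤ_[2]) (σ τ : stb (P l)), IsUnit u ∧
        (τ : Ω ≃+* Ω) ∈ inr (P l) ∧ (∀ x : Ω, x ^ 2 = ((l : ℕ) : Ω) → (τ : Ω ≃+* Ω) x = -x) ∧
        TameD (fsys (stb (P l))) (fun d => cyQ (d : Ω ≃+* Ω)) a σ τ l ∧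
        ∀ f, inv f = u • iota σ τ l f) ∧
      LocH (fsys (stb (P l))) (fun d => cyQ (d : Ω ≃+* Ω)) inv ∧
      ∀ F : (Ω ≃+* Ω) → (Ω ≃+* Ω) → A0,
        inv (fun a b => F a b) = inv₀ (some l) (fun a b => F (emb α a) (emb α b)) := by
    intro l
    obtain ⟨e, he⟩ := hel l
    obtain ⟨r, b, u, σ, τ, hr, hr0, hu, hτ, htd, hinv⟩ := htame₀ l
    have hiso := fsys_iso α e he
    have hχ : (fun d => cyc ((e d : stabD (P₀ l)) : AbsGal K)) =
        fun d : stb (P l) => cyQ (d : Ω ≃+* Ω) := by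
      funext d
      rw [← he d, cyQ_emb]
    have htd' := tameD_iso e hiso (tame_sub (hSl l) htd)
    rw [hχ] at htd'
    have hτe : ((e.symm τ : stb (P l)) : Ω ≃+* Ω) = emb α (τ : AbsGal K) := by
      rw [← he, e.apply_symm_apply]
    have hσe : ((e.symm σ : stb (P l)) : Ω ≃+* Ω) = emb α (σ : AbsGal K) := by
      rw [← he, e.apply_symm_apply]
    refine ⟨fun F => u • iota (e.symm σ) (e.symm τ) l F,
      ⟨fun d => b (e d), u, e.symm σ, e.symm τ, hu, ?_, ?_, htd', fun f => rfl⟩,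
      tame_locH htd' hu, ?_⟩
    · have h9 : P₀ l = pb α (P l) := by rw [hP₀d]
      rw [hτe, emb_inr, ← h9]
      exact hτ
    · intro x hx
      rw [hτe, emb_apply]
      have hy : (α.symm x) ^ 2 = (r 1) ^ 2 := by
        rw [hr.sq 0, hr0, ← map_pow, hx, map_natCast]
      have hz : zp K 1 1 = -1 := by
        unfold zp
        rw [zt_one, map_one]
        have h1 : (1 : ZMod (2 ^ 1)).val = 1 := rfl
        rw [h1, pow_one]
      have h1 : (τ : AbsGal K) (r 1) = -r 1 := by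
        rw [hr.act]
        have h2 : b (τ : AbsGal K) = 1 := htd.τa
        rw [h2, hz, neg_one_mul]
      rcases sq_eq_sq_iff_eq_or_eq_neg.1 hy with h | h
      · rw [h, h1, map_neg, ← h, α.apply_symm_apply]
      · rw [h, map_neg, h1, neg_neg]
        have h3 : r 1 = -(α.symm x) := by rw [h, neg_neg]
        rw [h3, map_neg, α.apply_symm_apply]
    · intro F
      refine Eq.trans ?_ (hinv _).symm
      show u • iota (e.symm σ) (e.symm τ) l (fun a b : stb (P l) => F (a : Ω ≃+* Ω) (b : Ω ≃+* Ω)) =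
        u • iota σ τ l (fun a b : stabD (P₀ l) => F (emb α a) (emb α b))
      congr 1
      unfold iota
      simp only [Subgroup.coe_pow, hτe, hσe, map_pow]
  choose invT hinvT hlocT heqT using keyl
  obtain ⟨inv2, hloc2, hfin2, heq2⟩ := key0
  refine ⟨fun w => match w with
    | none => inv2
    | some l => invT l, ?_, hfin2, hinvT, ?_⟩
  · rintro (_ | l)
    · exact hloc2
    · exact hlocT l
  · intro θ φ hθ hφ tk fk F u hF h1 h2 hu h3 h4 h5 h6
    have h7 := halt₀ θ φ hθ hφ tk fk (fun a b => F (emb α a) (emb α b)) u (z2_comap α hF)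
      (fun g => by simp only [map_one]; exact h1 _) (fun g => by simp only [map_one]; exact h2 _)
      hu h3 h4 h5 h6
    rw [← h7]
    refine Finset.sum_congr rfl ?_
    rintro (_ | l) -
    · exact heq2 F hF.1
    · exact heqT l F

end Pool.Agent.Work.MP_787500_nt.HP
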