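import Mathlib
import Pool.Agent.Work.MP_787500_nt.HP.Defs

/-!
# Module HOMOT (size S-M): the homotopy for conjugation by an involution

`U a = F c (c a c) - F a c`, `d2 (tw χ) F = 0`, `χ c = -1`, `c c = 1`, `F` normalised, `F c c = 0`.
* `hom_d1`: add the cocycle relations `d2 F (a, b, c)`, `d2 F (a, c, c b c)`, `d2 F (c, c a c, c b c)`:
  (i) `-χ a F b c + F (a b) c = F a (b c) - F a b`; (ii) `χ a F c (c b c) - F a c = F (a c) (c b c) - F a (b c)`;
  (iii) `-F c (c a b c) + F c (c a c) = -F (c a c) (c b c) - F (a c) (c b c)`. The sum of the left sides is `d1 (tw χ) U a b`.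
* `hom_inv`: `d2 F (c, c a c, c)`: `-F (c a c) c - F (a c) c + F c (c a) - F c (c a c) = 0`; `d2 F (a, c, c)`: `F (a c) c = -F a c`;
  `d2 F (c, c, a)`: `F c (c a) = F c a`.
(`d2`, `d1`, `tw`: `GP/Defs.lean`; replace `c * (c * a)` by `a` etc. with `mul_assoc`, `hc`; then `linear_combination (exp := 1)` or `abel` with
the products `χ a • F _ _` as atoms.)
-/

set_option autoImplicit false
set_option linter.unusedSectionVars false

namespace Pool.Agent.Work.MP_787500_nt.HP

open Pool.Agent.Work.MP_787500_nt.GP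

variable {G : Type*} [Group G] {χ : G → ℤ_[2]} {c : G} {F : G → G → A0}

/-- the homotopy -/
noncomputable def hU (c : G) (F : G → G → A0) (a : G) : A0 := F c (c * a * c) - F a c

theorem hom_d1 (hc : c * c = 1) (hχ : χ c = -1) (hF : ∀ a b d, d2 (tw χ) F a b d = 0) (a b : G) :
    F (c * a * c) (c * b * c) + F a b = -d1 (tw χ) (hU c F) a b := by
  have e1 : ∀ x : G, c * (c * x * c) = x * c := by
    intro x
    rw [← mul_assoc, ← mul_assoc, hc, one_mul]
  have e2 : c * a * c * (c * b * c) = c * (a * b) * c := by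
    rw [mul_assoc (c * a) c, e1, mul_assoc c a (b * c), ← mul_assoc a b c, ← mul_assoc]
  have R1 := hF a b c
  have R2 := hF a c (c * b * c)
  have R3 := hF c (c * a * c) (c * b * c)
  simp only [d2, tw] at R1 R2 R3
  rw [e1] at R2
  rw [e1, e2, hχ, neg_smul, one_smul] at R3
  simp only [d1, tw, hU]
  rw [smul_sub, eq_neg_iff_add_eq_zero]
  calc _ = -(χ a • F b c - F (a * b) c + F a (b * c) - F a b) +
        (χ a • F c (c * b * c) - F (a * c) (c * b * c) + F a (b * c) - F a c) -
        (-F (c * a * c) (c * b * c) - F (a * c) (c * b * c) + F c (c * (a * b) * c) -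
          F c (c * a * c)) := by abel
    _ = 0 := by rw [R1, R2, R3]; simp

theorem hom_inv (hc : c * c = 1) (hχ : χ c = -1) (hF : ∀ a b d, d2 (tw χ) F a b d = 0)
    (h1 : ∀ g, F g 1 = 0) (h2 : ∀ g, F 1 g = 0) (h3 : F c c = 0) (a : G) :
    hU c F (c * a * c) = hU c F a := by
  have e1 : ∀ x : G, c * (c * x * c) = x * c := by
    intro x
    rw [← mul_assoc, ← mul_assoc, hc, one_mul]
  have e3 : c * (c * a * c) * c = a := by
    rw [e1, mul_assoc, hc, mul_one]
  have e4 : c * a * c * c = c * a := by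
    rw [mul_assoc, hc, mul_one]
  have R4 := hF c (c * a * c) c
  have R5 := hF a c c
  have R6 := hF c c a
  simp only [d2, tw] at R4 R5 R6
  rw [e1, e4, hχ, neg_smul, one_smul] at R4
  rw [hc, h3, smul_zero, h1] at R5
  rw [hc, h3, h2, hχ, neg_smul, one_smul] at R6
  simp only [hU]
  rw [e3, ← sub_eq_zero]
  calc _ = (-F (c * a * c) c - F (a * c) c + F c (c * a) - F c (c * a * c)) -
        (0 - F (a * c) c + 0 - F a c) - (-F c a - 0 + F c (c * a) - 0) := by abel
    _ = 0 := by rw [R4, R5, R6]; simp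

end Pool.Agent.Work.MP_787500_nt.HP
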