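import Mathlib
import Pool.Agent.Work.MP_787500_nt.HP.Homot
import Pool.Agent.Work.MP_787500_nt.HP.EmbGood

/-!
# Module QREC (size M): restriction of a cocycle of the group of all automorphisms

`z a b = F (emb α a) (emb α b)`, `u a = hU c F (emb α a)`.
* `u` is smooth: `F` is smooth for a member `W` of `qsys Ω T`; `c w c ∈ W` for `w ∈ W` (normal); so `hU c F` is constant on the cosets of
  `W`, and `sm1_comap`. The relations are `hom_d1`, `hom_inv` (with `hκ`, `cyQ_emb`, `d1 (tw cyQ) (hU c F)` at `emb α a`, `emb α b`).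
* Let `τ = emb α θ * c ∈ inr Q`. For every member `W` of `qsys Ω T`: `τ ∈ W` (`2 ∉ Q`, `l ∉ Q` for `l ∈ T`). `emb α θ = τ * c` (`c * c = 1`) and
  `emb α θ = c * (c * τ * c)`, `c * τ * c ∈ W` (use `c⁻¹ = c`). `F` is smooth for `W`, so `F (emb α θ) x = F c x` (as `τ * c = c * (c⁻¹ * τ * c)`) and
  `F x (emb α θ) = F x c`. Hence `z θ (κ θ) = F c (c emb θ c)`, `u θ = F c (c emb θ c) - F (emb θ) c` and `F (emb θ) c = F c c = 0`.
  `u φ + z φ θ = F c (c emb φ c) - F (emb φ) c + F (emb φ) c = F c (c emb φ c) = z θ (κ φ)`.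
-/

set_option autoImplicit false
set_option linter.unusedSectionVars false

namespace Pool.Agent.Work.MP_787500_nt.HP

open IsDedekindDomain NumberField
open Pool.Agent.Work.MP_787500_nt.PA (TwoSys Sm1 Sm2 homs Coc Cob IsChar cyc Opn)
open Pool.Agent.Work.MP_787500_nt.GP

universe u

variable {Ω : Type u} [Field Ω] [CharZero Ω] [IsAlgClosed Ω] {F : Type*} [Field F] [NumberField F]
  (α : AlgebraicClosure F ≃+* Ω)

theorem qrec {c : Ω ≃+* Ω} (hc : ∀ x, c (c x) = x) (hcc : cyQ c = -1) {κ : AbsGal F →* AbsGal F}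
    (hκ : ∀ σ, emb α (κ σ) = c * emb α σ * c) {T : Finset ℕ} {f : (Ω ≃+* Ω) → (Ω ≃+* Ω) → A0}
    (hf : Z2 (qsys Ω T) (tw cyQ) f) (h1 : ∀ g, f g 1 = 0) (h2 : ∀ g, f 1 g = 0) (h3 : f c c = 0) :
    ∃ u : AbsGal F → A0, Sm1 (sysT F T) u ∧
      (∀ a b, f (emb α (κ a)) (emb α (κ b)) + f (emb α a) (emb α b) = -d1 (tw cyc) u a b) ∧
      (∀ g, u (κ g) = u g) ∧
      ∀ θ φ : AbsGal F, (∃ Q : Ideal (𝓞 Ω), Q.IsPrime ∧ (2 : 𝓞 Ω) ∉ Q ∧ (∀ l ∈ T, (l : 𝓞 Ω) ∉ Q) ∧
        emb α θ * c ∈ inr Q) →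
        u θ = f (emb α θ) (emb α (κ θ)) ∧
        u φ + f (emb α φ) (emb α θ) = f (emb α θ) (emb α (κ φ)) := by
  have hc1 : c * c = 1 := RingEquiv.ext hc
  have hinv : c⁻¹ = c := inv_eq_of_mul_eq_one_left hc1
  obtain ⟨⟨W, hW, hWf⟩, hd2⟩ := hf
  have hWn : W.Normal := hW.1.2.1
  have hconj : ∀ w ∈ W, c * w * c ∈ W := by
    intro w hw
    have h4 := hWn.conj_mem w hw c
    rwa [hinv] at h4
  refine ⟨fun a => hU c f (emb α a), ?_, ?_, ?_, ?_⟩
  · apply sm1_comap α (f := hU c f)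
    refine ⟨W, hW, fun g w hw => ?_⟩
    have e1 : c * (g * w) * c = (c * g * c) * (c * w * c) := by
      have h5 : (c * g * c) * (c * w * c) = c * g * (c * c) * w * c := by
        simp only [mul_assoc]
      rw [h5, hc1, mul_one, mul_assoc c g w]
    have e2 := hWf c (c * g * c) 1 W.one_mem (c * w * c) (hconj w hw)
    have e3 := hWf g c w hw 1 W.one_mem
    rw [mul_one] at e2 e3
    simp only [hU]
    rw [e1, e2, e3]
  · intro a b
    have h4 := hom_d1 hc1 hcc hd2 (emb α a) (emb α b)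
    rw [hκ, hκ, h4]
    simp only [d1, tw, map_mul, cyQ_emb]
  · intro g
    have h4 := hom_inv hc1 hcc hd2 h1 h2 h3 (emb α g)
    rw [← hκ] at h4
    exact h4
  · rintro θ φ ⟨Q, hQ, h2Q, hTQ, hin⟩
    have hτ : emb α θ * c ∈ W := hW.2 Q hQ h2Q hTQ hin
    have hθ : emb α θ = c * (c * (emb α θ * c) * c) := by
      have h5 : c * (c * (emb α θ * c) * c) = (c * c) * emb α θ * (c * c) := by
        simp only [mul_assoc]
      rw [h5, hc1, one_mul, mul_one]
    have hl : ∀ x, f (emb α θ) x = f c x := by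
      intro x
      have h6 := hWf c x _ (hconj _ hτ) 1 W.one_mem
      rw [mul_one, ← hθ] at h6
      exact h6
    have hr : ∀ x, f x (emb α θ) = f x c := by
      intro x
      have h6 := hWf x c 1 W.one_mem _ (hconj _ hτ)
      rw [mul_one, ← hθ] at h6
      exact h6
    simp only [hU]
    constructor
    · rw [hl, hl, h3, sub_zero, hκ]
    · rw [hr, hl, hκ]
      abel

end Pool.Agent.Work.MP_787500_nt.HP
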