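import Mathlib
import Pool.Agent.Work.MP_787500_nt.GP.LT3_Gen
import Pool.Agent.Work.MP_787500_nt.GP.K2_KumZ
import Pool.Agent.Work.MP_787500_nt.PA.KapK
import Pool.Agent.Work.MP_787500_nt.H10_Gal
import Pool.Agent.Work.MP_787500_nt.H10_Quad
import Pool.Agent.Work.MP_787500_nt.HP.Defs

/-!
The elements `θ` and `φ` with the relation to inertia at `q`: the proof is that of `exists_theta_phi` (`GP/E1_Theta.lean`), the last
clause of the statement is new.
-/

set_option autoImplicit false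
set_option linter.unusedSectionVars false

namespace Pool.Agent.Work.MP_787500_nt.HP

open IsDedekindDomain NumberField
open Pool.Agent.Work.MP_787500_nt.PA (TwoSys Sm1 Sm2 homs Coc Cob IsChar goodSys core cyc Opn SU)
open Pool.Agent.Work.MP_787500_nt.Gn (GoodG)
open Pool.Agent.Work.MP_787500_nt.GP

universe u

variable {K : Type u} [Field K] [NumberField K]

open scoped Pointwise

private theorem e1_pow_neg {R : Type*} [CommRing R] [IsDomain R] {x : R} {k : ℕ}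
    (h : x ^ 2 ^ k = 1) (h1 : x ≠ 1) : ∃ m : ℕ, x ^ 2 ^ m = -1 := by
  induction k generalizing x with
  | zero =>
    rw [pow_zero, pow_one] at h
    exact absurd h h1
  | succ k ih =>
    by_cases h2 : x ^ 2 = 1
    · refine ⟨0, ?_⟩
      rw [pow_zero, pow_one]
      have h3 : (x - 1) * (x + 1) = 0 := by linear_combination h2
      rcases mul_eq_zero.1 h3 with h4 | h4
      · exact absurd (sub_eq_zero.1 h4) h1
      · exact eq_neg_of_add_eq_zero_left h4
    · obtain ⟨m, hm⟩ := ih (x := x ^ 2) (by rw [← pow_mul, ← pow_succ']; exact h) h2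
      exact ⟨m + 1, by rw [pow_succ', pow_mul]; exact hm⟩

/-- different roots of unity of 2-power order are different modulo `Q` -/
private theorem e1_root {B : Type*} [CommRing B] [IsDomain B] {Q : Ideal B}
    (h2 : (2 : B) ∉ Q) {ζ : B} {k a b : ℕ} (hζ : ζ ^ 2 ^ k = 1) (h : ζ ^ a - ζ ^ b ∈ Q) :
    ζ ^ a = ζ ^ b := by
  have hpos : 1 ≤ 2 ^ k := Nat.one_le_two_pow
  have hinv : ζ ^ b * ζ ^ ((2 ^ k - 1) * b) = 1 := by
    rw [← pow_add]
    have : b + (2 ^ k - 1) * b = 2 ^ k * b := by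
      conv_lhs => rw [← one_mul b, ← mul_assoc, mul_one, ← add_mul]
      congr 1
      omega
    rw [this, pow_mul, hζ, one_pow]
  by_contra hne
  have hω1 : ζ ^ a * ζ ^ ((2 ^ k - 1) * b) ≠ 1 := by
    intro h3
    apply hne
    calc ζ ^ a = ζ ^ a * (ζ ^ b * ζ ^ ((2 ^ k - 1) * b)) := by rw [hinv, mul_one]
      _ = (ζ ^ a * ζ ^ ((2 ^ k - 1) * b)) * ζ ^ b := by ring
      _ = ζ ^ b := by rw [h3, one_mul]
  have hωk : (ζ ^ a * ζ ^ ((2 ^ k - 1) * b)) ^ 2 ^ k = 1 := by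
    rw [← pow_add, ← pow_mul, mul_comm, pow_mul, hζ, one_pow]
  obtain ⟨m, hm⟩ := e1_pow_neg hωk hω1
  have h4 : ζ ^ a * ζ ^ ((2 ^ k - 1) * b) - 1 ∈ Q := by
    have : ζ ^ a * ζ ^ ((2 ^ k - 1) * b) - 1 = (ζ ^ a - ζ ^ b) * ζ ^ ((2 ^ k - 1) * b) := by
      rw [sub_mul, hinv]
    rw [this]
    exact Q.mul_mem_right _ h
  have h5 : (ζ ^ a * ζ ^ ((2 ^ k - 1) * b)) ^ 2 ^ m - 1 ∈ Q := by
    have h6 := sub_dvd_pow_sub_pow (ζ ^ a * ζ ^ ((2 ^ k - 1) * b)) 1 (2 ^ m)
    rw [one_pow] at h6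
    exact Ideal.mem_of_dvd Q h6 h4
  rw [hm] at h5
  apply h2
  have h7 : (2 : B) = -(-1 - 1) := by ring
  rw [h7]
  exact Q.neg_mem h5

private theorem e1_zero {x : ℤ_[2]} (h : ∀ n : ℕ, (2 : ℤ_[2]) ^ n ∣ x) : x = 0 := by
  refine PadicInt.ext_of_toZModPow.mp fun n => ?_
  rw [map_zero]
  obtain ⟨c, hc⟩ := h n
  rw [hc, map_mul, map_pow, map_ofNat]
  have : (2 : ZMod (2 ^ n)) ^ n = 0 := by
    have h1 : ((2 ^ n : ℕ) : ZMod (2 ^ n)) = 0 := ZMod.natCast_self _
    exact_mod_cast h1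
  rw [this, zero_mul]

/-- the action of a ring automorphism on the integers -/
private noncomputable def fO (f : AlgebraicClosure K ≃+* AlgebraicClosure K) :
    𝓞 (AlgebraicClosure K) ≃+* 𝓞 (AlgebraicClosure K) := RingOfIntegers.mapRingEquiv f

private theorem fO_coe (f : AlgebraicClosure K ≃+* AlgebraicClosure K)
    (x : 𝓞 (AlgebraicClosure K)) : ((fO f x : 𝓞 (AlgebraicClosure K)) : AlgebraicClosure K) =
      f (x : AlgebraicClosure K) := rfl

/-- an automorphism which is the `N`-th power modulo `Q` raises roots of unity of 2-power order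
to the power `N` -/
private theorem e1_act {Q : Ideal (𝓞 (AlgebraicClosure K))}
    (h2 : (2 : 𝓞 (AlgebraicClosure K)) ∉ Q) {f : AlgebraicClosure K ≃+* AlgebraicClosure K}
    {N : ℕ} (hf : ∀ x, fO f x - x ^ N ∈ Q) {ω : AlgebraicClosure K} {k : ℕ}
    (hω : ω ^ 2 ^ k = 1) : f ω = ω ^ N := by
  have : NeZero (2 ^ k) := ⟨by positivity⟩
  obtain ⟨ζ, hζ⟩ : ∃ ζ : AlgebraicClosure K, IsPrimitiveRoot ζ (2 ^ k) :=
    HasEnoughRootsOfUnity.exists_primitiveRoot _ _
  have hζi : IsIntegral ℤ ζ := hζ.isIntegral (by positivity)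
  let z : 𝓞 (AlgebraicClosure K) := ⟨ζ, hζi⟩
  have hz : z ^ 2 ^ k = 1 := by
    apply RingOfIntegers.ext
    show ζ ^ 2 ^ k = 1
    exact hζ.pow_eq_one
  obtain ⟨m, -, hm⟩ := hζ.eq_pow_of_pow_eq_one (ξ := f ζ) (by
    rw [← map_pow, hζ.pow_eq_one, map_one])
  have h3 := hf z
  have h4 : fO f z = z ^ m := by
    apply RingOfIntegers.ext
    show f ζ = ζ ^ m
    exact hm.symm
  rw [h4] at h3
  have h5 : ζ ^ m = ζ ^ N :=
    congrArg (algebraMap (𝓞 (AlgebraicClosure K)) (AlgebraicClosure K)) (e1_root h2 hz h3)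
  obtain ⟨i, -, hi⟩ := hζ.eq_pow_of_pow_eq_one hω
  rw [← hi, map_pow, ← hm, h5, ← pow_mul, ← pow_mul, mul_comm]

private theorem e1_zp_pow (k : ℕ) (a : ℤ_[2]) (n : ℕ) : zp K k a ^ n = zp K k (n * a) := by
  induction n with
  | zero =>
    rw [pow_zero, Nat.cast_zero, zero_mul]
    exact (zp_eq_one.2 (dvd_zero _)).symm
  | succ n ih =>
    rw [pow_succ, ih, ← zp_add]
    congr 1
    push_cast
    ring

private theorem e1_zp_root (k : ℕ) (a : ℤ_[2]) : zp K k a ^ 2 ^ k = 1 := by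
  rw [e1_zp_pow, zp_eq_one]
  push_cast
  exact dvd_mul_right _ _

private theorem e1_cyc {g : AbsGal K} {m : ℤ_[2]} (h : ∀ k, g (zp K k 1) = zp K k m) :
    cyc g = m := by
  have h1 : ∀ k : ℕ, (2 : ℤ_[2]) ^ k ∣ cyc g - m := by
    intro k
    rw [← zp_eq_one (K := K), sub_eq_add_neg, zp_add]
    have h2 := h k
    rw [gal_zp, mul_one] at h2
    rw [h2, ← zp_add, add_neg_cancel]
    exact zp_eq_one.2 (dvd_zero _)
  exact sub_eq_zero.1 (e1_zero h1)

private theorem e1_smul {F : Type*} [Field F] [NumberField F] [Algebra F (AlgebraicClosure K)]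
    [IsGalois F (AlgebraicClosure K)] :
    letI : TopologicalSpace (𝓞 (AlgebraicClosure K)) := ⊥
    ContinuousSMul (AlgebraicClosure K ≃ₐ[F] AlgebraicClosure K) (𝓞 (AlgebraicClosure K)) := by
  let _ : TopologicalSpace (𝓞 (AlgebraicClosure K)) := ⊥
  have : DiscreteTopology (𝓞 (AlgebraicClosure K)) := ⟨rfl⟩
  rw [continuousSMul_iff_stabilizer_isOpen]
  intro x
  have h1 : IsOpen (MulAction.stabilizer (AlgebraicClosure K ≃ₐ[F] AlgebraicClosure K)
      (algebraMap (𝓞 (AlgebraicClosure K)) (AlgebraicClosure K) x) :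
      Set (AlgebraicClosure K ≃ₐ[F] AlgebraicClosure K)) :=
    stabilizer_isOpen_of_isIntegral _
  convert h1 using 1
  ext σ
  simp only [SetLike.mem_coe, MulAction.mem_stabilizer_iff]
  constructor
  · intro h
    have := congrArg (algebraMap (𝓞 (AlgebraicClosure K)) (AlgebraicClosure K)) h
    exact this
  · intro h
    apply RingOfIntegers.ext
    exact h

/-- the Frobenius automorphism at a prime that contains `q` -/
private theorem e1_frob [IsGalois ℚ (AlgebraicClosure K)] {q : ℕ} (hq : q.Prime)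
    {Q : Ideal (𝓞 (AlgebraicClosure K))} (hQ : Q.IsPrime)
    (hqQ : (q : 𝓞 (AlgebraicClosure K)) ∈ Q) :
    ∃ ψ : AlgebraicClosure K ≃ₐ[ℚ] AlgebraicClosure K, (∀ x, x ∈ Q ↔ ψ • x ∈ Q) ∧
      ∀ x : 𝓞 (AlgebraicClosure K), ψ • x - x ^ q ∈ Q := by
  classical
  let _ : TopologicalSpace (𝓞 (AlgebraicClosure K)) := ⊥
  have : DiscreteTopology (𝓞 (AlgebraicClosure K)) := ⟨rfl⟩
  have : ContinuousSMul (AlgebraicClosure K ≃ₐ[ℚ] AlgebraicClosure K)
    (𝓞 (AlgebraicClosure K)) := e1_smul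
  have hcomm : SMulCommClass (AlgebraicClosure K ≃ₐ[ℚ] AlgebraicClosure K) (𝓞 ℚ)
      (𝓞 (AlgebraicClosure K)) := ⟨fun g a b => by
    rw [Algebra.smul_def, Algebra.smul_def, MulSemiringAction.smul_mul]
    congr 1
    apply RingOfIntegers.ext
    exact g.commutes (algebraMap (𝓞 ℚ) ℚ a)⟩
  have hinv : Algebra.IsInvariant (𝓞 ℚ) (𝓞 (AlgebraicClosure K))
      (AlgebraicClosure K ≃ₐ[ℚ] AlgebraicClosure K) := ⟨fun b hb => by
    obtain ⟨c, hc⟩ := mem_base_of_fixed (F := ℚ) (Ω := AlgebraicClosure K)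
      (x := algebraMap (𝓞 (AlgebraicClosure K)) (AlgebraicClosure K) b) (fun σ => by
        have := congrArg (algebraMap (𝓞 (AlgebraicClosure K)) (AlgebraicClosure K)) (hb σ)
        exact this)
    have hint : IsIntegral ℤ c := by
      have h1 : IsIntegral ℤ (algebraMap ℚ (AlgebraicClosure K) c) := by
        rw [hc]
        exact RingOfIntegers.isIntegral_coe b
      exact (isIntegral_algebraMap_iff (algebraMap ℚ (AlgebraicClosure K)).injective).1 h1
    exact ⟨⟨c, hint⟩, RingOfIntegers.ext hc⟩⟩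
  let p : Ideal (𝓞 ℚ) := Q.under (𝓞 ℚ)
  have hover : Q.LiesOver p := ⟨rfl⟩
  have hp : p.IsPrime := inferInstance
  have hqp : (q : 𝓞 ℚ) ∈ p := by
    show algebraMap (𝓞 ℚ) (𝓞 (AlgebraicClosure K)) (q : 𝓞 ℚ) ∈ Q
    rw [map_natCast]
    exact hqQ
  have hq0 : (q : 𝓞 ℚ) ≠ 0 := by exact_mod_cast hq.ne_zero
  have hp0 : p ≠ ⊥ := by
    intro h
    rw [h, Ideal.mem_bot] at hqp
    exact hq0 hqp
  have hn : Ideal.absNorm (Ideal.span {(q : 𝓞 ℚ)}) = q := by
    rw [Ideal.absNorm_span_natCast, RingOfIntegers.rank, Module.finrank_self, pow_one]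
  have hI : (Ideal.span {(q : 𝓞 ℚ)}).IsPrime :=
    Ideal.isPrime_of_irreducible_absNorm (by rw [hn]; exact hq.prime.irreducible)
  have hIm : (Ideal.span {(q : 𝓞 ℚ)}).IsMaximal :=
    hI.isMaximal (by rw [Ne, Ideal.span_singleton_eq_bot]; exact hq0)
  have hpI : Ideal.span {(q : 𝓞 ℚ)} = p :=
    hIm.eq_of_le hp.ne_top ((Ideal.span_singleton_le_iff_mem _).2 hqp)
  have hcard : Nat.card (𝓞 ℚ ⧸ p) = q := by
    rw [← hpI]
    have : Ideal.absNorm (Ideal.span {(q : 𝓞 ℚ)}) = Nat.card (𝓞 ℚ ⧸ Ideal.span {(q : 𝓞 ℚ)}) := by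
      rw [Ideal.absNorm_apply, Submodule.cardQuot_apply]
    rw [← this, hn]
  have hpm : p.IsMaximal := hp.isMaximal hp0
  have hPm : Q.IsMaximal := Ideal.IsMaximal.of_liesOver_isMaximal Q p
  have hfinq : Finite (𝓞 ℚ ⧸ p) := Ideal.finiteQuotientOfFreeOfNeBot p hp0
  let _ : Field (𝓞 ℚ ⧸ p) := Ideal.Quotient.field p
  let _ : Field (𝓞 (AlgebraicClosure K) ⧸ Q) := Ideal.Quotient.field Q
  let _ : Fintype (𝓞 ℚ ⧸ p) := Fintype.ofFinite _
  have halg : Algebra.IsAlgebraic (𝓞 ℚ ⧸ p) (𝓞 (AlgebraicClosure K) ⧸ Q) := by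
    have h1 : Algebra.IsIntegral (𝓞 ℚ ⧸ p) (𝓞 (AlgebraicClosure K) ⧸ Q) := inferInstance
    exact h1.isAlgebraic
  obtain ⟨τ, hτ⟩ := Ideal.Quotient.stabilizerHom_surjective_of_profinite (A := 𝓞 ℚ)
    (B := 𝓞 (AlgebraicClosure K)) (G := AlgebraicClosure K ≃ₐ[ℚ] AlgebraicClosure K) p Q
    (FiniteField.frobeniusAlgEquivOfAlgebraic (𝓞 ℚ ⧸ p) (𝓞 (AlgebraicClosure K) ⧸ Q))
  have hN : Fintype.card (𝓞 ℚ ⧸ p) = q := by
    rw [← Nat.card_eq_fintype_card]
    exact hcard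
  refine ⟨(τ : AlgebraicClosure K ≃ₐ[ℚ] AlgebraicClosure K), ?_, ?_⟩
  · intro x
    have hs : (τ : AlgebraicClosure K ≃ₐ[ℚ] AlgebraicClosure K) • Q = Q := τ.2
    have h1 : (τ : AlgebraicClosure K ≃ₐ[ℚ] AlgebraicClosure K) • x ∈
      (τ : AlgebraicClosure K ≃ₐ[ℚ] AlgebraicClosure K) • Q ↔ x ∈ Q :=
      Ideal.smul_mem_pointwise_smul_iff
    rw [hs] at h1
    exact h1.symm
  · intro x
    have h6 := DFunLike.congr_fun hτ (Ideal.Quotient.mk Q x)
    rw [Ideal.Quotient.stabilizerHom_apply] at h6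
    have h7 : Ideal.Quotient.mk Q ((τ : AlgebraicClosure K ≃ₐ[ℚ] AlgebraicClosure K) • x) =
      Ideal.Quotient.mk Q x ^ Fintype.card (𝓞 ℚ ⧸ p) := h6
    rw [← map_pow, hN] at h7
    exact Ideal.Quotient.eq.1 h7

/-- the place `q` of the rational numbers -/
private theorem e1_place {q : ℕ} (hq : q.Prime) (hq2 : q ≠ 2) :
    ∃ v : HeightOneSpectrum (𝓞 ℚ), (2 : 𝓞 ℚ) ∉ v.asIdeal ∧
      ¬ IsSquare (v.valuation ℚ (-(q : ℚ))) := by
  have hq0 : (q : 𝓞 ℚ) ≠ 0 := by exact_mod_cast hq.ne_zero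
  have hn : Ideal.absNorm (Ideal.span {(q : 𝓞 ℚ)}) = q := by
    rw [Ideal.absNorm_span_natCast, RingOfIntegers.rank, Module.finrank_self, pow_one]
  have hI : (Ideal.span {(q : 𝓞 ℚ)}).IsPrime :=
    Ideal.isPrime_of_irreducible_absNorm (by rw [hn]; exact hq.prime.irreducible)
  refine ⟨⟨_, hI, by rw [Ne, Ideal.span_singleton_eq_bot]; exact hq0⟩, ?_, ?_⟩
  · intro h
    apply hI.ne_top
    rw [Ideal.eq_top_iff_one]
    obtain ⟨m, hm⟩ := hq.odd_of_ne_two hq2
    have h1 : (1 : 𝓞 ℚ) = q - m * 2 := by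
      rw [hm]
      push_cast
      ring
    rw [h1]
    exact Ideal.sub_mem _ (Ideal.mem_span_singleton_self _) (Ideal.mul_mem_left _ _ h)
  · have e : (q : ℚ) = algebraMap (𝓞 ℚ) ℚ (q : 𝓞 ℚ) := by simp
    rw [Valuation.map_neg, e, HeightOneSpectrum.valuation_of_algebraMap,
      HeightOneSpectrum.intValuation_singleton _ hq0 rfl]
    exact Quad.not_isSquare_exp_neg_one

theorem exists_theta0 {q : ℕ} {s : K} (hK : IsBase K q s)
    {c : AlgebraicClosure K ≃+* AlgebraicClosure K} (hc : PA.IsConj s c)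
    {κ : AbsGal K → AbsGal K}
    (hκ : ∀ (σ : AbsGal K) (x : AlgebraicClosure K), κ σ x = c (σ (c x)))
    {T : Finset ℕ} (hT : ∀ l ∈ T, SplitPr q l) :
    ∃ θ φ : AbsGal K, (∀ W, GoodT K T W → θ * κ θ ∈ W) ∧
      (∀ W, GoodT K T W → (θ * κ φ)⁻¹ * (φ * θ) ∈ W) ∧ cyc θ = -1 ∧ cyc φ = (q : ℤ_[2]) ∧
      ∃ Q : Ideal (𝓞 (AlgebraicClosure K)), Q.IsPrime ∧ (q : 𝓞 (AlgebraicClosure K)) ∈ Q ∧
        ∀ x : 𝓞 (AlgebraicClosure K), θ • (og c x) - x ∈ Q := by

  have halg : Algebra.IsAlgebraic ℚ (AlgebraicClosure K) := Algebra.IsAlgebraic.trans ℚ K _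
  have hcl : IsAlgClosure ℚ (AlgebraicClosure K) := ⟨inferInstance, halg⟩
  have hgal : IsGalois ℚ (AlgebraicClosure K) := IsAlgClosure.isGalois ℚ (AlgebraicClosure K)
  have hK' := hK
  obtain ⟨hK1, hK2, hq, hK4⟩ := hK
  have hq2 : q ≠ 2 := by
    rintro rfl
    omega
  have hs2 : (algebraMap K (AlgebraicClosure K) s) ^ 2 = -(q : AlgebraicClosure K) := by
    rw [← map_pow, hK2, map_neg, map_natCast]
  have hs2' : (algebraMap K (AlgebraicClosure K) s) ^ 2 =
      algebraMap ℚ (AlgebraicClosure K) (-(q : ℚ)) := by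
    rw [hs2, map_neg, map_natCast]
  obtain ⟨v, hv2, hvq⟩ := e1_place hq hq2
  obtain ⟨Q, hQ, h2Q, τ, hτ, hτs⟩ := exists_inertia_of_odd (F := ℚ) (Ω := AlgebraicClosure K)
    hs2' hv2 hvq
  have hs0 : algebraMap K (AlgebraicClosure K) s ≠ 0 := by
    intro h
    rw [h, zero_pow two_ne_zero] at hs2
    have : (q : AlgebraicClosure K) = 0 := by linear_combination hs2
    exact hq.ne_zero (by exact_mod_cast this)
  -- `Q` contains `q`
  have hqQ : (q : 𝓞 (AlgebraicClosure K)) ∈ Q := by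
    have hsi : IsIntegral ℤ (algebraMap K (AlgebraicClosure K) s) := by
      refine ⟨Polynomial.X ^ 2 + Polynomial.C (q : ℤ), by monicity!, ?_⟩
      simp [hs2]
    let t : 𝓞 (AlgebraicClosure K) := ⟨_, hsi⟩
    have h1 : τ • t - t ∈ Q := hτ t
    have h3 : τ • t - t = -(2 * t) := by
      apply RingOfIntegers.ext
      show τ (algebraMap K (AlgebraicClosure K) s) - algebraMap K (AlgebraicClosure K) s =
        -(2 * algebraMap K (AlgebraicClosure K) s)
      rw [hτs]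
      ring
    rw [h3] at h1
    have h4 : 2 * t ∈ Q := by
      have := Q.neg_mem h1
      rwa [neg_neg] at this
    have h5 : t ∈ Q := (hQ.mem_or_mem h4).resolve_left h2Q
    have h6 : (q : 𝓞 (AlgebraicClosure K)) = -(t * t) := by
      apply RingOfIntegers.ext
      show algebraMap (𝓞 (AlgebraicClosure K)) (AlgebraicClosure K) q =
        -(algebraMap K (AlgebraicClosure K) s * algebraMap K (AlgebraicClosure K) s)
      rw [map_natCast, ← pow_two, hs2, neg_neg]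
    rw [h6]
    exact Q.neg_mem (Q.mul_mem_left _ h5)
  obtain ⟨ψ, hψQ, hψ⟩ := e1_frob (K := K) hq hQ hqQ
  have hτ' : ∀ x : 𝓞 (AlgebraicClosure K), τ • x - x ∈ Q := fun x => hτ x
  -- a ring automorphism fixing the image of `s` is in the group
  have hmk : ∀ f : AlgebraicClosure K ≃+* AlgebraicClosure K,
      f (algebraMap K (AlgebraicClosure K) s) = algebraMap K (AlgebraicClosure K) s →
      ∃ g : AbsGal K, ∀ x, g x = f x := by
    intro f hf
    refine ⟨AlgEquiv.ofRingEquiv (f := f) (fun x => ?_), fun x => rfl⟩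
    obtain ⟨a, b, rfl⟩ := Quad.exists_coords hK1 hK2 hq.pos x
    rw [map_add, map_mul, map_ratCast, map_ratCast, map_add, map_mul, map_ratCast, map_ratCast, hf]
  obtain ⟨θ, hθ⟩ := hmk (c.trans (τ : AlgebraicClosure K ≃+* AlgebraicClosure K)) (by
    show τ (c (algebraMap K (AlgebraicClosure K) s)) = _
    rw [hc.neg, map_neg, hτs, neg_neg])
  have hθ' : ∀ x, θ x = τ (c x) := hθ
  obtain ⟨φ, hφQ, hφ⟩ : ∃ φ : AbsGal K, (∀ x : 𝓞 (AlgebraicClosure K), x ∈ Q ↔ φ • x ∈ Q) ∧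
      ∀ x : 𝓞 (AlgebraicClosure K), φ • x - x ^ q ∈ Q := by
    have hsψ : ψ (algebraMap K (AlgebraicClosure K) s) = algebraMap K (AlgebraicClosure K) s ∨
        ψ (algebraMap K (AlgebraicClosure K) s) = -algebraMap K (AlgebraicClosure K) s := by
      apply sq_eq_sq_iff_eq_or_eq_neg.1
      rw [← map_pow, hs2, map_neg, map_natCast]
    rcases hsψ with h | h
    · obtain ⟨g, hg⟩ := hmk (ψ : AlgebraicClosure K ≃+* AlgebraicClosure K) h
      have e : ∀ x : 𝓞 (AlgebraicClosure K), g • x = ψ • x := fun x => RingOfIntegers.ext (hg _)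
      exact ⟨g, fun x => by rw [e]; exact hψQ x, fun x => by rw [e]; exact hψ x⟩
    · obtain ⟨g, hg⟩ := hmk ((ψ * τ : AlgebraicClosure K ≃ₐ[ℚ] AlgebraicClosure K) :
        AlgebraicClosure K ≃+* AlgebraicClosure K) (by
          show ψ (τ (algebraMap K (AlgebraicClosure K) s)) = _
          rw [hτs, map_neg, h, neg_neg])
      have e : ∀ x : 𝓞 (AlgebraicClosure K), g • x = ψ • (τ • x) :=
        fun x => RingOfIntegers.ext (hg _)
      refine ⟨g, fun x => ?_, fun x => ?_⟩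
      · rw [e, ← hψQ]
        constructor
        · intro hx
          have := Q.add_mem (hτ' x) hx
          rwa [sub_add_cancel] at this
        · intro hx
          have := Q.sub_mem hx (hτ' x)
          rwa [sub_sub_cancel] at this
      · rw [e]
        have h1 : ψ • (τ • x) - ψ • x ∈ Q := by
          rw [← smul_sub, ← hψQ]
          exact hτ' x
        have := Q.add_mem h1 (hψ x)
        rwa [sub_add_sub_cancel] at this
  -- the primes of `T` do not lie in `Q`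
  have hnat : ∀ {Q' : Ideal (𝓞 (AlgebraicClosure K))}, Q'.IsPrime →
      (q : 𝓞 (AlgebraicClosure K)) ∈ Q' → ∀ l : ℕ, l.Prime → l ≠ q →
      (l : 𝓞 (AlgebraicClosure K)) ∉ Q' := by
    intro Q' hQ' hq' l hl hlq hmem
    have hco : IsCoprime (l : ℤ) (q : ℤ) :=
      Nat.isCoprime_iff_coprime.2 ((Nat.coprime_primes hl hq).2 hlq)
    obtain ⟨a, b, hab⟩ := hco
    apply hQ'.ne_top
    rw [Ideal.eq_top_iff_one]
    have h1 : (1 : 𝓞 (AlgebraicClosure K)) = (a : 𝓞 (AlgebraicClosure K)) * l + b * q := by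
      have := congrArg (Int.cast : ℤ → 𝓞 (AlgebraicClosure K)) hab
      push_cast at this
      exact this.symm
    rw [h1]
    exact Q'.add_mem (Q'.mul_mem_left _ hmem) (Q'.mul_mem_left _ hq')
  have hW : ∀ {Q' : Ideal (𝓞 (AlgebraicClosure K))}, Q'.IsPrime →
      (q : 𝓞 (AlgebraicClosure K)) ∈ Q' → ∀ W, GoodT K T W → ∀ n ∈ Q'.inertia (AbsGal K),
      n ∈ W := by
    intro Q' hQ' hq' W hW n hn
    refine hW.inertia n ⟨Q', hQ', ?_, fun l hl => hnat hQ' hq' l (hT l hl).1 (hT l hl).2.2.1, hn⟩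
    have := hnat hQ' hq' 2 Nat.prime_two (Ne.symm hq2)
    exact_mod_cast this
  refine ⟨θ, φ, ?_, ?_, ?_, ?_, Q, hQ, hqQ, fun x => ?_⟩
  · intro W hWW
    refine hW hQ hqQ W hWW _ ?_
    intro x
    have e : (θ * κ θ) • x = τ • (τ • x) := by
      apply RingOfIntegers.ext
      show θ (κ θ (x : AlgebraicClosure K)) = τ (τ (x : AlgebraicClosure K))
      rw [hκ, hθ', hc.sq, hθ', hc.sq]
    rw [e]
    have := Q.add_mem (hτ' (τ • x)) (hτ' x)
    rwa [sub_add_sub_cancel] at this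
  · intro W hWW
    let C : 𝓞 (AlgebraicClosure K) ≃+* 𝓞 (AlgebraicClosure K) := fO c
    have hQ' : (Q.comap (C : 𝓞 (AlgebraicClosure K) →+* 𝓞 (AlgebraicClosure K))).IsPrime :=
      Ideal.comap_isPrime _ _
    refine hW hQ' ?_ W hWW _ ?_
    · rw [Ideal.mem_comap, map_natCast]
      exact hqQ
    · intro x
      show C (((θ * κ φ)⁻¹ * (φ * θ)) • x - x) ∈ Q
      rw [map_sub]
      obtain ⟨h, hh⟩ : ∃ h : AbsGal K, h = (θ * κ φ)⁻¹ * (φ * θ) := ⟨_, rfl⟩
      rw [← hh]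
      have e1 : τ • (φ • C (h • x)) = φ • (τ • C x) := by
        have e2 : (θ * κ φ) * h = φ * θ := by rw [hh, mul_inv_cancel_left]
        have e3 : ((θ * κ φ) * h) (x : AlgebraicClosure K) = (φ * θ) (x : AlgebraicClosure K) := by
          rw [e2]
        apply RingOfIntegers.ext
        show τ (φ (c (h (x : AlgebraicClosure K)))) = φ (τ (c (x : AlgebraicClosure K)))
        rw [AlgEquiv.mul_apply, AlgEquiv.mul_apply, hκ, hθ', hc.sq, AlgEquiv.mul_apply, hθ'] at e3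
        exact e3
      have e4 : φ • C (h • x) - φ • C x ∈ Q := by
        have a1 := hτ' (φ • C (h • x))
        rw [e1] at a1
        have a2 : φ • (τ • C x) - φ • C x ∈ Q := by
          rw [← smul_sub, ← hφQ]
          exact hτ' _
        have := Q.sub_mem a2 a1
        rwa [sub_sub_sub_cancel_left] at this
      rw [← smul_sub, ← hφQ] at e4
      exact e4
  · refine e1_cyc fun k => ?_
    rw [hθ', conj_zp hK' hc]
    have h1 := e1_act h2Q (f := (τ : AlgebraicClosure K ≃+* AlgebraicClosure K)) (N := 1)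
      (fun x => by
        rw [pow_one]
        exact hτ' x) (e1_zp_root (K := K) k (-1))
    rw [pow_one] at h1
    exact h1
  · refine e1_cyc fun k => ?_
    have h1 := e1_act h2Q (f := (φ : AlgebraicClosure K ≃+* AlgebraicClosure K)) (N := q)
      (fun x => hφ x) (e1_zp_root (K := K) k 1)
    rw [e1_zp_pow, mul_one] at h1
    exact h1
  · have e : θ • (og c x) = τ • x := by
      apply RingOfIntegers.ext
      show θ (c (x : AlgebraicClosure K)) = τ (x : AlgebraicClosure K)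
      rw [hθ', hc.sq]
    rw [e]
    exact hτ' x

end Pool.Agent.Work.MP_787500_nt.HP
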