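import Mathlib
import Pool.Agent.Work.MP_787500_nt.HP.QLoc
import Pool.Agent.Work.MP_787500_nt.HP.QRec
import Pool.Agent.Work.MP_787500_nt.HP.Theta0
import Pool.Agent.Work.MP_787500_nt.HP.ChooseQ
import Pool.Agent.Work.MP_787500_nt.HP.FieldQ
import Pool.Agent.Work.MP_787500_nt.HP.Conj

/-!
# Module QDATA (size M): local invariants for the rational numbers

`exists_q` gives `q` with `SplitPr q l` for `l ∈ T`, `exists_base` gives `K₀`, `s`, `α`. `c (α s) = -α s` by `conj_imag` (`(α s) ^ 2 = -q`), `cyQ c = -1` by `cyQ_conj`.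
`κ : AbsGal K₀ →* AbsGal K₀` with `emb α (κ σ) = c * emb α σ * c`: `MonoidHom.mk'`, `c * emb α σ * c` is in the range of `emb α` (`emb_iff` or: `κ σ` is the
algebra automorphism `x ↦ c₀ (σ (c₀ x))`, `c₀ = α⁻¹ c α`; it is the identity on `K₀ = ℚ + ℚ s` as `c₀ s = -s`), and `emb_inj`; so
`κ σ x = c₀ (σ (c₀ x))`. `exists_qloc` gives `inv` with `loc`, `two`, `tame`.
`recip`: let `F` be given. `qrec` gives `u`. `exists_theta0` (with `c₀`, `κ`) gives `θ`, `φ` and a prime `Q₀` of the algebraic integers of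
`AlgebraicClosure K₀` with `q ∈ Q₀` and `θ (c₀ x) - x ∈ Q₀`. By `exists_pb`, `Q₀ = pb α Q`; `q ∈ Q` (`pb_nat`), so `2 ∉ Q`, `l ∉ Q` for `l ∈ T` (`nat_mem`, in
`HP/Splt.lean`: `q` is a prime different from 2 and `l`), and `emb α θ * c ∈ inr Q`: every integer of `Ω` is `α x`, and `emb α θ (c (α x)) - α x = α (θ (c₀ x) - x)`. So
the last properties of `qrec` and `exists_qloc` apply.
-/

set_option autoImplicit false
set_option linter.unusedSectionVars false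

namespace Pool.Agent.Work.MP_787500_nt.HP

open IsDedekindDomain NumberField
open Pool.Agent.Work.MP_787500_nt.PA (TwoSys Sm1 Sm2 homs Coc Cob IsChar cyc Opn)
open Pool.Agent.Work.MP_787500_nt.GP

universe u

variable {Ω : Type u} [Field Ω] [CharZero Ω] [IsAlgClosed Ω]

theorem exists_qdat (halg : Alg Ω) {c : Ω ≃+* Ω} (hc : ∀ x, c (c x) = x) (hne : ∃ x, c x ≠ x)
    {T : Finset ℕ} {P : ℕ → Ideal (𝓞 Ω)} (hP : IsP T P) :
    ∃ inv : ∀ w : Option T, (stb (PP P w) → stb (PP P w) → A0) → A0, QDat c T P inv := by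
  classical
  obtain ⟨q, hq, hq16, hqT⟩ := exists_q T hP.prime hP.odd
  obtain ⟨K₀, iF, iN, s, α, hK⟩ := exists_base halg hq hq16
  have hs2 : (α (algebraMap K₀ (AlgebraicClosure K₀) s)) ^ 2 = -(q : Ω) := by
    rw [← map_pow, ← map_pow, hK.2.1, map_neg, map_neg, map_natCast, map_natCast]
  have hcs := conj_imag hc hne q hs2
  have hcc : cyQ c = -1 := cyQ_conj hc hne
  have hc1 : c * c = 1 := RingEquiv.ext hc
  -- conjugation by `c`
  have hex : ∀ σ : AbsGal K₀, ∃ ρ : AbsGal K₀, emb α ρ = c * emb α σ * c := by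
    intro σ
    rw [emb_iff]
    intro x
    obtain ⟨a, b, rfl⟩ := Quad.exists_coords hK.1 hK.2.1 hq.pos x
    obtain ⟨y, hy⟩ : ∃ y : K₀, c (α (algebraMap K₀ (AlgebraicClosure K₀) ((a : K₀) + b * s))) =
        α (algebraMap K₀ (AlgebraicClosure K₀) y) := by
      refine ⟨(a : K₀) - b * s, ?_⟩
      rw [map_add, map_mul, map_add, map_mul, map_add, map_mul, hcs, map_sub, map_mul, map_sub,
        map_mul]
      simp only [map_ratCast]
      ring
    change c (emb α σ (c (α (algebraMap K₀ (AlgebraicClosure K₀) ((a : K₀) + b * s))))) = _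
    rw [hy, emb_apply, α.symm_apply_apply, σ.commutes, ← hy, hc]
  choose κ₀ hκ₀ using hex
  obtain ⟨κ, hκ⟩ : ∃ κ : AbsGal K₀ →* AbsGal K₀, ∀ σ, emb α (κ σ) = c * emb α σ * c := by
    refine ⟨MonoidHom.mk' κ₀ fun σ τ => emb_inj α ?_, hκ₀⟩
    rw [hκ₀, map_mul, map_mul, hκ₀, hκ₀]
    have h5 : c * emb α σ * c * (c * emb α τ * c) = c * emb α σ * (c * c) * emb α τ * c := by
      simp only [mul_assoc]
    rw [h5, hc1, mul_one]
    simp only [mul_assoc]
  obtain ⟨inv, hloc, htwo, htame, hrec⟩ := exists_qloc α hK hc hcs hκ hqT hP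
  refine ⟨inv, hloc, htwo, htame, ?_⟩
  intro F hF h1 h2 h3
  obtain ⟨u, hu1, hu2, hu3, hu4⟩ := qrec α hc hcc hκ hF h1 h2 h3
  -- the conjugation of the closure of `K₀`
  obtain ⟨c₀, hc₀⟩ : ∃ c₀ : AlgebraicClosure K₀ ≃+* AlgebraicClosure K₀,
      ∀ x, c₀ x = α.symm (c (α x)) := ⟨(α.trans c).trans α.symm, fun x => rfl⟩
  have hconj : PA.IsConj s c₀ := by
    constructor
    · intro x
      rw [hc₀, hc₀, α.apply_symm_apply, hc, α.symm_apply_apply]
    · rw [hc₀, hcs, map_neg, α.symm_apply_apply]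
  have hκ' : ∀ (σ : AbsGal K₀) (x : AlgebraicClosure K₀), κ σ x = c₀ (σ (c₀ x)) := by
    intro σ x
    have h4 := DFunLike.congr_fun (hκ σ) (α x)
    rw [emb_apply, α.symm_apply_apply] at h4
    change α (κ σ x) = c (emb α σ (c (α x))) at h4
    rw [emb_apply, ← hc₀] at h4
    rw [hc₀ (σ (c₀ x)), ← h4, α.symm_apply_apply]
  obtain ⟨θ, φ, hθ1, hφ1, hθ2, hφ2, Q₀, hQ₀, hqQ₀, hθQ⟩ := exists_theta0 hK hconj hκ' hqT
  obtain ⟨Q, hQ, rfl⟩ := exists_pb α hQ₀
  have hqQ : (q : 𝓞 Ω) ∈ Q := (pb_nat α q).1 hqQ₀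
  have hnat := nat_mem hq hQ hqQ
  have h2Q : (2 : 𝓞 Ω) ∉ Q := by
    intro h4
    have h5 : (q : ℤ) ∣ 2 := (hnat 2).1 (by exact_mod_cast h4)
    have h6 : q ∣ 2 := by exact_mod_cast h5
    have h7 := Nat.le_of_dvd (by norm_num) h6
    omega
  have hTQ : ∀ l ∈ T, (l : 𝓞 Ω) ∉ Q := by
    intro l hl h4
    have h5 : (q : ℤ) ∣ (l : ℤ) := (hnat l).1 (by exact_mod_cast h4)
    have h6 : q ∣ l := by exact_mod_cast h5
    exact (hqT l hl).2.2.1 ((Nat.prime_dvd_prime_iff_eq hq (hqT l hl).1).1 h6).symm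
  have hin : emb α θ * c ∈ inr Q := by
    intro x
    obtain ⟨y, rfl⟩ := (RingOfIntegers.mapRingEquiv α).surjective x
    have e1 : og c (RingOfIntegers.mapRingEquiv α y) =
        RingOfIntegers.mapRingEquiv α (og c₀ y) := by
      apply RingOfIntegers.ext
      change c (α (y : AlgebraicClosure K₀)) = α (c₀ (y : AlgebraicClosure K₀))
      rw [hc₀, α.apply_symm_apply]
    rw [og_mul, e1, og_emb, ← map_sub]
    exact (mem_pb α).1 (hθQ y)
  obtain ⟨h5, h6⟩ := hu4 θ φ ⟨Q, hQ, h2Q, hTQ, hin⟩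
  exact hrec θ φ hθ2 hφ2 hθ1 hφ1 F u hF h1 h2 hu1 hu2 hu3 h5 h6

end Pool.Agent.Work.MP_787500_nt.HP
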