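import Mathlib
import Pool.Agent.Work.MP_787500_nt.HP.KSum
import Pool.Agent.Work.MP_787500_nt.HP.QData

/-!
# Module KDATA (size M): existence of the local invariants over `K`

`Ω = AlgebraicClosure K`, `α = RingEquiv.refl _`: `emb α σ` is `σ` as a ring automorphism, and `pb α Q = Q` (`Ideal.ext`). Every `p ∈ D.primeFactors` is in some
prime `R p` of `𝓞 Ω` (`(p) ≠ ⊤`, since `1 / p` is not an algebraic integer: `Ideal.exists_le_maximal`; or by lying over for `𝓞 K`). Put
`P' l = if l ∈ D.primeFactors then R l else P l`: `IsP (T ∪ D.primeFactors) P'` (all prime divisors of `D` are odd: `D % 8 = 7`), and `P' l = P l` for `l = 2` or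
`l ∈ T` (`Spl D l` gives `¬ l ∣ D`). `exists_qdat` (`alg_closure K`, `hc.sq`, `c s = -s ≠ s`) for `T ∪ D.primeFactors` and `P'`; `cyQ c = -1` by `cyQ_conj`; then
`exists_kdat`. `(fun w => pb α (PP P' w)) = PP P` by `funext`, cases on `w`: rewrite with it (`subst` after generalizing).
-/

set_option autoImplicit false
set_option linter.unusedSectionVars false

namespace Pool.Agent.Work.MP_787500_nt.HP

open IsDedekindDomain NumberField
open Pool.Agent.Work.MP_787500_nt.PA (TwoSys Sm1 Sm2 homs Coc Cob IsChar cyc Opn)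
open Pool.Agent.Work.MP_787500_nt.GP

universe u

variable {K : Type u} [Field K] [NumberField K]

private theorem exists_prime_over {Ω : Type u} [Field Ω] [CharZero Ω] {p : ℕ} (hp : p.Prime) :
    ∃ Q : Ideal (𝓞 Ω), Q.IsPrime ∧ (p : 𝓞 Ω) ∈ Q := by
  have h1 : (Ideal.span {(p : 𝓞 Ω)}) ≠ ⊤ := by
    intro h
    rw [Ideal.span_singleton_eq_top] at h
    obtain ⟨y, hy⟩ := isUnit_iff_exists_inv.1 h
    have h2 : (p : Ω) * (y : Ω) = 1 := by
      have h3 := congrArg (fun z : 𝓞 Ω => (z : Ω)) hy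
      simpa using h3
    have hp0 : (p : Ω) ≠ 0 := Nat.cast_ne_zero.2 hp.ne_zero
    have h4 : (y : Ω) = algebraMap ℚ Ω ((p : ℚ)⁻¹) := by
      rw [map_inv₀, map_natCast]
      exact eq_inv_of_mul_eq_one_right h2
    have h5 : IsIntegral ℤ (y : Ω) := y.2
    rw [h4, isIntegral_algebraMap_iff (algebraMap ℚ Ω).injective] at h5
    obtain ⟨z, hz⟩ := (IsIntegrallyClosed.isIntegral_iff (R := ℤ) (K := ℚ)).1 h5
    have h6 : (z : ℚ) = (p : ℚ)⁻¹ := hz
    have hp0' : (p : ℚ) ≠ 0 := Nat.cast_ne_zero.2 hp.ne_zero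
    have h7 : (z : ℚ) * p = 1 := by rw [h6, inv_mul_cancel₀ hp0']
    have h8 : z * (p : ℤ) = 1 := by exact_mod_cast h7
    have h9 : (p : ℤ) ∣ 1 := ⟨z, by rw [← h8]; ring⟩
    have h10 : p ∣ 1 := by exact_mod_cast h9
    exact hp.one_lt.ne' (Nat.dvd_one.1 h10)
  obtain ⟨M, hM, hle⟩ := Ideal.exists_le_maximal _ h1
  exact ⟨M, hM.isPrime, hle (Ideal.mem_span_singleton_self _)⟩

private theorem pb_refl (Q : Ideal (𝓞 (AlgebraicClosure K))) :
    pb (RingEquiv.refl (AlgebraicClosure K)) Q = Q := by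
  ext x
  rw [mem_pb]
  have h1 : RingOfIntegers.mapRingEquiv (RingEquiv.refl (AlgebraicClosure K)) x = x :=
    RingOfIntegers.ext rfl
  rw [h1]

private theorem kdat_congr {D : ℕ} {κ : AbsGal K →* AbsGal K} {T : Finset ℕ}
    {X Y : Option T → Ideal (𝓞 (AlgebraicClosure K))} (h : X = Y)
    (hX : ∃ (inv : ∀ w : Option T, (stabD (X w) → stabD (X w) → A0) → A0)
      (θ φ : ℕ → AbsGal K) (m : ℕ → ℤ) (v : ℕ → ℤ_[2]), KDat D κ T X inv θ φ m v) :
    ∃ (inv : ∀ w : Option T, (stabD (Y w) → stabD (Y w) → A0) → A0)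
      (θ φ : ℕ → AbsGal K) (m : ℕ → ℤ) (v : ℕ → ℤ_[2]), KDat D κ T Y inv θ φ m v := by
  subst h
  exact hX

theorem exists_kdata {D : ℕ} {s : K} (hK : IsQ K D s)
    {c : AlgebraicClosure K ≃+* AlgebraicClosure K} (hc : PA.IsConj s c) {κ : AbsGal K →* AbsGal K}
    (hκ : ∀ (σ : AbsGal K) (x : AlgebraicClosure K), κ σ x = c (σ (c x))) {T : Finset ℕ}
    (hT : ∀ l ∈ T, Spl D l) {P : ℕ → Ideal (𝓞 (AlgebraicClosure K))} (hP : IsP T P) :
    ∃ (inv : ∀ w : Option T, (stabD (PP P w) → stabD (PP P w) → A0) → A0)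
      (θ φ : ℕ → AbsGal K) (m : ℕ → ℤ) (v : ℕ → ℤ_[2]), KDat D κ T (PP P) inv θ φ m v := by
  classical
  have hR : ∀ p : ℕ, ∃ Q : Ideal (𝓞 (AlgebraicClosure K)), p.Prime →
      Q.IsPrime ∧ (p : 𝓞 (AlgebraicClosure K)) ∈ Q := by
    intro p
    by_cases hp : p.Prime
    · obtain ⟨Q, hQ⟩ := exists_prime_over (Ω := AlgebraicClosure K) hp
      exact ⟨Q, fun _ => hQ⟩
    · exact ⟨⊥, fun h => absurd h hp⟩
  choose R hR using hR
  have hD0 : D ≠ 0 := by
    rintro rfl
    have := hK.mod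
    omega
  have h2D : 2 ∉ D.primeFactors := by
    intro h
    have h1 := Nat.dvd_of_mem_primeFactors h
    have := hK.mod
    omega
  have hTD : ∀ l ∈ T, l ∉ D.primeFactors := by
    intro l hl h
    exact (hT l hl).2.2.1 (Nat.dvd_of_mem_primeFactors h)
  obtain ⟨P', hP'⟩ : ∃ P' : ℕ → Ideal (𝓞 (AlgebraicClosure K)),
      P' = fun l => if l ∈ D.primeFactors then R l else P l := ⟨_, rfl⟩
  have hin : ∀ l, l ∈ D.primeFactors → P' l = R l := by
    intro l hl
    rw [hP']
    exact if_pos hl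
  have hout : ∀ l, l ∉ D.primeFactors → P' l = P l := by
    intro l hl
    rw [hP']
    exact if_neg hl
  have hIsP : IsP (T ∪ D.primeFactors) P' := by
    refine ⟨fun l hl => ?_, fun l hl => ?_, fun l hl => ?_, fun l hl => ?_⟩
    · rcases Finset.mem_union.1 hl with h | h
      · exact hP.prime l h
      · exact Nat.prime_of_mem_primeFactors h
    · rcases Finset.mem_union.1 hl with h | h
      · exact hP.odd l h
      · rintro rfl
        exact h2D h
    · by_cases h : l ∈ D.primeFactors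
      · rw [hin l h]
        exact (hR l (Nat.prime_of_mem_primeFactors h)).1
      · rw [hout l h]
        refine hP.isPrime l ?_
        rcases hl with h3 | h3
        · rcases Finset.mem_union.1 h3 with h4 | h4
          · exact Or.inl h4
          · exact absurd h4 h
        · exact Or.inr h3
    · by_cases h : l ∈ D.primeFactors
      · rw [hin l h]
        exact (hR l (Nat.prime_of_mem_primeFactors h)).2
      · rw [hout l h]
        refine hP.mem l ?_
        rcases hl with h3 | h3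
        · rcases Finset.mem_union.1 h3 with h4 | h4
          · exact Or.inl h4
          · exact absurd h4 h
        · exact Or.inr h3
  have hs0 : s ≠ 0 := by
    rintro rfl
    have h1 := hK.sq
    rw [zero_pow two_ne_zero, eq_comm, neg_eq_zero, Nat.cast_eq_zero] at h1
    exact hD0 h1
  have hne : ∃ x, c x ≠ x := by
    refine ⟨algebraMap K (AlgebraicClosure K) s, ?_⟩
    rw [hc.neg]
    intro h
    have h1 : algebraMap K (AlgebraicClosure K) s = 0 := self_eq_neg.1 h.symm
    exact hs0 ((map_eq_zero _).1 h1)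
  obtain ⟨invQ, hQ⟩ := exists_qdat (alg_closure K) hc.sq hne hIsP
  have hκ' : ∀ σ, emb (RingEquiv.refl (AlgebraicClosure K)) (κ σ) =
      c * emb (RingEquiv.refl (AlgebraicClosure K)) σ * c := by
    intro σ
    ext x
    exact hκ σ x
  have h3 := exists_kdat (RingEquiv.refl (AlgebraicClosure K)) hK hc.sq hc.neg
    (cyQ_conj hc.sq hne) hκ' hT hIsP hQ
  refine kdat_congr ?_ h3
  funext w
  rw [pb_refl]
  cases w with
  | none => exact hout 2 h2D
  | some l => exact hout l (hTD l l.2)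

end Pool.Agent.Work.MP_787500_nt.HP
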