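import Mathlib
import Pool.Agent.Work.MP_787500_nt.HP.KData
import Pool.Agent.Work.MP_787500_nt.HP.GlobF
import Pool.Agent.Work.MP_787500_nt.HP.PlCount
import Pool.Agent.Work.MP_787500_nt.HP.ShaK
import Pool.Agent.Work.MP_787500_nt.HN.CountT
import Pool.Agent.Work.MP_787500_nt.GP.B3_Inj
import Pool.Agent.Work.MP_787500_nt.GP.G2_TameHoms

/-!
# Module PARK (size M): the hypotheses `ParHF` over `K`

`exists_kdata` gives `KDat`. `SumH (sysT K T) ... cyc inv κ D.primeFactors θ φ m v` (`HP/GlobF.lean`): `char`: `PA.isChar_cyc` (a `Good` subgroup is `GoodT`, see the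
private `bi_char` in `GP/B3_Inj.lean`); `loc`, `mm`, `tht`, `phi`, `tk`, `fk`, `sum`: fields of `KDat` (`sysT K T` has the members `GoodT K T W` by definition);
`jsm`: `W.subgroupOf D` is a member of `subSys D` (open: `Gn.GoodG.isOpen`, normal, index divides the index of `W`, see `sysD` in `GP/BDefs.lean`); `kk`, `kchi`: `PA.isInvol hc.sq hκ`;
`ksys`: `kapT hc hκ T`.
Then `SumH.parHF`: `D.primeFactors` is nonempty (`D % 8 = 7`, so `D ≠ 1`, `D ≠ 0`); `hinj`: `inj_K`; `hsha`: `sha_K` (`totallyComplex hK`); `hfin`, `hcount`: `HN.count_T` with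
`card_places` and `m = 1` (`finrank ℚ K = 2`): the dimension is `1 + (2 + 2 * T.card) = 3 + 2 * T.card`; the sum over `Option T` is `3 + ∑ l : T, 2` by `KDat.two` and
`tame_homs` (`GP/G2_TameHoms.lean`) applied to the `TameD` of `KDat.tame`.
`Θ = {p | ∃ n ∈ D.primeFactors, p = (θ n, φ n)}`, `cyc p.1 = -1` by `tht`.
-/

set_option autoImplicit false
set_option linter.unusedSectionVars false

namespace Pool.Agent.Work.MP_787500_nt.HP

open IsDedekindDomain NumberField
open Pool.Agent.Work.MP_787500_nt.PA (TwoSys Sm1 Sm2 homs Coc Cob IsChar cyc Opn)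
open Pool.Agent.Work.MP_787500_nt.GP
open Pool.Agent.Work.MP_787500_nt.HN (LCob OddT InjT)

universe u

variable {K : Type u} [Field K] [NumberField K] {D : ℕ} {s : K}
  {c : AlgebraicClosure K ≃+* AlgebraicClosure K} {κ : AbsGal K →* AbsGal K} {T : Finset ℕ}
  {P : ℕ → Ideal (𝓞 (AlgebraicClosure K))}

private theorem char_sysT (T : Finset ℕ) : IsChar (sysT K T) (cyc (K := K)) := by
  have h := PA.isChar_cyc (K := K)
  refine ⟨h.one, h.mul, fun n => ?_, h.odd⟩
  obtain ⟨W, hW, h1⟩ := h.cont n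
  exact ⟨W, Good.goodT hW T, h1⟩

theorem exists_parHF (hK : IsQ K D s) (hc : PA.IsConj s c)
    (hκ : ∀ (σ : AbsGal K) (x : AlgebraicClosure K), κ σ x = c (σ (c x)))
    (hT : ∀ l ∈ T, Spl D l) (hO : OddT K T) (hI : InjT K T) (hP : IsP T P) :
    ∃ (inv : ∀ w : Option T, (stabD (PP P w) → stabD (PP P w) → A0) → A0)
      (Θ : Set (AbsGal K × AbsGal K)),
      ParHF (sysT K T) (fun w : Option T => subSys (stabD (PP P w)))
        (fun w => (stabD (PP P w)).subtype) cyc inv κ Θ ∧
      (∀ p ∈ Θ, cyc p.1 = -1) ∧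
      ∀ l : T, ∃ (a : stabD (P l) → ℤ_[2]) (u : ℤ_[2]) (σ τ : stabD (P l)),
        IsUnit u ∧ (τ : AbsGal K) ∈ (P l).inertia (AbsGal K) ∧
        TameD (subSys (stabD (P l))) (fun d => cyc (d : AbsGal K)) a σ τ l ∧
        ∀ f, inv (some l) f = u • iota σ τ l f := by
  obtain ⟨inv, θ, φ, m, v, hd⟩ := exists_kdata hK hc hκ hT hP
  have htc := totallyComplex hK
  obtain ⟨A, hA, hAc⟩ := card_places hK hT
  obtain ⟨hfin, hfr⟩ := HN.count_T hO hA (m := 1) (by rw [hK.deg])
  have hinv := PA.isInvol hc.sq hκ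
  have hopen : ∀ W, (sysT K T).mem W → IsOpen (W : Set (AbsGal K)) :=
    fun W hW => Gn.GoodG.isOpen hW
  have H : SumH (sysT K T) (fun w : Option T => subSys (stabD (PP P w)))
      (fun w => (stabD (PP P w)).subtype) cyc inv κ D.primeFactors θ φ m v :=
    { char := char_sysT T
      loc := hd.loc
      jsm := fun w W hW => by
        have hn : W.Normal := (sysT K T).normal hW
        refine ⟨W.subgroupOf _, ⟨⟨W, hopen W hW, le_rfl⟩, inferInstance, ?_⟩, fun v hv => hv⟩
        obtain ⟨k, hk⟩ := (sysT K T).index hW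
        have h4 : (W.subgroupOf (stabD (PP P w))).index ∣ W.index :=
          Subgroup.relIndex_dvd_index_of_normal W _
        rw [hk] at h4
        obtain ⟨m, _, hm⟩ := (Nat.dvd_prime_pow Nat.prime_two).1 h4
        exact ⟨m, hm⟩
      kk := fun g => by
        ext x
        rw [hκ, hκ, hc.sq, hc.sq]
      ksys := fun W hW => by
        obtain ⟨W', hW', hWW⟩ := kapT hc hκ T hW
        exact ⟨W', hW', fun x hx => (hWW x).1 hx⟩
      kchi := fun g => hinv.chi g
      mm := hd.mm
      tht := hd.tht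
      phi := hd.phi
      tk := hd.tk
      fk := hd.fk
      sum := hd.sum }
  have hne : D.primeFactors.Nonempty := by
    rw [Nat.nonempty_primeFactors]
    have := hK.mod
    omega
  have hcount : Module.finrank (ZMod 2) (homs (sysT K T) ⊤) =
      ∑ w : Option T, Module.finrank (ZMod 2) (homs (subSys (stabD (PP P w))) ⊤) := by
    rw [Fintype.sum_option, hd.two, hfr, hAc]
    have h2 : ∀ l : T, Module.finrank (ZMod 2) (homs (subSys (stabD (PP P (some l)))) ⊤) = 2 := by
      intro l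
      obtain ⟨a, u, σ, τ, -, -, ht, -⟩ := hd.tame l
      exact (tame_homs ht).2
    rw [Finset.sum_congr rfl fun l _ => h2 l, Finset.sum_const, Finset.card_univ,
      Fintype.card_coe, smul_eq_mul]
    ring
  refine ⟨inv, {p | ∃ n ∈ D.primeFactors, p = (θ n, φ n)}, H.parHF hne hfin ?_ ?_ hcount, ?_,
    hd.tame⟩
  · intro ω hω h1 h2
    exact inj_K hK hc hκ hI hP hω h1 h2
  · intro f hf h1 h2
    exact sha_K hK hc hκ hO hP hf h1 h2
  · rintro p ⟨n, hn, rfl⟩
    exact hd.tht n hn

end Pool.Agent.Work.MP_787500_nt.HP
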