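import Mathlib
import Pool.Agent.Work.MP_787500_nt.HP.ParK
import Pool.Agent.Work.MP_787500_nt.HP.FamL20
import Pool.Agent.Work.MP_787500_nt.GP.LT2_Sep
import Pool.Agent.Work.MP_787500_nt.PA.KapK

/-!
The parity formula for a sufficiently large set `T` of split primes.
-/

set_option autoImplicit false
set_option linter.unusedSectionVars false

namespace Pool.Agent.Work.MP_787500_nt.HP

open IsDedekindDomain NumberField
open Pool.Agent.Work.MP_787500_nt.PA (TwoSys Sm1 Sm2 homs Coc Cob IsChar cyc Opn toE)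
open Pool.Agent.Work.MP_787500_nt.GP
open Pool.Agent.Work.MP_787500_nt.HN (LCob OddT InjT)

universe u w

theorem parity_big {K : Type u} [Field K] [NumberField K] {D : ℕ} {s : K} (hK : IsQ K D s)
    {c : AlgebraicClosure K ≃+* AlgebraicClosure K} (hc : PA.IsConj s c)
    {κ : AbsGal K → AbsGal K}
    (hκ : ∀ (σ : AbsGal K) (x : AlgebraicClosure K), κ σ x = c (σ (c x))) {T : Finset ℕ}
    (hT : ∀ l ∈ T, Spl D l) (hO : OddT K T) (hI : InjT K T)
    {P : ℕ → Ideal (𝓞 (AlgebraicClosure K))} (hP : IsP T P)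
    {E : Type w} [NormedField E] [NormedAlgebra ℚ_[2] E] [FiniteDimensional ℚ_[2] E] {n : ℕ}
    {ρ : AbsGal K →* Matrix (Fin n) (Fin n) E} {b : Matrix (Fin n) (Fin n) E} (hb : b.det ≠ 0)
    (hρ : Parity.IsConjDual (inT K T) (Parity.cyclo E) κ ρ b) :
    Parity.ParityFormula (inT K T) (Parity.cyclo E) κ ρ b
      (fun w : Option T => stabD (PP P w)) := by
  let κ' : AbsGal K →* AbsGal K := MonoidHom.mk' κ fun g h => by
    ext x
    rw [hκ, AlgEquiv.mul_apply, AlgEquiv.mul_apply, hκ, hκ, hc.sq]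
  have hcyc : (Parity.cyclo E : AbsGal K → E) = fun g => toE E (cyc g) := rfl
  obtain ⟨inv, Θ, H, hΘ, -⟩ := exists_parHF hK hc (κ := κ') hκ hT hO hI hP
  have hD : ∀ w : Option T, IsClosed (stabD (PP P w) : Set (AbsGal K)) := fun w => stabD_closed _
  have hbasis : ∀ O ∈ nhds (1 : AbsGal K), ∃ U : Subgroup (AbsGal K),
      IsOpen (U : Set (AbsGal K)) ∧ (U : Set (AbsGal K)) ⊆ O := by
    intro O hO
    obtain ⟨V, hV, hVO⟩ := (krullTopology_mem_nhds_one_iff K (AlgebraicClosure K) O).1 hO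
    exact ⟨V.fixingSubgroup, V.fixingSubgroup_isOpen, hVO⟩
  have hρ' : Gn.ConjDual 2 (⊤ : Subgroup (AbsGal K)) (inT K T) (fun g => toE E (cyc g)) κ' ρ b :=
    ⟨hρ.cont, fun σ _ => hρ.proTwo σ, hρ.unram, hρ.symm, hρ.dual⟩
  rw [hcyc]
  exact final_fam (baseT K T) hbasis (S := sysT K T) (fun W => Iff.rfl) hD
    (PA.kappa_continuous hc.sq hκ) H hΘ hb hρ'

end Pool.Agent.Work.MP_787500_nt.HP
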