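import Mathlib
import Pool.Agent.Work.MP_787500_nt.HP.AuxSel
import Pool.Agent.Work.MP_787500_nt.HP.Big
import Pool.Agent.Work.MP_787500_nt.HN.ExT

/-!
The parity formula over every imaginary quadratic field in which 2 splits, for representations ramified
at 2 and at a finite set of primes that split.
-/

set_option autoImplicit false
set_option linter.unusedSectionVars false

namespace Pool.Agent.Work.MP_787500_nt.HP

open IsDedekindDomain NumberField
open Pool.Agent.Work.MP_787500_nt.PA (TwoSys Sm1 Sm2 homs Coc Cob IsChar cyc Opn toE)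
open Pool.Agent.Work.MP_787500_nt.GP
open Pool.Agent.Work.MP_787500_nt.HN (LCob OddT InjT)

universe u w

/-- there is a prime of the ring of all algebraic integers above every prime number -/
theorem prime_over_nat {Ω : Type u} [Field Ω] [CharZero Ω] {p : ℕ} (hp : p.Prime) :
    ∃ Q : Ideal (𝓞 Ω), Q.IsPrime ∧ (p : 𝓞 Ω) ∈ Q := by
  have h1 : (Ideal.span {(p : 𝓞 Ω)}) ≠ ⊤ := by
    intro h
    rw [Ideal.span_singleton_eq_top] at h
    obtain ⟨y, hy⟩ := isUnit_iff_exists_inv.1 h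
    have h2 : (p : Ω) * (y : Ω) = 1 := by
      have h3 := congrArg (fun z : 𝓞 Ω => (z : Ω)) hy
      simpa using h3
    have hp0 : (p : Ω) ≠ 0 := Nat.cast_ne_zero.2 hp.ne_zero
    have h4 : (y : Ω) = algebraMap ℚ Ω ((p : ℚ)⁻¹) := by
      rw [map_inv₀, map_natCast]
      exact eq_inv_of_mul_eq_one_right h2
    have h5 : IsIntegral ℤ (y : Ω) := y.2
    rw [h4, isIntegral_algebraMap_iff (algebraMap ℚ Ω).injective] at h5
    obtain ⟨z, hz⟩ := (IsIntegrallyClosed.isIntegral_iff (R := ℤ) (K := ℚ)).1 h5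
    have h6 : (z : ℚ) = (p : ℚ)⁻¹ := hz
    have hp0' : (p : ℚ) ≠ 0 := Nat.cast_ne_zero.2 hp.ne_zero
    have h7 : (z : ℚ) * p = 1 := by rw [h6, inv_mul_cancel₀ hp0']
    have h8 : z * (p : ℤ) = 1 := by exact_mod_cast h7
    have h9 : (p : ℤ) ∣ 1 := ⟨z, by rw [← h8]; ring⟩
    have h10 : p ∣ 1 := by exact_mod_cast h9
    exact hp.one_lt.ne' (Nat.dvd_one.1 h10)
  obtain ⟨M, hM, hle⟩ := Ideal.exists_le_maximal _ h1
  exact ⟨M, hM.isPrime, hle (Ideal.mem_span_singleton_self _)⟩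

private theorem mn_congr {K : Type u} [Field K] {T : Finset ℕ} {E : Type w} [NormedField E] {n : ℕ}
    {I : Set (AbsGal K)} {χ : AbsGal K → E} {κ : AbsGal K → AbsGal K}
    {ρ : AbsGal K →* Matrix (Fin n) (Fin n) E} {b : Matrix (Fin n) (Fin n) E}
    {X Y : Option T → Ideal (𝓞 (AlgebraicClosure K))} (h : X = Y)
    (hX : Parity.ParityFormula I χ κ ρ b (fun w => stabD (X w))) :
    Parity.ParityFormula I χ κ ρ b (fun w => stabD (Y w)) := by
  subst h
  exact hX

theorem parity_K {K : Type u} [Field K] [NumberField K] {D : ℕ} {s : K} (hK : IsQ K D s)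
    {c : AlgebraicClosure K ≃+* AlgebraicClosure K} (hc : PA.IsConj s c)
    {κ : AbsGal K → AbsGal K}
    (hκ : ∀ (σ : AbsGal K) (x : AlgebraicClosure K), κ σ x = c (σ (c x))) {T : Finset ℕ}
    (hT : ∀ l ∈ T, Spl D l) {P : ℕ → Ideal (𝓞 (AlgebraicClosure K))} (hP : IsP T P)
    {E : Type w} [NormedField E] [NormedAlgebra ℚ_[2] E] [FiniteDimensional ℚ_[2] E] {n : ℕ}
    {ρ : AbsGal K →* Matrix (Fin n) (Fin n) E} {b : Matrix (Fin n) (Fin n) E} (hb : b.det ≠ 0)
    (hρ : Parity.IsConjDual (inT K T) (Parity.cyclo E) κ ρ b) :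
    Parity.ParityFormula (inT K T) (Parity.cyclo E) κ ρ b
      (fun w : Option T => stabD (PP P w)) := by
  classical
  have hcx : IsTotallyComplex K := totallyComplex hK
  have hR : ∀ p : ℕ, ∃ Q : Ideal (𝓞 (AlgebraicClosure K)), p.Prime →
      Q.IsPrime ∧ (p : 𝓞 (AlgebraicClosure K)) ∈ Q := by
    intro p
    by_cases hp : p.Prime
    · obtain ⟨Q, hQ⟩ := prime_over_nat (Ω := AlgebraicClosure K) hp
      exact ⟨Q, fun _ => hQ⟩
    · exact ⟨⊥, fun h => absurd h hp⟩
  choose R hR using hR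
  have hD0 : D ≠ 0 := by
    rintro rfl
    have := hK.mod
    omega
  obtain ⟨T', hTT, hT', hO, hI⟩ := HN.exists_good_T hK.deg hD0 hK.sq (T₀ := T) (fun l hl => hT l hl)
  let P' : ℕ → Ideal (𝓞 (AlgebraicClosure K)) := fun l => if l ∈ T ∨ l = 2 then P l else R l
  have hin : ∀ l, (l ∈ T ∨ l = 2) → P' l = P l := fun l hl => if_pos hl
  have hout : ∀ l, ¬ (l ∈ T ∨ l = 2) → P' l = R l := fun l hl => if_neg hl
  have hIsP : IsP T' P' := by
    refine ⟨fun l hl => (hT' l hl).1, fun l hl => (hT' l hl).2.1, fun l hl => ?_, fun l hl => ?_⟩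
    · by_cases h : l ∈ T ∨ l = 2
      · rw [hin l h]
        exact hP.isPrime l h
      · rw [hout l h]
        push Not at h
        exact (hR l (hT' l (hl.resolve_right h.2)).1).1
    · by_cases h : l ∈ T ∨ l = 2
      · rw [hin l h]
        exact hP.mem l h
      · rw [hout l h]
        push Not at h
        exact (hR l (hT' l (hl.resolve_right h.2)).1).2
  let κ' : AbsGal K →* AbsGal K := MonoidHom.mk' κ fun g h => by
    ext x
    rw [hκ, AlgEquiv.mul_apply, AlgEquiv.mul_apply, hκ, hκ, hc.sq]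
  have hρ' : Parity.IsConjDual (inT K T') (Parity.cyclo E) κ ρ b :=
    ⟨hρ.cont, hρ.proTwo, fun σ hσ => hρ.unram σ (inT_mono hTT hσ), hρ.symm, hρ.dual⟩
  have hbig := parity_big hK hc hκ (fun l hl => hT' l hl) hO hI hIsP hb hρ'
  obtain ⟨inv, Θ, -, -, htame⟩ := exists_parHF hK hc (κ := κ') hκ (fun l hl => hT' l hl) hO hI hIsP
  have htm : TameP T' P' := by
    intro l hl
    obtain ⟨a, u, σ, τ, -, hτ, h, -⟩ := htame ⟨l, hl⟩
    exact ⟨a, σ, τ, hτ, h⟩
  have hdesc := parity_desc (κ := κ') hK hc hκ hTT hIsP htm hρ hb hbig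
  have hPP : (PP P' : Option T → Ideal (𝓞 (AlgebraicClosure K))) = PP P := by
    funext w
    match w with
    | none => exact hin 2 (Or.inr rfl)
    | some l => exact hin l (Or.inl l.2)
  exact mn_congr hPP hdesc

end Pool.Agent.Work.MP_787500_nt.HP
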