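import Mathlib
import Pool.Agent.Work.MP_787500_nt.HP.Main
import Pool.Agent.Work.MP_787500_nt.HP.DecB
import Pool.Agent.Work.MP_787500_nt.GP.A3_Both

/-!
The parity formula over every imaginary quadratic field in which 2 splits, and the upper bound for prime
discriminants, in one statement.
-/

set_option autoImplicit false
set_option linter.unusedSectionVars false

namespace Pool.Agent.Work.MP_787500_nt.HP

open IsDedekindDomain NumberField
open Pool.Agent.Work.MP_787500_nt.Parity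
open Pool.Agent.Work.MP_787500_nt.GP (inT stabD TwistAt)

universe u w

private theorem bt_congr {K : Type u} [Field K] {T : Finset ℕ} {E : Type w} [NormedField E] {n : ℕ}
    {I : Set (AbsGal K)} {χ : AbsGal K → E} {κ : AbsGal K → AbsGal K}
    {ρ : AbsGal K →* Matrix (Fin n) (Fin n) E} {b : Matrix (Fin n) (Fin n) E} {w0 : Option T}
    {A : Prop} {X Y : Option T → Subgroup (AbsGal K)} (h : X = Y)
    (hX : ParityAndBound I χ κ ρ b X w0 A) : ParityAndBound I χ κ ρ b Y w0 A := by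
  subst h
  exact hX

theorem both_K (K : Type u) [Field K] [NumberField K] (D : ℕ) (s : K) (hK : IsQ K D s)
    (c : AlgebraicClosure K ≃+* AlgebraicClosure K) (hc : ∀ x, c (c x) = x)
    (hcs : c (algebraMap K (AlgebraicClosure K) s) = -algebraMap K (AlgebraicClosure K) s)
    (κ : AbsGal K → AbsGal K)
    (hκ : ∀ (σ : AbsGal K) (x : AlgebraicClosure K), κ σ x = c (σ (c x)))
    (T : Finset ℕ) (hT : ∀ l ∈ T, Spl D l) (P : ℕ → Ideal (𝓞 (AlgebraicClosure K)))
    (hP : ∀ l, l ∈ T ∨ l = 2 → (P l).IsPrime ∧ (l : 𝓞 (AlgebraicClosure K)) ∈ P l)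
    (E : Type w) [NormedField E] [NormedAlgebra ℚ_[2] E] [FiniteDimensional ℚ_[2] E] (n : ℕ)
    (ρ : AbsGal K →* Matrix (Fin n) (Fin n) E) (b : Matrix (Fin n) (Fin n) E) (hb : b.det ≠ 0)
    (hρ : IsConjDual (inT K T) (cyclo E) κ ρ b) :
    ParityAndBound (inT K T) (cyclo E) κ ρ b (fun w : Option T => stabD (PP P w)) none
      (D.Prime ∧ D % 16 = 7 ∧ ∀ Q : Ideal (𝓞 (AlgebraicClosure K)), Q.IsPrime →
        (∃ l ∈ T, (l : 𝓞 (AlgebraicClosure K)) ∈ Q) → TwistAt ρ Q) := by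
  have hIsP : IsP T P := ⟨fun l hl => (hT l hl).1, fun l hl => (hT l hl).2.1,
    fun l hl => (hP l hl).1, fun l hl => (hP l hl).2⟩
  have hform := parity_K hK ⟨hc, hcs⟩ hκ hT hIsP hb hρ
  intro L hL
  obtain ⟨h1, h2, h3, h4⟩ := hform L hL
  refine ⟨h1, h2, h3, h4, ?_⟩
  rintro ⟨hD, hD16, htw⟩
  have h2l : ((2 : ℕ) : 𝓞 (AlgebraicClosure K)) ∈ P 2 := (hP 2 (Or.inr rfl)).2
  obtain ⟨v, ι, hv, hdec⟩ := exists_dec (hP 2 (Or.inr rfl)).1 Nat.prime_two h2l
  have hv' : (2 : 𝓞 K) ∈ v.asIdeal := by exact_mod_cast hv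
  have hsp : ∀ l ∈ T, GP.SplitPr D l := by
    intro l hl
    obtain ⟨h5, h6, h7, h8⟩ := hT l hl
    exact ⟨h5, h6, fun h => h7 (h ▸ dvd_rfl), h8⟩
  have hboth := GP.both K D s ⟨hK.deg, hK.sq, hD, hD16⟩ v hv' ι c hc hcs κ hκ T hsp P
    (fun l hl => hP l (Or.inl hl)) E n ρ b (Or.inr hb) hρ
  have hDD : GP.DD ι (T := T) P = fun w : Option T => stabD (PP P w) := by
    funext w
    match w with
    | none => exact hdec
    | some l => rfl
  obtain ⟨-, -, -, -, h5⟩ := bt_congr hDD hboth L hL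
  exact h5 htw

end Pool.Agent.Work.MP_787500_nt.HP
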