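import Mathlib
import Pool.Agent.Work.MP_787500_nt.HP.UrFull
import Pool.Agent.Work.MP_787500_nt.HP.BKDefs
import Pool.Agent.Work.MP_787500_nt.HP.Both

/-!
The parity formula for Selmer groups with the condition of Bloch and Kato at all primes not above 2.
-/

set_option autoImplicit false
set_option linter.unusedSectionVars false

namespace Pool.Agent.Work.MP_787500_nt.HP

open Matrix NumberField
open Pool.Agent.Work.MP_787500_nt.PA (TwoSys Sm1 Sm2 homs Coc Cob IsChar cyc toE)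
open Pool.Agent.Work.MP_787500_nt.GP

universe u w

/-- the continuous cocycles of the decomposition group of `P` whose restriction to the inertia group is
a coboundary -/
def fLoc {K : Type u} [Field K] {E : Type*} [NormedField E] {n : ℕ}
    (P : Ideal (𝓞 (AlgebraicClosure K))) (A : stabD P → Matrix (Fin n) (Fin n) E) :
    Submodule E (stabD P → Fin n → E) where
  carrier := {x | Parity.IsCocycle A x ∧ ∃ v, ∀ d : stabD P, (d : AbsGal K) ∈
    P.inertia (AbsGal K) → x d = A d *ᵥ v - v}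
  add_mem' := by
    rintro x y ⟨h1, v, hv⟩ ⟨h2, w, hw⟩
    refine ⟨h1.add h2, v + w, fun d hd => ?_⟩
    rw [Pi.add_apply, hv d hd, hw d hd, mulVec_add]
    abel
  zero_mem' := ⟨Parity.IsCocycle.zero A, 0, fun d _ => by rw [mulVec_zero, sub_zero]; rfl⟩
  smul_mem' := by
    rintro c x ⟨h1, v, hv⟩
    refine ⟨h1.smul c, c • v, fun d hd => ?_⟩
    rw [Pi.smul_apply, hv d hd, mulVec_smul, smul_sub]

section loc

variable {K : Type u} [Field K] [NumberField K] {P : Ideal (𝓞 (AlgebraicClosure K))}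
  {E : Type*} [NormedField E] [NormedAlgebra ℚ_[2] E] [FiniteDimensional ℚ_[2] E] {n : ℕ}
  {a : stabD P → ℤ_[2]} {σ τ : stabD P} {l : ℕ} {A B : stabD P → Matrix (Fin n) (Fin n) E}

theorem fLoc_eq (hP : P.IsPrime) (h2 : (2 : 𝓞 (AlgebraicClosure K)) ∉ P)
    (hT : TameD (subSys (stabD P)) (fun d => cyc (d : AbsGal K)) a σ τ l)
    (hτ : (τ : AbsGal K) ∈ P.inertia (AbsGal K)) (hA : ProRep A) :
    fLoc P A = fSub (subSys (stabD P)) A τ := by
  have hs := sub_small (basis_K K) (stabD_closed P) hA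
  ext x
  have hc := sub_coc (basis_K K) (stabD_closed P) hA (x := x)
  constructor
  · rintro ⟨h3, v, h4⟩
    exact ⟨hc.1 h3, v, h4 τ hτ⟩
  · rintro ⟨h3, v, h4⟩
    exact ⟨hc.2 h3, v, fun d hd => f_inertia hT hs h3 h4 (cyc_inertia hP h2 hd)⟩

theorem cob_le_fLoc (hA : ProRep A) : Parity.coboundaries A ≤ fLoc P A := by
  rintro x ⟨v, hv⟩
  obtain rfl : x = fun d => A d *ᵥ v - v := funext hv
  refine ⟨⟨?_, fun s t => ?_⟩, v, fun d _ => rfl⟩
  · exact (Continuous.matrix_mulVec hA.cont continuous_const).sub continuous_const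
  · simp only
    rw [hA.mul, mulVec_sub, mulVec_mulVec]
    abel

theorem even_fLoc (hP : P.IsPrime) (h2 : (2 : 𝓞 (AlgebraicClosure K)) ∉ P)
    (hT : TameD (subSys (stabD P)) (fun d => cyc (d : AbsGal K)) a σ τ l)
    (hτ : (τ : AbsGal K) ∈ P.inertia (AbsGal K)) (hA : ProRep A) :
    Even (Parity.dimModulo (fLoc P A) (Parity.coboundaries A) +
      Module.finrank E (Parity.fixedBy A)) := by
  have hs := sub_small (basis_K K) (stabD_closed P) hA
  obtain ⟨h3, h4⟩ := f_finrank hT hs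
  rw [← fLoc_eq hP h2 hT hτ hA] at h3 h4
  have h5 := dimModulo_add (cob_le_fLoc hA) h3
  have h6 := finrank_cob A
  refine ⟨Module.finrank E (Parity.fixedBy A), ?_⟩
  omega

theorem perp_fLoc (hP : P.IsPrime) (h2 : (2 : 𝓞 (AlgebraicClosure K)) ∉ P)
    (hT : TameD (subSys (stabD P)) (fun d => cyc (d : AbsGal K)) a σ τ l)
    (hτ : (τ : AbsGal K) ∈ P.inertia (AbsGal K)) (hA : ProRep A) (hB : ProRep B)
    {b : Matrix (Fin n) (Fin n) E} (hb : b.det ≠ 0)
    (hdual : ∀ d, (A d)ᵀ * b * B d = toE E (cyc (d : AbsGal K)) • b) {y : stabD P → Fin n → E} :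
    Parity.IsPerp (fun d : stabD P => toE E (cyc (d : AbsGal K))) B b
      (fLoc P A : Set (stabD P → Fin n → E)) y ↔ y ∈ fLoc P B := by
  have hsA := sub_small (basis_K K) (stabD_closed P) hA
  have hsB := sub_small (basis_K K) (stabD_closed P) hB
  have hd : ∀ d x y, bil b (A d *ᵥ x) (B d *ᵥ y) = toE E (cyc (d : AbsGal K)) * bil b x y := by
    intro d x y
    unfold bil
    rw [← vecMul_transpose, ← dotProduct_mulVec, mulVec_mulVec, mulVec_mulVec,
      hdual, smul_mulVec, dotProduct_smul, smul_eq_mul]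
  have hL : ∀ x ∈ fLoc P A, Parity.IsCocycle A x := fun x hx => hx.1
  rw [sub_perp (basis_K K) (stabD_closed P) hT.char hA hB hL, fLoc_eq hP h2 hT hτ hA,
    fLoc_eq hP h2 hT hτ hB]
  constructor
  · rintro ⟨h3, h4⟩
    exact ⟨h3, (f_perp hT hsA hsB hd hb h3).1 fun x hx hxτ => h4 x ⟨hx, hxτ⟩⟩
  · rintro ⟨h3, h4⟩
    exact ⟨h3, fun x hx => (f_perp hT hsA hsB hd hb h3).2 h4 x hx.1 hx.2⟩

end loc

section main

variable {K : Type u} [Field K] [NumberField K] {E : Type w} [NormedField E]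
  [NormedAlgebra ℚ_[2] E] [FiniteDimensional ℚ_[2] E] {n : ℕ}
  {D : ℕ} {s : K} {c : AlgebraicClosure K ≃+* AlgebraicClosure K}
  {κ : AbsGal K →* AbsGal K} {T : Finset ℕ} {P : ℕ → Ideal (𝓞 (AlgebraicClosure K))}
  {ρ : AbsGal K →* Matrix (Fin n) (Fin n) E} {b : Matrix (Fin n) (Fin n) E}

/-- the local conditions: `L` at 2, and the condition of Bloch and Kato at `T` -/
def bkL (T : Finset ℕ) (P : ℕ → Ideal (𝓞 (AlgebraicClosure K)))
    (ρ : AbsGal K → Matrix (Fin n) (Fin n) E) (L : Submodule E (stabD (P 2) → Fin n → E)) :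
    ∀ w : Option T, Submodule E (stabD (PP P w) → Fin n → E)
  | none => L
  | some l => fLoc (P l) (fun σ => ρ σ)

theorem inertia_le_stabD (Q : Ideal (𝓞 (AlgebraicClosure K))) :
    Q.inertia (AbsGal K) ≤ stabD Q := by
  intro d hd y
  have h5 : d • y - y ∈ Q := hd y
  constructor
  · intro hy
    have h6 := Q.add_mem h5 hy
    rwa [sub_add_cancel] at h6
  · intro hy
    have h6 := Q.sub_mem hy h5
    rwa [sub_sub_cancel] at h6

/-- the conjugate of an inertia group is an inertia group -/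
theorem kap_inertia (hc : ∀ x, c (c x) = x)
    (hκ : ∀ (σ : AbsGal K) (x : AlgebraicClosure K), κ σ x = c (σ (c x)))
    (Q : Ideal (𝓞 (AlgebraicClosure K))) (hQ : Q.IsPrime)
    (h2 : (2 : 𝓞 (AlgebraicClosure K)) ∉ Q) :
    ∃ Q' : Ideal (𝓞 (AlgebraicClosure K)), Q'.IsPrime ∧ (2 : 𝓞 (AlgebraicClosure K)) ∉ Q' ∧
      ∀ σ ∈ Q.inertia (AbsGal K), κ σ ∈ Q'.inertia (AbsGal K) := by
  let C : 𝓞 (AlgebraicClosure K) ≃+* 𝓞 (AlgebraicClosure K) := RingOfIntegers.mapRingEquiv c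
  refine ⟨Q.comap (C : 𝓞 (AlgebraicClosure K) →+* 𝓞 (AlgebraicClosure K)),
    Ideal.comap_isPrime _ _, fun h => ?_, fun σ hσ x => ?_⟩
  · apply h2
    have h5 : (C : 𝓞 (AlgebraicClosure K) →+* 𝓞 (AlgebraicClosure K)) 2 ∈ Q := h
    rwa [map_ofNat] at h5
  · show C (κ σ • x - x) ∈ Q
    have h5 : C (κ σ • x) = σ • C x := by
      apply RingOfIntegers.ext
      show c (κ σ _) = σ (c _)
      rw [hκ, hc]
      rfl
    rw [map_sub, h5]
    exact hσ (C x)

private def Cnd' (κ : AbsGal K → AbsGal K) (ρ : AbsGal K → Matrix (Fin n) (Fin n) E)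
    (b : Matrix (Fin n) (Fin n) E) (x : AbsGal K → Fin n → E) (D : Subgroup (AbsGal K))
    (M : Submodule E (D → Fin n → E)) : Prop :=
  (fun σ : D => x σ) ∈ M ∧ Parity.IsPerp (fun σ : D => Parity.cyclo E (σ : AbsGal K))
    (fun σ : D => ρ (κ σ)) b (M : Set (D → Fin n → E)) (fun σ : D => x (κ σ))

theorem selBK_eq (hK : IsQ K D s) (hc : PA.IsConj s c)
    (hκ : ∀ (σ : AbsGal K) (x : AlgebraicClosure K), κ σ x = c (σ (c x)))
    (hP : IsP T P) (hT : TameP T P)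
    (hρ : Parity.IsConjDual (inT K T) (Parity.cyclo E) κ ρ b) (hb : b.det ≠ 0)
    (L : Submodule E (stabD (P 2) → Fin n → E)) :
    Parity.selmerBK (Parity.inertiaOffTwo K) (Parity.cyclo E) κ ρ b (stabD (P 2)) L =
      Parity.selmerF (inT K T) (Parity.cyclo E) κ ρ b (fun w : Option T => stabD (PP P w))
        (bkL T P ρ L) := by
  have hκc : Continuous κ := PA.kappa_continuous hc.sq hκ
  have hκκ : ∀ g, κ (κ g) = g := by
    intro g
    ext x
    rw [hκ, hκ, hc.sq, hc.sq]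
  have hperp : ∀ l ∈ T, ∀ y : stabD (P l) → Fin n → E,
      Parity.IsPerp (fun d : stabD (P l) => Parity.cyclo E (d : AbsGal K)) (fun d => ρ (κ d)) b
        (fLoc (P l) (fun σ => ρ σ) : Set (stabD (P l) → Fin n → E)) y ↔
      y ∈ fLoc (P l) (fun σ => ρ (κ σ)) := by
    intro l hl y
    obtain ⟨a, σ, τ, hτ, htm⟩ := hT l hl
    exact perp_fLoc (hP.isPrime l (Or.inl hl)) (two_notMem hP hl) htm hτ (proRep_rho hρ _)
      (proRep_kap hκc hρ _) hb (fun d => hρ.dual d)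
  ext x
  constructor
  · rintro ⟨h1, h2, h3, h4⟩
    refine ⟨h1, ?_, ?_⟩
    · rintro σ ⟨Q, hQ, hQ2, hQT, hσ⟩
      obtain ⟨v, hv⟩ := h2 _ ⟨Q, hQ, hQ2, rfl⟩
      have h5 : x σ = ρ σ *ᵥ v - v := hv σ hσ
      rw [h5, hρ.unram σ ⟨Q, hQ, hQ2, hQT, hσ⟩, one_mulVec, sub_self]
    · rintro (_ | l)
      · exact ⟨h3, h4⟩
      · show Cnd' κ ρ b x (stabD (P l)) (fLoc (P l) (fun σ => ρ σ))
        have hQ := hP.isPrime l (Or.inl l.2)
        have hQ2 := two_notMem hP l.2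
        refine ⟨⟨⟨h1.1.comp continuous_subtype_val, fun s t => h1.2 s t⟩, ?_⟩, ?_⟩
        · obtain ⟨v, hv⟩ := h2 _ ⟨P l, hQ, hQ2, rfl⟩
          exact ⟨v, fun d hd => hv d hd⟩
        · refine (hperp l l.2 _).2 ⟨⟨h1.1.comp (hκc.comp continuous_subtype_val),
            fun s t => ?_⟩, ?_⟩
          · show x (κ (s * t : stabD (P l))) = _
            rw [Subgroup.coe_mul, map_mul, h1.2]
          · obtain ⟨Q', hQ', hQ2', hQQ⟩ := kap_inertia hc.sq hκ (P l) hQ hQ2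
            obtain ⟨v, hv⟩ := h2 _ ⟨Q', hQ', hQ2', rfl⟩
            exact ⟨v, fun d hd => hv (κ d) (hQQ d hd)⟩
  · rintro ⟨h1, h2, h3⟩
    refine ⟨h1, ?_, (h3 none).1, (h3 none).2⟩
    rintro _ ⟨Q, hQ, hQ2, rfl⟩
    by_cases h4 : ∀ l ∈ T, (l : 𝓞 (AlgebraicClosure K)) ∉ Q
    · refine ⟨0, fun σ hσ => ?_⟩
      rw [mulVec_zero, sub_zero]
      exact h2 σ ⟨Q, hQ, hQ2, h4, hσ⟩
    · push Not at h4
      obtain ⟨l, hl, hlQ⟩ := h4
      obtain ⟨g, hg⟩ := above_k hK (hP.prime l hl) hc hκ (hP.isPrime l (Or.inl hl))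
        (hP.mem l (Or.inl hl)) hQ hlQ
      have h5 : Cnd' κ ρ b x (stabD (P l)) (fLoc (P l) (fun σ => ρ σ)) := h3 (some ⟨l, hl⟩)
      obtain ⟨⟨-, v, hv⟩, h6⟩ := h5
      obtain ⟨-, v', hv'⟩ := (hperp l hl _).1 h6
      -- the restriction to the conjugate group
      obtain ⟨v₀, hv₀⟩ : ∃ v₀, ∀ σ ∈ Q.inertia (AbsGal K),
          x (g⁻¹ * σ * g) = ρ (g⁻¹ * σ * g) *ᵥ v₀ - v₀ := by
        rcases hg with ⟨-, hg⟩ | ⟨-, hg⟩
        · refine ⟨v, fun σ hσ => ?_⟩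
          have h7 := (hg σ).1 hσ
          exact hv ⟨_, inertia_le_stabD _ h7⟩ h7
        · refine ⟨v', fun σ hσ => ?_⟩
          have h7 := (hg σ).1 hσ
          have h8 := hv' ⟨_, inertia_le_stabD _ h7⟩ h7
          simp only [hκκ] at h8
          exact h8
      refine ⟨ρ g *ᵥ v₀ - x g, fun σ hσ => ?_⟩
      have hx1 : x 1 = 0 := by
        have h := h1.2 1 1
        rw [mul_one, map_one, one_mulVec] at h
        exact left_eq_add.1 h
      have hxi : ρ g *ᵥ x g⁻¹ = -x g := by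
        have h8 := h1.2 g g⁻¹
        rw [mul_inv_cancel, hx1] at h8
        rw [eq_neg_iff_add_eq_zero, add_comm]
        exact h8.symm
      have h7 : σ = g * (g⁻¹ * σ * g) * g⁻¹ := by group
      have h8 : ρ σ = ρ g * ρ (g⁻¹ * σ * g) * ρ g⁻¹ := by
        rw [← map_mul, ← map_mul, ← h7]
      have hgi : ρ g⁻¹ * ρ g = 1 := by rw [← map_mul, inv_mul_cancel, map_one]
      have hgi' : ρ g * ρ g⁻¹ = 1 := by rw [← map_mul, mul_inv_cancel, map_one]
      have h9 : x σ = x g + ρ g *ᵥ x (g⁻¹ * σ * g) +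
          (ρ g * ρ (g⁻¹ * σ * g)) *ᵥ x g⁻¹ := by
        conv_lhs => rw [h7]
        rw [h1.2, h1.2, map_mul]
      have h10 : x g⁻¹ = -(ρ g⁻¹ *ᵥ x g) := by
        have : ρ g⁻¹ *ᵥ (ρ g *ᵥ x g⁻¹) = x g⁻¹ := by rw [mulVec_mulVec, hgi, one_mulVec]
        rw [← this, hxi, mulVec_neg]
      rw [h9, hv₀ σ hσ, h10, h8, mulVec_sub, mulVec_sub, mulVec_neg]
      simp only [mulVec_mulVec, Matrix.mul_assoc, hgi, mul_one]
      abel

theorem bk_K (hK : IsQ K D s) (hc : PA.IsConj s c)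
    (hκ : ∀ (σ : AbsGal K) (x : AlgebraicClosure K), κ σ x = c (σ (c x)))
    (hT : ∀ l ∈ T, Spl D l) (hP : IsP T P)
    (hρ : Parity.IsConjDual (inT K T) (Parity.cyclo E) κ ρ b) (hb : b.det ≠ 0) :
    Parity.ParityBK (Parity.inertiaOffTwo K) (Parity.cyclo E) κ ρ b (stabD (P 2))
      (D.Prime ∧ D % 16 = 7 ∧ ∀ Q : Ideal (𝓞 (AlgebraicClosure K)), Q.IsPrime →
        (∃ l ∈ T, (l : 𝓞 (AlgebraicClosure K)) ∈ Q) → TwistAt ρ Q) := by
  have htm : TameP T P := by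
    obtain ⟨inv, θ, φ, m, v, H⟩ := exists_kdata hK hc hκ hT hP
    intro l hl
    obtain ⟨a, u, σ, τ, -, hτ, h, -⟩ := H.tame ⟨l, hl⟩
    exact ⟨a, σ, τ, hτ, h⟩
  have hPP : ∀ l, l ∈ T ∨ l = 2 → (P l).IsPrime ∧ (l : 𝓞 (AlgebraicClosure K)) ∈ P l :=
    fun l hl => ⟨hP.isPrime l hl, hP.mem l hl⟩
  have hboth := both_K K D s hK c hc.sq hc.neg κ hκ T hT P hPP E n ρ b hb hρ
  intro L hL
  have hL' : ∀ w : Option T, Parity.Between
      (Parity.coboundaries (fun σ : stabD (PP P w) => ρ σ)) (bkL T P ρ L w)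
      (Parity.cocycles (fun σ : stabD (PP P w) => ρ σ)) := by
    rintro (_ | l)
    · exact hL
    · exact ⟨cob_le_fLoc (proRep_rho hρ _), fun x hx => hx.1⟩
  obtain ⟨h1, h2, h3, h4, h5⟩ := hboth (bkL T P ρ L) hL'
  rw [← selBK_eq hK hc hκ hP htm hρ hb L] at h2 h3 h4 h5
  refine ⟨h1 none, h2, h3, ?_, h5⟩
  rw [Fintype.sum_option] at h4
  obtain ⟨m, hm⟩ : Even (∑ l : T, (Parity.dimModulo (bkL T P ρ L (some l))
      (Parity.coboundaries (fun σ : stabD (PP P (some l)) => ρ σ)) +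
      Module.finrank E (Parity.fixedBy (fun σ : stabD (PP P (some l)) => ρ σ)))) := by
    refine Finset.even_sum _ fun l _ => ?_
    obtain ⟨a, σ, τ, hτ, h⟩ := htm l l.2
    exact even_fLoc (hP.isPrime l (Or.inl l.2)) (two_notMem hP l.2) h hτ (proRep_rho hρ _)
  rw [hm] at h4
  have h6 : Even (Parity.dimModulo (Parity.selmerBK (Parity.inertiaOffTwo K) (Parity.cyclo E) κ ρ b (stabD (P 2)) L)
      (Parity.coboundaries ρ) + Module.finrank E (Parity.fixedBy (fun σ : AbsGal K => ρ σ)) +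
      (Parity.dimModulo L (Parity.coboundaries (fun σ : stabD (P 2) => ρ σ)) +
        Module.finrank E (Parity.fixedBy (fun σ : stabD (P 2) => ρ σ)) + (m + m))) := h4
  rw [Nat.ModEq]
  rw [Nat.even_iff] at h6
  omega

end main

theorem bk_final (K : Type u) [Field K] [NumberField K] (hK : Module.finrank ℚ K = 2) (D : ℕ)
    (hD : Squarefree D) (hD8 : D % 8 = 7) (s : K) (hs : s ^ 2 = -(D : K))
    (P : Ideal (𝓞 (AlgebraicClosure K))) (hP : P.IsPrime)
    (hP2 : (2 : 𝓞 (AlgebraicClosure K)) ∈ P)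
    (c : AlgebraicClosure K ≃+* AlgebraicClosure K) (hc : ∀ x, c (c x) = x)
    (hcs : c (algebraMap K (AlgebraicClosure K) s) = -algebraMap K (AlgebraicClosure K) s)
    (κ : AbsGal K → AbsGal K)
    (hκ : ∀ (σ : AbsGal K) (x : AlgebraicClosure K), κ σ x = c (σ (c x)))
    (T : Finset ℕ) (hT : ∀ l ∈ T, l.Prime ∧ l ≠ 2 ∧ ¬ l ∣ D ∧ ∃ A : ℤ, (l : ℤ) ∣ A ^ 2 + D)
    (E : Type w) [NormedField E] [NormedAlgebra ℚ_[2] E] [FiniteDimensional ℚ_[2] E] (n : ℕ)
    (ρ : AbsGal K →* Matrix (Fin n) (Fin n) E) (b : Matrix (Fin n) (Fin n) E) (hb : b.det ≠ 0)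
    (hρ : Parity.IsConjDual (inT K T) (Parity.cyclo E) κ ρ b) :
    Parity.ParityBK (Parity.inertiaOffTwo K) (Parity.cyclo E) κ ρ b (stabD P)
      (D.Prime ∧ D % 16 = 7 ∧ ∀ Q : Ideal (𝓞 (AlgebraicClosure K)), Q.IsPrime →
        (∃ l ∈ T, (l : 𝓞 (AlgebraicClosure K)) ∈ Q) → TwistAt ρ Q) := by
  classical
  have hR : ∀ p : ℕ, ∃ Q : Ideal (𝓞 (AlgebraicClosure K)), p.Prime →
      Q.IsPrime ∧ (p : 𝓞 (AlgebraicClosure K)) ∈ Q := by
    intro p
    by_cases hp : p.Prime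
    · obtain ⟨Q, hQ⟩ := prime_over_nat (Ω := AlgebraicClosure K) hp
      exact ⟨Q, fun _ => hQ⟩
    · exact ⟨⊥, fun h => absurd h hp⟩
  choose R hR using hR
  let P' : ℕ → Ideal (𝓞 (AlgebraicClosure K)) := fun l => if l = 2 then P else R l
  have h2 : P' 2 = P := if_pos rfl
  have hout : ∀ l, l ≠ 2 → P' l = R l := fun l hl => if_neg hl
  have hIsP : IsP T P' := by
    refine ⟨fun l hl => (hT l hl).1, fun l hl => (hT l hl).2.1, fun l hl => ?_, fun l hl => ?_⟩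
    · by_cases h : l = 2
      · subst h
        rw [h2]
        exact hP
      · rw [hout l h]
        exact (hR l (hT l (hl.resolve_right h)).1).1
    · by_cases h : l = 2
      · subst h
        rw [h2]
        exact_mod_cast hP2
      · rw [hout l h]
        exact (hR l (hT l (hl.resolve_right h)).1).2
  let κ' : AbsGal K →* AbsGal K := MonoidHom.mk' κ fun g h => by
    ext x
    rw [hκ, AlgEquiv.mul_apply, AlgEquiv.mul_apply, hκ, hκ, hc]
  have h := bk_K (κ := κ') (T := T) (P := P') ⟨hK, hs, hD, hD8⟩ ⟨hc, hcs⟩ hκ hT hIsP hρ hb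
  rw [h2] at h
  exact h

end Pool.Agent.Work.MP_787500_nt.HP
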