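import Mathlib
import Pool.Agent.Work.MP_787500_nt.HP.Main
import Pool.Agent.Work.MP_787500_nt.HP.DecB
import Pool.Agent.Work.MP_787500_nt.GP.A3_Both

/-!
The final statement: the parity formula for the decomposition groups of primes over 2 and `T`, and the
upper bound if the field has prime discriminant congruent to `-7` modulo 16.
-/

set_option autoImplicit false
set_option linter.unusedSectionVars false

namespace Pool.Agent.Work.MP_787500_nt.HP

open IsDedekindDomain NumberField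
open Pool.Agent.Work.MP_787500_nt.PA (TwoSys Sm1 Sm2 homs Coc Cob IsChar cyc Opn toE)
open Pool.Agent.Work.MP_787500_nt.GP
open Pool.Agent.Work.MP_787500_nt.Parity

universe u w

theorem heegner (K : Type u) [Field K] [NumberField K] (hK : Module.finrank ℚ K = 2) (D : ℕ)
    (hD : Squarefree D) (hD8 : D % 8 = 7) (s : K) (hs : s ^ 2 = -(D : K))
    (c : AlgebraicClosure K ≃+* AlgebraicClosure K) (hc : ∀ x, c (c x) = x)
    (hcs : c (algebraMap K (AlgebraicClosure K) s) = -algebraMap K (AlgebraicClosure K) s)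
    (κ : AbsGal K → AbsGal K)
    (hκ : ∀ (σ : AbsGal K) (x : AlgebraicClosure K), κ σ x = c (σ (c x)))
    (T : Finset ℕ) (hT : ∀ l ∈ T, l.Prime ∧ l ≠ 2 ∧ ¬ l ∣ D ∧ ∃ A : ℤ, (l : ℤ) ∣ A ^ 2 + D)
    (P : Option T → Ideal (𝓞 (AlgebraicClosure K))) (hP : ∀ w, (P w).IsPrime)
    (hP2 : (2 : 𝓞 (AlgebraicClosure K)) ∈ P none)
    (hPT : ∀ l : T, ((l : ℕ) : 𝓞 (AlgebraicClosure K)) ∈ P (some l))
    (E : Type w) [NormedField E] [NormedAlgebra ℚ_[2] E] [FiniteDimensional ℚ_[2] E] (n : ℕ)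
    (ρ : AbsGal K →* Matrix (Fin n) (Fin n) E) (b : Matrix (Fin n) (Fin n) E)
    (hb : (T = ∅ ∧ D.Prime ∧ D % 16 = 7) ∨ b.det ≠ 0)
    (hρ : IsConjDual (inT K T) (cyclo E) κ ρ b) :
    ParityAndBound (inT K T) (cyclo E) κ ρ b (fun w => stabD (P w)) none
      (D.Prime ∧ D % 16 = 7 ∧ ∀ Q : Ideal (𝓞 (AlgebraicClosure K)), Q.IsPrime →
        (∃ l ∈ T, (l : 𝓞 (AlgebraicClosure K)) ∈ Q) → TwistAt ρ Q) := by
  classical
  -- the primes, indexed by numbers
  obtain ⟨P', hP'⟩ : ∃ P' : ℕ → Ideal (𝓞 (AlgebraicClosure K)), P' = fun l =>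
      if h : l ∈ T then P (some ⟨l, h⟩) else P none := ⟨_, rfl⟩
  have h2T : 2 ∉ T := fun h => (hT 2 h).2.1 rfl
  have hin : ∀ l : T, P' l = P (some l) := by
    intro l
    rw [hP']
    exact dif_pos l.2
  have hout : P' 2 = P none := by
    rw [hP']
    exact dif_neg h2T
  have hPP : (PP P' : Option T → _) = P := by
    funext w
    cases w with
    | none => exact hout
    | some l => exact hin l
  have hIsP : IsP T P' := by
    refine ⟨fun l hl => (hT l hl).1, fun l hl => (hT l hl).2.1, ?_, ?_⟩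
    · rintro l (hl | rfl)
      · rw [hin ⟨l, hl⟩]
        exact hP _
      · rw [hout]
        exact hP _
    · rintro l (hl | rfl)
      · rw [hin ⟨l, hl⟩]
        exact hPT ⟨l, hl⟩
      · rw [hout, Nat.cast_ofNat]
        exact hP2
  -- the case of prime discriminant
  have hboth : D.Prime → D % 16 = 7 → ParityAndBound (inT K T) (cyclo E) κ ρ b
      (fun w : Option T => stabD (P w)) none
      (∀ Q : Ideal (𝓞 (AlgebraicClosure K)), Q.IsPrime →
        (∃ l ∈ T, (l : 𝓞 (AlgebraicClosure K)) ∈ Q) → TwistAt ρ Q) := by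
    intro hDp hD16
    obtain ⟨v, ι, hv, hdec⟩ := exists_dec (hP none) Nat.prime_two
      (by rw [Nat.cast_ofNat]; exact hP2)
    rw [Nat.cast_ofNat] at hv
    have hDD : (fun w : Option T => stabD (P w)) = DD ι (T := T) P' := by
      funext w
      cases w with
      | none => exact hdec.symm
      | some l =>
        show stabD (P (some l)) = stabD (P' l)
        rw [hin]
    rw [hDD]
    refine both K D s ⟨hK, hs, hDp, hD16⟩ v hv ι c hc hcs κ hκ T ?_ P' ?_ E n ρ b ?_ hρ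
    · intro l hl
      obtain ⟨h1, h2, h3, h4⟩ := hT l hl
      exact ⟨h1, h2, fun h => h3 (h ▸ dvd_rfl), h4⟩
    · exact fun l hl => ⟨hIsP.isPrime l (Or.inl hl), hIsP.mem l (Or.inl hl)⟩
    · exact hb.imp (fun h => h.1) id
  rcases hb with ⟨-, hDp, hD16⟩ | hb
  · intro L hL
    obtain ⟨h1, h2, h3, h4, h5⟩ := hboth hDp hD16 L hL
    exact ⟨h1, h2, h3, h4, fun h => h5 h.2.2⟩
  · have hpar := parity_K (K := K) ⟨hK, hs, hD, hD8⟩ ⟨hc, hcs⟩ hκ hT hIsP hb hρ
    rw [hPP] at hpar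
    intro L hL
    obtain ⟨h1, h2, h3, h4⟩ := hpar L hL
    refine ⟨h1, h2, h3, h4, fun h => ?_⟩
    exact (hboth h.1 h.2.1 L hL).2.2.2.2 h.2.2

end Pool.Agent.Work.MP_787500_nt.HP
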